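import Pool.Agent.Lib.P56acde.Defs

/-! Auxiliary facts for the modules CTInt and CTEnd: holomorphic dependence of integrals on a
parameter, splitting of the Cauchy transform. -/

open Polynomial Set Filter Topology MeasureTheory Metric

namespace P56acde

/-- Holomorphic dependence on a parameter. -/
theorem diff_param' {α : Type*} [MeasurableSpace α] {μ : Measure α} [IsFiniteMeasure μ]
    {F : ℂ → α → ℂ} {z₀ : ℂ} {R C : ℝ}
    (hR : 0 < R) (hmeas : ∀ z ∈ ball z₀ R, AEStronglyMeasurable (F z) μ)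
    (hdiff : ∀ᵐ ζ ∂μ, DifferentiableOn ℂ (fun z => F z ζ) (ball z₀ R))
    (hbd : ∀ᵐ ζ ∂μ, ∀ z ∈ ball z₀ R, ‖F z ζ‖ ≤ C) :
    DifferentiableAt ℂ (fun z => ∫ ζ, F z ζ ∂μ) z₀ := by
  have hz₀ : z₀ ∈ ball z₀ R := mem_ball_self hR
  have hder : ∀ᵐ ζ ∂μ, ∀ z ∈ ball z₀ (R / 2),
      HasDerivAt (fun z => F z ζ) (deriv (fun z => F z ζ) z) z := by
    filter_upwards [hdiff] with ζ hζ z hz
    have hz' : z ∈ ball z₀ R := ball_subset_ball (by linarith) hz
    exact (hζ.differentiableAt (isOpen_ball.mem_nhds hz')).hasDerivAt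
  have hbound : ∀ᵐ ζ ∂μ, ∀ z ∈ ball z₀ (R / 2), ‖deriv (fun z => F z ζ) z‖ ≤ C / (R / 4) := by
    filter_upwards [hdiff, hbd] with ζ h1 h2 z hz
    have hsub : closedBall z (R / 4) ⊆ ball z₀ R := by
      intro w hw
      have h3 : dist w z ≤ R / 4 := by simpa using hw
      have h4 : dist z z₀ < R / 2 := by simpa using hz
      have h5 := dist_triangle w z z₀
      simp only [mem_ball]
      linarith
    apply Complex.norm_deriv_le_of_forall_mem_sphere_norm_le (by positivity)
    · apply DifferentiableOn.diffContOnCl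
      rw [closure_ball z (by positivity)]
      exact h1.mono hsub
    · intro w hw
      exact h2 w (hsub (sphere_subset_closedBall hw))
  refine (hasDerivAt_integral_of_dominated_loc_of_deriv_le (bound := fun _ => C / (R / 4))
    (F' := fun z ζ => deriv (fun z => F z ζ) z) (s := ball z₀ (R / 2))
    (ball_mem_nhds z₀ (by positivity)) ?_ ?_ ?_ hbound (integrable_const _) hder).2.differentiableAt
  · filter_upwards [ball_mem_nhds z₀ hR] with z hz
    exact hmeas z hz
  · refine Integrable.mono' (integrable_const C) (hmeas z₀ hz₀) ?_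
    filter_upwards [hbd] with ζ h1
    exact h1 z₀ hz₀
  · -- measurability of the derivative as a limit of difference quotients
    set u : ℕ → ℂ := fun n => z₀ + ((R / 2 / (n + 1) : ℝ) : ℂ) with hu
    have hupos : ∀ n : ℕ, 0 < R / 2 / ((n : ℝ) + 1) := fun n => by positivity
    have hult : ∀ n : ℕ, R / 2 / ((n : ℝ) + 1) < R := by
      intro n
      have h1 : R / 2 / ((n : ℝ) + 1) ≤ R / 2 := by
        apply div_le_self (by positivity)
        have : (0 : ℝ) ≤ n := Nat.cast_nonneg n
        linarith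
      linarith
    have humem : ∀ n, u n ∈ ball z₀ R := by
      intro n
      simp only [hu, mem_ball, dist_eq_norm, add_sub_cancel_left, Complex.norm_real,
        Real.norm_of_nonneg (hupos n).le]
      exact hult n
    have hune : ∀ n, u n ≠ z₀ := by
      intro n h
      have h1 : ((R / 2 / (n + 1) : ℝ) : ℂ) = 0 := by
        simpa [hu] using h
      exact (hupos n).ne' (by exact_mod_cast h1)
    have hulim : Tendsto u atTop (𝓝[≠] z₀) := by
      rw [tendsto_nhdsWithin_iff]
      refine ⟨?_, Eventually.of_forall hune⟩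
      have h1 : Tendsto (fun n : ℕ => (R / 2 / ((n : ℝ) + 1) : ℝ)) atTop (𝓝 0) := by
        apply Tendsto.const_div_atTop
        exact tendsto_atTop_add_const_right _ _ tendsto_natCast_atTop_atTop
      have h2 : Tendsto (fun n : ℕ => z₀ + ((R / 2 / ((n : ℝ) + 1) : ℝ) : ℂ)) atTop
          (𝓝 (z₀ + ((0 : ℝ) : ℂ))) :=
        tendsto_const_nhds.add ((Complex.continuous_ofReal.tendsto 0).comp h1)
      simpa [hu] using h2
    refine aestronglyMeasurable_of_tendsto_ae atTop
      (f := fun n ζ => (u n - z₀)⁻¹ • (F (u n) ζ - F z₀ ζ)) (fun n => ?_) ?_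
    · exact ((hmeas _ (humem n)).sub (hmeas _ hz₀)).const_smul ((u n - z₀)⁻¹)
    · filter_upwards [hder] with ζ h1
      have h2 := (h1 z₀ (mem_ball_self (by positivity))).tendsto_slope
      have h3 := h2.comp hulim
      refine h3.congr fun n => ?_
      simp [slope, Function.comp]

/-- Interval integrals depend analytically on a parameter. -/
theorem int_param {c d : ℝ} (hcd : c ≤ d) {F : ℂ → ℝ → ℂ} {z₀ : ℂ} {R C : ℝ} (hR : 0 < R)
    (hcont : ∀ z ∈ ball z₀ R, ContinuousOn (F z) (Icc c d))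
    (hdiff : ∀ u ∈ Icc c d, DifferentiableOn ℂ (fun z => F z u) (ball z₀ R))
    (hbd : ∀ u ∈ Icc c d, ∀ z ∈ ball z₀ R, ‖F z u‖ ≤ C) :
    AnalyticAt ℂ (fun z => ∫ u in c..d, F z u) z₀ := by
  have h1 : DifferentiableOn ℂ (fun z => ∫ u in c..d, F z u) (ball z₀ R) := by
    intro z hz
    apply DifferentiableAt.differentiableWithinAt
    have hfin : IsFiniteMeasure ((volume : Measure ℝ).restrict (Ioc c d)) := by
      constructor
      rw [Measure.restrict_apply_univ, Real.volume_Ioc]
      exact ENNReal.ofReal_lt_top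
    have hsub : ball z (R - dist z z₀) ⊆ ball z₀ R := by
      apply ball_subset_ball'
      linarith
    have h2 : DifferentiableAt ℂ (fun z => ∫ u, F z u ∂((volume : Measure ℝ).restrict (Ioc c d)))
        z := by
      refine diff_param' (R := R - dist z z₀) (C := C) (sub_pos.2 (mem_ball.1 hz)) ?_ ?_ ?_
      · intro w hw
        exact ((hcont w (hsub hw)).mono Ioc_subset_Icc_self).aestronglyMeasurable measurableSet_Ioc
      · refine (ae_restrict_iff' measurableSet_Ioc).2 (Eventually.of_forall fun u hu => ?_)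
        exact (hdiff u (Ioc_subset_Icc_self hu)).mono hsub
      · refine (ae_restrict_iff' measurableSet_Ioc).2 (Eventually.of_forall fun u hu => ?_)
        exact fun w hw => hbd u (Ioc_subset_Icc_self hu) w (hsub hw)
    simpa only [intervalIntegral.integral_of_le hcd] using h2
  exact h1.analyticAt (ball_mem_nhds z₀ hR)

/-- The part of the Cauchy transform away from the point. -/
theorem far_part {c d : ℝ} (hcd : c ≤ d) {B : ℝ → ℝ} (hB : ContinuousOn B (Icc c d)) {τ δ : ℝ}
    (hδ : 0 < δ) (hfar : ∀ u ∈ Icc c d, δ ≤ |u - τ|) :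
    AnalyticAt ℂ (fun z : ℂ => ∫ u in c..d, (B u : ℂ) / ((u : ℂ) - z)) (τ : ℂ) := by
  obtain ⟨M, hM⟩ : ∃ M, ∀ u ∈ Icc c d, ‖(B u : ℂ)‖ ≤ M := by
    have := isCompact_Icc.exists_bound_of_continuousOn hB
    obtain ⟨M, hM⟩ := this
    exact ⟨M, fun u hu => by rw [Complex.norm_real]; exact hM u hu⟩
  have hne : ∀ u ∈ Icc c d, ∀ z ∈ ball (τ : ℂ) (δ / 2), δ / 2 ≤ ‖(u : ℂ) - z‖ := by
    intro u hu z hz
    have h1 := hfar u hu
    have h2 : ‖(u : ℂ) - τ‖ = |u - τ| := by
      rw [← Complex.ofReal_sub, Complex.norm_real, Real.norm_eq_abs]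
    have h3 : ‖z - τ‖ < δ / 2 := by simpa [dist_eq_norm] using hz
    have h4 : ‖(u : ℂ) - τ‖ ≤ ‖(u : ℂ) - z‖ + ‖z - τ‖ := by
      have := norm_add_le ((u : ℂ) - z) (z - τ)
      simpa using this
    linarith
  refine int_param hcd (R := δ / 2) (C := M / (δ / 2)) (by positivity) ?_ ?_ ?_
  · intro z hz
    refine ContinuousOn.div ?_ ?_ ?_
    · exact Complex.continuous_ofReal.comp_continuousOn hB
    · fun_prop
    · intro u hu h
      have := hne u hu z hz
      rw [h, norm_zero] at this
      linarith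
  · intro u hu
    refine DifferentiableOn.div (differentiableOn_const _) (by fun_prop) ?_
    intro z hz h
    have := hne u hu z hz
    rw [h, norm_zero] at this
    linarith
  · intro u hu z hz
    rw [norm_div]
    have h1 := hne u hu z hz
    have h2 := hM u hu
    have h3 : 0 ≤ M := (norm_nonneg _).trans h2
    gcongr

/-- symmetry of the difference quotient -/
theorem dslope_comm' (f : ℂ → ℂ) (u z : ℂ) : dslope f u z = dslope f z u := by
  by_cases h : u = z
  · rw [h]
  · rw [dslope_of_ne _ (Ne.symm h), dslope_of_ne _ h, slope_comm]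

/-- The difference quotient part. -/
theorem dslope_part {c d τ ρ : ℝ} (hcd : c ≤ d) (hρ : 0 < ρ) (hc : τ - ρ / 2 ≤ c)
    (hd : d ≤ τ + ρ / 2) {W : ℂ → ℂ} (hW : DifferentiableOn ℂ W (ball (τ : ℂ) ρ)) :
    AnalyticAt ℂ (fun z : ℂ => ∫ u in c..d, dslope W (u : ℂ) z) (τ : ℂ) := by
  have hmem : ∀ u ∈ Icc c d, (u : ℂ) ∈ closedBall (τ : ℂ) (ρ / 2) := by
    intro u hu
    rw [mem_closedBall, dist_eq_norm, ← Complex.ofReal_sub, Complex.norm_real, Real.norm_eq_abs,
      abs_le]
    constructor <;> linarith [hu.1, hu.2]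
  have hsub : closedBall (τ : ℂ) (ρ / 2) ⊆ ball (τ : ℂ) ρ :=
    closedBall_subset_ball (by linarith)
  have hdiffat : ∀ z ∈ ball (τ : ℂ) ρ, DifferentiableAt ℂ W z := fun z hz =>
    hW.differentiableAt (isOpen_ball.mem_nhds hz)
  obtain ⟨M, hM⟩ : ∃ M, ∀ z ∈ closedBall (τ : ℂ) (ρ / 2), ‖deriv W z‖ ≤ M := by
    apply (isCompact_closedBall _ _).exists_bound_of_continuousOn
    exact (hW.deriv isOpen_ball).continuousOn.mono hsub
  refine int_param hcd (R := ρ / 2) (C := M) (by positivity) ?_ ?_ ?_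
  · intro z hz
    have hz' : z ∈ ball (τ : ℂ) ρ := ball_subset_ball (by linarith) hz
    have h1 : ContinuousOn (dslope W z) (ball (τ : ℂ) ρ) :=
      (continuousOn_dslope (isOpen_ball.mem_nhds hz')).2 ⟨hW.continuousOn, hdiffat z hz'⟩
    have h2 : ContinuousOn (fun u : ℝ => dslope W z (u : ℂ)) (Icc c d) :=
      h1.comp Complex.continuous_ofReal.continuousOn fun u hu => hsub (hmem u hu)
    refine h2.congr fun u _ => dslope_comm' _ _ _
  · intro u hu
    have hu' := hsub (hmem u hu)
    exact ((Complex.differentiableOn_dslope (isOpen_ball.mem_nhds hu')).2 hW).mono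
      (ball_subset_ball (by linarith))
  · intro u hu z hz
    have hz' : z ∈ closedBall (τ : ℂ) (ρ / 2) := ball_subset_closedBall hz
    by_cases h : z = u
    · rw [h, dslope_same]
      exact hM _ (hmem u hu)
    · rw [dslope_of_ne _ h, slope_def_field, norm_div]
      have h1 : ‖W z - W u‖ ≤ M * ‖z - u‖ :=
        Convex.norm_image_sub_le_of_norm_deriv_le (fun w hw => hdiffat w (hsub hw)) hM
          (convex_closedBall _ _) (hmem u hu) hz'
      rw [div_le_iff₀ (norm_pos_iff.2 (sub_ne_zero.2 h))]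
      exact h1

/-- Splitting of the Cauchy kernel. -/
theorem split_part {c d τ ρ : ℝ} (hcd : c ≤ d) (hρ : 0 < ρ) (hc : τ - ρ / 2 ≤ c)
    (hd : d ≤ τ + ρ / 2) {W : ℂ → ℂ} (hW : DifferentiableOn ℂ W (ball (τ : ℂ) ρ)) {z : ℂ}
    (hz : z ∈ ball (τ : ℂ) ρ) (hslit : ∀ u ∈ Icc c d, z - u ∈ Complex.slitPlane) :
    ∫ u in c..d, W u / ((u : ℂ) - z) =
      (∫ u in c..d, dslope W (u : ℂ) z) + W z * (Complex.log (z - d) - Complex.log (z - c)) := by
  have hne : ∀ u ∈ Icc c d, (u : ℂ) - z ≠ 0 := by
    intro u hu h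
    have h1 := hslit u hu
    have h2 : z - u = 0 := by rw [← neg_sub, h, neg_zero]
    rw [h2] at h1
    exact Complex.zero_notMem_slitPlane h1
  have hmem : ∀ u ∈ Icc c d, (u : ℂ) ∈ ball (τ : ℂ) ρ := by
    intro u hu
    rw [mem_ball, dist_eq_norm, ← Complex.ofReal_sub, Complex.norm_real, Real.norm_eq_abs,
      abs_lt]
    constructor <;> linarith [hu.1, hu.2]
  have hinv : ContinuousOn (fun u : ℝ => ((u : ℂ) - z)⁻¹) (Icc c d) :=
    ContinuousOn.inv₀ (by fun_prop) hne
  have hlog : ∫ u in c..d, ((u : ℂ) - z)⁻¹ = Complex.log (z - d) - Complex.log (z - c) := by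
    have hder : ∀ u ∈ uIcc c d, HasDerivAt (fun u : ℝ => Complex.log (z - u)) (((u : ℂ) - z)⁻¹) u := by
      intro u hu
      rw [uIcc_of_le hcd] at hu
      have h1 : HasDerivAt (fun u : ℝ => z - (u : ℂ)) (-1) u := by
        have := (Complex.ofRealCLM.hasDerivAt (x := u)).const_sub z
        simpa using this
      have h2 := h1.clog_real (hslit u hu)
      convert h2 using 1
      rw [← neg_sub z (u : ℂ), inv_neg]
      rw [neg_div, one_div]
    rw [intervalIntegral.integral_eq_sub_of_hasDerivAt hder]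
    rw [← uIcc_of_le hcd] at hinv
    exact hinv.intervalIntegrable
  have hds : ContinuousOn (fun u : ℝ => dslope W (u : ℂ) z) (Icc c d) := by
    have h1 : ContinuousOn (dslope W z) (ball (τ : ℂ) ρ) :=
      (continuousOn_dslope (isOpen_ball.mem_nhds hz)).2 ⟨hW.continuousOn,
        hW.differentiableAt (isOpen_ball.mem_nhds hz)⟩
    have h2 : ContinuousOn (fun u : ℝ => dslope W z (u : ℂ)) (Icc c d) :=
      h1.comp Complex.continuous_ofReal.continuousOn fun u hu => hmem u hu
    exact h2.congr fun u _ => dslope_comm' _ _ _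
  rw [← hlog, ← intervalIntegral.integral_const_mul, ← intervalIntegral.integral_add]
  · refine intervalIntegral.integral_congr fun u hu => ?_
    rw [uIcc_of_le hcd] at hu
    have h1 := hne u hu
    have h2 : z ≠ u := fun h => h1 (by rw [h, sub_self])
    rw [dslope_of_ne _ h2, slope_def_field]
    have h3 : z - u ≠ 0 := sub_ne_zero.2 h2
    field_simp
    ring
  · rw [← uIcc_of_le hcd] at hds
    exact hds.intervalIntegrable
  · rw [← uIcc_of_le hcd] at hinv
    exact (continuousOn_const.mul hinv).intervalIntegrable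

end P56acde
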