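import Pool.Agent.Lib.P56acde.Defs

/-! MODULE AlgAE (independent): for a.e. direction `w`, `t ↦ cutPlus K w t` is an algebraic function.
The set of `w` for which the polynomial `Φ(w/|w|, ·, ·)` vanishes identically is null: along every line
`s ↦ y + s ξ₀` which misses the origin, `s ↦ Φ((y + s ξ₀)/|y + s ξ₀|, t₀, v₀)` is real analytic and tends to
`Φ(ξ₀, t₀, v₀) ≠ 0`. -/

open Polynomial Set Filter Topology MeasureTheory

namespace P56acde

/-- The polynomial `Φ(ξ, c t, v)` in `t, v`. -/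
noncomputable def fib {n : ℕ} (Φ : MvPolynomial (Fin n ⊕ Fin 2) ℝ) (ξ : E n) (c : ℝ) : ℝ[X][X] :=
  MvPolynomial.aeval (Sum.elim (fun i => C (C (ξ i))) ![C (C c * X), X]) Φ

theorem evalEval_fib {n : ℕ} (Φ : MvPolynomial (Fin n ⊕ Fin 2) ℝ) (ξ : E n) (c t v : ℝ) :
    evalEval t v (fib Φ ξ c) = MvPolynomial.eval (pt ξ (c * t) v) Φ := by
  have h : (evalEvalRingHom t v).comp
      ((MvPolynomial.aeval (R := ℝ) (Sum.elim (fun i => C (C (ξ i))) ![C (C c * X), X]) :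
        MvPolynomial (Fin n ⊕ Fin 2) ℝ →ₐ[ℝ] ℝ[X][X]) : MvPolynomial (Fin n ⊕ Fin 2) ℝ →+* ℝ[X][X])
      = MvPolynomial.eval (pt ξ (c * t) v) := by
    apply MvPolynomial.ringHom_ext
    · intro r
      simp [Polynomial.algebraMap_apply]
    · intro i
      rcases i with i | i
      · simp [pt]
      · fin_cases i <;> simp [pt]
  have := congrArg (fun f : MvPolynomial (Fin n ⊕ Fin 2) ℝ →+* ℝ => f Φ) h
  simpa [fib] using this

theorem cutPlus_smul {n : ℕ} (K : Set (E n)) {w : E n} (hw : w ≠ 0) (t : ℝ) :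
    cutPlus K w t = cutPlus K (‖w‖⁻¹ • w) (‖w‖⁻¹ * t) := by
  have hpos : 0 < ‖w‖⁻¹ := inv_pos.mpr (norm_pos_iff.mpr hw)
  unfold cutPlus
  congr 3
  ext x
  simp only [mem_ofPred_eq, inner_smul_right]
  exact (mul_le_mul_iff_right₀ hpos).symm

theorem cont_eval_pt {n : ℕ} (Φ : MvPolynomial (Fin n ⊕ Fin 2) ℝ) (t v : ℝ) :
    Continuous (fun w : E n => MvPolynomial.eval (pt w t v) Φ) := by
  have : Continuous (fun w : E n => pt w t v) := by
    refine continuous_pi fun i => ?_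
    rcases i with i | i
    · exact (EuclideanSpace.proj i : E n →L[ℝ] ℝ).continuous
    · exact continuous_const
  exact (MvPolynomial.continuous_eval Φ).comp this

theorem line_ae {n : ℕ} (Φ : MvPolynomial (Fin n ⊕ Fin 2) ℝ) (ξ₀ : E n) (hξ : ‖ξ₀‖ = 1) (t v : ℝ)
    (h0 : MvPolynomial.eval (pt ξ₀ t v) Φ ≠ 0) (y : E n) (hy : y ∉ (ℝ ∙ ξ₀)) :
    ∀ᵐ s : ℝ, MvPolynomial.eval (pt (‖y + s • ξ₀‖⁻¹ • (y + s • ξ₀)) t v) Φ ≠ 0 := by
  have hne : ∀ s : ℝ, y + s • ξ₀ ≠ 0 := by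
    intro s hs
    apply hy
    rw [Submodule.mem_span_singleton]
    exact ⟨-s, by rw [neg_smul]; exact (eq_neg_of_add_eq_zero_left hs).symm⟩
  set f : ℝ → ℝ := fun s => MvPolynomial.eval (pt (‖y + s • ξ₀‖⁻¹ • (y + s • ξ₀)) t v) Φ with hf
  have hline : ∀ s : ℝ, AnalyticAt ℝ (fun s : ℝ => y + s • ξ₀) s := fun s => by fun_prop
  have hvec : ∀ s : ℝ, AnalyticAt ℝ (fun s : ℝ => ‖y + s • ξ₀‖⁻¹ • (y + s • ξ₀)) s := by
    intro s
    have h1 : AnalyticAt ℝ (fun s : ℝ => ‖y + s • ξ₀‖) s := by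
      have h3 : AnalyticAt ℝ (norm : E n → ℝ) (y + s • ξ₀) :=
        (contDiffAt_norm ℝ (hne s)).analyticAt
      exact AnalyticAt.comp (f := fun s : ℝ => y + s • ξ₀) h3 (hline s)
    exact (h1.inv (norm_ne_zero_iff.mpr (hne s))).smul (hline s)
  have hfa : AnalyticOnNhd ℝ f univ := by
    intro s _
    have : ∀ i, AnalyticAt ℝ (fun s => pt (‖y + s • ξ₀‖⁻¹ • (y + s • ξ₀)) t v i) s := by
      intro i
      rcases i with i | i
      · exact ((EuclideanSpace.proj i : E n →L[ℝ] ℝ).analyticAt _).comp (hvec s)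
      · exact analyticAt_const
    have hpi : AnalyticAt ℝ (fun s => pt (‖y + s • ξ₀‖⁻¹ • (y + s • ξ₀)) t v) s :=
      AnalyticAt.pi (fun i => this i)
    exact (AnalyticOnNhd.eval_mvPolynomial Φ _ trivial).comp hpi
  have hcont : Continuous (fun w : E n => MvPolynomial.eval (pt w t v) Φ) := cont_eval_pt Φ t v
  have hlim : Tendsto f atTop (𝓝 (MvPolynomial.eval (pt ξ₀ t v) Φ)) := by
    have h1 : Tendsto (fun s : ℝ => s⁻¹ • y + ξ₀) atTop (𝓝 ξ₀) := by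
      have : Tendsto (fun s : ℝ => s⁻¹ • y + ξ₀) atTop (𝓝 ((0 : ℝ) • y + ξ₀)) :=
        (tendsto_inv_atTop_zero.smul_const y).add_const ξ₀
      simpa using this
    have h2 : Tendsto (fun s : ℝ => ‖s⁻¹ • y + ξ₀‖⁻¹ • (s⁻¹ • y + ξ₀)) atTop (𝓝 (‖ξ₀‖⁻¹ • ξ₀)) := by
      refine Tendsto.smul ?_ h1
      exact (h1.norm).inv₀ (by rw [hξ]; exact one_ne_zero)
    rw [hξ, inv_one, one_smul] at h2
    have h3 := (hcont.tendsto ξ₀).comp h2
    refine h3.congr' ?_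
    filter_upwards [eventually_gt_atTop (0 : ℝ)] with s hs
    have h4 : s⁻¹ • y + ξ₀ = s⁻¹ • (y + s • ξ₀) := by
      rw [smul_add, smul_smul, inv_mul_cancel₀ hs.ne', one_smul]
    have h5 : ‖s⁻¹ • y + ξ₀‖⁻¹ • (s⁻¹ • y + ξ₀) = ‖y + s • ξ₀‖⁻¹ • (y + s • ξ₀) := by
      rw [h4, norm_smul, norm_inv, Real.norm_of_nonneg hs.le, smul_smul]
      congr 1
      field_simp
    simp only [hf, Function.comp_apply, h5]
  obtain ⟨s₀, hs₀⟩ : ∃ s, f s ≠ 0 := by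
    have := hlim.eventually_ne h0
    exact this.exists
  have hcod := hfa.preimage_zero_mem_codiscrete (x := s₀) hs₀
  have := ae_restrict_le_codiscreteWithin (μ := (volume : Measure ℝ)) MeasurableSet.univ hcod
  rw [Measure.restrict_univ] at this
  filter_upwards [this] with s hs
  exact hs

theorem alg_ae {n : ℕ} (hn : 2 ≤ n) {K : Set (E n)} (hK : AlgebraicallyIntegrable K) :
    ∀ᵐ w : E n, ∃ P : ℝ[X][X], P ≠ 0 ∧ ∀ t : ℝ, (∃ x ∈ interior K, inner ℝ x w = t) →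
      evalEval t (cutPlus K w t) P = 0 := by
  obtain ⟨Φ, ⟨ξ₀, hξ₀, t₀, v₀, h0⟩, hΦ⟩ := hK
  have hmeas : MeasurableSet {w : E n | MvPolynomial.eval (pt (‖w‖⁻¹ • w) t₀ v₀) Φ ≠ 0} := by
    have h1 : Measurable (fun w : E n => MvPolynomial.eval (pt (‖w‖⁻¹ • w) t₀ v₀) Φ) :=
      (cont_eval_pt Φ t₀ v₀).measurable.comp (measurable_norm.inv.smul measurable_id)
    exact (h1 (measurableSet_singleton 0)).compl
  have hae : ∀ᵐ w : E n, w ∈ {w : E n | MvPolynomial.eval (pt (‖w‖⁻¹ • w) t₀ v₀) Φ ≠ 0} := by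
    rw [← ae_ae_add_linearMap_mem_iff (LinearMap.toSpanSingleton ℝ (E n) ξ₀) volume volume hmeas]
    have hspan : ∀ᵐ y : E n, y ∉ (ℝ ∙ ξ₀) := by
      have h1 : (ℝ ∙ ξ₀) ≠ ⊤ := by
        intro h
        have h2 : Module.finrank ℝ (ℝ ∙ ξ₀) = 1 :=
          finrank_span_singleton (by rw [← norm_ne_zero_iff, hξ₀]; exact one_ne_zero)
        rw [h, finrank_top, finrank_euclideanSpace, Fintype.card_fin] at h2
        omega
      exact measure_eq_zero_iff_ae_notMem.mp (Measure.addHaar_submodule volume _ h1)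
    filter_upwards [hspan] with y hy
    simpa using line_ae Φ ξ₀ hξ₀ t₀ v₀ h0 y hy
  have hw0 : ∀ᵐ w : E n, w ≠ 0 := by
    have : Nontrivial (E n) := by
      refine ⟨ξ₀, 0, ?_⟩
      rw [← norm_ne_zero_iff, hξ₀]
      exact one_ne_zero
    exact Measure.ae_ne volume 0
  filter_upwards [hae, hw0] with w hw hw0
  have hpos : 0 < ‖w‖ := norm_pos_iff.mpr hw0
  refine ⟨fib Φ (‖w‖⁻¹ • w) ‖w‖⁻¹, ?_, ?_⟩
  · intro h
    apply hw
    have := evalEval_fib Φ (‖w‖⁻¹ • w) ‖w‖⁻¹ (‖w‖ * t₀) v₀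
    rw [h, ← mul_assoc, inv_mul_cancel₀ hpos.ne', one_mul] at this
    rw [← this]
    simp [evalEval]
  · rintro t ⟨x, hx, hxt⟩
    rw [evalEval_fib, cutPlus_smul K hw0]
    refine (hΦ (‖w‖⁻¹ • w) ?_ (‖w‖⁻¹ * t) ⟨x, hx, ?_⟩).1
    · rw [norm_smul, norm_inv, norm_norm, inv_mul_cancel₀ hpos.ne']
    · rw [inner_smul_right, hxt]

end P56acde
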