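import Pool.Agent.Lib.P56acde.DiffLemma

/-! MODULE AlgLemma (uses `diffLemma`).
PROOF. `L = LaurentSeries ℂ` with the derivation `d/dX` (Mathlib `LaurentSeries.derivative`; Leibniz rule has to be checked, or
transported), `x = X`, `K₀` = the subfield generated by the image of `sh τ` (= fractions `sh τ a / sh τ b`), closed under `D`.
`hres`: the coefficient of `X^{-1}` of a derivative is `0`, that of `e/X` is `e`.
`A = dX V ≠ 0` is algebraic over `K₀` because `V` is and `D V ∈ K₀(V)` (differentiate the minimal polynomial of `V`).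
Clear denominators in the `p j ∈ K₀`: multiply by a common `sh τ q`.  With `W_j = X^{-j} U_j` the recursion of `Ur` becomes
`W_{j+1} = D W_j + A^{(j)}/X`. -/

open Polynomial

namespace P56acde

theorem exists_ext_deriv {A : Type} [CommRing A] [IsDomain A] [Algebra ℂ A] (d : Derivation ℂ A A) :
    ∃ D : Derivation ℂ (FractionRing A) (FractionRing A),
      ∀ a, D (algebraMap A (FractionRing A) a) = algebraMap A (FractionRing A) (d a) := by
  have hfe : Algebra.FormallyEtale A (FractionRing A) :=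
    Algebra.FormallyEtale.of_isLocalization (nonZeroDivisors _)
  let D₀ : Derivation ℂ A (FractionRing A) :=
    Derivation.mk' ((Algebra.linearMap A (FractionRing A)).restrictScalars ℂ ∘ₗ d.toLinearMap) (by
      intro a b
      simp only [LinearMap.coe_comp, Function.comp_apply,
        Derivation.coeFn_coe, Derivation.leibniz, LinearMap.coe_restrictScalars,
        Algebra.linearMap_apply, smul_eq_mul, map_add, map_mul, Algebra.smul_def])
  have hbc : IsBaseChange (FractionRing A) (KaehlerDifferential.map ℂ ℂ A (FractionRing A)) :=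
    KaehlerDifferential.isBaseChange_of_formallyEtale ℂ A (FractionRing A)
  let l : Ω[(FractionRing A)⁄ℂ] →ₗ[FractionRing A] (FractionRing A) :=
    hbc.lift D₀.liftKaehlerDifferential
  refine ⟨l.compDer (KaehlerDifferential.D ℂ (FractionRing A)), fun a => ?_⟩
  show l (KaehlerDifferential.D ℂ (FractionRing A) (algebraMap A (FractionRing A) a)) = _
  have h1 : KaehlerDifferential.D ℂ (FractionRing A) (algebraMap A (FractionRing A) a) =
      KaehlerDifferential.map ℂ ℂ A (FractionRing A) (KaehlerDifferential.D ℂ A a) := by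
    rw [KaehlerDifferential.map_D]
  rw [h1, hbc.lift_eq, Derivation.liftKaehlerDifferential_comp_D]
  rfl

theorem sh_eq (τ : ℂ) (p : ℂ[X]) : sh τ p = ((taylor τ p : ℂ[X]) : PowerSeries ℂ) := by
  have h : sh τ = (Polynomial.coeToPowerSeries.ringHom).comp ((taylorAlgHom τ : ℂ[X] →ₐ[ℂ] ℂ[X]) : ℂ[X] →+* ℂ[X]) := by
    apply Polynomial.ringHom_ext
    · intro a
      simp [sh]
    · simp [sh]
  rw [h]
  simp

theorem sh_injective (τ : ℂ) : Function.Injective (sh τ) := by
  intro p q h
  rw [sh_eq, sh_eq] at h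
  exact taylor_injective τ (Polynomial.coe_injective ℂ h)

theorem dX_sh (τ : ℂ) (p : ℂ[X]) : dX (sh τ p) = sh τ (derivative p) := by
  rw [sh_eq, sh_eq, dX, PowerSeries.derivative_coe, taylor_apply, taylor_apply, derivative_comp]
  simp

/-- The subfield of fractions `g a / g b`. -/
def fracSub {L : Type} [Field L] (g : ℂ[X] →+* L) (hg : Function.Injective g) : Subfield L where
  carrier := {z | ∃ a b : ℂ[X], b ≠ 0 ∧ z = g a / g b}
  mul_mem' := by
    rintro _ _ ⟨a, b, hb, rfl⟩ ⟨c, d, hd, rfl⟩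
    exact ⟨a * c, b * d, mul_ne_zero hb hd, by rw [map_mul, map_mul, div_mul_div_comm]⟩
  one_mem' := ⟨1, 1, one_ne_zero, by simp⟩
  add_mem' := by
    rintro _ _ ⟨a, b, hb, rfl⟩ ⟨c, d, hd, rfl⟩
    have hb' : g b ≠ 0 := (map_ne_zero_iff g hg).mpr hb
    have hd' : g d ≠ 0 := (map_ne_zero_iff g hg).mpr hd
    exact ⟨a * d + b * c, b * d, mul_ne_zero hb hd, by
      rw [map_add, map_mul, map_mul, map_mul, div_add_div _ _ hb' hd']⟩
  zero_mem' := ⟨0, 1, one_ne_zero, by simp⟩
  neg_mem' := by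
    rintro _ ⟨a, b, hb, rfl⟩
    exact ⟨-a, b, hb, by rw [map_neg, neg_div]⟩
  inv_mem' := by
    rintro _ ⟨a, b, hb, rfl⟩
    by_cases ha : a = 0
    · exact ⟨0, 1, one_ne_zero, by simp [ha]⟩
    · exact ⟨b, a, ha, by rw [inv_div]⟩

theorem mem_fracSub {L : Type} [Field L] (g : ℂ[X] →+* L) (hg : Function.Injective g) (z : L) :
    z ∈ fracSub g hg ↔ ∃ a b : ℂ[X], b ≠ 0 ∧ z = g a / g b := Iff.rfl

theorem mem_fracSub_self {L : Type} [Field L] (g : ℂ[X] →+* L) (hg : Function.Injective g)
    (a : ℂ[X]) : g a ∈ fracSub g hg := ⟨a, 1, one_ne_zero, by simp⟩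

theorem common_denom {L : Type} [Field L] (g : ℂ[X] →+* L) (hg : Function.Injective g)
    (p : ℕ → L) (hp : ∀ j, p j ∈ fracSub g hg) (N : ℕ) :
    ∃ q : ℂ[X], q ≠ 0 ∧ ∀ j < N, ∃ a, p j * g q = g a := by
  induction N with
  | zero => exact ⟨1, one_ne_zero, fun j hj => absurd hj (Nat.not_lt_zero j)⟩
  | succ N ih =>
    obtain ⟨q, hq, h⟩ := ih
    obtain ⟨a, b, hb, hab⟩ := hp N
    have hb' : g b ≠ 0 := (map_ne_zero_iff g hg).mpr hb
    refine ⟨q * b, mul_ne_zero hq hb, fun j hj => ?_⟩
    rcases Nat.lt_succ_iff_lt_or_eq.mp hj with hj | rfl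
    · obtain ⟨c, hc⟩ := h j hj
      exact ⟨c * b, by rw [map_mul, map_mul, ← hc, mul_assoc]⟩
    · exact ⟨a * q, by rw [hab, map_mul, map_mul]; field_simp⟩

/-- algebraicity of the derivative. -/
theorem isAlgebraic_deriv {L : Type} [Field L] [CharZero L] (D : Derivation ℤ L L) (K : Subfield L)
    (hK : ∀ z ∈ K, D z ∈ K) (V : L) (hV : IsAlgebraic K V) : IsAlgebraic K (D V) := by
  have key : ∀ p : K[X], IsAlgebraic K (D (aeval V p) - aeval V (derivative p) * D V) := by
    intro p
    induction p using Polynomial.induction_on' with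
    | add p q hp hq =>
      have h1 : D (aeval V (p + q)) - aeval V (derivative (p + q)) * D V
          = (D (aeval V p) - aeval V (derivative p) * D V)
            + (D (aeval V q) - aeval V (derivative q) * D V) := by
        rw [map_add (aeval V), map_add D, map_add derivative, map_add (aeval V)]
        ring
      rw [h1]
      exact hp.add hq
    | monomial n c =>
      have h1 : D (aeval V (monomial n c)) - aeval V (derivative (monomial n c)) * D V
          = D (c : L) * V ^ n := by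
        rw [aeval_monomial, derivative_monomial, aeval_monomial, Derivation.leibniz,
          Derivation.leibniz_pow]
        simp only [map_mul, map_natCast, smul_eq_mul, nsmul_eq_mul]
        have : (algebraMap K L) c = (c : L) := rfl
        rw [this]
        ring
      rw [h1]
      exact (isAlgebraic_algebraMap (⟨D (c : L), hK _ c.2⟩ : K)).mul (hV.pow n)
  have hint : IsIntegral K V := hV.isIntegral
  have h0 := key (minpoly K V)
  rw [minpoly.aeval, map_zero, zero_sub] at h0
  have hsep : (minpoly K V).Separable := (minpoly.irreducible hint).separable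
  have hne : aeval V (derivative (minpoly K V)) ≠ 0 :=
    hsep.aeval_derivative_ne_zero (minpoly.aeval K V)
  have haev : ∀ p : K[X], IsAlgebraic K (aeval V p) := by
    intro p
    induction p using Polynomial.induction_on' with
    | add p q hp hq => rw [map_add]; exact hp.add hq
    | monomial n c =>
      rw [aeval_monomial]
      exact (isAlgebraic_algebraMap c).mul (hV.pow n)
  have h2 := (h0.neg).mul (haev (derivative (minpoly K V))).inv
  have h3 : - -(aeval V (derivative (minpoly K V)) * D V)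
      * (aeval V (derivative (minpoly K V)))⁻¹ = D V := by
    rw [neg_neg, mul_comm, ← mul_assoc, inv_mul_cancel₀ hne, one_mul]
  rw [h3] at h2
  exact h2

theorem quot_aux {L : Type} [Field L] (D : Derivation ℤ L L) (h x : L) (hx : x ≠ 0) (n : ℕ)
    (h3 : D (x ^ n) * x = n * x ^ n) : D (h / x ^ n) * x ^ (n + 1) = x * D h - n * h := by
  have h0 : x ^ (n + 1) = x ^ n * x := pow_succ _ _
  rw [Derivation.leibniz_div, h0]
  simp only [smul_eq_mul]
  have hy : x ^ n ≠ 0 := pow_ne_zero _ hx
  generalize D (x ^ n) = Dy at *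
  generalize x ^ n = y at *
  have h4 : y⁻¹ * y = 1 := inv_mul_cancel₀ hy
  calc y⁻¹ ^ 2 * (y * D h - h * Dy) * (y * x) = (y⁻¹ * y) * ((y⁻¹ * y) * (x * D h) - y⁻¹ * (h * (Dy * x))) := by ring
    _ = 1 * (1 * (x * D h) - (y⁻¹ * y) * (n * h)) := by rw [h4, h3]; linear_combination (- n * h) * h4
    _ = x * D h - n * h := by rw [h4]; ring

theorem algLemma_core {L : Type} [Field L] [CharZero L] (ι : PowerSeries ℂ →+* L)
    (hι : Function.Injective ι) (hdiv : ∀ α : L, ∃ f g : PowerSeries ℂ, g ≠ 0 ∧ α = ι f / ι g)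
    (d : L → L) (hadd : ∀ a b, d (a + b) = d a + d b) (hmul : ∀ a b, d (a * b) = a * d b + b * d a)
    (hd : ∀ a, d (ι a) = ι (dX a))
    (τ : ℂ) (V : PowerSeries ℂ) (P : ℂ[X][X]) (hP : P ≠ 0)
    (hPV : (P.map (sh τ)).eval V = 0) (hV : dX V ≠ 0) :
    ∃ (r : ℕ) (p : ℕ → ℂ[X]), p r ≠ 0 ∧
      ∑ j ∈ Finset.range (r + 1), sh τ (p j) * dX^[j] (dX V) = 0 ∧
      ∀ ψ : PowerSeries ℂ,
        ∑ j ∈ Finset.range (r + 1), sh τ (p j) * PowerSeries.X ^ (r - j) * Ur (dX V) ψ j ≠ 0 := by
  let D : Derivation ℤ L L := Derivation.mk' (AddMonoidHom.mk' d hadd).toIntLinearMap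
    (fun a b => hmul a b)
  have hD : ∀ a, D (ι a) = ι (dX a) := hd
  let g : ℂ[X] →+* L := ι.comp (sh τ)
  have hg : Function.Injective g := hι.comp (sh_injective τ)
  have hgne : ∀ {q : ℂ[X]}, q ≠ 0 → g q ≠ 0 := fun h => (map_ne_zero_iff g hg).mpr h
  let K := fracSub g hg
  have hK : ∀ z ∈ K, D z ∈ K := by
    rintro _ ⟨a, b, hb, rfl⟩
    have h1 : ∀ c : ℂ[X], D (g c) = g (derivative c) := by
      intro c
      show D (ι (sh τ c)) = ι (sh τ (derivative c))
      rw [hD, dX_sh]
    rw [Derivation.leibniz_div, h1, h1]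
    have h2 := mem_fracSub_self g hg
    simp only [smul_eq_mul]
    exact K.mul_mem (K.pow_mem (K.inv_mem (h2 b)) 2) (K.sub_mem (K.mul_mem (h2 b) (h2 _))
      (K.mul_mem (h2 a) (h2 _)))
  let x : L := ι PowerSeries.X
  have hx : x ≠ 0 := (map_ne_zero_iff ι hι).mpr PowerSeries.X_ne_zero
  have hDx : D x = 1 := by
    rw [hD, dX, PowerSeries.derivative_X, map_one]
  have hDxn : ∀ n : ℕ, D (x ^ n) * x = n * x ^ n := by
    intro n
    rw [Derivation.leibniz_pow, hDx]
    rcases n with _ | n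
    · simp
    · simp only [smul_eq_mul, nsmul_eq_mul, mul_one, Nat.add_sub_cancel]
      ring
  have hres : ∀ (e : ℕ), e ≠ 0 → ∀ α : L, D α ≠ (e : L) / x := by
    intro e he α h0
    obtain ⟨f, g', hg0, rfl⟩ := hdiv α
    obtain ⟨n, u, hu⟩ := IsDiscreteValuationRing.eq_unit_mul_pow_irreducible hg0
      (PowerSeries.X_prime (R := ℂ)).irreducible
    obtain ⟨h, hh⟩ : ∃ h : PowerSeries ℂ, ι f / ι g' = ι h / x ^ n := by
      refine ⟨f * (↑(u⁻¹) : PowerSeries ℂ), ?_⟩
      have hu1 : ι (u : PowerSeries ℂ) * ι (↑(u⁻¹) : PowerSeries ℂ) = 1 := by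
        rw [← map_mul, Units.mul_inv, map_one]
      have hu2 : ι (u : PowerSeries ℂ) ≠ 0 := left_ne_zero_of_mul_eq_one hu1
      rw [hu, map_mul, map_mul, map_pow, div_eq_div_iff (mul_ne_zero hu2 (pow_ne_zero _ hx))
        (pow_ne_zero _ hx)]
      linear_combination (- ι f * x ^ n) * hu1
    have h1 : D (ι f / ι g') = (e : L) / x := h0
    rw [hh] at h1
    have h2 : D (ι h / x ^ n) * x ^ (n + 1) = x * D (ι h) - n * ι h :=
      quot_aux D _ _ hx _ (hDxn n)
    rw [h1, hD] at h2
    have h3 : ι ((e : PowerSeries ℂ) * PowerSeries.X ^ n)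
        = ι (PowerSeries.X * dX h - (n : PowerSeries ℂ) * h) := by
      rw [map_mul, map_sub, map_mul, map_mul, map_pow, map_natCast, map_natCast]
      rw [← h2]
      show (e : L) * x ^ n = (e : L) / x * x ^ (n + 1)
      rw [pow_succ]
      field_simp
    have h4 := congrArg (PowerSeries.coeff n) (hι h3)
    have he' : (e : PowerSeries ℂ) = PowerSeries.C (e : ℂ) := by simp
    have hn' : (n : PowerSeries ℂ) = PowerSeries.C (n : ℂ) := by simp
    rw [he', hn', PowerSeries.coeff_C_mul, PowerSeries.coeff_X_pow_self, map_sub,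
      PowerSeries.coeff_C_mul] at h4
    rcases n with _ | n
    · rw [PowerSeries.coeff_zero_X_mul] at h4
      apply he
      have : (e : ℂ) = 0 := by simpa using h4
      exact_mod_cast this
    · rw [PowerSeries.coeff_succ_X_mul, dX, PowerSeries.coeff_derivative] at h4
      apply he
      have : (e : ℂ) = 0 := by
        rw [mul_one] at h4
        rw [h4]
        push_cast
        ring
      exact_mod_cast this
  have hVK : IsAlgebraic K (ι V) := by
    let gK : ℂ[X] →+* K := g.codRestrict K (fun a => mem_fracSub_self g hg a)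
    have hgK : Function.Injective gK := fun a b h => hg (congrArg Subtype.val h)
    refine ⟨P.map gK, ?_, ?_⟩
    · rwa [Ne, Polynomial.map_eq_zero_iff hgK]
    · rw [aeval_def, eval₂_map]
      have h1 : (algebraMap K L).comp gK = ι.comp (sh τ) := rfl
      rw [h1, ← Polynomial.hom_eval₂, ← Polynomial.eval_map, hPV, map_zero]
  have hA : ι (dX V) ≠ 0 := (map_ne_zero_iff ι hι).mpr hV
  have hAalg : IsAlgebraic K (ι (dX V)) := by
    rw [← hD]
    exact isAlgebraic_deriv D K hK _ hVK
  obtain ⟨r, p, hp, hpr, hsum, hW⟩ := diffLemma D K hK (ι (dX V)) hA hAalg x hx hres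
  obtain ⟨q, hq, hq2⟩ := common_denom g hg p hp (r + 1)
  choose! a ha using hq2
  have hDit : ∀ j, D^[j] (ι (dX V)) = ι (dX^[j] (dX V)) := by
    intro j
    induction j with
    | zero => rfl
    | succ j ih => rw [Function.iterate_succ_apply', Function.iterate_succ_apply', ih, hD]
  refine ⟨r, a, ?_, ?_, ?_⟩
  · have h1 := ha r (Nat.lt_succ_self r)
    rw [hpr, one_mul] at h1
    rw [← hg h1]
    exact hq
  · apply hι
    rw [map_sum, map_zero]
    have h1 : ∑ j ∈ Finset.range (r + 1), ι (sh τ (a j) * dX^[j] (dX V))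
        = g q * ∑ j ∈ Finset.range (r + 1), p j * D^[j] (ι (dX V)) := by
      rw [Finset.mul_sum]
      refine Finset.sum_congr rfl fun j hj => ?_
      rw [map_mul, hDit]
      have h2 : ι (sh τ (a j)) = p j * g q := (ha j (Finset.mem_range.mp hj)).symm
      rw [h2]
      ring
    rw [h1, hsum, mul_zero]
  · intro ψ h0
    have hrec : ∀ j < r, (fun j => ι (Ur (dX V) ψ j) / x ^ j) (j + 1)
        = D ((fun j => ι (Ur (dX V) ψ j) / x ^ j) j) + D^[j] (ι (dX V)) / x := by
      intro j _
      show ι (Ur (dX V) ψ (j + 1)) / x ^ (j + 1) = D (ι (Ur (dX V) ψ j) / x ^ j)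
        + D^[j] (ι (dX V)) / x
      have hU : ι (Ur (dX V) ψ (j + 1)) = x * D (ι (Ur (dX V) ψ j)) - j * ι (Ur (dX V) ψ j)
          + x ^ j * ι (dX^[j] (dX V)) := by
        show ι (PowerSeries.X * dX (Ur (dX V) ψ j) - (j : PowerSeries ℂ) * Ur (dX V) ψ j
          + PowerSeries.X ^ j * dX^[j] (dX V)) = _
        rw [map_add, map_sub, map_mul, map_mul, map_mul, map_pow, map_natCast, hD]
      have hquot : D (ι (Ur (dX V) ψ j) / x ^ j) * x ^ (j + 1)
          = x * D (ι (Ur (dX V) ψ j)) - j * ι (Ur (dX V) ψ j) := quot_aux D _ _ hx _ (hDxn j)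
      have hx' : x ^ (j + 1) ≠ 0 := pow_ne_zero _ hx
      rw [div_eq_iff hx', add_mul, hquot, hU, hDit, pow_succ]
      field_simp
    apply hW (fun j => ι (Ur (dX V) ψ j) / x ^ j) hrec
    have h1 : g q * x ^ r * ∑ j ∈ Finset.range (r + 1), p j * (ι (Ur (dX V) ψ j) / x ^ j)
        = ι (∑ j ∈ Finset.range (r + 1), sh τ (a j) * PowerSeries.X ^ (r - j)
          * Ur (dX V) ψ j) := by
      rw [map_sum, Finset.mul_sum]
      refine Finset.sum_congr rfl fun j hj => ?_
      have h2 : ι (sh τ (a j)) = p j * g q := (ha j (Finset.mem_range.mp hj)).symm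
      have h3 : x ^ r = x ^ (r - j) * x ^ j := by
        rw [← pow_add, Nat.sub_add_cancel (Nat.lt_succ_iff.mp (Finset.mem_range.mp hj))]
      rw [map_mul, map_mul, map_pow, h2, h3]
      show g q * (x ^ (r - j) * x ^ j) * (p j * (ι (Ur (dX V) ψ j) / x ^ j))
        = p j * g q * x ^ (r - j) * ι (Ur (dX V) ψ j)
      field_simp
    rw [h0, map_zero] at h1
    rcases mul_eq_zero.mp h1 with h2 | h2
    · exact absurd h2 (mul_ne_zero (hgne hq) (pow_ne_zero _ hx))
    · exact h2

theorem algLemma (τ : ℂ) (V : PowerSeries ℂ) (P : ℂ[X][X]) (hP : P ≠ 0)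
    (hPV : (P.map (sh τ)).eval V = 0) (hV : dX V ≠ 0) :
    ∃ (r : ℕ) (p : ℕ → ℂ[X]), p r ≠ 0 ∧
      ∑ j ∈ Finset.range (r + 1), sh τ (p j) * dX^[j] (dX V) = 0 ∧
      ∀ ψ : PowerSeries ℂ,
        ∑ j ∈ Finset.range (r + 1), sh τ (p j) * PowerSeries.X ^ (r - j) * Ur (dX V) ψ j ≠ 0 := by
  obtain ⟨D', hD'⟩ := exists_ext_deriv (PowerSeries.derivative ℂ)
  let L := FractionRing (PowerSeries ℂ)
  have hcz : CharZero L := charZero_of_injective_algebraMap (algebraMap ℂ L).injective
  refine algLemma_core (L := L) (algebraMap (PowerSeries ℂ) L) (IsFractionRing.injective _ _)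
    (fun α => ?_) D' (fun a b => map_add D' a b) (fun a b => ?_) hD' τ V P hP hPV hV
  · obtain ⟨f, g', hg', h⟩ := IsFractionRing.div_surjective (A := PowerSeries ℂ) α
    exact ⟨f, g', nonZeroDivisors.ne_zero hg', h.symm⟩
  · rw [Derivation.leibniz]
    rfl

end P56acde
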