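import Pool.Agent.Lib.P56acde.Defs

/-! MODULE AutExt (independent). -/

open Polynomial Cardinal

namespace P56acde

/-- Uncountable algebraically closed fields of the same cardinality over a countable field are
isomorphic over it. -/
theorem exists_equiv_over {F K L : Type} [Field F] [Countable F] [Field K] [Field L]
    [IsAlgClosed K] [IsAlgClosed L] [Algebra F K] [Algebra F L] (hK : ℵ₀ < #K)
    (hL : ℵ₀ < #L) (hKL : #K = #L) :
    ∃ σ : K ≃+* L, ∀ x, σ (algebraMap F K x) = algebraMap F L x := by
  obtain ⟨s, hs⟩ := exists_isTranscendenceBasis F K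
  obtain ⟨t, ht⟩ := exists_isTranscendenceBasis F L
  have h1 : #K = #s :=
    IsAlgClosed.cardinal_eq_cardinal_transcendence_basis_of_aleph0_lt' _ hs
      (Cardinal.mk_le_aleph0 (α := F)) hK
  have h2 : #L = #t :=
    IsAlgClosed.cardinal_eq_cardinal_transcendence_basis_of_aleph0_lt' _ ht
      (Cardinal.mk_le_aleph0 (α := F)) hL
  have h3 : #s = #t := by rw [← h1, ← h2, hKL]
  obtain ⟨e⟩ := Cardinal.eq.1 h3
  let _ := IsAlgClosed.isAlgClosure_of_transcendence_basis _ hs
  let _ := IsAlgClosed.isAlgClosure_of_transcendence_basis _ ht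
  let e₁ : Algebra.adjoin F (Set.range (Subtype.val : s → K)) ≃ₐ[F]
      Algebra.adjoin F (Set.range (Subtype.val : t → L)) :=
    (hs.1.aevalEquiv.symm.trans (MvPolynomial.renameEquiv F e)).trans ht.1.aevalEquiv
  refine ⟨IsAlgClosure.equivOfEquiv K L e₁.toRingEquiv, fun x => ?_⟩
  have h4 : algebraMap F K x = algebraMap (Algebra.adjoin F (Set.range (Subtype.val : s → K))) K
      (algebraMap F _ x) := rfl
  rw [h4, IsAlgClosure.equivOfEquiv_algebraMap]
  have h5 : e₁.toRingEquiv (algebraMap F _ x) = algebraMap F _ x := e₁.commutes x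
  rw [h5]
  rfl

theorem aleph0_lt_complex : ℵ₀ < #ℂ := by
  rw [Cardinal.mk_complex]
  exact Cardinal.aleph0_lt_continuum

theorem autExt {F : Type} [Field F] [Countable F] (i j : F →+* ℂ) :
    ∃ σ : ℂ ≃+* ℂ, ∀ x, σ (i x) = j x := by
  exact @exists_equiv_over F ℂ ℂ _ _ _ _ _ _ i.toAlgebra j.toAlgebra aleph0_lt_complex
    aleph0_lt_complex rfl

/-- Two transcendental numbers over a countable subfield are conjugate. -/
theorem aut_transcendental (k : Subfield ℂ) [Countable k] {s s' : ℂ} (hs : Transcendental k s)
    (hs' : Transcendental k s') : ∃ σ : ℂ ≃+* ℂ, (∀ x ∈ k, σ x = x) ∧ σ s = s' := by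
  have hc : Countable (FractionRing k[X]) := by
    have h1 : Countable k[X] := by
      rw [← Cardinal.mk_le_aleph0_iff]
      exact Polynomial.cardinalMk_le_max.trans (max_le (Cardinal.mk_le_aleph0 (α := k)) le_rfl)
    have h2 : Function.Surjective (fun p : k[X] × k[X] =>
        algebraMap k[X] (FractionRing k[X]) p.1 / algebraMap k[X] (FractionRing k[X]) p.2) := by
      intro z
      obtain ⟨a, b, -, h⟩ := IsFractionRing.div_surjective (A := k[X]) z
      exact ⟨(a, b), h⟩
    exact h2.countable
  have hi : Function.Injective (Polynomial.aeval s : k[X] →ₐ[k] ℂ).toRingHom :=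
    transcendental_iff_injective.1 hs
  have hj : Function.Injective (Polynomial.aeval s' : k[X] →ₐ[k] ℂ).toRingHom :=
    transcendental_iff_injective.1 hs'
  obtain ⟨σ, hσ⟩ := autExt (F := FractionRing k[X]) (IsFractionRing.lift hi)
    (IsFractionRing.lift hj)
  have hσ' : ∀ p : k[X], σ (Polynomial.aeval s p) = Polynomial.aeval s' p := by
    intro p
    have := hσ (algebraMap _ _ p)
    rw [IsFractionRing.lift_algebraMap, IsFractionRing.lift_algebraMap] at this
    exact this
  refine ⟨σ, fun x hx => ?_, ?_⟩
  · have := hσ' (C ⟨x, hx⟩)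
    rw [aeval_C, aeval_C] at this
    exact this
  · have := hσ' X
    simpa using this

/-- The fixed field of the automorphisms of `ℂ` over a countable subfield `k` is `k`. -/
theorem mem_of_fixed (k : Subfield ℂ) [Countable k] {z : ℂ}
    (hz : ∀ σ : ℂ ≃+* ℂ, (∀ x ∈ k, σ x = x) → σ z = z) : z ∈ k := by
  by_cases h : Transcendental k z
  · exfalso
    have h1 : Transcendental k (z + 1) := by
      intro h2
      apply h
      have h3 : IsAlgebraic k (z + 1 - 1) := h2.sub isAlgebraic_one
      simpa using h3
    obtain ⟨σ, hσ, h4⟩ := aut_transcendental k h h1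
    have := hz σ hσ
    rw [h4] at this
    simp at this
  · have hint : IsIntegral k z := by
      rw [Transcendental, not_not] at h
      exact h.isIntegral
    by_contra hzk
    have hirr := minpoly.irreducible hint
    have hsep : (minpoly k z).Separable := hirr.separable
    -- another root
    have hdeg : (minpoly k z).natDegree ≠ 1 := by
      intro h1
      apply hzk
      have h2 : z ∈ (algebraMap k ℂ).range := minpoly.mem_range_of_degree_eq_one k z (by
        rw [Polynomial.degree_eq_natDegree hirr.ne_zero, h1]; rfl)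
      obtain ⟨y, rfl⟩ := h2
      exact y.2
    have hcard : Fintype.card ((minpoly k z).rootSet ℂ) = (minpoly k z).natDegree :=
      Polynomial.card_rootSet_eq_natDegree hsep (IsAlgClosed.splits _)
    have hpos : 0 < (minpoly k z).natDegree := minpoly.natDegree_pos hint
    have h2 : 1 < Fintype.card ((minpoly k z).rootSet ℂ) := by
      rw [hcard]; omega
    have hz1 : z ∈ (minpoly k z).rootSet ℂ := by
      rw [Polynomial.mem_rootSet]
      exact ⟨hirr.ne_zero, minpoly.aeval _ _⟩
    obtain ⟨⟨z', hz'⟩, hne⟩ := Fintype.exists_ne_of_one_lt_card h2 ⟨z, hz1⟩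
    have hne' : z' ≠ z := fun h => hne (Subtype.ext h)
    have hz'r : Polynomial.aeval z' (minpoly k z) = 0 := by
      rw [Polynomial.mem_rootSet] at hz'
      exact hz'.2
    have : Fact (Irreducible (minpoly k z)) := ⟨hirr⟩
    have hc : Countable (AdjoinRoot (minpoly k z)) := by
      have h1 : Countable k[X] := by
        rw [← Cardinal.mk_le_aleph0_iff]
        exact Polynomial.cardinalMk_le_max.trans (max_le (Cardinal.mk_le_aleph0 (α := k)) le_rfl)
      exact (AdjoinRoot.mk_surjective (g := minpoly k z)).countable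
    obtain ⟨σ, hσ⟩ := autExt (F := AdjoinRoot (minpoly k z))
      (AdjoinRoot.lift (algebraMap k ℂ) z (minpoly.aeval k z))
      (AdjoinRoot.lift (algebraMap k ℂ) z' hz'r)
    apply hne'
    have h5 : σ z = z' := by
      have := hσ (AdjoinRoot.root _)
      simpa using this
    rw [← h5]
    apply hz
    intro x hx
    have := hσ (AdjoinRoot.of _ ⟨x, hx⟩)
    rw [AdjoinRoot.lift_of, AdjoinRoot.lift_of] at this
    exact this

end P56acde
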