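import Pool.Agent.Lib.P56acde.Defs

/-! MODULE BallAE (independent): for a.e. direction there is an enclosing touching ball.
PROOF. `G₁ = {w : ∃ p ∈ K, K ⊆ closedBall (p-w) ‖w‖}` is closed and `c ≥ 1, w ∈ G₁ → c w ∈ G₁`.  For `q ∈ E n` let `p(q) ∈ K` be a farthest
point of `K` from `q`, `w(q) = p(q) - q ∈ G₁`.  Farthest point inequalities give `‖w(q)-w(q')‖ ≥ ‖q-q'‖`, so the inverse map is 1-Lipschitz and
`vol(G₁ ∩ closedBall 0 (ρ+R)) ≥ vol(ball 0 ρ)` when `K ⊆ closedBall 0 R` (Hausdorff measure / `LipschitzOnWith.hausdorffMeasure_image_le`,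
`EuclideanSpace.euclideanHausdorffMeasure_eq_volume`).  `Bad = {w : ∀ c > 0, c w ∉ G₁}` is a cone disjoint from `G₁`; by scaling
`vol(Bad ∩ ball 0 1) ≤ vol(ball 0 1) (1 - (ρ/(ρ+R))^n) → 0` as `ρ → ∞`. -/

open Set Filter Topology MeasureTheory
open scoped Pointwise

namespace P56acde

namespace BallAE

/-- the set of `w` for which the touching ball of radius `‖w‖` exists -/
def G₁ {n : ℕ} (K : Set (E n)) : Set (E n) :=
  {w | ∃ p ∈ K, K ⊆ Metric.closedBall (p - w) ‖w‖}

theorem isClosed_G₁ {n : ℕ} {K : Set (E n)} (hK : IsCompact K) : IsClosed (G₁ K) := by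
  have : CompactSpace K := isCompact_iff_compactSpace.mp hK
  have h1 : IsClosed {q : K × E n | ∀ x ∈ K, ‖x - ((q.1 : E n) - q.2)‖ ≤ ‖q.2‖} := by
    simp only [ofPred_forall]
    refine isClosed_iInter fun x => isClosed_iInter fun _ => ?_
    exact isClosed_le (by fun_prop) (by fun_prop)
  have h2 := isClosedMap_snd_of_compactSpace _ h1
  convert h2 using 1
  ext w
  simp only [G₁, mem_ofPred_eq, mem_image, Prod.exists, exists_eq_right, Subtype.exists]
  constructor
  · rintro ⟨p, hp, h⟩
    refine ⟨p, hp, fun x hx => ?_⟩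
    have := h hx
    rwa [mem_closedBall_iff_norm] at this
  · rintro ⟨p, hp, h⟩
    refine ⟨p, hp, fun x hx => ?_⟩
    rw [mem_closedBall_iff_norm]
    exact h x hx

open Measure in
theorem vol_le {n : ℕ} {s : Set (E n)} {f : E n → E n} (hf : LipschitzOnWith 1 f s) :
    volume (f '' s) ≤ volume s := by
  have h := hf.hausdorffMeasure_image_le (d := (n : ℝ)) (by positivity)
  rw [← EuclideanSpace.euclideanHausdorffMeasure_eq_volume n, Measure.euclideanHausdorffMeasure_def]
  simp only [Measure.smul_apply]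
  have h' : (μH[(n : ℝ)] : Measure (E n)) (f '' s) ≤ (μH[(n : ℝ)] : Measure (E n)) s := by simpa using h
  gcongr

theorem ball_le {n : ℕ} {K : Set (E n)} (hK : IsCompact K) (hne : K.Nonempty) {R : ℝ}
    (hR : K ⊆ Metric.closedBall 0 R) (r : ℝ) :
    volume (Metric.closedBall (0 : E n) r) ≤ volume (G₁ K ∩ Metric.closedBall 0 (r + R)) := by
  have hp : ∀ q : E n, ∃ p ∈ K, ∀ x ∈ K, ‖x - q‖ ≤ ‖p - q‖ := fun q =>
    hK.exists_isMaxOn hne (by fun_prop : ContinuousOn (fun x : E n => ‖x - q‖) K)
  choose p hpK hpm using hp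
  have hexp : ∀ q q' : E n, ‖q - q'‖ ≤ ‖(p q - q) - (p q' - q')‖ := by
    intro q q'
    have h1 := hpm q (p q') (hpK q')
    have h2 := hpm q' (p q) (hpK q)
    set w := p q - q with hw
    set w' := p q' - q' with hw'
    have e1 : p q' - q = w' - (q - q') := by rw [hw']; abel
    have e2 : p q - q' = w + (q - q') := by rw [hw]; abel
    rw [e1] at h1
    rw [e2] at h2
    have h1' : ‖w' - (q - q')‖ ^ 2 ≤ ‖w‖ ^ 2 := by gcongr
    have h2' : ‖w + (q - q')‖ ^ 2 ≤ ‖w'‖ ^ 2 := by gcongr
    rw [norm_sub_sq_real] at h1'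
    rw [norm_add_sq_real] at h2'
    have h3 : ‖q - q'‖ ^ 2 ≤ inner ℝ (w' - w) (q - q') := by
      rw [inner_sub_left]; linarith
    have h4 : inner ℝ (w' - w) (q - q') ≤ ‖w' - w‖ * ‖q - q'‖ := real_inner_le_norm _ _
    rw [norm_sub_rev w w']
    by_cases h0 : ‖q - q'‖ = 0
    · rw [h0]; positivity
    · have h5 : 0 < ‖q - q'‖ := lt_of_le_of_ne (norm_nonneg _) (Ne.symm h0)
      nlinarith
  set W : E n → E n := fun q => p q - q with hW
  have hinj : Function.Injective W := by
    intro q q' h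
    have := hexp q q'
    have h0 : (p q - q) - (p q' - q') = 0 := sub_eq_zero.mpr h
    rw [h0, norm_zero] at this
    exact sub_eq_zero.mp (norm_le_zero_iff.mp this)
  have hlip : LipschitzOnWith 1 (Function.invFun W) (W '' Metric.closedBall (0 : E n) r) := by
    refine LipschitzOnWith.of_dist_le_mul ?_
    rintro _ ⟨q, hq, rfl⟩ _ ⟨q', hq', rfl⟩
    rw [Function.leftInverse_invFun hinj q, Function.leftInverse_invFun hinj q', dist_eq_norm,
      dist_eq_norm]
    simpa using hexp q q'
  have himg : Function.invFun W '' (W '' Metric.closedBall (0 : E n) r) = Metric.closedBall (0 : E n) r := by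
    rw [image_image]
    simp [Function.leftInverse_invFun hinj _]
  have h := vol_le hlip
  rw [himg] at h
  refine h.trans (measure_mono ?_)
  rintro _ ⟨q, hq, rfl⟩
  refine ⟨⟨p q, hpK q, fun x hx => ?_⟩, ?_⟩
  · rw [mem_closedBall_iff_norm]
    have := hpm q x hx
    simpa [hW] using this
  · rw [mem_closedBall_zero_iff]
    have h1 : ‖p q‖ ≤ R := by simpa using hR (hpK q)
    have h2 : ‖q‖ ≤ r := by simpa using hq
    calc ‖p q - q‖ ≤ ‖p q‖ + ‖q‖ := norm_sub_le _ _
      _ ≤ r + R := by linarith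

/-- directions without any touching ball -/
def Bad {n : ℕ} (K : Set (E n)) : Set (E n) := {w | ∀ l : ℝ, 0 < l → l • w ∉ G₁ K}

theorem bad_smul {n : ℕ} {K : Set (E n)} {c : ℝ} (hc : 0 < c) :
    Bad K ∩ Metric.closedBall 0 c = c • (Bad K ∩ Metric.closedBall 0 1) := by
  ext w
  rw [mem_smul_set_iff_inv_smul_mem₀ hc.ne']
  simp only [mem_inter_iff, Bad, mem_ofPred_eq, mem_closedBall_zero_iff, norm_smul, norm_inv,
    Real.norm_eq_abs, abs_of_pos hc]
  refine and_congr ⟨fun h l hl => ?_, fun h l hl => ?_⟩ ?_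
  · rw [smul_smul]
    exact h _ (by positivity)
  · have := h (l * c) (by positivity)
    rwa [smul_smul, mul_assoc, mul_inv_cancel₀ hc.ne', mul_one] at this
  · rw [inv_mul_le_iff₀ hc, mul_one]

theorem bad_inter {n : ℕ} {K : Set (E n)} (hK : IsCompact K) (hne : K.Nonempty) :
    volume (Bad K ∩ Metric.closedBall 0 1) = 0 := by
  obtain ⟨R, hRpos, hR⟩ : ∃ R : ℝ, 0 < R ∧ K ⊆ Metric.closedBall 0 R := by
    obtain ⟨R, hR⟩ := hK.isBounded.subset_closedBall (0 : E n)
    exact ⟨max R 1, by positivity, hR.trans (Metric.closedBall_subset_closedBall (le_max_left _ _))⟩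
  set B := (volume (Metric.closedBall (0 : E n) 1)).toReal with hB
  set b := (volume (Bad K ∩ Metric.closedBall (0 : E n) 1)).toReal with hb
  have hBfin : volume (Metric.closedBall (0 : E n) 1) ≠ ⊤ := measure_closedBall_lt_top.ne
  have hbfin : volume (Bad K ∩ Metric.closedBall (0 : E n) 1) ≠ ⊤ :=
    ((measure_mono inter_subset_right).trans_lt measure_closedBall_lt_top).ne
  have key : ∀ r : ℝ, 0 < r → (r + R) ^ n * b + r ^ n * B ≤ (r + R) ^ n * B := by
    intro r hr
    have hrR : 0 < r + R := by positivity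
    have h1 := ball_le hK hne hR r
    have h2 : volume (Bad K ∩ Metric.closedBall 0 (r + R)) +
        volume (G₁ K ∩ Metric.closedBall 0 (r + R)) ≤ volume (Metric.closedBall (0 : E n) (r + R)) := by
      rw [← measure_union _ ((isClosed_G₁ hK).measurableSet.inter Metric.isClosed_closedBall.measurableSet)]
      · exact measure_mono (union_subset inter_subset_right inter_subset_right)
      · refine disjoint_left.mpr fun w hw hw' => ?_
        have := hw.1 1 one_pos
        rw [one_smul] at this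
        exact this hw'.1
    have h3 : volume (Bad K ∩ Metric.closedBall 0 (r + R)) + volume (Metric.closedBall (0 : E n) r) ≤
        volume (Metric.closedBall (0 : E n) (r + R)) := (by gcongr : _ ≤ _).trans h2
    rw [bad_smul hrR, Measure.addHaar_smul, Measure.addHaar_closedBall' _ _ hr.le,
      Measure.addHaar_closedBall' _ _ hrR.le, finrank_euclideanSpace_fin] at h3
    have h4 := ENNReal.toReal_mono (by finiteness) h3
    rw [ENNReal.toReal_add (by finiteness) (by finiteness), ENNReal.toReal_mul, ENNReal.toReal_mul,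
      ENNReal.toReal_mul, ENNReal.toReal_ofReal (by positivity), ENNReal.toReal_ofReal (by positivity),
      ENNReal.toReal_ofReal (by positivity), abs_of_nonneg (by positivity)] at h4
    exact h4
  have hb0 : b ≤ 0 := by
    have hlim : Tendsto (fun r : ℝ => B * (1 - (r / (r + R)) ^ n)) atTop (𝓝 (B * (1 - 1 ^ n))) := by
      refine Tendsto.const_mul _ (Tendsto.const_sub _ (Tendsto.pow ?_ n))
      have h1 : Tendsto (fun r : ℝ => 1 - R / (r + R)) atTop (𝓝 (1 - 0)) := by
        refine Tendsto.const_sub _ ?_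
        exact (tendsto_atTop_add_const_right _ R tendsto_id).const_div_atTop R
      rw [sub_zero] at h1
      refine h1.congr' ?_
      filter_upwards [eventually_gt_atTop 0] with r hr
      have : r + R ≠ 0 := by positivity
      field_simp
      ring
    rw [one_pow, sub_self, mul_zero] at hlim
    refine ge_of_tendsto hlim ?_
    filter_upwards [eventually_gt_atTop 0] with r hr
    have hk := key r hr
    have hrR : 0 < (r + R) ^ n := by positivity
    rw [div_pow, mul_sub, mul_one]
    have : B * (r ^ n / (r + R) ^ n) = (r ^ n * B) / (r + R) ^ n := by ring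
    rw [this, le_sub_iff_add_le, ← mul_le_mul_iff_right₀ hrR, mul_add, mul_div_cancel₀ _ hrR.ne']
    linarith
  have : b = 0 := le_antisymm hb0 ENNReal.toReal_nonneg
  rw [hb, ENNReal.toReal_eq_zero_iff] at this
  exact this.resolve_right hbfin

theorem bad_null {n : ℕ} {K : Set (E n)} (hK : IsCompact K) (hne : K.Nonempty) :
    volume (Bad K) = 0 := by
  have : Bad K ⊆ ⋃ m : ℕ, (Bad K ∩ Metric.closedBall 0 ((m : ℝ) + 1)) := by
    intro w hw
    obtain ⟨m, hm⟩ := exists_nat_ge ‖w‖
    exact mem_iUnion.mpr ⟨m, hw, by rw [mem_closedBall_zero_iff]; linarith⟩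
  refine measure_mono_null this (measure_iUnion_null fun m => ?_)
  rw [bad_smul (by positivity), Measure.addHaar_smul, bad_inter hK hne, mul_zero]

end BallAE

theorem ball_ae {n : ℕ} {K : Set (E n)} (hK : IsCompact K) (hne : K.Nonempty) :
    ∀ᵐ w : E n, ∃ p ∈ K, ∃ l : ℝ, 0 < l ∧ K ⊆ Metric.closedBall (p - l • w) (l * ‖w‖) := by
  rw [ae_iff]
  refine measure_mono_null ?_ (BallAE.bad_null hK hne)
  intro w hw l hl hG
  refine hw ?_
  obtain ⟨p, hp, h⟩ := hG
  refine ⟨p, hp, l, hl, ?_⟩
  rwa [norm_smul, Real.norm_eq_abs, abs_of_pos hl] at h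

end P56acde
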