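import Pool.Agent.Lib.P56acde.Defs

/-! MODULE CAn (independent): a `C^∞` algebraic function of one variable is analytic.

PROOF.  Flat means `O((x-x₀)^n)` for all `n`.  Let `j` be the least index such that `(∂_v^j P)(x,V(x))` is not flat (`j ≥ 1`, and it exists because
`∂_v^d P = d! a_d(x)` is a nonzero polynomial in `x`), `P₁ = ∂_v^{j-1} P` and `e` the exact order of `(∂_v P₁)(x,V(x))`.  With `T` the Taylor polynomial,
`V = T + O((x-x₀)^{2e+2})`, one has `P₁(x, T + (x-x₀)^{e+1} g) = (x-x₀)^{2e+1} Q(x,g)` with a polynomial `Q`, `Q(x₀,0)=0`, `Q_g(x₀,0) ≠ 0`; the analytic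
implicit function theorem gives `G` with `Q(x,G(x)) = 0`, and `W = T + (x-x₀)^{e+1} G` is analytic with `V - W` flat.  Finally in
`0 = P(x,V) = ∑ (∂_v^i P)(x,W)/i! (V-W)^i` the terms `i < j` vanish (analytic and flat) and the term `i = j` has finite order, so `V = W`. -/

open Polynomial Set Filter Topology Asymptotics

namespace P56acde

private lemma can_pow_isBigO (x₀ : ℝ) {m n : ℕ} (h : m ≤ n) :
    (fun x : ℝ => (x - x₀) ^ n) =O[𝓝 x₀] fun x => (x - x₀) ^ m := by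
  refine IsBigO.of_bound 1 ?_
  filter_upwards [Metric.ball_mem_nhds x₀ one_pos] with x hx
  rw [Metric.mem_ball, Real.dist_eq] at hx
  rw [norm_pow, norm_pow, one_mul, Real.norm_eq_abs]
  exact pow_le_pow_of_le_one (abs_nonneg _) hx.le h

private lemma can_isBigO_div {x₀ : ℝ} {f : ℝ → ℝ} {k n : ℕ}
    (h : (fun x => (x - x₀) ^ k * f x) =O[𝓝[≠] x₀] fun x => (x - x₀) ^ (k + n)) :
    f =O[𝓝[≠] x₀] fun x => (x - x₀) ^ n := by
  obtain ⟨c, hc⟩ := h.bound
  refine IsBigO.of_bound c ?_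
  filter_upwards [hc, self_mem_nhdsWithin] with x hx hne
  have h1 : x - x₀ ≠ 0 := sub_ne_zero.2 hne
  have h2 : 0 < ‖(x - x₀) ^ k‖ := norm_pos_iff.2 (pow_ne_zero _ h1)
  rw [norm_mul, pow_add, norm_mul, ← mul_assoc, mul_comm c, mul_assoc] at hx
  exact le_of_mul_le_mul_left hx h2

private lemma can_punct {x₀ : ℝ} {f g : ℝ → ℝ} (h : f =O[𝓝[≠] x₀] g) (h0 : f x₀ = 0) :
    f =O[𝓝 x₀] g := by
  obtain ⟨c, hc, hb⟩ := h.exists_nonneg
  refine IsBigO.of_bound c ?_
  have := hb.bound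
  rw [eventually_nhdsWithin_iff] at this
  filter_upwards [this] with x hx
  by_cases hxx : x = x₀
  · rw [hxx, h0, norm_zero]; positivity
  · exact hx hxx

private lemma can_dvd_of_isBigO {x₀ : ℝ} (p : ℝ[X]) (n : ℕ)
    (h : (fun x => p.eval x) =O[𝓝 x₀] fun x => (x - x₀) ^ n) : (X - C x₀) ^ n ∣ p := by
  induction n with
  | zero => simp
  | succ n ih =>
    obtain ⟨q, hq⟩ := ih (h.trans (can_pow_isBigO x₀ (Nat.le_succ n)))
    suffices hs : q.eval x₀ = 0 by
      obtain ⟨r, hr⟩ := dvd_iff_isRoot.2 hs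
      exact ⟨r, by rw [hq, hr]; ring⟩
    have h1 : (fun x => q.eval x) =O[𝓝[≠] x₀] fun x => (x - x₀) ^ 1 := by
      apply can_isBigO_div (k := n)
      refine (h.mono nhdsWithin_le_nhds).congr_left fun x => ?_
      rw [hq]; simp
    have h2 : Tendsto (fun x => q.eval x) (𝓝[≠] x₀) (𝓝 0) := by
      refine h1.trans_tendsto ?_
      have : Tendsto (fun x : ℝ => (x - x₀) ^ 1) (𝓝 x₀) (𝓝 ((x₀ - x₀) ^ 1)) :=
        ((continuous_id.sub continuous_const).pow 1).tendsto x₀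
      rw [sub_self, pow_one] at this
      exact this.mono_left nhdsWithin_le_nhds
    have h3 : Tendsto (fun x => q.eval x) (𝓝[≠] x₀) (𝓝 (q.eval x₀)) :=
      q.continuous.continuousAt.mono_left nhdsWithin_le_nhds
    exact tendsto_nhds_unique h3 h2

private lemma can_isBigO_of_dvd {x₀ : ℝ} (p : ℝ[X]) (n : ℕ) (h : (X - C x₀) ^ n ∣ p) :
    (fun x => p.eval x) =O[𝓝 x₀] fun x => (x - x₀) ^ n := by
  obtain ⟨q, rfl⟩ := h
  have h1 : (fun x => q.eval x) =O[𝓝 x₀] fun _ => (1 : ℝ) :=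
    q.continuous.continuousAt.isBigO_one ℝ
  have h2 := (isBigO_refl (fun x : ℝ => (x - x₀) ^ n) (𝓝 x₀)).mul h1
  simpa using h2

/-- all orders flat -/
private def CFlat (x₀ : ℝ) (f : ℝ → ℝ) : Prop := ∀ n : ℕ, f =O[𝓝 x₀] fun x => (x - x₀) ^ n

private lemma can_analytic_flat {x₀ : ℝ} {f : ℝ → ℝ} (hf : AnalyticAt ℝ f x₀) :
    (∀ᶠ x in 𝓝 x₀, f x = 0) ∨ ∃ m : ℕ, (fun x => (x - x₀) ^ m) =O[𝓝 x₀] f := by
  by_cases h : ∀ᶠ x in 𝓝 x₀, f x = 0
  · exact Or.inl h
  · right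
    obtain ⟨m, g, hg, hg0, hfg⟩ := hf.exists_eventuallyEq_pow_smul_nonzero_iff.2 h
    refine ⟨m, ?_⟩
    have h1 : (fun x => (g x)⁻¹) =O[𝓝 x₀] fun _ => (1 : ℝ) :=
      (hg.continuousAt.inv₀ hg0).isBigO_one ℝ
    have h2 := (isBigO_refl f (𝓝 x₀)).mul h1
    simp only [mul_one] at h2
    refine IsBigO.congr' h2 ?_ EventuallyEq.rfl
    filter_upwards [hfg, hg.continuousAt.eventually_ne hg0] with x hx hx0
    rw [hx, smul_eq_mul, mul_assoc, mul_inv_cancel₀ hx0, mul_one]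

private lemma can_not_pow_isBigO (x₀ : ℝ) (m : ℕ) :
    ¬ (fun x : ℝ => (x - x₀) ^ m) =O[𝓝 x₀] fun x => (x - x₀) ^ (m + 1) := by
  intro h
  have h1 := can_dvd_of_isBigO ((X - C x₀) ^ m) (m + 1) (by simpa using h)
  rw [pow_dvd_pow_iff (X_sub_C_ne_zero x₀) (not_isUnit_X_sub_C x₀)] at h1
  omega

private lemma can_contDiff (Q : ℝ[X][X]) {n : WithTop ℕ∞} :
    ContDiff ℝ n (fun q : ℝ × ℝ => evalEval q.1 q.2 Q) := by
  induction Q using Polynomial.induction_on' with
  | add p q hp hq => simpa only [evalEval_add] using hp.add hq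
  | monomial k a =>
    have h : (fun q : ℝ × ℝ => evalEval q.1 q.2 (monomial k a)) =
        fun q => a.eval q.1 * q.2 ^ k := by
      funext q; simp [evalEval, eval_monomial]
    rw [h]
    have ha : ContDiff ℝ n (fun x : ℝ => a.eval x) := by
      apply ContDiff.of_le _ (le_top : n ≤ (⊤ : WithTop ℕ∞))
      exact contDiff_omega_iff_analyticOnNhd.2 (AnalyticOnNhd.eval_polynomial a)
    exact (ha.comp contDiff_fst).mul (contDiff_snd.pow k)

private lemma can_hasDerivAt (Q : ℝ[X][X]) (x y : ℝ) :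
    HasDerivAt (fun y => evalEval x y Q) (evalEval x y (derivative Q)) y := by
  have h : (fun y => evalEval x y Q) = fun y => (Q.map (evalRingHom x)).eval y := by
    funext y; rw [map_evalRingHom_eval]
  rw [h, ← map_evalRingHom_eval, ← derivative_map]
  exact Polynomial.hasDerivAt _ _

private lemma can_strict (Q : ℝ[X][X]) (x₀ y₀ : ℝ) : ∃ F' : ℝ × ℝ →L[ℝ] ℝ,
    HasStrictFDerivAt (fun q : ℝ × ℝ => evalEval q.1 q.2 Q) F' (x₀, y₀) ∧
    fderiv ℝ (fun q : ℝ × ℝ => evalEval q.1 q.2 Q) (x₀, y₀) = F' ∧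
    ∀ s : ℝ, F' (0, s) = s * evalEval x₀ y₀ (derivative Q) := by
  have h1 : HasStrictFDerivAt (fun q : ℝ × ℝ => evalEval q.1 q.2 Q)
      (fderiv ℝ (fun q : ℝ × ℝ => evalEval q.1 q.2 Q) (x₀, y₀)) (x₀, y₀) :=
    (can_contDiff Q (n := 1)).contDiffAt.hasStrictFDerivAt one_ne_zero
  refine ⟨_, h1, rfl, fun s => ?_⟩
  set F' := fderiv ℝ (fun q : ℝ × ℝ => evalEval q.1 q.2 Q) (x₀, y₀)
  have h2 : HasDerivAt (fun y : ℝ => ((x₀ : ℝ), y)) (0, 1) y₀ :=
    (hasDerivAt_const y₀ x₀).prodMk (hasDerivAt_id y₀)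
  have h3 : HasDerivAt (fun y : ℝ => evalEval x₀ y Q) (F' (0, 1)) y₀ :=
    HasFDerivAt.comp_hasDerivAt (l := fun q : ℝ × ℝ => evalEval q.1 q.2 Q) y₀ h1.hasFDerivAt h2
  have h4 := h3.unique (can_hasDerivAt Q x₀ y₀)
  have h5 : ((0, s) : ℝ × ℝ) = s • ((0, 1) : ℝ × ℝ) := by simp
  rw [h5, map_smul, h4, smul_eq_mul]

private lemma can_sub_isBigO (Q : ℝ[X][X]) {x₀ y₀ : ℝ} {f g : ℝ → ℝ}
    (hf : Tendsto f (𝓝 x₀) (𝓝 y₀)) (hg : Tendsto g (𝓝 x₀) (𝓝 y₀)) :
    (fun x => evalEval x (f x) Q - evalEval x (g x) Q) =O[𝓝 x₀] fun x => f x - g x := by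
  obtain ⟨F', h1, -, -⟩ := can_strict Q x₀ y₀
  have ht : Tendsto (fun x => ((x, f x), (x, g x))) (𝓝 x₀) (𝓝 ((x₀, y₀), (x₀, y₀))) :=
    (tendsto_id.prodMk_nhds hf).prodMk_nhds (tendsto_id.prodMk_nhds hg)
  have h2 := h1.isBigO_sub.comp_tendsto ht
  refine h2.trans ?_
  refine IsBigO.of_bound 1 (Eventually.of_forall fun x => ?_)
  simp only [Function.comp_apply, Prod.mk_sub_mk, sub_self, one_mul]
  rw [Prod.norm_def]; simp

private lemma can_isBigO_sub' (Q : ℝ[X][X]) {x₀ y₀ : ℝ} {f g : ℝ → ℝ}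
    (hQ : evalEval x₀ y₀ (derivative Q) ≠ 0)
    (hf : Tendsto f (𝓝 x₀) (𝓝 y₀)) (hg : Tendsto g (𝓝 x₀) (𝓝 y₀)) :
    (fun x => f x - g x) =O[𝓝 x₀] fun x => evalEval x (f x) Q - evalEval x (g x) Q := by
  obtain ⟨F', h1, -, h3⟩ := can_strict Q x₀ y₀
  set c := evalEval x₀ y₀ (derivative Q)
  have ht : Tendsto (fun x => ((x, f x), (x, g x))) (𝓝 x₀) (𝓝 ((x₀, y₀), (x₀, y₀))) :=
    (tendsto_id.prodMk_nhds hf).prodMk_nhds (tendsto_id.prodMk_nhds hg)
  have h2 := h1.isLittleO.comp_tendsto ht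
  have hc : 0 < |c| := abs_pos.2 hQ
  have h4 := h2.bound (half_pos hc)
  refine IsBigO.of_bound (2 / |c|) ?_
  filter_upwards [h4] with x hx
  simp only [Function.comp_apply, Prod.mk_sub_mk, sub_self, h3] at hx
  have h5 : ‖((0 : ℝ), f x - g x)‖ = |f x - g x| := by rw [Prod.norm_def]; simp
  rw [h5, Real.norm_eq_abs] at hx
  rw [Real.norm_eq_abs, Real.norm_eq_abs]
  have h6 : |(f x - g x) * c| ≤ |evalEval x (f x) Q - evalEval x (g x) Q| +
      |evalEval x (f x) Q - evalEval x (g x) Q - (f x - g x) * c| := by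
    have := abs_sub_abs_le_abs_sub ((f x - g x) * c) (evalEval x (f x) Q - evalEval x (g x) Q)
    rw [abs_sub_comm ((f x - g x) * c)] at this
    linarith
  rw [abs_mul] at h6
  rw [div_mul_eq_mul_div, le_div_iff₀ hc]
  linarith

private lemma can_ift (Q : ℝ[X][X]) {x₀ y₀ : ℝ} (h0 : evalEval x₀ y₀ Q = 0)
    (h1 : evalEval x₀ y₀ (derivative Q) ≠ 0) :
    ∃ G : ℝ → ℝ, AnalyticAt ℝ G x₀ ∧ G x₀ = y₀ ∧ ∀ᶠ x in 𝓝 x₀, evalEval x (G x) Q = 0 := by
  obtain ⟨F', hF, hF', hs⟩ := can_strict Q x₀ y₀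
  have cdf : ContDiffAt ℝ (⊤ : WithTop ℕ∞) (fun q : ℝ × ℝ => evalEval q.1 q.2 Q) (x₀, y₀) :=
    (can_contDiff Q).contDiffAt
  have hinv : (fderiv ℝ (fun q : ℝ × ℝ => evalEval q.1 q.2 Q) (x₀, y₀) ∘L
      ContinuousLinearMap.inr ℝ ℝ ℝ).IsInvertible := by
    refine ⟨ContinuousLinearEquiv.unitsEquivAut ℝ (Units.mk0 _ h1), ?_⟩
    ext
    simp [hF', hs]
  refine ⟨cdf.implicitFunction (by simp) hinv, ?_, ?_, ?_⟩
  · have := cdf.contDiffAt_implicitFunction (by simp) hinv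
    exact this.analyticAt
  · exact cdf.implicitFunction_apply_self (by simp) hinv
  · have := cdf.eventually_apply_implicitFunction (by simp) hinv
    simpa [h0] using this

private lemma can_taylor {V : ℝ → ℝ} {x₀ : ℝ} (hV : ContDiffAt ℝ (⊤ : ℕ∞) V x₀) (N : ℕ) :
    ∃ T : ℝ[X], (fun x => V x - T.eval x) =O[𝓝 x₀] fun x => (x - x₀) ^ N := by
  have h1 : ContDiffAt ℝ N V x₀ := hV.of_le (by exact_mod_cast le_top)
  obtain ⟨ε, hε, hball⟩ : ∃ ε > 0, ContDiffOn ℝ N V (Metric.ball x₀ ε) := by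
    have h2 := h1.eventually (by exact_mod_cast WithTop.natCast_ne_top N)
    obtain ⟨ε, hε, h⟩ := Metric.eventually_nhds_iff_ball.1 h2
    exact ⟨ε, hε, fun x hx => (h x hx).contDiffWithinAt⟩
  have h2 := taylor_isLittleO (convex_ball x₀ ε) (Metric.mem_ball_self hε) hball
  rw [IsOpen.nhdsWithin_eq Metric.isOpen_ball (Metric.mem_ball_self hε)] at h2
  refine ⟨∑ k ∈ Finset.range (N + 1), C ((k.factorial : ℝ)⁻¹ *
    iteratedDerivWithin k V (Metric.ball x₀ ε) x₀) * (X - C x₀) ^ k, ?_⟩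
  refine h2.isBigO.congr_left fun x => ?_
  rw [taylor_within_apply, eval_finsetSum]
  congr 1
  apply Finset.sum_congr rfl
  intro k _
  simp only [smul_eq_mul, eval_mul, eval_C, eval_pow, eval_sub, eval_X]
  ring

private lemma can_eval_eval (P : ℝ[X][X]) (T : ℝ[X]) (x : ℝ) :
    (P.eval T).eval x = evalEval x (T.eval x) P := by
  rw [← map_evalRingHom_eval, eval_map]
  exact (eval₂_hom (evalRingHom x) T).symm

private lemma can_map_eval (P : ℝ[X][X]) (z : ℝ[X][X]) (x g : ℝ) :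
    evalEval x g ((P.map (C : ℝ[X] →+* ℝ[X][X])).eval z) = evalEval x (evalEval x g z) P := by
  have h1 : (evalEvalRingHom x g).comp (C : ℝ[X] →+* ℝ[X][X]) = evalRingHom x := by
    ext <;> simp
  have h2 := eval₂_hom (p := P.map (C : ℝ[X] →+* ℝ[X][X])) (evalEvalRingHom x g) z
  rw [eval₂_map, h1, ← eval_map] at h2
  rw [← map_evalRingHom_eval x (evalEval x g z) P]
  exact h2.symm

/-- the desingularisation -/
private lemma can_blow (P₁ : ℝ[X][X]) (T a b : ℝ[X]) (x₀ : ℝ) (e : ℕ)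
    (ha : P₁.eval T = (X - C x₀) ^ (2 * e + 2) * a)
    (hb : (derivative P₁).eval T = (X - C x₀) ^ e * b) :
    ∃ Q : ℝ[X][X], evalEval x₀ 0 Q = 0 ∧ evalEval x₀ 0 (derivative Q) = b.eval x₀ ∧
      ∀ x g : ℝ, evalEval x (T.eval x + (x - x₀) ^ (e + 1) * g) P₁ =
        (x - x₀) ^ (2 * e + 1) * evalEval x g Q := by
  obtain ⟨k, hk⟩ := (P₁.map (C : ℝ[X] →+* ℝ[X][X])).binomExpansion (C T)
    (C ((X - C x₀) ^ (e + 1)) * X)
  refine ⟨C ((X - C x₀) * a) + C b * X + C (X - C x₀) * k * X ^ 2, ?_, ?_, ?_⟩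
  · simp [evalEval]
  · simp [evalEval]
  · intro x g
    have h1 := congrArg (evalEval x g) hk
    rw [evalEval_add, evalEval_add, evalEval_mul, evalEval_mul, can_map_eval, can_map_eval,
      derivative_map, can_map_eval, evalEval_C x g T] at h1
    have e1 : evalEval x (T.eval x) P₁ = (x - x₀) ^ (2 * e + 2) * a.eval x := by
      rw [← can_eval_eval P₁ T x, ha]; simp
    have e2 : evalEval x (T.eval x) (derivative P₁) = (x - x₀) ^ e * b.eval x := by
      rw [← can_eval_eval (derivative P₁) T x, hb]; simp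
    rw [e1, e2] at h1
    have h2 : evalEval x g (C T + C ((X - C x₀) ^ (e + 1)) * X) =
        T.eval x + (x - x₀) ^ (e + 1) * g := by
      simp [evalEval]
    rw [h2] at h1
    rw [h1]
    have h3 : evalEval x g (C ((X - C x₀) * a) + C b * X + C (X - C x₀) * k * X ^ 2) =
        (x - x₀) * a.eval x + b.eval x * g + (x - x₀) * evalEval x g k * g ^ 2 := by
      simp [evalEval]
    rw [h3]
    simp only [eval_pow, eval_sub, eval_X, eval_C, evalEval_pow, evalEval_mul,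
      evalEval_C, evalEval_X]
    ring

private lemma can_expand (P : ℝ[X][X]) (x w h : ℝ) :
    evalEval x (w + h) P = ∑ i ∈ Finset.range (P.natDegree + 1),
      (evalEval x w (derivative^[i] P) / (i.factorial : ℝ)) * h ^ i := by
  set f : ℝ[X] := P.map (evalRingHom x) with hf
  have hdeg : f.natDegree < P.natDegree + 1 := Nat.lt_succ_of_le natDegree_map_le
  rw [← map_evalRingHom_eval, ← hf, add_comm w h, ← taylor_eval,
    eval_eq_sum_range' (by rw [natDegree_taylor]; exact hdeg)]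
  apply Finset.sum_congr rfl
  intro i _
  rw [taylor_coeff]
  congr 1
  rw [eq_div_iff (by positivity), ← map_evalRingHom_eval, ← iterate_derivative_map, ← hf,
    ← factorial_smul_hasseDeriv]
  simp [mul_comm]

private lemma can_flat_iff {x₀ : ℝ} {f g : ℝ → ℝ} (h : CFlat x₀ fun x => f x - g x)
    (hf : CFlat x₀ f) : CFlat x₀ g := fun n =>
  ((hf n).sub (h n)).congr_left fun x => by ring

theorem smooth_alg_analytic {V : ℝ → ℝ} {x₀ : ℝ} (hV : ContDiffAt ℝ (⊤ : ℕ∞) V x₀) (P : ℝ[X][X])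
    (hP : P ≠ 0) (hPV : ∀ᶠ x in 𝓝 x₀, evalEval x (V x) P = 0) : AnalyticAt ℝ V x₀ := by
  classical
  have hVc : Tendsto V (𝓝 x₀) (𝓝 (V x₀)) := hV.continuousAt
  set Φ : ℕ → ℝ → ℝ := fun j x => evalEval x (V x) (derivative^[j] P) with hΦ
  -- not all of them are flat
  have hdeg : ¬ CFlat x₀ (Φ P.natDegree) := by
    intro hflat
    set c : ℝ[X] := (derivative^[P.natDegree] P).coeff 0 with hc
    have h1 : derivative^[P.natDegree] P = C c := by
      apply eq_C_of_natDegree_eq_zero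
      have := natDegree_iterate_derivative P P.natDegree
      omega
    have h2 : c ≠ 0 := by
      rw [hc, coeff_iterate_derivative, zero_add, coeff_natDegree]
      rw [nsmul_eq_mul]
      refine mul_ne_zero ?_ (leadingCoeff_ne_zero.2 hP)
      rw [Nat.descFactorial_self]
      exact_mod_cast Nat.factorial_ne_zero _
    have h3 : (X - C x₀) ^ (c.natDegree + 1) ∣ c := by
      apply can_dvd_of_isBigO
      refine (hflat _).congr_left fun x => ?_
      simp only [hΦ, h1, evalEval_C]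
    have h4 := natDegree_le_of_dvd h3 h2
    rw [natDegree_pow, natDegree_X_sub_C] at h4
    omega
  have hex : ∃ j, ¬ CFlat x₀ (Φ j) := ⟨_, hdeg⟩
  obtain ⟨j, hj, hjle, hjmin⟩ : ∃ j, ¬ CFlat x₀ (Φ j) ∧ j ≤ P.natDegree ∧
      ∀ i < j, CFlat x₀ (Φ i) :=
    ⟨Nat.find hex, Nat.find_spec hex, Nat.find_min' hex hdeg,
      fun i hi => not_not.1 (Nat.find_min hex hi)⟩
  have hj0 : j ≠ 0 := by
    rintro rfl
    apply hj
    intro n
    refine IsBigO.congr' (isBigO_zero _ _) ?_ EventuallyEq.rfl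
    filter_upwards [hPV] with x hx
    simp [hΦ, hx]
  obtain ⟨i, rfl⟩ := Nat.exists_eq_succ_of_ne_zero hj0
  -- the order
  have hex2 : ∃ n : ℕ, ¬ (Φ (i + 1) =O[𝓝 x₀] fun x => (x - x₀) ^ n) := by
    by_contra hcon
    push Not at hcon
    exact hj hcon
  have hcontΦ : ∀ j, ContinuousAt (Φ j) x₀ := fun j =>
    ContinuousAt.comp (g := fun q : ℝ × ℝ => evalEval q.1 q.2 (derivative^[j] P))
      (f := fun x => (x, V x)) (can_contDiff _ (n := 0)).continuous.continuousAt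
      (continuousAt_id.prodMk hVc)
  obtain ⟨e, he, hemin⟩ : ∃ e : ℕ, ¬ (Φ (i + 1) =O[𝓝 x₀] fun x => (x - x₀) ^ (e + 1)) ∧
      (Φ (i + 1) =O[𝓝 x₀] fun x => (x - x₀) ^ e) := by
    have h0 : Nat.find hex2 ≠ 0 := by
      intro h
      have := Nat.find_spec hex2
      rw [h] at this
      apply this
      simpa using (hcontΦ (i + 1)).isBigO_one ℝ
    obtain ⟨e, he⟩ := Nat.exists_eq_succ_of_ne_zero h0
    refine ⟨e, ?_, ?_⟩
    · have := Nat.find_spec hex2
      rwa [he] at this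
    · exact not_not.1 (Nat.find_min hex2 (by omega))
  obtain ⟨T, hT⟩ := can_taylor hV (2 * e + 2)
  have hT0 : T.eval x₀ = V x₀ := by
    obtain ⟨c, hc⟩ := hT.bound
    have := hc.self_of_nhds
    simp only [sub_self, ne_eq, Nat.add_eq_zero_iff, mul_eq_zero, OfNat.ofNat_ne_zero, false_or,
      and_false, not_false_eq_true, zero_pow, norm_zero, mul_zero, norm_le_zero_iff] at this
    linarith
  have hTc : Tendsto (fun x => T.eval x) (𝓝 x₀) (𝓝 (V x₀)) := by
    rw [← hT0]; exact T.continuous.continuousAt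
  set P₁ := derivative^[i] P with hP₁
  have hP₁' : derivative P₁ = derivative^[i + 1] P := by
    rw [hP₁, Function.iterate_succ_apply']
  have hΦi : CFlat x₀ (Φ i) := hjmin i (Nat.lt_succ_self i)
  -- divisibility
  obtain ⟨a, ha⟩ : (X - C x₀) ^ (2 * e + 2) ∣ P₁.eval T := by
    apply can_dvd_of_isBigO
    have h1 := (can_sub_isBigO P₁ hVc hTc).trans hT
    refine ((hΦi (2 * e + 2)).sub h1).congr_left fun x => ?_
    rw [can_eval_eval P₁ T x]
    simp only [hΦ, ← hP₁]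
    ring
  have h2 : (fun x => evalEval x (V x) (derivative P₁) - evalEval x (T.eval x) (derivative P₁))
      =O[𝓝 x₀] fun x => (x - x₀) ^ (2 * e + 2) := (can_sub_isBigO _ hVc hTc).trans hT
  obtain ⟨b, hb⟩ : (X - C x₀) ^ e ∣ (derivative P₁).eval T := by
    apply can_dvd_of_isBigO
    refine (hemin.sub (h2.trans (can_pow_isBigO x₀ (by omega)))).congr_left fun x => ?_
    rw [can_eval_eval (derivative P₁) T x]
    simp only [hΦ, ← hP₁']
    ring
  have hb0 : b.eval x₀ ≠ 0 := by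
    intro hb0
    obtain ⟨r, hr⟩ := dvd_iff_isRoot.2 hb0
    apply he
    have h3 : (fun x => ((derivative P₁).eval T).eval x) =O[𝓝 x₀] fun x => (x - x₀) ^ (e + 1) := by
      apply can_isBigO_of_dvd
      exact ⟨r, by rw [hb, hr]; ring⟩
    refine (h3.add (h2.trans (can_pow_isBigO x₀ (by omega)))).congr_left fun x => ?_
    rw [can_eval_eval (derivative P₁) T x]
    simp only [hΦ, ← hP₁']
    ring
  obtain ⟨Q, hQ0, hQ1, hQ⟩ := can_blow P₁ T a b x₀ e ha hb
  rw [← hQ1] at hb0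
  obtain ⟨G, hGa, hG0, hG⟩ := can_ift Q hQ0 hb0
  have hGc : Tendsto G (𝓝 x₀) (𝓝 0) := by rw [← hG0]; exact hGa.continuousAt
  set W : ℝ → ℝ := fun x => T.eval x + (x - x₀) ^ (e + 1) * G x with hW
  have hWa : AnalyticAt ℝ W x₀ := by
    have h3 : AnalyticAt ℝ (fun x : ℝ => T.eval x) x₀ :=
      AnalyticOnNhd.eval_polynomial T x₀ (mem_univ _)
    exact h3.add (((analyticAt_id.sub analyticAt_const).pow (e + 1)).mul hGa)
  have hW0 : W x₀ = V x₀ := by simp [hW, hT0]
  have hWc : Tendsto W (𝓝 x₀) (𝓝 (V x₀)) := by rw [← hW0]; exact hWa.continuousAt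
  set g : ℝ → ℝ := fun x => (V x - T.eval x) / (x - x₀) ^ (e + 1) with hg
  have hg0 : g x₀ = 0 := by simp [hg]
  have hVg : ∀ x, V x = T.eval x + (x - x₀) ^ (e + 1) * g x := by
    intro x
    by_cases hx : x = x₀
    · rw [hx, hT0]; simp
    · have : (x - x₀) ^ (e + 1) ≠ 0 := pow_ne_zero _ (sub_ne_zero.2 hx)
      simp only [hg]
      field_simp
      ring
  have hgO : g =O[𝓝 x₀] fun x => (x - x₀) ^ (e + 1) := by
    apply can_punct _ hg0
    apply can_isBigO_div (k := e + 1)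
    have h3 : (fun x => V x - T.eval x) =O[𝓝[≠] x₀] fun x => (x - x₀) ^ (e + 1 + (e + 1)) := by
      have : e + 1 + (e + 1) = 2 * e + 2 := by ring
      rw [this]; exact hT.mono nhdsWithin_le_nhds
    refine h3.congr_left fun x => ?_
    have := hVg x
    linarith
  have htend : ∀ n : ℕ, n ≠ 0 → Tendsto (fun x : ℝ => (x - x₀) ^ n) (𝓝 x₀) (𝓝 0) := by
    intro n hn
    have : Tendsto (fun x : ℝ => (x - x₀) ^ n) (𝓝 x₀) (𝓝 ((x₀ - x₀) ^ n)) :=
      ((continuous_id.sub continuous_const).pow n).tendsto x₀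
    rwa [sub_self, zero_pow hn] at this
  have hgc : Tendsto g (𝓝 x₀) (𝓝 0) := hgO.trans_tendsto (htend _ (Nat.succ_ne_zero e))
  have hQg : CFlat x₀ fun x => evalEval x (g x) Q := by
    intro n
    apply can_punct _ (by rw [hg0, hQ0])
    apply can_isBigO_div (k := 2 * e + 1)
    refine ((hΦi (2 * e + 1 + n)).mono nhdsWithin_le_nhds).congr_left fun x => ?_
    rw [← hQ, ← hVg x]
  have hh : CFlat x₀ fun x => V x - W x := by
    intro n
    have h3 : (fun x => g x - G x) =O[𝓝 x₀] fun x => (x - x₀) ^ n := by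
      refine (can_isBigO_sub' Q hb0 hgc hGc).trans ?_
      refine IsBigO.congr' (hQg n) ?_ EventuallyEq.rfl
      filter_upwards [hG] with x hx
      rw [hx, sub_zero]
    have h4 : (fun x : ℝ => (x - x₀) ^ (e + 1)) =O[𝓝 x₀] fun _ => (1 : ℝ) := by
      simpa using can_pow_isBigO x₀ (Nat.zero_le (e + 1))
    have h5 := h4.mul h3
    simp only [one_mul] at h5
    refine h5.congr_left fun x => ?_
    have := hVg x
    simp only [hW]
    linarith
  -- final step
  set c : ℕ → ℝ → ℝ := fun k x => evalEval x (W x) (derivative^[k] P) with hc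
  have hca : ∀ k, AnalyticAt ℝ (c k) x₀ := by
    intro k
    have h3 : ContDiffAt ℝ (⊤ : WithTop ℕ∞) (c k) x₀ :=
      ContDiffAt.comp (g := fun q : ℝ × ℝ => evalEval q.1 q.2 (derivative^[k] P))
        (f := fun x => (x, W x)) x₀ (can_contDiff _).contDiffAt
        (contDiffAt_id.prodMk hWa.contDiffAt)
    exact h3.analyticAt
  have hcΦ : ∀ k, CFlat x₀ fun x => Φ k x - c k x := fun k n =>
    (can_sub_isBigO (derivative^[k] P) hVc hWc).trans (hh n)
  have hclow : ∀ k < i + 1, ∀ᶠ x in 𝓝 x₀, c k x = 0 := by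
    intro k hk
    have h3 : CFlat x₀ (c k) := can_flat_iff (hcΦ k) (hjmin k hk)
    rcases can_analytic_flat (hca k) with h | ⟨m, hm⟩
    · exact h
    · exact absurd (hm.trans (h3 (m + 1))) (can_not_pow_isBigO x₀ m)
  obtain ⟨m, hm⟩ : ∃ m : ℕ, (fun x => (x - x₀) ^ m) =O[𝓝 x₀] c (i + 1) := by
    rcases can_analytic_flat (hca (i + 1)) with h | h
    · exfalso
      apply hj
      have h3 : CFlat x₀ fun x => c (i + 1) x - Φ (i + 1) x := fun n =>
        ((hcΦ (i + 1) n).neg_left).congr_left fun x => by ring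
      refine can_flat_iff h3 fun n => ?_
      exact IsBigO.congr' (isBigO_zero _ _) (h.mono fun x hx => by simp [hx]) EventuallyEq.rfl
    · exact h
  set d := P.natDegree with hd
  set K : ℝ → ℝ := fun x => ∑ k ∈ Finset.range (d - (i + 1)),
    c (i + 2 + k) x / ((i + 2 + k).factorial : ℝ) * (V x - W x) ^ k with hK
  have hKO : K =O[𝓝 x₀] fun _ => (1 : ℝ) := by
    have h3 : ContinuousAt K x₀ := by
      apply tendsto_finsetSum
      intro k _
      exact (((hca _).continuousAt.tendsto.div_const _).mul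
        ((hV.continuousAt.tendsto.sub hWa.continuousAt.tendsto).pow k))
    exact h3.isBigO_one ℝ
  -- P(x,V) = h^(i+1) (c_{i+1}/(i+1)! + h K)
  have hfac : ((i + 1).factorial : ℝ) ≠ 0 := by positivity
  have hsum : ∀ᶠ x in 𝓝 x₀, (V x - W x) ^ (i + 1) *
      (c (i + 1) x / ((i + 1).factorial : ℝ) + (V x - W x) * K x) = 0 := by
    have hlow : ∀ᶠ x in 𝓝 x₀, ∀ k ∈ Finset.range (i + 1), c k x = 0 :=
      (Finset.range (i + 1)).eventually_all.2 fun k hk => hclow k (Finset.mem_range.1 hk)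
    filter_upwards [hPV, hlow] with x hx hlow
    have h3 := can_expand P x (W x) (V x - W x)
    rw [add_sub_cancel, hx, ← hd] at h3
    have h4 : d + 1 = (i + 1) + (1 + (d - (i + 1))) := by omega
    rw [h4, Finset.sum_range_add _ (i + 1) (1 + (d - (i + 1))),
      Finset.sum_range_add _ 1 (d - (i + 1))] at h3
    rw [Finset.sum_eq_zero (s := Finset.range (i + 1)), zero_add, Finset.sum_range_one] at h3
    · rw [mul_add, hK]
      simp only
      rw [Finset.mul_sum, Finset.mul_sum]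
      rw [h3]
      congr 1
      · simp only [hc, add_zero]; ring
      · apply Finset.sum_congr rfl
        intro k _
        have : i + 1 + (1 + k) = i + 2 + k := by ring
        rw [this]
        simp only [hc]
        rw [pow_add, pow_add]
        ring
    · intro k hk
      have := hlow k hk
      simp only [hc] at this
      rw [this]; simp
  -- near x₀ the second factor does not vanish
  have hne : ∀ᶠ x in 𝓝[≠] x₀, c (i + 1) x / ((i + 1).factorial : ℝ) + (V x - W x) * K x ≠ 0 := by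
    have h3 : (fun x => (V x - W x) * K x) =O[𝓝 x₀] fun x => (x - x₀) ^ (m + 1) := by
      simpa using (hh (m + 1)).mul hKO
    have h4 : (fun x => (x - x₀) ^ m) =O[𝓝 x₀] fun x => c (i + 1) x / ((i + 1).factorial : ℝ) := by
      refine hm.trans ?_
      refine IsBigO.of_bound ((i + 1).factorial : ℝ) (Eventually.of_forall fun x => ?_)
      rw [norm_div, Real.norm_of_nonneg (by positivity : (0 : ℝ) ≤ ((i + 1).factorial : ℝ)),
        mul_div_cancel₀ _ hfac]
    obtain ⟨A, hA0, hA⟩ := h3.exists_pos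
    obtain ⟨B, hB0, hB⟩ := h4.exists_pos
    have h5 : ∀ᶠ x in 𝓝[≠] x₀, x ∈ Metric.ball x₀ (1 / (A * B)) :=
      mem_nhdsWithin_of_mem_nhds (Metric.ball_mem_nhds x₀ (by positivity : 0 < 1 / (A * B)))
    filter_upwards [hA.bound.filter_mono nhdsWithin_le_nhds,
      hB.bound.filter_mono nhdsWithin_le_nhds, h5, self_mem_nhdsWithin] with x hxA hxB hxb hxne
    intro h0
    have h6 : ‖c (i + 1) x / ((i + 1).factorial : ℝ)‖ = ‖(V x - W x) * K x‖ := by
      rw [eq_neg_of_add_eq_zero_left h0, norm_neg]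
    have hpos : 0 < |x - x₀| := abs_pos.2 (sub_ne_zero.2 hxne)
    rw [h6] at hxB
    rw [norm_pow, Real.norm_eq_abs] at hxA hxB
    rw [Metric.mem_ball, Real.dist_eq, lt_div_iff₀ (by positivity)] at hxb
    have h7 : |x - x₀| ^ m ≤ B * (A * |x - x₀| ^ (m + 1)) :=
      hxB.trans (mul_le_mul_of_nonneg_left hxA hB0.le)
    have h8 : 0 < |x - x₀| ^ m := pow_pos hpos m
    rw [pow_succ] at h7
    nlinarith
  have hVW : V =ᶠ[𝓝 x₀] W := by
    have h3 : ∀ᶠ x in 𝓝[≠] x₀, V x = W x := by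
      filter_upwards [hne, hsum.filter_mono nhdsWithin_le_nhds] with x hx1 hx2
      rcases mul_eq_zero.1 hx2 with h | h
      · exact sub_eq_zero.1 (pow_eq_zero_iff (Nat.succ_ne_zero i) |>.1 h)
      · exact absurd h hx1
    rw [eventually_nhdsWithin_iff] at h3
    filter_upwards [h3] with x hx
    by_cases hxx : x = x₀
    · rw [hxx, hW0]
    · exact hx hxx
  exact hWa.congr hVW.symm

end P56acde
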