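import Pool.Agent.Lib.P56acde.Defs

/-! MODULE CTAn (elementary analysis of the Cauchy transform; independent). -/

open Polynomial Set

namespace P56acde

theorem seg_isCompact (a b : ℝ) : IsCompact (seg a b) :=
  isCompact_Icc.image Complex.continuous_ofReal

theorem seg_compl_isOpen (a b : ℝ) : IsOpen (seg a b)ᶜ :=
  (seg_isCompact a b).isClosed.isOpen_compl

theorem mem_seg {a b : ℝ} {z : ℂ} : z ∈ seg a b ↔ z.im = 0 ∧ a ≤ z.re ∧ z.re ≤ b := by
  constructor
  · rintro ⟨u, hu, rfl⟩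
    exact ⟨by simp, by simpa using hu.1, by simpa using hu.2⟩
  · rintro ⟨h0, h1, h2⟩
    exact ⟨z.re, ⟨h1, h2⟩, Complex.ext (by simp) (by simp [h0])⟩

/-- Every point off the segment can be moved radially to infinity, and `{|z| > R}` is connected. -/
theorem seg_compl_isPreconnected (a b : ℝ) (hab : a ≤ b) : IsPreconnected (seg a b)ᶜ := by
  have hU : IsPreconnected {z : ℂ | 0 < z.im} := (convex_halfSpace_im_gt 0).isPreconnected
  have hL : IsPreconnected {z : ℂ | z.im < 0} := (convex_halfSpace_im_lt 0).isPreconnected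
  have hl : IsPreconnected {z : ℂ | z.re < a} := (convex_halfSpace_re_lt a).isPreconnected
  have hr : IsPreconnected {z : ℂ | b < z.re} := (convex_halfSpace_re_gt b).isPreconnected
  have h1 : IsPreconnected ({z : ℂ | 0 < z.im} ∪ {z : ℂ | z.re < a}) :=
    IsPreconnected.union (⟨a - 1, 1⟩ : ℂ) (by simp) (by simp) hU hl
  have h2 : IsPreconnected (({z : ℂ | 0 < z.im} ∪ {z : ℂ | z.re < a}) ∪ {z : ℂ | z.im < 0}) :=
    IsPreconnected.union (⟨a - 1, -1⟩ : ℂ) (by simp) (by simp) h1 hL
  have h3 : IsPreconnected ((({z : ℂ | 0 < z.im} ∪ {z : ℂ | z.re < a}) ∪ {z : ℂ | z.im < 0}) ∪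
      {z : ℂ | b < z.re}) :=
    IsPreconnected.union (⟨b + 1, 1⟩ : ℂ) (by simp) (by simp) h2 hr
  convert h3 using 1
  ext z
  simp only [mem_compl_iff, mem_seg, mem_union, mem_ofPred_eq, not_and_or, not_le]
  constructor
  · rintro (h | h | h)
    · rcases lt_or_gt_of_ne h with h | h <;> tauto
    · tauto
    · tauto
  · rintro (((h | h) | h) | h)
    · exact Or.inl h.ne'
    · tauto
    · exact Or.inl h.ne
    · tauto

/-- the continuous extension of `B` -/
theorem exists_cont {a b : ℝ} (hab : a ≤ b) {B : ℝ → ℝ} (hB : ContinuousOn B (Icc a b)) :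
    ∃ B' : ℝ → ℝ, Continuous B' ∧ (∀ t ∈ Icc a b, B' t = B t) ∧
      ∃ M : ℝ, 0 ≤ M ∧ ∀ t, |B' t| ≤ M := by
  refine ⟨IccExtend hab ((Icc a b).domRestrict B), ?_, ?_, ?_⟩
  · exact (continuousOn_iff_continuous_domRestrict.mp hB).Icc_extend'
  · intro t ht
    rw [IccExtend_of_mem hab _ ht]
    rfl
  · obtain ⟨M, hM⟩ := isCompact_Icc.exists_bound_of_continuousOn hB
    refine ⟨max M 0, le_max_right _ _, fun t => ?_⟩
    simp only [IccExtend, Function.comp_apply]
    exact (hM _ (projIcc a b hab t).2).trans (le_max_left _ _)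

theorem CT_congr {a b : ℝ} (hab : a ≤ b) {B B' : ℝ → ℝ} (h : ∀ t ∈ Icc a b, B' t = B t) (z : ℂ) :
    CT a b B z = CT a b B' z := by
  unfold CT
  refine intervalIntegral.integral_congr fun t ht => ?_
  rw [uIcc_of_le hab] at ht
  simp only [h t ht]

theorem CT_differentiableOn {a b : ℝ} (hab : a ≤ b) {B : ℝ → ℝ} (hB : ContinuousOn B (Icc a b)) :
    DifferentiableOn ℂ (CT a b B) (seg a b)ᶜ := by
  obtain ⟨B', hB'c, hB', M, hM0, hM⟩ := exists_cont hab hB
  have hfun : CT a b B = CT a b B' := funext fun z => CT_congr hab hB' z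
  rw [hfun]
  intro z₀ hz₀
  refine DifferentiableAt.differentiableWithinAt ?_
  have hopen := seg_compl_isOpen a b
  obtain ⟨ε, hε, hball⟩ := Metric.isOpen_iff.mp hopen z₀ hz₀
  have hdist : ∀ u ∈ Icc a b, ∀ z ∈ Metric.ball z₀ (ε / 2), ε / 2 ≤ ‖(u : ℂ) - z‖ := by
    intro u hu z hz
    have h1 : (u : ℂ) ∉ Metric.ball z₀ ε := fun h => hball h ⟨u, hu, rfl⟩
    rw [Metric.mem_ball, not_lt, dist_eq_norm] at h1
    rw [Metric.mem_ball, dist_eq_norm] at hz
    have h2 : ‖(u : ℂ) - z₀‖ ≤ ‖(u : ℂ) - z‖ + ‖z - z₀‖ := by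
      have := norm_add_le ((u : ℂ) - z) (z - z₀)
      simpa using this
    linarith
  have hne : ∀ u ∈ Icc a b, ∀ z ∈ Metric.ball z₀ (ε / 2), (u : ℂ) - z ≠ 0 := by
    intro u hu z hz h0
    have := hdist u hu z hz
    rw [h0, norm_zero] at this
    linarith
  have hsub : uIoc a b ⊆ Icc a b := by rw [uIoc_of_le hab]; exact Ioc_subset_Icc_self
  have hcontF : ∀ z ∈ Metric.ball z₀ (ε / 2), ContinuousOn (fun u : ℝ => (B' u : ℂ) / ((u : ℂ) - z)) (Icc a b) := by
    intro z hz
    refine ContinuousOn.div (by fun_prop) (by fun_prop) fun u hu => hne u hu z hz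
  have hcontF' : ∀ z ∈ Metric.ball z₀ (ε / 2),
      ContinuousOn (fun u : ℝ => (B' u : ℂ) / ((u : ℂ) - z) ^ 2) (Icc a b) := by
    intro z hz
    refine ContinuousOn.div (by fun_prop) (by fun_prop) fun u hu => pow_ne_zero _ (hne u hu z hz)
  have hz₀' : z₀ ∈ Metric.ball z₀ (ε / 2) := Metric.mem_ball_self (by positivity)
  have key := intervalIntegral.hasDerivAt_integral_of_dominated_loc_of_deriv_le
    (μ := MeasureTheory.volume) (a := a) (b := b) (F := fun z u => (B' u : ℂ) / ((u : ℂ) - z))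
    (F' := fun z u => (B' u : ℂ) / ((u : ℂ) - z) ^ 2) (x₀ := z₀) (s := Metric.ball z₀ (ε / 2))
    (bound := fun _ => M / (ε / 2) ^ 2) (Metric.ball_mem_nhds z₀ (by positivity)) ?_ ?_ ?_ ?_ ?_ ?_
  · exact key.2.differentiableAt
  · filter_upwards [Metric.ball_mem_nhds z₀ (half_pos hε)] with z hz
    exact ((hcontF z hz).aestronglyMeasurable measurableSet_Icc).mono_measure
      (MeasureTheory.Measure.restrict_mono hsub le_rfl)
  · refine ContinuousOn.intervalIntegrable ?_
    rw [uIcc_of_le hab]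
    exact hcontF z₀ hz₀'
  · exact ((hcontF' z₀ hz₀').aestronglyMeasurable measurableSet_Icc).mono_measure
      (MeasureTheory.Measure.restrict_mono hsub le_rfl)
  · refine Filter.Eventually.of_forall fun u hu z hz => ?_
    rw [norm_div, norm_pow, Complex.norm_real, Real.norm_eq_abs]
    have h1 := hdist u (hsub hu) z hz
    gcongr
    exact hM u
  · exact intervalIntegrable_const
  · refine Filter.Eventually.of_forall fun u hu z hz => ?_
    have h1 : HasDerivAt (fun z : ℂ => (u : ℂ) - z) (-1) z := by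
      simpa using (hasDerivAt_id z).const_sub (u : ℂ)
    have h2 := (h1.inv (hne u (hsub hu) z hz)).const_mul (B' u : ℂ)
    have e1 : (fun x : ℂ => (B' u : ℂ) / ((u : ℂ) - x)) =
        fun y => (B' u : ℂ) * (fun z : ℂ => (u : ℂ) - z)⁻¹ y := by
      ext y
      simp only [Pi.inv_apply, div_eq_mul_inv]
    have e2 : (B' u : ℂ) / ((u : ℂ) - z) ^ 2 = (B' u : ℂ) * (- -1 / ((u : ℂ) - z) ^ 2) := by ring
    rw [e1, e2]
    exact h2

theorem CT_hasSum {a b : ℝ} (hab : a ≤ b) {B : ℝ → ℝ} (hB : ContinuousOn B (Icc a b)) {R : ℝ}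
    (ha : |a| ≤ R) (hb : |b| ≤ R) {z : ℂ} (hz : R < ‖z‖) :
    HasSum (fun k : ℕ => - ((∫ t in a..b, t ^ k * B t : ℝ) : ℂ) / z ^ (k + 1)) (CT a b B z) := by
  obtain ⟨B', hB'c, hB', M, hM0, hM⟩ := exists_cont hab hB
  have hR : 0 ≤ R := (abs_nonneg a).trans ha
  have hz0 : 0 < ‖z‖ := hR.trans_lt hz
  have hzne : z ≠ 0 := norm_pos_iff.mp hz0
  have hsub : uIoc a b ⊆ Icc a b := by rw [uIoc_of_le hab]; exact Ioc_subset_Icc_self
  have habs : ∀ u ∈ Icc a b, |u| ≤ R := by
    intro u hu
    rw [abs_le] at *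
    exact ⟨ha.1.trans hu.1, hu.2.trans hb.2⟩
  rw [CT_congr hab hB' z]
  have hterm : ∀ k : ℕ, - ((∫ t in a..b, t ^ k * B t : ℝ) : ℂ) / z ^ (k + 1) =
      ∫ t in a..b, -((t : ℂ) ^ k * (B' t : ℂ)) / z ^ (k + 1) := by
    intro k
    rw [intervalIntegral.integral_div, intervalIntegral.integral_neg]
    congr 2
    rw [← intervalIntegral.integral_ofReal]
    refine intervalIntegral.integral_congr fun t ht => ?_
    rw [uIcc_of_le hab] at ht
    simp only [← hB' t ht]
    push_cast
    ring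
  simp_rw [hterm]
  unfold CT
  refine intervalIntegral.hasSum_integral_of_dominated_convergence
    (fun k _ => M / ‖z‖ * (R / ‖z‖) ^ k) ?_ ?_ ?_ ?_ ?_
  · intro k
    refine Continuous.aestronglyMeasurable ?_
    fun_prop
  · intro k
    refine Filter.Eventually.of_forall fun u hu => ?_
    rw [norm_div, norm_neg, norm_mul, norm_pow, norm_pow, Complex.norm_real, Complex.norm_real,
      Real.norm_eq_abs, Real.norm_eq_abs]
    have h1 := habs u (hsub hu)
    calc |u| ^ k * |B' u| / ‖z‖ ^ (k + 1) ≤ R ^ k * M / ‖z‖ ^ (k + 1) := by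
          gcongr
          exact hM u
      _ = M / ‖z‖ * (R / ‖z‖) ^ k := by
          rw [div_pow, pow_succ]
          field_simp
  · refine Filter.Eventually.of_forall fun u _ => ?_
    refine (summable_geometric_of_lt_one (by positivity) ?_).mul_left _
    exact (div_lt_one hz0).mpr hz
  · exact intervalIntegrable_const
  · refine Filter.Eventually.of_forall fun u hu => ?_
    have h1 : ‖(u : ℂ) / z‖ < 1 := by
      rw [norm_div, div_lt_one hz0, Complex.norm_real, Real.norm_eq_abs]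
      exact (habs u (hsub hu)).trans_lt hz
    have h2 := (hasSum_geometric_of_norm_lt_one h1).mul_left (-(B' u : ℂ) / z)
    have hne : (u : ℂ) - z ≠ 0 := by
      intro h0
      rw [sub_eq_zero] at h0
      rw [h0, div_self hzne, norm_one] at h1
      exact lt_irrefl _ h1
    have hne' : z - (u : ℂ) ≠ 0 := by
      intro h0; apply hne; rw [← neg_sub, h0, neg_zero]
    have e1 : (fun k : ℕ => -((u : ℂ) ^ k * (B' u : ℂ)) / z ^ (k + 1)) =
        fun k : ℕ => -(B' u : ℂ) / z * ((u : ℂ) / z) ^ k := by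
      ext k
      rw [div_pow, pow_succ]
      field_simp
    have e2 : (B' u : ℂ) / ((u : ℂ) - z) = -(B' u : ℂ) / z * (1 - (u : ℂ) / z)⁻¹ := by
      have : (1 : ℂ) - u / z = (z - u) / z := by field_simp
      rw [this, inv_div]
      field_simp
      ring
    rw [e1, e2]
    exact h2

/-- A series in `1/z` with geometrically bounded coefficients is analytic outside a disc. -/
theorem series_differentiableOn {M : ℕ → ℂ} {C R : ℝ} (hR : 0 ≤ R) (hM : ∀ k, ‖M k‖ ≤ C * R ^ k) :
    ∃ F : ℂ → ℂ, (∀ z, R < ‖z‖ → HasSum (fun k : ℕ => - M k / z ^ (k + 1)) (F z)) ∧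
      DifferentiableOn ℂ F {z | R < ‖z‖} := by
  have hC : 0 ≤ C := by
    have := (norm_nonneg _).trans (hM 0)
    simpa using this
  have hbound : ∀ R' : ℝ, R < R' → ∀ (k : ℕ) (w : ℂ), w ∈ {z : ℂ | R' < ‖z‖} →
      ‖- M k / w ^ (k + 1)‖ ≤ C / R' * (R / R') ^ k := by
    intro R' hR' k w hw
    have hR'0 : 0 < R' := hR.trans_lt hR'
    have hw' : R' < ‖w‖ := hw
    rw [norm_div, norm_neg, norm_pow]
    calc ‖M k‖ / ‖w‖ ^ (k + 1) ≤ C * R ^ k / R' ^ (k + 1) := by
          gcongr
          exact hM k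
      _ = C / R' * (R / R') ^ k := by
          rw [div_pow, pow_succ]
          field_simp
  have hsummable : ∀ R' : ℝ, R < R' → Summable fun k : ℕ => C / R' * (R / R') ^ k := by
    intro R' hR'
    have hR'0 : 0 < R' := hR.trans_lt hR'
    exact (summable_geometric_of_lt_one (by positivity) ((div_lt_one hR'0).mpr hR')).mul_left _
  refine ⟨fun z => ∑' k : ℕ, - M k / z ^ (k + 1), ?_, ?_⟩
  · intro z hz
    obtain ⟨R', h1, h2⟩ := exists_between hz
    refine Summable.hasSum ?_
    exact Summable.of_norm_bounded (hsummable R' h1) fun k => hbound R' h1 k z h2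
  · intro z hz
    obtain ⟨R', h1, h2⟩ := exists_between (show R < ‖z‖ from hz)
    have hopen : IsOpen {z : ℂ | R' < ‖z‖} := isOpen_lt continuous_const continuous_norm
    have h3 := Complex.differentiableOn_tsum_of_summable_norm (hsummable R' h1)
      (F := fun (k : ℕ) (z : ℂ) => - M k / z ^ (k + 1)) (U := {z : ℂ | R' < ‖z‖}) ?_ hopen
      (fun k w hw => hbound R' h1 k w hw)
    · exact (h3.differentiableAt (hopen.mem_nhds h2)).differentiableWithinAt
    · intro k
      refine DifferentiableOn.div (by fun_prop) (by fun_prop) fun w hw => ?_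
      have : (0 : ℝ) < ‖w‖ := (hR.trans_lt h1).trans hw
      exact pow_ne_zero _ (norm_pos_iff.mp this)

theorem outer_isPreconnected (R : ℝ) : IsPreconnected {z : ℂ | R < ‖z‖} := by
  by_cases hR : R < 0
  · have : {z : ℂ | R < ‖z‖} = univ := by
      ext z
      simp only [mem_ofPred_eq, mem_univ, iff_true]
      exact hR.trans_le (norm_nonneg z)
    rw [this]
    exact isPreconnected_univ
  · push Not at hR
    have h1 : IsPreconnected (Ioi R ×ˢ (univ : Set ℝ)) := isPreconnected_Ioi.prod isPreconnected_univ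
    have h2 := h1.image (fun q : ℝ × ℝ => (q.1 : ℂ) * Complex.exp (q.2 * Complex.I)) (by fun_prop)
    convert h2 using 1
    ext z
    simp only [mem_ofPred_eq, mem_image, mem_prod, mem_Ioi, mem_univ, and_true, Prod.exists]
    constructor
    · intro hz
      exact ⟨‖z‖, Complex.arg z, hz, Complex.norm_mul_exp_arg_mul_I z⟩
    · rintro ⟨r, θ, hr, rfl⟩
      rw [norm_mul, Complex.norm_exp_ofReal_mul_I, mul_one, Complex.norm_real, Real.norm_eq_abs]
      exact hr.trans_le (le_abs_self r)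

end P56acde
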