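import Pool.Agent.Lib.P56acde.Defs

/-! MODULE RExt (independent): local complexification of real analytic functions of one variable. -/

open Polynomial Filter Topology

namespace P56acde

/-- Real analytic functions have local complex analytic extensions. -/
theorem realExt {V : ℝ → ℝ} {τ : ℝ} (hV : AnalyticAt ℝ V τ) :
    ∃ W : ℂ → ℂ, AnalyticAt ℂ W τ ∧ ∀ᶠ t : ℝ in 𝓝 τ, W t = V t := by
  set c : ℕ → ℝ := fun n => iteratedDeriv n V τ / n.factorial with hc
  have h1 : HasFPowerSeriesAt V (FormalMultilinearSeries.ofScalars ℝ c) τ := hV.hasFPowerSeriesAt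
  set q : FormalMultilinearSeries ℂ ℂ ℂ :=
    FormalMultilinearSeries.ofScalars ℂ (fun n => (c n : ℂ)) with hq
  have hrad : q.radius = (FormalMultilinearSeries.ofScalars ℝ c).radius := by
    unfold FormalMultilinearSeries.radius
    simp only [hq, FormalMultilinearSeries.ofScalars_norm, Complex.norm_real]
  have hpos : 0 < q.radius := by
    rw [hrad]
    exact h1.radius_pos
  have h2 : HasFPowerSeriesOnBall q.sum q 0 q.radius := q.hasFPowerSeriesOnBall hpos
  have h3 : HasFPowerSeriesAt (fun z => q.sum (z - (τ : ℂ))) q τ := by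
    have := h2.hasFPowerSeriesAt.comp_sub (τ : ℂ)
    simpa using this
  refine ⟨fun z => q.sum (z - τ), h3.analyticAt, ?_⟩
  have h4 := h3.eventually_hasSum_sub
  have h5 : ∀ᶠ t : ℝ in 𝓝 τ, HasSum (fun n => q n fun _ => ((t : ℂ) - τ)) (q.sum ((t : ℂ) - τ)) :=
    (Complex.continuous_ofReal.tendsto τ).eventually h4
  filter_upwards [h5, h1.eventually_hasSum_sub] with t ht1 ht2
  have ht3 : HasSum (fun n => q n fun _ => ((t : ℂ) - τ)) ((V t : ℝ) : ℂ) := by
    have h6 := Complex.hasSum_ofReal.mpr ht2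
    have e : (fun n => q n fun _ => ((t : ℂ) - τ)) = fun n =>
        (((FormalMultilinearSeries.ofScalars ℝ c) n (fun _ => t - τ) : ℝ) : ℂ) := by
      funext n
      simp only [hq, FormalMultilinearSeries.ofScalars_apply_eq, smul_eq_mul]
      push_cast
      rfl
    rw [e]
    exact h6
  exact ht1.unique ht3

theorem realExt_iteratedDeriv {V : ℝ → ℝ} {W : ℂ → ℂ} {τ : ℝ} (hV : AnalyticAt ℝ V τ)
    (hW : AnalyticAt ℂ W τ) (h : ∀ᶠ t : ℝ in 𝓝 τ, W t = V t) (j : ℕ) :
    ∀ᶠ t : ℝ in 𝓝 τ, iteratedDeriv j W t = ((iteratedDeriv j V t : ℝ) : ℂ) := by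
  induction j generalizing V W with
  | zero => simpa using h
  | succ j ih =>
    simp only [iteratedDeriv_succ']
    refine ih hV.deriv hW.deriv ?_
    have h1 : ∀ᶠ t : ℝ in 𝓝 τ, AnalyticAt ℂ W t :=
      (Complex.continuous_ofReal.tendsto τ).eventually hW.eventually_analyticAt
    filter_upwards [eventually_eventually_nhds.mpr h, hV.eventually_analyticAt, h1] with t ht1 ht2 ht3
    have e1 : HasDerivAt (fun s : ℝ => W s) (deriv W t) t :=
      (ht3.differentiableAt.hasDerivAt).comp_ofReal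
    have e2 : HasDerivAt (fun s : ℝ => ((V s : ℝ) : ℂ)) ((deriv V t : ℝ) : ℂ) t :=
      (ht2.differentiableAt.hasDerivAt).ofReal_comp
    exact (e1.congr_of_eventuallyEq (ht1.mono fun s hs => hs.symm)).unique e2

/-- Identity theorem along a one-sided real neighbourhood. -/
theorem eq_of_real {f g : ℂ → ℂ} {τ : ℝ} (hf : AnalyticAt ℂ f τ) (hg : AnalyticAt ℂ g τ)
    (h : ∃ᶠ t : ℝ in 𝓝[≠] τ, f t = g t) : f =ᶠ[𝓝 (τ : ℂ)] g := by
  refine (hf.frequently_eq_iff_eventually_eq hg).mp ?_
  have ht : Tendsto (fun t : ℝ => (t : ℂ)) (𝓝[≠] τ) (𝓝[≠] (τ : ℂ)) := by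
    refine tendsto_nhdsWithin_of_tendsto_nhds_of_eventually_within _
      ((Complex.continuous_ofReal.tendsto τ).mono_left nhdsWithin_le_nhds) ?_
    filter_upwards [self_mem_nhdsWithin] with t ht
    simpa using ht
  exact ht.frequently h

end P56acde
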