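import Pool.Agent.Lib.P56acde.Defs
import Pool.Agent.Lib.P56acde.RExt
import Pool.Agent.Lib.P56acde.CTAux

/-! MODULE CTEnd (logarithmic singularity of the Cauchy transform at the right end; independent).
PROOF. `Bc` = complex analytic extension of `B` on a disc `ball b (2η)`. For `z` near `b` in the slit disc
`CT z = ∫_a^{b-η} B(u)/(u-z) du + ∫_{b-η}^b (Bc(u)-Bc(z))/(u-z) du + Bc(z) (Log(z-b) - Log(z-b+η))`
(`d/du Log(z-u) = 1/(u-z)` and `z-u ∈ slitPlane` for `u ≤ b`).  The first two terms and `Bc(z) Log(z-b+η)` are analytic at `b`;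
for the second one `(Bc(u)-Bc(z))/(u-z) = ∫_0^1 Bc'(z+θ(u-z)) dθ` (or `dslope`) is jointly continuous and analytic in `z`. -/

open Polynomial Set Filter Topology

namespace P56acde

theorem slit_add {z : ℂ} (hz : z ∈ Complex.slitPlane) {t : ℝ} (ht : 0 ≤ t) :
    z + t ∈ Complex.slitPlane := by
  rcases hz with h | h
  · left
    simp only [Complex.add_re, Complex.ofReal_re]
    linarith
  · right
    simpa using h

/-- a disc on which the extension is holomorphic and agrees with the real function -/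
theorem exists_disc {B : ℝ → ℝ} {τ : ℝ} (hB : AnalyticAt ℝ B τ) :
    ∃ (W : ℂ → ℂ) (ρ : ℝ), 0 < ρ ∧ AnalyticAt ℂ W τ ∧ (∀ᶠ t : ℝ in 𝓝 τ, W t = B t) ∧
      DifferentiableOn ℂ W (Metric.ball (τ : ℂ) ρ) ∧ ∀ t : ℝ, |t - τ| < ρ → W t = B t := by
  obtain ⟨W, hW, hWB⟩ := realExt hB
  obtain ⟨ρ₁, hρ₁, h1⟩ := Metric.eventually_nhds_iff.1 hWB
  have h2 := hW.eventually_analyticAt
  obtain ⟨ρ₂, hρ₂, h3⟩ := Metric.eventually_nhds_iff.1 h2
  refine ⟨W, min ρ₁ ρ₂, lt_min hρ₁ hρ₂, hW, hWB, ?_, ?_⟩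
  · intro z hz
    exact (h3 (lt_of_lt_of_le hz (min_le_right _ _))).differentiableAt.differentiableWithinAt
  · intro t ht
    exact h1 (lt_of_lt_of_le ht (min_le_left _ _))

theorem CT_end {a b : ℝ} (hab : a < b) {B : ℝ → ℝ} (hBc : ContinuousOn B (Icc a b))
    (hB : AnalyticAt ℝ B b) :
    ∃ G Bc : ℂ → ℂ, AnalyticAt ℂ G b ∧ AnalyticAt ℂ Bc b ∧ (∀ᶠ t : ℝ in 𝓝 b, Bc t = B t) ∧
      ∀ᶠ z : ℂ in 𝓝 (b : ℂ), z - b ∈ Complex.slitPlane →
        CT a b B z = Bc z * Complex.log (z - b) + G z := by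
  obtain ⟨W, ρ, hρ, hW, hWB, hWd, hWeq⟩ := exists_disc hB
  set η : ℝ := min (ρ / 2) ((b - a) / 2) with hη
  have hη0 : 0 < η := lt_min (by positivity) (by linarith)
  have hη1 : η ≤ ρ / 2 := min_le_left _ _
  have hη2 : η ≤ (b - a) / 2 := min_le_right _ _
  set c : ℝ := b - η with hc
  have hac : a ≤ c := by rw [hc]; linarith
  have hcb : c ≤ b := by rw [hc]; linarith
  have hfar := far_part hac (hBc.mono (Icc_subset_Icc_right hcb)) (τ := b) hη0 (by
    intro u hu
    rw [abs_sub_comm, abs_of_nonneg (by linarith [hu.2])]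
    rw [hc] at hu
    linarith [hu.2])
  have hds := dslope_part hcb hρ (τ := b) (by rw [hc]; linarith) (by linarith) hWd
  have hlog : AnalyticAt ℂ (fun z : ℂ => Complex.log (z - c)) (b : ℂ) := by
    refine AnalyticAt.clog (by fun_prop) ?_
    left
    rw [← Complex.ofReal_sub, Complex.ofReal_re, hc]
    linarith
  refine ⟨fun z => ((∫ u in a..c, (B u : ℂ) / ((u : ℂ) - z)) + ∫ u in c..b, dslope W (u : ℂ) z) -
    W z * Complex.log (z - c), W, (hfar.add hds).sub (hW.mul hlog), hW, hWB, ?_⟩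
  filter_upwards [Metric.ball_mem_nhds (b : ℂ) hρ] with z hz hslit
  have hslit' : ∀ u ∈ Icc a b, z - u ∈ Complex.slitPlane := by
    intro u hu
    have := slit_add hslit (t := b - u) (by linarith [hu.2])
    have h2 : z - (b : ℂ) + ((b - u : ℝ) : ℂ) = z - u := by push_cast; ring
    rwa [h2] at this
  have hne : ∀ u ∈ Icc a b, (u : ℂ) - z ≠ 0 := by
    intro u hu h
    have h1 := hslit' u hu
    have h2 : z - u = 0 := by rw [← neg_sub, h, neg_zero]
    rw [h2] at h1
    exact Complex.zero_notMem_slitPlane h1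
  have hcont : ContinuousOn (fun u : ℝ => (B u : ℂ) / ((u : ℂ) - z)) (Icc a b) := by
    refine ContinuousOn.div (Complex.continuous_ofReal.comp_continuousOn hBc) (by fun_prop) hne
  have hsplit := split_part hcb hρ (τ := b) (by rw [hc]; linarith) (by linarith) hWd hz
    (fun u hu => hslit' u (Icc_subset_Icc_left hac hu))
  have h1 : CT a b B z = (∫ u in a..c, (B u : ℂ) / ((u : ℂ) - z)) +
      ∫ u in c..b, (B u : ℂ) / ((u : ℂ) - z) := by
    unfold CT
    rw [intervalIntegral.integral_add_adjacent_intervals]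
    · apply ContinuousOn.intervalIntegrable
      rw [uIcc_of_le hac]
      exact hcont.mono (Icc_subset_Icc_right hcb)
    · apply ContinuousOn.intervalIntegrable
      rw [uIcc_of_le hcb]
      exact hcont.mono (Icc_subset_Icc_left hac)
  have h2 : ∫ u in c..b, (B u : ℂ) / ((u : ℂ) - z) = ∫ u in c..b, W u / ((u : ℂ) - z) := by
    refine intervalIntegral.integral_congr fun u hu => ?_
    rw [uIcc_of_le hcb] at hu
    have : W u = B u := by
      apply hWeq
      rw [abs_lt]
      rw [hc] at hu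
      constructor <;> linarith [hu.1, hu.2]
    simp only [this]
  rw [h1, h2, hsplit]
  ring

end P56acde
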