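import Pool.Agent.Lib.P56acde.Defs
import Pool.Agent.Lib.P56acde.CTEnd

/-! MODULE CTInt (continuation of the Cauchy transform through the cut, from above). -/

open Polynomial Set Filter Topology

namespace P56acde

theorem CT_interior {a b τ : ℝ} (haτ : a < τ) (hτb : τ < b) {B : ℝ → ℝ}
    (hBc : ContinuousOn B (Icc a b)) (hB : AnalyticAt ℝ B τ) :
    ∃ G : ℂ → ℂ, AnalyticAt ℂ G τ ∧ ∀ᶠ z in 𝓝 (τ : ℂ), 0 < z.im → CT a b B z = G z := by
  obtain ⟨W, ρ, hρ, hW, hWB, hWd, hWeq⟩ := exists_disc hB
  set η : ℝ := min (ρ / 2) (min ((τ - a) / 2) ((b - τ) / 2)) with hη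
  have hη0 : 0 < η := lt_min (by positivity) (lt_min (by linarith) (by linarith))
  have hη1 : η ≤ ρ / 2 := min_le_left _ _
  have hη2 : η ≤ (τ - a) / 2 := (min_le_right _ _).trans (min_le_left _ _)
  have hη3 : η ≤ (b - τ) / 2 := (min_le_right _ _).trans (min_le_right _ _)
  set c : ℝ := τ - η with hc
  set d : ℝ := τ + η with hd
  have hac : a ≤ c := by rw [hc]; linarith
  have hcd : c ≤ d := by rw [hc, hd]; linarith
  have hdb : d ≤ b := by rw [hd]; linarith
  have hfar1 := far_part hac (hBc.mono (Icc_subset_Icc_right (hcd.trans hdb))) (τ := τ) hη0 (by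
    intro u hu
    rw [abs_sub_comm, abs_of_nonneg (by rw [hc] at hu; linarith [hu.2])]
    rw [hc] at hu
    linarith [hu.2])
  have hfar2 := far_part hdb (hBc.mono (Icc_subset_Icc_left (hac.trans hcd))) (τ := τ) hη0 (by
    intro u hu
    rw [abs_of_nonneg (by rw [hd] at hu; linarith [hu.1])]
    rw [hd] at hu
    linarith [hu.1])
  have hds := dslope_part hcd hρ (τ := τ) (by rw [hc]; linarith) (by rw [hd]; linarith) hWd
  have hlog1 : AnalyticAt ℂ (fun z : ℂ => Complex.log (z - c)) (τ : ℂ) := by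
    refine AnalyticAt.clog (by fun_prop) ?_
    left
    rw [← Complex.ofReal_sub, Complex.ofReal_re, hc]
    linarith
  have hlog2 : AnalyticAt ℂ (fun z : ℂ => Complex.log (d - z)) (τ : ℂ) := by
    refine AnalyticAt.clog (by fun_prop) ?_
    left
    rw [← Complex.ofReal_sub, Complex.ofReal_re, hd]
    linarith
  refine ⟨fun z => ((∫ u in a..c, (B u : ℂ) / ((u : ℂ) - z)) +
      (∫ u in c..d, dslope W (u : ℂ) z) + (∫ u in d..b, (B u : ℂ) / ((u : ℂ) - z))) +
      W z * (Complex.log (d - z) + Real.pi * Complex.I - Complex.log (z - c)),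
    ((hfar1.add hds).add hfar2).add (hW.mul ((hlog2.add analyticAt_const).sub hlog1)), ?_⟩
  filter_upwards [Metric.ball_mem_nhds (τ : ℂ) hρ] with z hz him
  have hslit' : ∀ u : ℝ, z - u ∈ Complex.slitPlane := by
    intro u
    right
    simp only [Complex.sub_im, Complex.ofReal_im, sub_zero]
    exact him.ne'
  have hne : ∀ u : ℝ, (u : ℂ) - z ≠ 0 := by
    intro u h
    have h1 := hslit' u
    have h2 : z - u = 0 := by rw [← neg_sub, h, neg_zero]
    rw [h2] at h1
    exact Complex.zero_notMem_slitPlane h1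
  have hcont : ContinuousOn (fun u : ℝ => (B u : ℂ) / ((u : ℂ) - z)) (Icc a b) := by
    refine ContinuousOn.div (Complex.continuous_ofReal.comp_continuousOn hBc) (by fun_prop)
      fun u _ => hne u
  have hint : ∀ x y : ℝ, a ≤ x → x ≤ y → y ≤ b →
      IntervalIntegrable (fun u : ℝ => (B u : ℂ) / ((u : ℂ) - z)) MeasureTheory.volume x y := by
    intro x y hx hxy hy
    apply ContinuousOn.intervalIntegrable
    rw [uIcc_of_le hxy]
    exact hcont.mono (Icc_subset_Icc hx hy)
  have hsplit := split_part hcd hρ (τ := τ) (by rw [hc]; linarith) (by rw [hd]; linarith) hWd hz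
    (fun u _ => hslit' u)
  have h1 : CT a b B z = (∫ u in a..c, (B u : ℂ) / ((u : ℂ) - z)) +
      (∫ u in c..d, (B u : ℂ) / ((u : ℂ) - z)) + ∫ u in d..b, (B u : ℂ) / ((u : ℂ) - z) := by
    unfold CT
    rw [intervalIntegral.integral_add_adjacent_intervals (hint a c le_rfl hac (hcd.trans hdb))
      (hint c d hac hcd hdb), intervalIntegral.integral_add_adjacent_intervals
      (hint a d le_rfl (hac.trans hcd) hdb) (hint d b (hac.trans hcd) hdb le_rfl)]
  have h2 : ∫ u in c..d, (B u : ℂ) / ((u : ℂ) - z) = ∫ u in c..d, W u / ((u : ℂ) - z) := by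
    refine intervalIntegral.integral_congr fun u hu => ?_
    rw [uIcc_of_le hcd] at hu
    have : W u = B u := by
      apply hWeq
      rw [abs_lt]
      rw [hc, hd] at hu
      constructor <;> linarith [hu.1, hu.2]
    simp only [this]
  have h3 : Complex.log (z - d) = Complex.log (d - z) + Real.pi * Complex.I := by
    have h4 : 0 < (z - d).im := by simpa using him
    have h5 := Complex.arg_neg_eq_arg_sub_pi_of_im_pos h4
    have h6 : (d : ℂ) - z = -(z - d) := by ring
    rw [h6]
    unfold Complex.log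
    rw [h5, norm_neg]
    push_cast
    ring
  rw [h1, h2, hsplit, h3]
  ring

end P56acde
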