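import Pool.Agent.Lib.P56acde.Defs

/-! MODULE CTRat (integration by parts; independent).
PROOF. For a function `B` (complex valued, analytic on a neighbourhood of `[a,b]`, or `C^∞`), `C[B](z) = ∫_a^b B(u)/(u-z) du`,
`z ∉ [a,b]`.  Say `f ≡ g` if for some `N` and polynomial `c`, `((z-a)(z-b))^N (f(z)-g(z)) = c(z)` for all `z ∉ [a,b]`.
`≡` is a congruence for `+`, multiplication by polynomials and for the derivative.
(i) `(C[B])' = B(a)/(a-z) - B(b)/(b-z) + C[B']`, so `(C[B])' ≡ C[B']`;  (ii) `z C[B](z) = C[uB](z) - ∫ B`, so `z C[B] ≡ C[uB]`.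
Hence `∑ p_j(z) C[B]^{(j)} ≡ C[∑ p_j B^{(j)}] = C[0] = 0`. -/

open Polynomial Set

namespace P56acde

namespace CTRatAux

open MeasureTheory Filter Topology

variable {a b : ℝ}

lemma seg_closed (a b : ℝ) : IsClosed (seg a b) :=
  (isCompact_Icc.image Complex.continuous_ofReal).isClosed

lemma ne_left (hab : a ≤ b) {z : ℂ} (hz : z ∉ seg a b) : z ≠ a := by
  rintro rfl
  exact hz ⟨a, ⟨le_rfl, hab⟩, rfl⟩

lemma ne_right (hab : a ≤ b) {z : ℂ} (hz : z ∉ seg a b) : z ≠ b := by
  rintro rfl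
  exact hz ⟨b, ⟨hab, le_rfl⟩, rfl⟩

/-- rational function with poles only at the ends -/
def Rat (a b : ℝ) (f : ℂ → ℂ) : Prop :=
  ∃ (N : ℕ) (c : ℂ[X]), ∀ z : ℂ, z ∉ seg a b → ((z - a) * (z - b)) ^ N * f z = c.eval z

lemma Rat.congr {f g : ℂ → ℂ} (hf : Rat a b f) (h : ∀ z ∉ seg a b, g z = f z) : Rat a b g := by
  obtain ⟨N, c, hc⟩ := hf
  exact ⟨N, c, fun z hz => by rw [h z hz, hc z hz]⟩

/-- the polynomial `(z-a)(z-b)` -/
noncomputable def W (a b : ℝ) : ℂ[X] := (X - C (a : ℂ)) * (X - C (b : ℂ))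

lemma W_eval (a b : ℝ) (z : ℂ) : (W a b).eval z = (z - a) * (z - b) := by
  simp [W]

lemma Rat.add {f g : ℂ → ℂ} (hf : Rat a b f) (hg : Rat a b g) :
    Rat a b (fun z => f z + g z) := by
  obtain ⟨N, c, hc⟩ := hf
  obtain ⟨N', c', hc'⟩ := hg
  refine ⟨N + N', (W a b) ^ N' * c + (W a b) ^ N * c', fun z hz => ?_⟩
  simp only [eval_add, eval_mul, eval_pow, W_eval]
  rw [← hc z hz, ← hc' z hz]
  ring

lemma Rat.poly (q : ℂ[X]) : Rat a b (fun z => q.eval z) :=
  ⟨0, q, fun z _ => by simp⟩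

lemma Rat.mul_poly {f : ℂ → ℂ} (hf : Rat a b f) (q : ℂ[X]) :
    Rat a b (fun z => q.eval z * f z) := by
  obtain ⟨N, c, hc⟩ := hf
  refine ⟨N, q * c, fun z hz => ?_⟩
  rw [eval_mul, ← hc z hz]
  ring

lemma Rat.sum {ι : Type} (s : Finset ι) {f : ι → ℂ → ℂ} (hf : ∀ i ∈ s, Rat a b (f i)) :
    Rat a b (fun z => ∑ i ∈ s, f i z) := by
  classical
  induction s using Finset.induction_on with
  | empty => exact ⟨0, 0, fun z _ => by simp⟩
  | insert i s hi ih =>
    have h1 := hf i (Finset.mem_insert_self i s)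
    have h2 := ih (fun j hj => hf j (Finset.mem_insert_of_mem hj))
    exact (h1.add h2).congr (fun z _ => by rw [Finset.sum_insert hi])

lemma Rat.differentiableAt (hab : a ≤ b) {f : ℂ → ℂ} (hf : Rat a b f) {z : ℂ}
    (hz : z ∉ seg a b) : DifferentiableAt ℂ f z := by
  obtain ⟨N, c, hc⟩ := hf
  have hU : (seg a b)ᶜ ∈ 𝓝 z := (seg_closed a b).isOpen_compl.mem_nhds hz
  have hne : ∀ z, z ∉ seg a b → (z - a) * (z - b) ≠ 0 := fun z hz =>
    mul_ne_zero (sub_ne_zero.2 (ne_left hab hz)) (sub_ne_zero.2 (ne_right hab hz))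
  have h1 : f =ᶠ[𝓝 z] fun z => c.eval z / ((z - a) * (z - b)) ^ N := by
    filter_upwards [hU] with w hw
    rw [← hc w hw]
    field_simp [hne w hw]
  refine DifferentiableAt.congr_of_eventuallyEq ?_ h1
  apply DifferentiableAt.div
  · exact c.differentiable.differentiableAt
  · fun_prop
  · exact pow_ne_zero _ (hne z hz)

lemma Rat.deriv (hab : a ≤ b) {f : ℂ → ℂ} (hf : Rat a b f) : Rat a b (deriv f) := by
  have hdiff := fun {z : ℂ} (hz : z ∉ seg a b) => hf.differentiableAt hab hz
  obtain ⟨N, c, hc⟩ := hf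
  refine ⟨N + 1, derivative c * W a b - C (N : ℂ) * derivative (W a b) * c, fun z hz => ?_⟩
  have hU : (seg a b)ᶜ ∈ 𝓝 z := (seg_closed a b).isOpen_compl.mem_nhds hz
  have h1 : (fun z => ((W a b) ^ N).eval z * f z) =ᶠ[𝓝 z] fun z => c.eval z := by
    filter_upwards [hU] with w hw
    rw [eval_pow, W_eval, hc w hw]
  have h2 := h1.deriv_eq
  have h3 : HasDerivAt (fun z => ((W a b) ^ N).eval z * f z)
      ((derivative ((W a b) ^ N)).eval z * f z + ((W a b) ^ N).eval z * _root_.deriv f z) z :=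
    ((W a b) ^ N).hasDerivAt z |>.mul (hdiff hz).hasDerivAt
  rw [h3.deriv, c.deriv] at h2
  simp only [eval_sub, eval_mul, eval_C]
  rw [← h2, W_eval, ← hc z hz]
  rcases N with _ | N
  · simp
    ring
  · rw [derivative_pow]
    simp only [eval_mul, eval_pow, eval_C, W_eval, Nat.add_sub_cancel]
    push_cast
    ring

/-- complex valued Cauchy transform -/
noncomputable def CTc (a b : ℝ) (f : ℝ → ℂ) (z : ℂ) : ℂ := ∫ u in a..b, f u / ((u : ℂ) - z)

lemma sub_ne {z : ℂ} (hz : z ∉ seg a b) {u : ℝ} (hu : u ∈ Icc a b) : (u : ℂ) - z ≠ 0 := by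
  rw [sub_ne_zero]
  rintro rfl
  exact hz ⟨u, hu, rfl⟩

lemma cont_div {f : ℝ → ℂ} (hf : ContinuousOn f (Icc a b)) {z : ℂ} (hz : z ∉ seg a b) :
    ContinuousOn (fun u : ℝ => f u / ((u : ℂ) - z)) (Icc a b) := by
  apply hf.div
  · fun_prop
  · intro u hu
    exact sub_ne hz hu

lemma int_div (hab : a ≤ b) {f : ℝ → ℂ} (hf : ContinuousOn f (Icc a b)) {z : ℂ}
    (hz : z ∉ seg a b) :
    IntervalIntegrable (fun u : ℝ => f u / ((u : ℂ) - z)) volume a b := by
  apply ContinuousOn.intervalIntegrable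
  rw [uIcc_of_le hab]
  exact cont_div hf hz

lemma CC_mul_X (hab : a ≤ b) {g : ℝ → ℂ} (hg : ContinuousOn g (Icc a b)) {z : ℂ}
    (hz : z ∉ seg a b) :
    z * CTc a b g z = CTc a b (fun u => (u : ℂ) * g u) z - ∫ u in a..b, g u := by
  have hg' : ContinuousOn (fun u : ℝ => (u : ℂ) * g u) (Icc a b) := by
    apply ContinuousOn.mul _ hg
    fun_prop
  have hgi : IntervalIntegrable g volume a b := by
    apply ContinuousOn.intervalIntegrable
    rw [uIcc_of_le hab]
    exact hg
  unfold CTc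
  rw [← intervalIntegral.integral_const_mul, ← intervalIntegral.integral_sub (int_div hab hg' hz) hgi]
  apply intervalIntegral.integral_congr
  intro u hu
  rw [uIcc_of_le hab] at hu
  have := sub_ne hz hu
  simp only
  field_simp
  ring

lemma CC_poly (hab : a ≤ b) {f : ℝ → ℂ} (hf : ContinuousOn f (Icc a b)) (p : ℂ[X]) :
    ∃ q : ℂ[X], ∀ z, z ∉ seg a b →
      p.eval z * CTc a b f z = CTc a b (fun u => p.eval (u : ℂ) * f u) z + q.eval z := by
  have hcont : ∀ p : ℂ[X], ContinuousOn (fun u : ℝ => p.eval (u : ℂ) * f u) (Icc a b) := by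
    intro p
    apply ContinuousOn.mul _ hf
    exact (p.continuous.comp Complex.continuous_ofReal).continuousOn
  induction p using Polynomial.induction_on with
  | C c =>
    refine ⟨0, fun z hz => ?_⟩
    simp only [eval_C, eval_zero, add_zero]
    unfold CTc
    rw [← intervalIntegral.integral_const_mul]
    simp only [mul_div_assoc]
  | add p q hp hq =>
    obtain ⟨p', hp'⟩ := hp
    obtain ⟨q', hq'⟩ := hq
    refine ⟨p' + q', fun z hz => ?_⟩
    rw [eval_add, add_mul, hp' z hz, hq' z hz, eval_add]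
    have : CTc a b (fun u => (p + q).eval (u : ℂ) * f u) z =
        CTc a b (fun u => p.eval (u : ℂ) * f u) z + CTc a b (fun u => q.eval (u : ℂ) * f u) z := by
      unfold CTc
      rw [← intervalIntegral.integral_add (int_div hab (hcont p) hz) (int_div hab (hcont q) hz)]
      simp only [eval_add, add_mul, add_div]
    rw [this]
    ring
  | monomial n c h =>
    obtain ⟨q, hq⟩ := h
    refine ⟨X * q - C (∫ u in a..b, (C c * X ^ n : ℂ[X]).eval (u : ℂ) * f u), fun z hz => ?_⟩
    have h1 := hq z hz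
    have h2 := CC_mul_X hab (hcont (C c * X ^ n)) hz
    have h3 : CTc a b (fun u => (C c * X ^ (n + 1) : ℂ[X]).eval (u : ℂ) * f u) z =
        CTc a b (fun u => (u : ℂ) * ((C c * X ^ n : ℂ[X]).eval (u : ℂ) * f u)) z := by
      unfold CTc
      congr 1
      ext u
      congr 1
      simp only [eval_mul, eval_C, eval_pow, eval_X]
      ring
    have h4 : (C c * X ^ (n + 1) : ℂ[X]).eval z = z * (C c * X ^ n : ℂ[X]).eval z := by
      simp only [eval_mul, eval_C, eval_pow, eval_X]
      ring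
    have h5 : (X * q - C (∫ u in a..b, (C c * X ^ n : ℂ[X]).eval (u : ℂ) * f u)).eval z =
        z * q.eval z - ∫ u in a..b, (C c * X ^ n : ℂ[X]).eval (u : ℂ) * f u := by
      rw [eval_sub, eval_C]
      congr 1
      rw [eval_mul, eval_X]
    rw [h3, h5, h4, mul_assoc, h1, mul_add, h2]
    ring

lemma CC_hasDerivAt (hab : a ≤ b) {f f' : ℝ → ℂ} (hf : ∀ u ∈ Icc a b, HasDerivAt f (f' u) u)
    (hf' : ContinuousOn f' (Icc a b)) {z : ℂ} (hz : z ∉ seg a b) :
    HasDerivAt (CTc a b f) (f a / ((a : ℂ) - z) - f b / ((b : ℂ) - z) + CTc a b f' z) z := by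
  have hfc : ContinuousOn f (Icc a b) := fun u hu => (hf u hu).continuousAt.continuousWithinAt
  -- distance to the segment
  obtain ⟨ε, hε, hball⟩ := Metric.isOpen_iff.1 (seg_closed a b).isOpen_compl z hz
  have hdist : ∀ u ∈ Icc a b, ∀ w ∈ Metric.ball z (ε / 2), ε / 2 ≤ ‖(u : ℂ) - w‖ := by
    intro u hu w hw
    by_contra hlt
    push Not at hlt
    have : (u : ℂ) ∈ Metric.ball z ε := by
      rw [Metric.mem_ball, dist_eq_norm]
      rw [Metric.mem_ball, dist_eq_norm] at hw
      calc ‖(u : ℂ) - z‖ = ‖((u : ℂ) - w) + (w - z)‖ := by ring_nf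
        _ ≤ ‖(u : ℂ) - w‖ + ‖w - z‖ := norm_add_le _ _
        _ < ε := by linarith
    exact hball this ⟨u, hu, rfl⟩
  have hnot : ∀ w ∈ Metric.ball z (ε / 2), w ∉ seg a b := by
    intro w hw
    exact hball (Metric.ball_subset_ball (by linarith) hw)
  obtain ⟨M, hM⟩ := isCompact_Icc.exists_bound_of_continuousOn hfc
  have hkey := intervalIntegral.hasDerivAt_integral_of_dominated_loc_of_deriv_le
    (F := fun w u => f u / ((u : ℂ) - w)) (F' := fun w u => f u / ((u : ℂ) - w) ^ 2)
    (μ := volume) (a := a) (b := b) (x₀ := z) (s := Metric.ball z (ε / 2))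
    (bound := fun _ => M / (ε / 2) ^ 2)
    (Metric.ball_mem_nhds z (by positivity))
    (by
      filter_upwards [Metric.ball_mem_nhds z (ε := ε / 2) (by positivity)] with w hw
      rw [uIoc_of_le hab]
      exact ((cont_div hfc (hnot w hw)).mono Ioc_subset_Icc_self).aestronglyMeasurable
        measurableSet_Ioc)
    (int_div hab hfc hz)
    (by
      rw [uIoc_of_le hab]
      refine ContinuousOn.aestronglyMeasurable ?_ measurableSet_Ioc
      refine ContinuousOn.mono ?_ Ioc_subset_Icc_self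
      apply hfc.div
      · fun_prop
      · intro u hu
        exact pow_ne_zero _ (sub_ne hz hu))
    (by
      apply Filter.Eventually.of_forall
      intro u hu w hw
      rw [uIoc_of_le hab] at hu
      have hu' : u ∈ Icc a b := Ioc_subset_Icc_self hu
      rw [norm_div, norm_pow]
      have h1 := hM u hu'
      have h2 := hdist u hu' w hw
      have h0 : 0 ≤ M := (norm_nonneg _).trans h1
      gcongr)
    (by simp)
    (by
      apply Filter.Eventually.of_forall
      intro u hu w hw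
      rw [uIoc_of_le hab] at hu
      have hu' : u ∈ Icc a b := Ioc_subset_Icc_self hu
      have hne := sub_ne (hnot w hw) hu'
      have h1 : HasDerivAt (fun w : ℂ => (u : ℂ) - w) (-1) w := by
        simpa using (hasDerivAt_id w).const_sub (u : ℂ)
      have h2 := (hasDerivAt_const w (f u)).div h1 hne
      have h3 : f u / ((u : ℂ) - w) ^ 2 =
          (0 * ((u : ℂ) - w) - f u * (-1)) / ((u : ℂ) - w) ^ 2 := by ring
      rw [h3]
      exact h2)
  have h1 := hkey.2
  -- integration by parts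
  have h2 : ∫ u in a..b, f u / ((u : ℂ) - z) ^ 2 =
      f a / ((a : ℂ) - z) - f b / ((b : ℂ) - z) + CTc a b f' z := by
    have hder : ∀ u ∈ uIcc a b, HasDerivAt (fun u : ℝ => ((u : ℂ) - z)⁻¹)
        (-1 / ((u : ℂ) - z) ^ 2) u := by
      intro u hu
      rw [uIcc_of_le hab] at hu
      have hne := sub_ne hz hu
      have h3 : HasDerivAt (fun u : ℝ => (u : ℂ) - z) 1 u := by
        simpa using (Complex.ofRealCLM.hasDerivAt (x := u)).sub_const z
      exact h3.inv hne
    have hi : IntervalIntegrable (fun u : ℝ => -1 / ((u : ℂ) - z) ^ 2) volume a b := by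
      apply ContinuousOn.intervalIntegrable
      rw [uIcc_of_le hab]
      apply ContinuousOn.div
      · fun_prop
      · fun_prop
      · intro u hu
        exact pow_ne_zero _ (sub_ne hz hu)
    have hi' : IntervalIntegrable f' volume a b := by
      apply ContinuousOn.intervalIntegrable
      rw [uIcc_of_le hab]
      exact hf'
    have h4 := intervalIntegral.integral_mul_deriv_eq_deriv_mul (u := f) (u' := f')
      (v := fun u : ℝ => ((u : ℂ) - z)⁻¹) (v' := fun u : ℝ => -1 / ((u : ℂ) - z) ^ 2)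
      (fun u hu => hf u (by rwa [uIcc_of_le hab] at hu)) hder hi' hi
    have h5 : ∫ u in a..b, f u / ((u : ℂ) - z) ^ 2 =
        - ∫ u in a..b, f u * (-1 / ((u : ℂ) - z) ^ 2) := by
      rw [← intervalIntegral.integral_neg]
      congr 1
      ext u
      ring
    rw [h5, h4]
    unfold CTc
    simp only [div_eq_mul_inv]
    ring
  rw [h2] at h1
  exact h1

lemma iter_rat (hab : a ≤ b) {B : ℝ → ℝ} (hB : AnalyticOnNhd ℝ B (Icc a b)) (j : ℕ) :
    (∀ u : ℝ, u ∈ Icc a b → AnalyticAt ℝ (iteratedDeriv j B) u) ∧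
    ∃ R : ℂ → ℂ, Rat a b R ∧ ∀ z, z ∉ seg a b → iteratedDeriv j (CT a b B) z =
      CTc a b (fun u => ((iteratedDeriv j B u : ℝ) : ℂ)) z + R z := by
  induction j with
  | zero =>
    refine ⟨fun u hu => by rw [iteratedDeriv_zero]; exact hB u hu, fun _ => 0,
      ⟨0, 0, fun z _ => by simp⟩, fun z hz => ?_⟩
    rw [iteratedDeriv_zero, add_zero]
    unfold CT CTc
    simp only [iteratedDeriv_zero]
  | succ j ih =>
    obtain ⟨h1, R, hR, h2⟩ := ih
    have h1' : ∀ u : ℝ, u ∈ Icc a b → AnalyticAt ℝ (iteratedDeriv (j + 1) B) u := by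
      intro u hu
      rw [iteratedDeriv_succ]
      exact (h1 u hu).deriv
    refine ⟨h1', fun z => (((iteratedDeriv j B a : ℝ) : ℂ) / ((a : ℂ) - z) -
      ((iteratedDeriv j B b : ℝ) : ℂ) / ((b : ℂ) - z)) + deriv R z, ?_, ?_⟩
    · refine Rat.add ?_ (hR.deriv hab)
      refine ⟨1, C ((iteratedDeriv j B b : ℝ) : ℂ) * (X - C (a : ℂ)) -
        C ((iteratedDeriv j B a : ℝ) : ℂ) * (X - C (b : ℂ)), fun z hz => ?_⟩
      have e1 : (a : ℂ) - z ≠ 0 := sub_ne_zero.2 (ne_left hab hz).symm
      have e2 : (b : ℂ) - z ≠ 0 := sub_ne_zero.2 (ne_right hab hz).symm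
      simp only [eval_sub, eval_mul, eval_C, eval_X, pow_one]
      field_simp
      ring
    · intro z hz
      have hU : (seg a b)ᶜ ∈ 𝓝 z := (seg_closed a b).isOpen_compl.mem_nhds hz
      rw [iteratedDeriv_succ]
      have h3 : iteratedDeriv j (CT a b B) =ᶠ[𝓝 z] fun z =>
          CTc a b (fun u => ((iteratedDeriv j B u : ℝ) : ℂ)) z + R z := by
        filter_upwards [hU] with w hw
        exact h2 w hw
      rw [h3.deriv_eq]
      have h4 := CC_hasDerivAt hab (f := fun u => ((iteratedDeriv j B u : ℝ) : ℂ))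
        (f' := fun u => ((iteratedDeriv (j + 1) B u : ℝ) : ℂ))
        (fun u hu => by
          have := (h1 u hu).differentiableAt.hasDerivAt
          rw [← iteratedDeriv_succ] at this
          exact this.ofReal_comp)
        (fun u hu => by
          have := (h1' u hu).continuousAt
          exact (Complex.continuous_ofReal.continuousAt.comp this).continuousWithinAt) hz
      have h5 := h4.add (hR.differentiableAt hab hz).hasDerivAt
      have h6 := h5.deriv
      refine Eq.trans ?_ (h6.trans ?_)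
      · rfl
      · ring

end CTRatAux

open CTRatAux in
theorem CT_rat {a b : ℝ} (hab : a < b) {B : ℝ → ℝ} (hB : AnalyticOnNhd ℝ B (Icc a b)) (r : ℕ)
    (p : ℕ → ℂ[X])
    (hp : ∀ u ∈ Icc a b, ∑ j ∈ Finset.range (r + 1),
      (p j).eval (u : ℂ) * ((iteratedDeriv j B u : ℝ) : ℂ) = 0) :
    ∃ (N : ℕ) (c : ℂ[X]), ∀ z : ℂ, z ∉ seg a b →
      ((z - a) * (z - b)) ^ N *
        ∑ j ∈ Finset.range (r + 1), (p j).eval z * iteratedDeriv j (CT a b B) z = c.eval z := by
  have han := fun j => (iter_rat hab.le hB j).1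
  choose R hR hRe using fun j => (iter_rat hab.le hB j).2
  have hcont : ∀ j, ContinuousOn (fun u : ℝ => ((iteratedDeriv j B u : ℝ) : ℂ)) (Icc a b) := by
    intro j u hu
    exact (Complex.continuous_ofReal.continuousAt.comp (han j u hu).continuousAt).continuousWithinAt
  choose q hq using fun j => CC_poly hab.le (hcont j) (p j)
  have hcont2 : ∀ j, ContinuousOn
      (fun u : ℝ => (p j).eval (u : ℂ) * ((iteratedDeriv j B u : ℝ) : ℂ)) (Icc a b) := by
    intro j
    apply ContinuousOn.mul _ (hcont j)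
    exact ((p j).continuous.comp Complex.continuous_ofReal).continuousOn
  have key : Rat a b (fun z => ∑ j ∈ Finset.range (r + 1),
      ((q j).eval z + (p j).eval z * R j z)) :=
    Rat.sum _ fun j _ => (Rat.poly (q j)).add ((hR j).mul_poly (p j))
  refine key.congr fun z hz => ?_
  have h0 : ∑ j ∈ Finset.range (r + 1),
      CTc a b (fun u : ℝ => (p j).eval (u : ℂ) * ((iteratedDeriv j B u : ℝ) : ℂ)) z = 0 := by
    unfold CTc
    rw [← intervalIntegral.integral_finsetSum]
    · have : ∫ u in a..b, (0 : ℂ) = 0 := by simp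
      rw [← this]
      apply intervalIntegral.integral_congr
      intro u hu
      rw [uIcc_of_le hab.le] at hu
      simp only
      rw [← Finset.sum_div, hp u hu, zero_div]
    · intro j _
      exact int_div hab.le (hcont2 j) hz
  calc ∑ j ∈ Finset.range (r + 1), (p j).eval z * iteratedDeriv j (CT a b B) z
      = ∑ j ∈ Finset.range (r + 1),
        (CTc a b (fun u : ℝ => (p j).eval (u : ℂ) * ((iteratedDeriv j B u : ℝ) : ℂ)) z +
          ((q j).eval z + (p j).eval z * R j z)) := by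
        apply Finset.sum_congr rfl
        intro j _
        rw [hRe j z hz, mul_add, hq j z hz]
        ring
    _ = _ := by rw [Finset.sum_add_distrib, h0, zero_add]

end P56acde
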