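import Pool.Agent.Lib.P56acde.Defs

/-! MODULE ConvA (elementary facts on convex bodies with smooth boundary; independent). -/

open Set Filter Topology MeasureTheory

namespace P56acde

theorem dir_pos {n : ℕ} {ρ : E n → ℝ} {p : E n} (hρ : DifferentiableAt ℝ ρ p) (h0 : ρ p = 0)
    {v : E n} (hv : 0 < fderiv ℝ ρ p v) : ∀ᶠ ε : ℝ in 𝓝[>] 0, 0 < ρ (p + ε • v) := by
  have h1 : HasDerivAt (fun ε : ℝ => ρ (p + ε • v)) (fderiv ℝ ρ p v) 0 := by
    have hl : HasDerivAt (fun ε : ℝ => p + ε • v) v 0 := by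
      simpa using ((hasDerivAt_id (0 : ℝ)).smul_const v).const_add p
    have hρ' : HasFDerivAt ρ (fderiv ℝ ρ p) (p + (0 : ℝ) • v) := by simpa using hρ.hasFDerivAt
    exact hρ'.comp_hasDerivAt 0 hl
  have h2 := h1.tendsto_slope_zero_right
  simp only [zero_add, zero_smul, add_zero, h0, sub_zero] at h2
  have h3 := h2.eventually (lt_mem_nhds hv)
  filter_upwards [h3, self_mem_nhdsWithin] with ε h4 h5
  have h5' : (0 : ℝ) < ε := h5
  rw [smul_eq_mul] at h4
  exact (pos_iff_pos_of_mul_pos h4).1 (inv_pos.2 h5')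

theorem dir_neg {n : ℕ} {ρ : E n → ℝ} {p : E n} (hρ : DifferentiableAt ℝ ρ p) (h0 : ρ p = 0)
    {v : E n} (hv : fderiv ℝ ρ p v < 0) : ∀ᶠ ε : ℝ in 𝓝[>] 0, ρ (p + ε • v) < 0 := by
  have h1 : DifferentiableAt ℝ (fun x => - ρ x) p := hρ.neg
  have h2 : 0 < fderiv ℝ (fun x => - ρ x) p v := by
    rw [fderiv_fun_neg]; simpa using hv
  have := dir_pos h1 (by simp [h0]) h2
  filter_upwards [this] with ε hε
  linarith

/-- local defining functions vanish at boundary points -/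
theorem rho_zero {n : ℕ} {K : Set (E n)} (hK : IsClosed K) {p : E n} (hp : p ∈ frontier K)
    {ρ : E n → ℝ} (hρ : ContDiffAt ℝ (⊤ : ℕ∞) ρ p) (hloc : ∀ᶠ x in 𝓝 p, (x ∈ K ↔ ρ x ≤ 0)) :
    ρ p = 0 := by
  have hpK : p ∈ K := hK.frontier_subset hp
  have h1 : ρ p ≤ 0 := hloc.self_of_nhds.1 hpK
  rcases eq_or_lt_of_le h1 with h | h
  · exact h
  · exfalso
    have h2 : ∀ᶠ x in 𝓝 p, ρ x < 0 := hρ.continuousAt.eventually (gt_mem_nhds h)
    have h3 : K ∈ 𝓝 p := by
      filter_upwards [h2, hloc] with x hx1 hx2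
      exact hx2.2 hx1.le
    exact hp.2 (mem_interior_iff_mem_nhds.2 h3)

theorem tendsto_line {n : ℕ} (p v : E n) : Tendsto (fun ε : ℝ => p + ε • v) (𝓝[>] 0) (𝓝 p) := by
  have : Tendsto (fun ε : ℝ => p + ε • v) (𝓝 0) (𝓝 (p + (0:ℝ) • v)) := by
    apply Continuous.tendsto; fun_prop
  rw [zero_smul, add_zero] at this
  exact this.mono_left nhdsWithin_le_nhds

/-- transversality: if `p₀` is an interior point then `Dρ(p)(p - p₀) > 0` -/
theorem transversal {n : ℕ} {K : Set (E n)} (hK : IsClosed K) (hc : Convex ℝ K) {p p₀ : E n}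
    (hp : p ∈ frontier K) (hp₀ : p₀ ∈ interior K) {ρ : E n → ℝ} (hρ : ContDiffAt ℝ (⊤ : ℕ∞) ρ p)
    (hd : fderiv ℝ ρ p ≠ 0) (hloc : ∀ᶠ x in 𝓝 p, (x ∈ K ↔ ρ x ≤ 0)) :
    0 < fderiv ℝ ρ p (p - p₀) := by
  have hdiff : DifferentiableAt ℝ ρ p := hρ.differentiableAt (by simp)
  have h0 := rho_zero hK hp hρ hloc
  have hpK : p ∈ K := hK.frontier_subset hp
  have key : ∀ z ∈ K, fderiv ℝ ρ p (z - p) ≤ 0 := by
    intro z hz
    by_contra hcon
    push Not at hcon
    have h1 := dir_pos hdiff h0 hcon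
    have h2 := (tendsto_line p (z - p)).eventually hloc
    have h3 : ∀ᶠ ε : ℝ in 𝓝[>] 0, ε < 1 := by
      filter_upwards [mem_nhdsWithin_of_mem_nhds (Iio_mem_nhds (zero_lt_one' ℝ))] with ε hε using hε
    have h4 := (h1.and (h2.and (h3.and self_mem_nhdsWithin))).exists
    obtain ⟨ε, e1, e2, e3, e4⟩ := h4
    have e4' : (0 : ℝ) < ε := e4
    have e5 : p + ε • (z - p) ∈ K := by
      have := hc hpK hz (sub_nonneg.2 e3.le) e4'.le (by ring)
      convert this using 1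
      rw [smul_sub, sub_smul, one_smul]; abel
    exact absurd (e2.1 e5) (not_le.2 e1)
  obtain ⟨v, hv⟩ : ∃ v, 0 < fderiv ℝ ρ p v := by
    obtain ⟨v, hv⟩ : ∃ v, fderiv ℝ ρ p v ≠ 0 := by
      by_contra hcon
      push Not at hcon
      exact hd (ContinuousLinearMap.ext hcon)
    rcases lt_or_gt_of_ne hv with h | h
    · exact ⟨-v, by simpa using h⟩
    · exact ⟨v, h⟩
  have h1 : ∀ᶠ ε : ℝ in 𝓝[>] 0, p₀ + ε • v ∈ K :=
    (tendsto_line p₀ v).eventually (mem_interior_iff_mem_nhds.1 hp₀)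
  obtain ⟨ε, e1, e2⟩ := (h1.and self_mem_nhdsWithin).exists
  have e2' : (0 : ℝ) < ε := e2
  have e3 := key _ e1
  have e4 : p₀ + ε • v - p = -(p - p₀) + ε • v := by abel
  rw [e4, map_add, map_neg, map_smul, smul_eq_mul] at e3
  nlinarith [mul_pos e2' hv]

/-- at a maximum point of `⟨·,w⟩` the derivative of `ρ` is a positive multiple of `⟨·,w⟩` -/
theorem normal_at_max {n : ℕ} {K : Set (E n)} (hK : IsClosed K) {w : E n} (hw : w ≠ 0)
    {p : E n} (hpK : p ∈ K) (hmax : ∀ x ∈ K, (inner ℝ x w : ℝ) ≤ inner ℝ p w) {ρ : E n → ℝ}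
    (hρ : ContDiffAt ℝ (⊤ : ℕ∞) ρ p) (hd : fderiv ℝ ρ p ≠ 0)
    (hloc : ∀ᶠ x in 𝓝 p, (x ∈ K ↔ ρ x ≤ 0)) :
    p ∈ frontier K ∧ ∃ μ : ℝ, 0 < μ ∧ ∀ v, fderiv ℝ ρ p v = μ * inner ℝ v w := by
  have hww : 0 < (inner ℝ w w : ℝ) := by
    rw [real_inner_self_eq_norm_sq]; positivity
  have hfr : p ∈ frontier K := by
    refine ⟨subset_closure hpK, fun hint => ?_⟩
    have h1 : ∀ᶠ ε : ℝ in 𝓝[>] 0, p + ε • w ∈ K :=
      (tendsto_line p w).eventually (mem_interior_iff_mem_nhds.1 hint)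
    obtain ⟨ε, e1, e2⟩ := (h1.and self_mem_nhdsWithin).exists
    have e2' : (0 : ℝ) < ε := e2
    have := hmax _ e1
    rw [inner_add_left, inner_smul_left] at this
    simp only [conj_trivial] at this
    nlinarith [mul_pos e2' hww]
  refine ⟨hfr, ?_⟩
  have hdiff : DifferentiableAt ℝ ρ p := hρ.differentiableAt (by simp)
  have h0 := rho_zero hK hfr hρ hloc
  set D := fderiv ℝ ρ p with hD
  have key : ∀ v, D v < 0 → (inner ℝ v w : ℝ) ≤ 0 := by
    intro v hv
    have h1 := dir_neg hdiff h0 hv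
    have h2 := (tendsto_line p v).eventually hloc
    obtain ⟨ε, e1, e2, e3⟩ := (h1.and (h2.and self_mem_nhdsWithin)).exists
    have e3' : (0 : ℝ) < ε := e3
    have e4 := hmax _ (e2.2 e1.le)
    rw [inner_add_left, inner_smul_left] at e4
    simp only [conj_trivial] at e4
    by_contra hcon
    push Not at hcon
    nlinarith [mul_pos e3' hcon]
  set u : E n := (InnerProductSpace.toDual ℝ (E n)).symm D with hu
  have hDu : ∀ v, D v = inner ℝ u v := by
    intro v; rw [hu]; simp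
  have hu0 : u ≠ 0 := by
    intro h
    apply hd
    ext v
    rw [hDu, h]; simp
  have huu : 0 < (inner ℝ u u : ℝ) := by
    rw [real_inner_self_eq_norm_sq]; positivity
  have hker : ∀ v, D v = 0 → (inner ℝ v w : ℝ) ≤ 0 := by
    intro v hv
    have h1 : ∀ᶠ ε : ℝ in 𝓝[>] 0, (inner ℝ (v + ε • (-u)) w : ℝ) ≤ 0 := by
      filter_upwards [self_mem_nhdsWithin] with ε hε
      have hε' : (0 : ℝ) < ε := hε
      apply key
      rw [map_add, hv, map_smul, map_neg, hDu u, smul_eq_mul]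
      nlinarith [mul_pos hε' huu]
    have h2 : Tendsto (fun ε : ℝ => (inner ℝ (v + ε • (-u)) w : ℝ)) (𝓝[>] 0) (𝓝 (inner ℝ v w)) := by
      have h3 : Continuous (fun x : E n => (inner ℝ x w : ℝ)) := by fun_prop
      exact (h3.tendsto v).comp (tendsto_line v (-u))
    exact le_of_tendsto h2 h1
  have hker' : ∀ v, D v = 0 → (inner ℝ v w : ℝ) = 0 := by
    intro v hv
    apply le_antisymm (hker v hv)
    have := hker (-v) (by simp [hv])
    rw [inner_neg_left] at this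
    linarith
  set lam : ℝ := inner ℝ u w / inner ℝ u u with hlam
  have hwl : w = lam • u := by
    have h1 : D (w - lam • u) = 0 := by
      rw [map_sub, map_smul, hDu, hDu, smul_eq_mul, hlam]
      field_simp
      ring
    have h2 := hker' _ h1
    have h3 : (inner ℝ (w - lam • u) u : ℝ) = 0 := by
      rw [real_inner_comm, ← hDu]; exact h1
    have h4 : (inner ℝ (w - lam • u) (w - lam • u) : ℝ) = 0 := by
      conv_lhs => rw [inner_sub_right, inner_smul_right]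
      rw [h2, h3]; ring
    exact sub_eq_zero.1 (inner_self_eq_zero.1 h4)
  have hlam0 : lam ≠ 0 := by
    intro h; rw [h, zero_smul] at hwl; exact hw hwl
  have hlampos : 0 < lam := by
    apply lt_of_le_of_ne _ hlam0.symm
    have h1 : D (-u) < 0 := by rw [map_neg, hDu]; linarith
    have h2 := key _ h1
    rw [inner_neg_left] at h2
    rw [hlam]
    apply div_nonneg (by linarith) huu.le
  refine ⟨lam⁻¹, inv_pos.2 hlampos, fun v => ?_⟩
  rw [hDu]
  conv_rhs => rw [hwl]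
  rw [inner_smul_right, real_inner_comm]
  field_simp

end P56acde
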