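import Pool.Agent.Lib.P56acde.Defs

/-! MODULE ConvB (elementary facts on the support function; independent). -/

open Set Filter Topology MeasureTheory
open scoped Pointwise

namespace P56acde

theorem abs_inner_le_of_subset {n : ℕ} {K : Set (E n)} {R : ℝ} (hK : K ⊆ Metric.closedBall 0 R) (w : E n) :
    ∀ x ∈ K, |(inner ℝ x w : ℝ)| ≤ R * ‖w‖ := by
  intro x hx
  have h1 : ‖x‖ ≤ R := by simpa using hK hx
  exact (abs_real_inner_le_norm x w).trans (by gcongr)

theorem le_hi {n : ℕ} {K : Set (E n)} (hK : IsCompact K) {x : E n} (hx : x ∈ K) (w : E n) :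
    (inner ℝ x w : ℝ) ≤ hi K w := by
  apply le_csSup _ (mem_image_of_mem _ hx)
  exact (hK.image (by fun_prop)).bddAbove

theorem lo_le {n : ℕ} {K : Set (E n)} (hK : IsCompact K) {x : E n} (hx : x ∈ K) (w : E n) :
    lo K w ≤ (inner ℝ x w : ℝ) := by
  have := le_hi hK hx (-w)
  rw [inner_neg_right] at this
  unfold lo
  linarith

theorem exists_hi {n : ℕ} {K : Set (E n)} (hK : IsCompact K) (hne : K.Nonempty) (w : E n) :
    ∃ p ∈ K, (inner ℝ p w : ℝ) = hi K w := by
  obtain ⟨p, hp, h⟩ := hK.exists_sSup_image_eq hne (f := fun x : E n => (inner ℝ x w : ℝ)) (by fun_prop)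
  exact ⟨p, hp, h.symm⟩

theorem lo_lt_hi {n : ℕ} {K : Set (E n)} (hK : IsCompact K) (hint : (interior K).Nonempty)
    {w : E n} (hw : w ≠ 0) : lo K w < hi K w := by
  obtain ⟨p, hp⟩ := hint
  have hww : 0 < (inner ℝ w w : ℝ) := by
    rw [real_inner_self_eq_norm_sq]; positivity
  have ht : Tendsto (fun ε : ℝ => p + ε • w) (𝓝[>] 0) (𝓝 p) := by
    have : Tendsto (fun ε : ℝ => p + ε • w) (𝓝 0) (𝓝 (p + (0:ℝ) • w)) := by
      apply Continuous.tendsto; fun_prop
    rw [zero_smul, add_zero] at this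
    exact this.mono_left nhdsWithin_le_nhds
  have h1 : ∀ᶠ ε : ℝ in 𝓝[>] 0, p + ε • w ∈ K := ht.eventually (mem_interior_iff_mem_nhds.1 hp)
  obtain ⟨ε, e1, e2⟩ := (h1.and self_mem_nhdsWithin).exists
  have e2' : (0 : ℝ) < ε := e2
  have h2 := le_hi hK e1 w
  have h3 := lo_le hK (interior_subset hp) w
  rw [inner_add_left, inner_smul_left] at h2
  simp only [conj_trivial] at h2
  nlinarith [mul_pos e2' hww]

/-- every value strictly between is attained at an interior point -/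
theorem exists_interior {n : ℕ} {K : Set (E n)} (hK : IsCompact K) (hc : Convex ℝ K)
    (hint : (interior K).Nonempty) {w : E n} (hw : w ≠ 0) {t : ℝ} (ht : t ∈ Ioo (lo K w) (hi K w)) :
    ∃ p ∈ interior K, (inner ℝ p w : ℝ) = t := by
  have hne : K.Nonempty := hint.mono interior_subset
  have hcl : K = closure (interior K) := by
    rw [hc.closure_interior_eq_closure_of_nonempty_interior hint, hK.isClosed.closure_eq]
  have hcont : Continuous (fun x : E n => (inner ℝ x w : ℝ)) := by fun_prop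
  obtain ⟨p, hp, hpw⟩ := exists_hi hK hne w
  obtain ⟨q, hq, hqw⟩ := exists_hi hK hne (-w)
  have hqw' : (inner ℝ q w : ℝ) = lo K w := by
    rw [inner_neg_right] at hqw; unfold lo; linarith
  obtain ⟨x, hx, hxt⟩ : ∃ x ∈ interior K, t < (inner ℝ x w : ℝ) := by
    have h1 : p ∈ closure (interior K) := hcl ▸ hp
    have h2 : {x : E n | t < (inner ℝ x w : ℝ)} ∈ 𝓝 p :=
      (isOpen_lt continuous_const hcont).mem_nhds (by simpa [hpw] using ht.2)
    obtain ⟨x, hx1, hx2⟩ := mem_closure_iff_nhds.1 h1 _ h2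
    exact ⟨x, hx2, hx1⟩
  obtain ⟨y, hy, hyt⟩ : ∃ y ∈ interior K, (inner ℝ y w : ℝ) < t := by
    have h1 : q ∈ closure (interior K) := hcl ▸ hq
    have h2 : {x : E n | (inner ℝ x w : ℝ) < t} ∈ 𝓝 q :=
      (isOpen_lt hcont continuous_const).mem_nhds (by simpa [hqw'] using ht.1)
    obtain ⟨x, hx1, hx2⟩ := mem_closure_iff_nhds.1 h1 _ h2
    exact ⟨x, hx2, hx1⟩
  have hpre : IsPreconnected ((fun x : E n => (inner ℝ x w : ℝ)) '' interior K) :=
    hc.interior.isPreconnected.image _ hcont.continuousOn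
  have hsub := hpre.Icc_subset (mem_image_of_mem _ hy) (mem_image_of_mem _ hx)
  obtain ⟨z, hz, hzt⟩ := hsub ⟨hyt.le, hxt.le⟩
  exact ⟨z, hz, hzt⟩

theorem abs_hi_le {n : ℕ} {K : Set (E n)} {R : ℝ} (hR : 0 ≤ R) (hK : K ⊆ Metric.closedBall 0 R)
    (hne : K.Nonempty) (w : E n) : |hi K w| ≤ R * ‖w‖ ∧ |lo K w| ≤ R * ‖w‖ := by
  have key : ∀ w : E n, |hi K w| ≤ R * ‖w‖ := by
    intro w
    have hb := abs_inner_le_of_subset hK w
    obtain ⟨x, hx⟩ := hne
    rw [abs_le]
    constructor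
    · have h1 : (inner ℝ x w : ℝ) ≤ hi K w := by
        apply le_csSup _ (mem_image_of_mem _ hx)
        refine ⟨R * ‖w‖, ?_⟩
        rintro _ ⟨y, hy, rfl⟩
        exact (abs_le.1 (hb y hy)).2
      linarith [(abs_le.1 (hb x hx)).1]
    · apply csSup_le (⟨_, mem_image_of_mem _ hx⟩)
      rintro _ ⟨y, hy, rfl⟩
      exact (abs_le.1 (hb y hy)).2
  refine ⟨key w, ?_⟩
  unfold lo
  rw [abs_neg]
  simpa using key (-w)

theorem hi_continuous {n : ℕ} {K : Set (E n)} (hK : IsCompact K) (hne : K.Nonempty) :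
    Continuous (hi K) := by
  obtain ⟨R, hR⟩ := hK.isBounded.subset_closedBall (0 : E n)
  have hR' : K ⊆ Metric.closedBall 0 (max R 0) :=
    hR.trans (Metric.closedBall_subset_closedBall (le_max_left _ _))
  set R' := max R 0 with hR'def
  have hR0 : 0 ≤ R' := le_max_right _ _
  have key : ∀ w w' : E n, hi K w - hi K w' ≤ R' * ‖w - w'‖ := by
    intro w w'
    obtain ⟨p, hp, hpw⟩ := exists_hi hK hne w
    have h1 := le_hi hK hp w'
    have h2 := (abs_le.1 (abs_inner_le_of_subset hR' (w - w') p hp)).2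
    rw [inner_sub_right] at h2
    linarith
  have hl : LipschitzWith (Real.toNNReal R') (hi K) := by
    apply LipschitzWith.of_dist_le_mul
    intro w w'
    rw [Real.dist_eq, dist_eq_norm, Real.coe_toNNReal _ hR0, abs_le]
    constructor
    · have := key w' w
      rw [norm_sub_rev] at this
      linarith
    · exact key w w'
  exact hl.continuous

theorem hi_smul {n : ℕ} (K : Set (E n)) {c : ℝ} (hc : 0 ≤ c) (w : E n) : hi K (c • w) = c * hi K w := by
  unfold hi
  have : (fun x : E n => (inner ℝ x (c • w) : ℝ)) '' K = c • ((fun x : E n => (inner ℝ x w : ℝ)) '' K) := by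
    ext y
    simp only [mem_image, mem_smul_set, inner_smul_right]
    constructor
    · rintro ⟨x, hx, rfl⟩; exact ⟨_, ⟨x, hx, rfl⟩, rfl⟩
    · rintro ⟨_, ⟨x, hx, rfl⟩, rfl⟩; exact ⟨x, hx, rfl⟩
  rw [this, Real.sSup_smul_of_nonneg hc, smul_eq_mul]

end P56acde
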