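import Pool.Agent.Lib.P56acde.CoreRight

/-! MODULE Core (uses `core_right`, `core_right_bound`): both ends, by the reflection `t ↦ -t`
(`V~(t) = V(-t)` on `[-b,-a]`, `deriv V~ (t) = - deriv V (-t)`, `P~(t,v) = P(-t,v)`). -/

open Polynomial Set Filter Topology

namespace P56acde

theorem analyticOnNhd_comp_neg {a b : ℝ} {V : ℝ → ℝ} (hV : AnalyticOnNhd ℝ V (Icc a b)) :
    AnalyticOnNhd ℝ (fun t => V (-t)) (Icc (-b) (-a)) := by
  intro t ht
  have h1 : AnalyticAt ℝ V (-t) := hV (-t) ⟨by linarith [ht.2], by linarith [ht.1]⟩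
  have h2 : AnalyticAt ℝ (fun t : ℝ => -t) t := analyticAt_id.neg
  exact AnalyticAt.comp (g := V) (f := fun t : ℝ => -t) h1 h2

/-- `P(-t, v)`. -/
noncomputable def refl (P : ℝ[X][X]) : ℝ[X][X] := P.map (compRingHom (-X))

theorem evalEval_refl (P : ℝ[X][X]) (t v : ℝ) : evalEval t v (refl P) = evalEval (-t) v P := by
  have h1 : (refl P).eval (C v) = (compRingHom (-X : ℝ[X])) (P.eval (C v)) := by
    have h2 : (C v : ℝ[X]) = (compRingHom (-X : ℝ[X])) (C v) := by simp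
    rw [refl, eval_map]
    conv_lhs => rw [h2]
    exact eval₂_at_apply _ _
  simp only [evalEval]
  rw [h1]
  simp [coe_compRingHom_apply, eval_comp]

theorem refl_ne_zero {P : ℝ[X][X]} (hP : P ≠ 0) : refl P ≠ 0 := by
  have hinj : Function.Injective (compRingHom (-X : ℝ[X])) := by
    intro p q hpq
    have h : ∀ r : ℝ[X], (r.comp (-X)).comp (-X) = r := fun r => by
      rw [comp_assoc]; simp
    rw [← h p, ← h q]
    simp only [coe_compRingHom_apply] at hpq
    rw [hpq]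
  rw [refl, Ne, Polynomial.map_eq_zero_iff hinj]
  exact hP

theorem deriv_comp_neg' (V : ℝ → ℝ) (t : ℝ) : deriv (fun t => V (-t)) t = - deriv V (-t) :=
  deriv_comp_neg V t

theorem moment_refl (f : ℝ → ℝ) (a b : ℝ) (k : ℕ) :
    ∫ t in (-b)..(-a), t ^ k * (- f (-t)) = - (-1) ^ k * ∫ t in a..b, t ^ k * f t := by
  have h1 : ∫ t in (-b)..(-a), t ^ k * (- f (-t))
      = ∫ t in (-b)..(-a), (fun s : ℝ => - (-1) ^ k * (s ^ k * f s)) (-t) := by
    refine intervalIntegral.integral_congr fun t _ => ?_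
    show t ^ k * (- f (-t)) = - (-1) ^ k * ((-t) ^ k * f (-t))
    have h2 : (-t) ^ k = (-1) ^ k * t ^ k := by rw [neg_pow]
    have h3 : ((-1 : ℝ) ^ k) * (-1) ^ k = 1 := by
      rw [← mul_pow]; simp
    rw [h2]
    linear_combination (t ^ k * f (-t)) * h3
  rw [h1, intervalIntegral.integral_comp_neg (fun s : ℝ => - (-1) ^ k * (s ^ k * f s)),
    intervalIntegral.integral_const_mul]
  simp

theorem moment_deriv_refl (V : ℝ → ℝ) (a b : ℝ) (k : ℕ) :
    ∫ t in (-b)..(-a), t ^ k * deriv (fun t => V (-t)) t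
      = - (-1) ^ k * ∫ t in a..b, t ^ k * deriv V t := by
  rw [← moment_refl]
  refine intervalIntegral.integral_congr fun t _ => ?_
  show t ^ k * deriv (fun t => V (-t)) t = t ^ k * (- deriv V (-t))
  rw [deriv_comp_neg']

/-- Core theorem (i), both ends (reflection `t ↦ -t`). -/
theorem core_both {a b : ℝ} (hab : a < b) {V : ℝ → ℝ} (hV : AnalyticOnNhd ℝ V (Icc a b))
    (P : ℝ[X][X]) (hP : P ≠ 0) (hPV : ∀ t ∈ Icc a b, evalEval t (V t) P = 0) (hne : V a ≠ V b)
    {a' b' : ℝ} (hab' : a' < b') {B' : ℝ → ℝ} (hB' : AnalyticOnNhd ℝ B' (Icc a' b'))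
    (σ : ℂ ≃+* ℂ)
    (hσ : ∀ k : ℕ, σ ((∫ t in a..b, t ^ k * deriv V t : ℝ) : ℂ)
      = ((∫ t in a'..b', t ^ k * B' t : ℝ) : ℂ)) :
    (σ a = a' ∧ σ b = b') ∨ (σ a = b' ∧ σ b = a') := by
  have h1 := core_right hab hV P hP hPV hne hab' hB' σ hσ
  have h2 : σ ((-a : ℝ) : ℂ) = ((-b' : ℝ) : ℂ) ∨ σ ((-a : ℝ) : ℂ) = ((-a' : ℝ) : ℂ) := by
    refine core_right (a := -b) (b := -a) (V := fun t => V (-t)) (by linarith)
      (analyticOnNhd_comp_neg hV) (refl P) (refl_ne_zero hP) ?_ ?_ (a' := -b') (b' := -a')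
      (B' := fun t => - B' (-t)) (by linarith) ?_ σ ?_
    · intro t ht
      rw [evalEval_refl]
      exact hPV (-t) ⟨by linarith [ht.2], by linarith [ht.1]⟩
    · simpa using hne.symm
    · exact (analyticOnNhd_comp_neg hB').neg
    · intro k
      rw [moment_deriv_refl, moment_refl]
      have := hσ k
      push_cast
      rw [map_mul, map_neg, map_pow, map_neg, map_one]
      rw [this]
  have h3 : σ (a : ℂ) = b' ∨ σ (a : ℂ) = a' := by
    rcases h2 with h | h
    · left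
      have : -σ (a : ℂ) = -(b' : ℂ) := by
        rw [← map_neg]; push_cast at h; exact h
      exact neg_injective this
    · right
      have : -σ (a : ℂ) = -(a' : ℂ) := by
        rw [← map_neg]; push_cast at h; exact h
      exact neg_injective this
  have hne' : σ (a : ℂ) ≠ σ (b : ℂ) := fun h => hab.ne (by exact_mod_cast σ.injective h)
  rcases h1 with h1 | h1 <;> rcases h3 with h3 | h3
  · exact Or.inr ⟨h3, h1⟩
  · exact absurd (h3.trans h1.symm) hne'
  · exact absurd (h3.trans h1.symm) hne'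
  · exact Or.inl ⟨h3, h1⟩

/-- Core theorem (ii), both ends. -/
theorem core_bound {a b : ℝ} (hab : a < b) {V : ℝ → ℝ} (hV : AnalyticOnNhd ℝ V (Icc a b))
    (P : ℝ[X][X]) (hP : P ≠ 0) (hPV : ∀ t ∈ Icc a b, evalEval t (V t) P = 0) (hne : V a ≠ V b)
    {M' : ℕ → ℂ} {C R : ℝ} (hR : 0 ≤ R) (hM' : ∀ k, ‖M' k‖ ≤ C * R ^ k)
    (σ : ℂ ≃+* ℂ) (hσ : ∀ k : ℕ, σ ((∫ t in a..b, t ^ k * deriv V t : ℝ) : ℂ) = M' k) :
    ‖σ a‖ ≤ R ∧ ‖σ b‖ ≤ R := by
  refine ⟨?_, core_right_bound hab hV P hP hPV hne hR hM' σ hσ⟩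
  have h2 : ‖σ ((-a : ℝ) : ℂ)‖ ≤ R := by
    refine core_right_bound (a := -b) (b := -a) (V := fun t => V (-t)) (by linarith)
      (analyticOnNhd_comp_neg hV) (refl P) (refl_ne_zero hP) ?_ ?_
      (M' := fun k => - (-1) ^ k * M' k) (C := C) hR ?_ σ ?_
    · intro t ht
      rw [evalEval_refl]
      exact hPV (-t) ⟨by linarith [ht.2], by linarith [ht.1]⟩
    · simpa using hne.symm
    · intro k
      have : ‖(- (-1) ^ k * M' k : ℂ)‖ = ‖M' k‖ := by simp
      rw [this]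
      exact hM' k
    · intro k
      rw [moment_deriv_refl]
      have := hσ k
      push_cast
      rw [map_mul, map_neg, map_pow, map_neg, map_one]
      rw [this]
  have h3 : σ ((-a : ℝ) : ℂ) = - σ (a : ℂ) := by
    push_cast
    rw [map_neg]
  rw [h3, norm_neg] at h2
  exact h2

end P56acde
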