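import Pool.Agent.Lib.P56acde.Tay

/-! MODULE EndForm (uses `Tay`).
PROOF. On the slit disc (open): `iteratedDeriv j F z = iteratedDeriv j Bc z * log (z-b) + W_j z` with
`W_0 = G`, `W_{j+1} = W_j' + (iteratedDeriv j Bc)/(z-b)`; by induction `W_j = U_j/(z-b)^j` with `U_j` analytic at `b`,
`U_{j+1} = (z-b) U_j' - j U_j + (z-b)^j iteratedDeriv j Bc`, whose Taylor series is `Ur (tay Bc) (tay G) j`.
So `∑ p_j (z-b)^{r-j} U_j = c (z-b)^r` on the slit disc, hence near `b`; take Taylor series. -/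

open Polynomial Filter Topology

namespace P56acde

namespace EndFormAux

/-- functional version of `Ur`. -/
noncomputable def Uf (b : ℂ) (Bc G : ℂ → ℂ) : ℕ → ℂ → ℂ
  | 0 => G
  | j + 1 => fun z => ((z - b) * deriv (Uf b Bc G j) z - (j : ℂ) * Uf b Bc G j z)
      + (z - b) ^ j * iteratedDeriv j Bc z

theorem analyticAt_iteratedDeriv {f : ℂ → ℂ} {b : ℂ} (hf : AnalyticAt ℂ f b) (j : ℕ) :
    AnalyticAt ℂ (iteratedDeriv j f) b := by
  induction j with
  | zero => simpa using hf
  | succ j ih =>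
    rw [iteratedDeriv_succ]
    exact ih.deriv

theorem analyticAt_sub_b (b : ℂ) : AnalyticAt ℂ (fun z : ℂ => z - b) b :=
  analyticAt_id.sub analyticAt_const

theorem analyticAt_Uf {b : ℂ} {Bc G : ℂ → ℂ} (hBc : AnalyticAt ℂ Bc b) (hG : AnalyticAt ℂ G b)
    (j : ℕ) : AnalyticAt ℂ (Uf b Bc G j) b := by
  induction j with
  | zero => exact hG
  | succ j ih =>
    exact (((analyticAt_sub_b b).fun_mul ih.deriv).fun_sub (analyticAt_const.fun_mul ih)).fun_add
      (((analyticAt_sub_b b).fun_pow j).fun_mul (analyticAt_iteratedDeriv hBc j))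

theorem tay_sub_b (b : ℂ) : tay b (fun z : ℂ => z - b) = PowerSeries.X := by
  have h := tay_poly b (X - C b)
  have h2 : (fun z : ℂ => (X - C b : ℂ[X]).eval z) = fun z => z - b := by
    funext z; simp
  rw [h2] at h
  rw [h]
  simp [sh]

theorem tay_sub_b_pow (b : ℂ) (j : ℕ) : tay b (fun z : ℂ => (z - b) ^ j) = PowerSeries.X ^ j := by
  have h := tay_poly b ((X - C b) ^ j)
  have h2 : (fun z : ℂ => ((X - C b : ℂ[X]) ^ j).eval z) = fun z => (z - b) ^ j := by
    funext z; simp
  rw [h2] at h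
  rw [h]
  simp [sh]

theorem tay_const (b : ℂ) (j : ℕ) : tay b (fun _ : ℂ => (j : ℂ)) = (j : PowerSeries ℂ) := by
  have h := tay_poly b (j : ℂ[X])
  have h2 : (fun z : ℂ => (j : ℂ[X]).eval z) = fun _ => (j : ℂ) := by
    funext z; simp
  rw [h2] at h
  rw [h, map_natCast]

theorem tay_Uf {b : ℂ} {Bc G : ℂ → ℂ} (hBc : AnalyticAt ℂ Bc b) (hG : AnalyticAt ℂ G b)
    (j : ℕ) : tay b (Uf b Bc G j) = Ur (tay b Bc) (tay b G) j := by
  induction j with
  | zero => rfl
  | succ j ih =>
    have hU := analyticAt_Uf hBc hG j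
    have h1 : AnalyticAt ℂ (fun z => (z - b) * deriv (Uf b Bc G j) z) b :=
      (analyticAt_sub_b b).fun_mul hU.deriv
    have h2 : AnalyticAt ℂ (fun z => (j : ℂ) * Uf b Bc G j z) b := analyticAt_const.fun_mul hU
    have h3 : AnalyticAt ℂ (fun z => (z - b) ^ j * iteratedDeriv j Bc z) b :=
      ((analyticAt_sub_b b).fun_pow j).fun_mul (analyticAt_iteratedDeriv hBc j)
    have h4 : tay b (Uf b Bc G (j + 1)) = tay b (fun z => ((z - b) * deriv (Uf b Bc G j) z
        - (j : ℂ) * Uf b Bc G j z) + (z - b) ^ j * iteratedDeriv j Bc z) := rfl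
    rw [h4, tay_add (h1.fun_sub h2) h3, tay_sub h1 h2, tay_mul (analyticAt_sub_b b) hU.deriv,
      tay_mul analyticAt_const hU, tay_mul ((analyticAt_sub_b b).fun_pow j)
      (analyticAt_iteratedDeriv hBc j), tay_sub_b, tay_sub_b_pow, tay_const, tay_deriv, ih,
      tay_iteratedDeriv]
    rfl

theorem iter_F {b : ℂ} {F Bc G : ℂ → ℂ} (hBc : AnalyticAt ℂ Bc b) (hG : AnalyticAt ℂ G b)
    (hF : ∀ᶠ z in 𝓝 b, z - b ∈ Complex.slitPlane → F z = Bc z * Complex.log (z - b) + G z)
    (j : ℕ) : ∀ᶠ z in 𝓝 b, z - b ∈ Complex.slitPlane →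
      iteratedDeriv j F z = iteratedDeriv j Bc z * Complex.log (z - b)
        + Uf b Bc G j z / (z - b) ^ j := by
  induction j with
  | zero =>
    filter_upwards [hF] with z hz hz'
    simpa [Uf] using hz hz'
  | succ j ih =>
    have hB := (analyticAt_iteratedDeriv hBc j).eventually_analyticAt
    have hU := (analyticAt_Uf hBc hG j).eventually_analyticAt
    filter_upwards [eventually_eventually_nhds.mpr ih, hB, hU] with z hz hBz hUz hslit
    have hopen : IsOpen {w : ℂ | w - b ∈ Complex.slitPlane} :=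
      Complex.isOpen_slitPlane.preimage (continuous_id.sub continuous_const)
    have h1 : iteratedDeriv j F =ᶠ[𝓝 z] fun w => iteratedDeriv j Bc w * Complex.log (w - b)
        + Uf b Bc G j w / (w - b) ^ j := by
      filter_upwards [hz, hopen.mem_nhds hslit] with w hw hw'
      exact hw hw'
    have hne : z - b ≠ 0 := Complex.slitPlane_ne_zero hslit
    rw [iteratedDeriv_succ, h1.deriv_eq]
    have hd1 : HasDerivAt (fun w : ℂ => w - b) 1 z := (hasDerivAt_id z).sub_const b
    have hd2 : HasDerivAt (fun w : ℂ => Complex.log (w - b)) (1 / (z - b)) z :=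
      hd1.clog hslit
    have hd3 := hBz.differentiableAt.hasDerivAt
    have hd4 := hUz.differentiableAt.hasDerivAt
    have hd5 : HasDerivAt (fun w : ℂ => (w - b) ^ j) ((j : ℂ) * (z - b) ^ (j - 1) * 1) z :=
      hd1.pow j
    have hd6 := (hd3.mul hd2).add (hd4.div hd5 (pow_ne_zero j hne))
    have hd7 := hd6.deriv
    have heq : deriv (fun w => iteratedDeriv j Bc w * Complex.log (w - b)
        + Uf b Bc G j w / (w - b) ^ j) z = _ := hd7
    rw [heq, iteratedDeriv_succ]
    have hUsucc : Uf b Bc G (j + 1) z = ((z - b) * deriv (Uf b Bc G j) z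
      - (j : ℂ) * Uf b Bc G j z) + (z - b) ^ j * iteratedDeriv j Bc z := rfl
    rw [hUsucc]
    cases j with
    | zero =>
      simp
      field_simp
      ring
    | succ j =>
      simp only [Nat.add_sub_cancel]
      field_simp
      ring

end EndFormAux

open EndFormAux

theorem end_formal {b : ℂ} {F Bc G : ℂ → ℂ} (hBc : AnalyticAt ℂ Bc b) (hG : AnalyticAt ℂ G b)
    (hF : ∀ᶠ z in 𝓝 b, z - b ∈ Complex.slitPlane → F z = Bc z * Complex.log (z - b) + G z)
    (r : ℕ) (p : ℕ → ℂ[X]) (c : ℂ[X])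
    (hB : ∀ᶠ z in 𝓝 b, ∑ j ∈ Finset.range (r + 1), (p j).eval z * iteratedDeriv j Bc z = 0)
    (hc : ∀ᶠ z in 𝓝 b, z - b ∈ Complex.slitPlane →
      ∑ j ∈ Finset.range (r + 1), (p j).eval z * iteratedDeriv j F z = c.eval z) :
    ∑ j ∈ Finset.range (r + 1), sh b (p j) * PowerSeries.X ^ (r - j) * Ur (tay b Bc) (tay b G) j
      = sh b c * PowerSeries.X ^ r := by
  have hall : ∀ᶠ z in 𝓝 b, ∀ j ∈ Finset.range (r + 1), z - b ∈ Complex.slitPlane →
      iteratedDeriv j F z = iteratedDeriv j Bc z * Complex.log (z - b)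
        + Uf b Bc G j z / (z - b) ^ j := by
    rw [Filter.eventually_all_finset]
    intro j _
    exact iter_F hBc hG hF j
  have hslit : ∀ᶠ z in 𝓝 b, z - b ∈ Complex.slitPlane →
      ∑ j ∈ Finset.range (r + 1), ((p j).eval z * (z - b) ^ (r - j)) * Uf b Bc G j z
        = c.eval z * (z - b) ^ r := by
    filter_upwards [hall, hB, hc] with z h1 h2 h3 h4
    have hne : z - b ≠ 0 := Complex.slitPlane_ne_zero h4
    rw [← h3 h4, Finset.sum_mul]
    have h5 : ∀ j ∈ Finset.range (r + 1), (p j).eval z * iteratedDeriv j F z * (z - b) ^ r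
        = ((p j).eval z * iteratedDeriv j Bc z) * (Complex.log (z - b) * (z - b) ^ r)
          + ((p j).eval z * (z - b) ^ (r - j)) * Uf b Bc G j z := by
      intro j hj
      have hjr : j ≤ r := by
        have := Finset.mem_range.mp hj
        omega
      rw [h1 j hj h4]
      have h6 : (z - b) ^ r = (z - b) ^ (r - j) * (z - b) ^ j := by
        rw [← pow_add, Nat.sub_add_cancel hjr]
      have h7 : (z - b) ^ j ≠ 0 := pow_ne_zero j hne
      rw [h6]
      field_simp
    rw [Finset.sum_congr rfl h5, Finset.sum_add_distrib, ← Finset.sum_mul, h2, zero_mul, zero_add]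
  have hanU : ∀ j ∈ Finset.range (r + 1), AnalyticAt ℂ (fun z =>
      ((p j).eval z * (z - b) ^ (r - j)) * Uf b Bc G j z) b := fun j _ =>
    ((AnalyticOnNhd.eval_polynomial (p j) b (Set.mem_univ _)).fun_mul
      ((analyticAt_sub_b b).fun_pow (r - j))).fun_mul (analyticAt_Uf hBc hG j)
  have hL : AnalyticAt ℂ (fun z => ∑ j ∈ Finset.range (r + 1),
      ((p j).eval z * (z - b) ^ (r - j)) * Uf b Bc G j z) b := Finset.analyticAt_fun_sum _ hanU
  have hR : AnalyticAt ℂ (fun z => c.eval z * (z - b) ^ r) b :=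
    (AnalyticOnNhd.eval_polynomial c b (Set.mem_univ _)).fun_mul ((analyticAt_sub_b b).fun_pow r)
  have hfreq : ∃ᶠ z in 𝓝[≠] b, (∑ j ∈ Finset.range (r + 1),
      ((p j).eval z * (z - b) ^ (r - j)) * Uf b Bc G j z) = c.eval z * (z - b) ^ r := by
    have ht : Tendsto (fun ε : ℝ => b + (ε : ℂ)) (𝓝[>] 0) (𝓝[≠] b) := by
      refine tendsto_nhdsWithin_iff.mpr ⟨?_, ?_⟩
      · have : Tendsto (fun ε : ℝ => b + (ε : ℂ)) (𝓝 0) (𝓝 (b + ((0 : ℝ) : ℂ))) :=
          (continuous_const.add Complex.continuous_ofReal).tendsto 0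
        simp only [Complex.ofReal_zero, add_zero] at this
        exact this.mono_left nhdsWithin_le_nhds
      · filter_upwards [self_mem_nhdsWithin] with ε hε
        have hε' : (0 : ℝ) < ε := hε
        simp [hε'.ne']
    refine ht.frequently (Eventually.frequently ?_)
    filter_upwards [(ht.mono_right nhdsWithin_le_nhds).eventually hslit, self_mem_nhdsWithin] with ε h1 hε
    apply h1
    have hε' : (0 : ℝ) < ε := hε
    rw [add_sub_cancel_left]
    exact Complex.ofReal_mem_slitPlane.mpr hε'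
  have heq := (hL.frequently_eq_iff_eventually_eq hR).mp hfreq
  have h1 := tay_congr heq
  rw [tay_sum _ hanU, tay_mul (AnalyticOnNhd.eval_polynomial c b (Set.mem_univ _))
    ((analyticAt_sub_b b).fun_pow r), tay_poly, tay_sub_b_pow] at h1
  rw [← h1]
  refine Finset.sum_congr rfl fun j _ => ?_
  rw [tay_mul ((AnalyticOnNhd.eval_polynomial (p j) b (Set.mem_univ _)).fun_mul
      ((analyticAt_sub_b b).fun_pow (r - j))) (analyticAt_Uf hBc hG j),
    tay_mul (AnalyticOnNhd.eval_polynomial (p j) b (Set.mem_univ _))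
      ((analyticAt_sub_b b).fun_pow (r - j)), tay_poly, tay_sub_b_pow, tay_Uf hBc hG]

/-- If `y` is a formal solution, subtract it. -/
theorem Ur_sub (A ψ y : PowerSeries ℂ) (j : ℕ) :
    Ur A (ψ - y) j = Ur A ψ j - PowerSeries.X ^ j * dX^[j] y := by
  induction j with
  | zero => simp [Ur]
  | succ j ih =>
    have h1 : Ur A (ψ - y) (j + 1) = PowerSeries.X * dX (Ur A (ψ - y) j)
      - (j : PowerSeries ℂ) * Ur A (ψ - y) j + PowerSeries.X ^ j * dX^[j] A := rfl
    have h2 : Ur A ψ (j + 1) = PowerSeries.X * dX (Ur A ψ j)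
      - (j : PowerSeries ℂ) * Ur A ψ j + PowerSeries.X ^ j * dX^[j] A := rfl
    have h3 : dX (PowerSeries.X ^ j * dX^[j] y) = PowerSeries.X ^ j * dX^[j + 1] y
        + dX^[j] y * ((j : PowerSeries ℂ) * PowerSeries.X ^ (j - 1)) := by
      rw [Function.iterate_succ_apply']
      simp only [dX]
      rw [Derivation.leibniz, Derivation.leibniz_pow]
      simp only [smul_eq_mul, PowerSeries.derivative_X, nsmul_eq_mul, mul_one]
    rw [h1, h2, ih]
    have h4 : dX (Ur A ψ j - PowerSeries.X ^ j * dX^[j] y) = dX (Ur A ψ j)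
        - dX (PowerSeries.X ^ j * dX^[j] y) := map_sub _ _ _
    rw [h4, h3]
    cases j with
    | zero => simp; ring
    | succ j =>
      simp only [Nat.add_sub_cancel]
      ring

end P56acde
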