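import Pool.Agent.Lib.P56acde.AlgLemma
import Pool.Agent.Lib.P56acde.RExt
import Pool.Agent.Lib.P56acde.CTRat
import Pool.Agent.Lib.P56acde.CTAn
import Pool.Agent.Lib.P56acde.CTEnd
import Pool.Agent.Lib.P56acde.EndForm

/-! # The differential equation of the Cauchy transform and its failure at the right end -/

open Polynomial Set Filter Topology

namespace P56acde

namespace CoreOdeAux

theorem analyticAt_iteratedDeriv {𝕜 : Type*} [RCLike 𝕜] {f : 𝕜 → 𝕜} {z : 𝕜}
    (hf : AnalyticAt 𝕜 f z) (j : ℕ) : AnalyticAt 𝕜 (iteratedDeriv j f) z := by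
  rw [iteratedDeriv_eq_iterate]
  exact hf.iterated_deriv j

theorem analyticAt_poly (p : ℂ[X]) (z : ℂ) : AnalyticAt ℂ (fun z => p.eval z) z := by
  have := AnalyticAt.aeval_polynomial (analyticAt_id (𝕜 := ℂ) (z := z)) p
  simpa using this

theorem analyticAt_evalEval {f : ℂ → ℂ} {z₀ : ℂ} (hf : AnalyticAt ℂ f z₀) (P : ℂ[X][X]) :
    AnalyticAt ℂ (fun z => evalEval z (f z) P) z₀ := by
  induction P using Polynomial.induction_on' with
  | add p q hp hq =>
    have h := hp.add hq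
    have he : (fun z => evalEval z (f z) (p + q)) =
        (fun z => evalEval z (f z) p) + (fun z => evalEval z (f z) q) := by
      funext z
      simp [evalEval_add]
    rw [he]
    exact h
  | monomial n a =>
    have he : (fun z => evalEval z (f z) (monomial n a)) = fun z => a.eval z * (f z) ^ n := by
      funext z
      simp [evalEval]
    rw [he]
    exact (analyticAt_poly a z₀).mul (hf.pow n)

theorem evalEval_ofReal (P : ℝ[X][X]) (t v : ℝ) :
    evalEval (t : ℂ) (v : ℂ) (P.map (mapRingHom Complex.ofRealHom)) = ((evalEval t v P : ℝ) : ℂ) := by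
  induction P using Polynomial.induction_on' with
  | add p q hp hq => simp only [Polynomial.map_add, evalEval_add, hp, hq, Complex.ofReal_add]
  | monomial n a =>
    have h : (a.map Complex.ofRealHom).eval (t : ℂ) = ((a.eval t : ℝ) : ℂ) := by
      have := Polynomial.eval_map_apply (p := a) (f := Complex.ofRealHom) (x := t)
      simpa using this
    simp [evalEval, h]

theorem frequently_left {τ a : ℝ} (h : a < τ) {q : ℝ → Prop} (hq : ∀ᶠ t in 𝓝 τ, q t) :
    ∃ᶠ t : ℝ in 𝓝[≠] τ, t ∈ Ioo a τ ∧ q t := by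
  have h1 : ∃ᶠ t : ℝ in 𝓝[<] τ, t ∈ Ioo a τ ∧ q t := by
    have h2 : ∀ᶠ t : ℝ in 𝓝[<] τ, t ∈ Ioo a τ := Ioo_mem_nhdsLT h
    have h3 : ∀ᶠ t : ℝ in 𝓝[<] τ, q t := hq.filter_mono nhdsWithin_le_nhds
    exact (h2.and h3).frequently
  exact h1.filter_mono (nhdsWithin_mono _ (fun x hx => ne_of_lt hx))

theorem sh_ne_zero_aux (a b : ℂ) : sh b (X - C a) ≠ 0 := by
  intro h
  have h1 := congrArg (PowerSeries.coeff 1) h
  simp [sh] at h1

end CoreOdeAux

open CoreOdeAux

/-- Step 2 (1)+(3) at the right end. -/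
theorem core_ode {a b : ℝ} (hab : a < b) {V : ℝ → ℝ} (hV : AnalyticOnNhd ℝ V (Icc a b))
    (P : ℝ[X][X]) (hP : P ≠ 0) (hPV : ∀ t ∈ Icc a b, evalEval t (V t) P = 0) (hne : V a ≠ V b) :
    ∃ (r : ℕ) (p : ℕ → ℂ[X]) (c : ℂ[X]),
      (∀ z : ℂ, z ∉ seg a b → ∑ j ∈ Finset.range (r + 1),
        (p j).eval z * iteratedDeriv j (CT a b (deriv V)) z = c.eval z) ∧
      ¬ ∃ y : PowerSeries ℂ, ∑ j ∈ Finset.range (r + 1), sh (b : ℂ) (p j) * dX^[j] y = sh (b : ℂ) c := by
  have hbmem : b ∈ Icc a b := right_mem_Icc.2 hab.le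
  have hVb : AnalyticAt ℝ V b := hV b hbmem
  obtain ⟨Vc, hVc, hVceq⟩ := realExt hVb
  set v : PowerSeries ℂ := tay (b : ℂ) Vc with hv
  -- the complexified relation
  set Pc : ℂ[X][X] := P.map (mapRingHom Complex.ofRealHom) with hPc
  have hPc0 : Pc ≠ 0 := by
    rw [hPc]
    intro h0
    apply hP
    have hinj : Function.Injective (mapRingHom Complex.ofRealHom) := by
      rw [coe_mapRingHom]
      exact Polynomial.map_injective _ Complex.ofRealHom.injective
    exact (Polynomial.map_eq_zero_iff hinj).1 h0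
  have hrel : (fun z => evalEval z (Vc z) Pc) =ᶠ[𝓝 (b : ℂ)] fun _ => 0 := by
    apply eq_of_real (analyticAt_evalEval hVc Pc) analyticAt_const
    refine (frequently_left hab hVceq).mono ?_
    rintro t ⟨ht, hte⟩
    show evalEval (t : ℂ) (Vc t) Pc = 0
    rw [hte, hPc, evalEval_ofReal, hPV t ⟨ht.1.le, ht.2.le⟩]
    simp
  have hformal : (Pc.map (sh (b : ℂ))).eval v = 0 := by
    rw [hv, ← tay_evalEval hVc Pc, tay_congr hrel, tay_zero]
  have hdVc : AnalyticAt ℂ (deriv Vc) b := hVc.deriv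
  -- derivatives on the real line
  have hder : ∀ j : ℕ, ∀ᶠ t : ℝ in 𝓝 b,
      iteratedDeriv j (deriv Vc) t = ((iteratedDeriv j (deriv V) t : ℝ) : ℂ) := by
    intro j
    have := realExt_iteratedDeriv hVb hVc hVceq (j + 1)
    rw [iteratedDeriv_succ', iteratedDeriv_succ'] at this
    exact this
  have hdV : AnalyticOnNhd ℝ (deriv V) (Icc a b) := hV.deriv
  have hv0 : dX v ≠ 0 := by
    intro h0
    rw [hv, ← tay_deriv] at h0
    have h1 : deriv Vc =ᶠ[𝓝 (b : ℂ)] fun _ => 0 := by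
      apply tay_inj hdVc analyticAt_const
      rw [h0, tay_zero]
    have h2 : deriv V =ᶠ[𝓝 b] 0 := by
      have h3 : ∀ᶠ t : ℝ in 𝓝 b, deriv Vc (t : ℂ) = 0 :=
        (Complex.continuous_ofReal.tendsto b).eventually h1
      filter_upwards [h3, hder 0] with t ht1 ht2
      simp only [iteratedDeriv_zero] at ht2
      rw [ht1] at ht2
      have : ((deriv V t : ℝ) : ℂ) = 0 := ht2.symm
      simpa using this
    have h4 : EqOn (deriv V) 0 (Icc a b) :=
      hdV.eqOn_zero_of_preconnected_of_eventuallyEq_zero isPreconnected_Icc hbmem h2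
    apply hne
    have hdiff : DifferentiableOn ℝ V (Icc a b) :=
      fun t ht => (hV t ht).differentiableAt.differentiableWithinAt
    have h5 := constant_of_derivWithin_zero hdiff (fun t ht => by
      have ht' : t ∈ Icc a b := ⟨ht.1, ht.2.le⟩
      rw [(hV t ht').differentiableAt.derivWithin (uniqueDiffOn_Icc hab t ht')]
      exact h4 ht') b hbmem
    exact h5.symm
  obtain ⟨r, p, hpr, hprel, hpψ⟩ := algLemma (b : ℂ) v Pc hPc0 hformal hv0
  -- the linear ODE near `b`
  have hnear : (fun z => ∑ j ∈ Finset.range (r + 1), (p j).eval z * iteratedDeriv j (deriv Vc) z)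
      =ᶠ[𝓝 (b : ℂ)] fun _ => 0 := by
    have hterm : ∀ j ∈ Finset.range (r + 1),
        AnalyticAt ℂ (fun z => (p j).eval z * iteratedDeriv j (deriv Vc) z) (b : ℂ) :=
      fun j _ => (analyticAt_poly (p j) _).mul (analyticAt_iteratedDeriv hdVc j)
    have hsum : AnalyticAt ℂ
        (fun z => ∑ j ∈ Finset.range (r + 1), (p j).eval z * iteratedDeriv j (deriv Vc) z) (b : ℂ) :=
      Finset.analyticAt_fun_sum _ hterm
    apply tay_inj hsum analyticAt_const
    rw [tay_zero, tay_sum _ hterm, ← hprel]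
    refine Finset.sum_congr rfl fun j _ => ?_
    rw [tay_mul (analyticAt_poly (p j) _) (analyticAt_iteratedDeriv hdVc j), tay_poly,
      tay_iteratedDeriv, tay_deriv]
  have honIcc : ∀ u ∈ Icc a b, ∑ j ∈ Finset.range (r + 1),
      (p j).eval (u : ℂ) * ((iteratedDeriv j (deriv V) u : ℝ) : ℂ) = 0 := by
    have han : AnalyticOnNhd ℝ (fun u : ℝ => ∑ j ∈ Finset.range (r + 1),
        (p j).eval (u : ℂ) * ((iteratedDeriv j (deriv V) u : ℝ) : ℂ)) (Icc a b) := by
      intro u hu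
      refine Finset.analyticAt_fun_sum _ fun j _ => ?_
      have h1 : AnalyticAt ℝ (fun u : ℝ => ((iteratedDeriv j (deriv V) u : ℝ) : ℂ)) u :=
        (Complex.ofRealCLM.analyticAt _).comp (analyticAt_iteratedDeriv (hdV u hu) j)
      have h2 : AnalyticAt ℝ (fun u : ℝ => (p j).eval (u : ℂ)) u := by
        have h3 : AnalyticAt ℝ (fun z : ℂ => (p j).eval z) (u : ℂ) :=
          (analyticAt_poly (p j) (u : ℂ)).restrictScalars
        exact h3.comp (Complex.ofRealCLM.analyticAt u)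
      exact h2.mul h1
    have hz : (fun u : ℝ => ∑ j ∈ Finset.range (r + 1),
        (p j).eval (u : ℂ) * ((iteratedDeriv j (deriv V) u : ℝ) : ℂ)) =ᶠ[𝓝 b] 0 := by
      have h3 : ∀ᶠ t : ℝ in 𝓝 b, ∑ j ∈ Finset.range (r + 1),
          (p j).eval (t : ℂ) * iteratedDeriv j (deriv Vc) t = 0 :=
        (Complex.continuous_ofReal.tendsto b).eventually hnear
      have h4 : ∀ᶠ t : ℝ in 𝓝 b, ∀ j ∈ Finset.range (r + 1),
          iteratedDeriv j (deriv Vc) t = ((iteratedDeriv j (deriv V) t : ℝ) : ℂ) := by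
        rw [Finset.eventually_all]
        exact fun j _ => hder j
      filter_upwards [h3, h4] with t ht1 ht2
      rw [Pi.zero_apply, ← ht1]
      refine Finset.sum_congr rfl fun j hj => ?_
      rw [ht2 j hj]
    exact fun u hu =>
      han.eqOn_zero_of_preconnected_of_eventuallyEq_zero isPreconnected_Icc hbmem hz hu
  obtain ⟨N, c, hc⟩ := CT_rat hab hdV r p honIcc
  set Q : ℂ[X] := ((X - C (a : ℂ)) * (X - C (b : ℂ))) ^ N with hQ
  have hQeval : ∀ z : ℂ, Q.eval z = ((z - a) * (z - b)) ^ N := by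
    intro z
    simp [hQ]
  have hshQ : sh (b : ℂ) Q ≠ 0 := by
    rw [hQ, map_pow, map_mul]
    exact pow_ne_zero _ (mul_ne_zero (sh_ne_zero_aux _ _) (sh_ne_zero_aux _ _))
  have hODE : ∀ z : ℂ, z ∉ seg a b → ∑ j ∈ Finset.range (r + 1),
        (Q * p j).eval z * iteratedDeriv j (CT a b (deriv V)) z = c.eval z := by
    intro z hz
    rw [← hc z hz, Finset.mul_sum]
    refine Finset.sum_congr rfl fun j _ => ?_
    rw [eval_mul, hQeval]
    ring
  refine ⟨r, fun j => Q * p j, c, hODE, ?_⟩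
  rintro ⟨y, hy⟩
  obtain ⟨G, Bc, hG, hBc, hBcr, hCT⟩ := CT_end hab hdV.continuousOn (hdV b hbmem)
  have hBcV : Bc =ᶠ[𝓝 (b : ℂ)] deriv Vc := by
    apply eq_of_real hBc hdVc
    refine (frequently_left hab (hBcr.and (hder 0))).mono ?_
    rintro t ⟨-, ht1, ht2⟩
    simp only [iteratedDeriv_zero] at ht2
    rw [ht1, ht2]
  have htBc : tay (b : ℂ) Bc = dX v := by
    rw [tay_congr hBcV, tay_deriv]
  have hB0 : ∀ᶠ z in 𝓝 (b : ℂ), ∑ j ∈ Finset.range (r + 1),
      (Q * p j).eval z * iteratedDeriv j Bc z = 0 := by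
    have h1 : ∀ᶠ z in 𝓝 (b : ℂ), Bc =ᶠ[𝓝 z] deriv Vc := hBcV.eventually_nhds
    filter_upwards [h1, hnear] with z hz1 hz2
    have h2 : ∑ j ∈ Finset.range (r + 1), (Q * p j).eval z * iteratedDeriv j Bc z
        = Q.eval z * ∑ j ∈ Finset.range (r + 1), (p j).eval z * iteratedDeriv j (deriv Vc) z := by
      rw [Finset.mul_sum]
      refine Finset.sum_congr rfl fun j _ => ?_
      rw [eval_mul, hz1.iteratedDeriv_eq j]
      ring
    rw [h2, hz2, mul_zero]
  have hcF : ∀ᶠ z : ℂ in 𝓝 (b : ℂ), z - b ∈ Complex.slitPlane →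
      ∑ j ∈ Finset.range (r + 1), (Q * p j).eval z * iteratedDeriv j (CT a b (deriv V)) z
        = c.eval z := by
    refine Eventually.of_forall fun z hz => hODE z ?_
    rintro ⟨u, hu, rfl⟩
    have h1 : ((u : ℂ) - (b : ℂ)) = ((u - b : ℝ) : ℂ) := by push_cast; ring
    rw [h1, Complex.ofReal_mem_slitPlane] at hz
    linarith [hu.2]
  have hend := end_formal hBc hG hCT r (fun j => Q * p j) c hB0 hcF
  rw [htBc] at hend
  apply hpψ (tay (b : ℂ) G - y)
  apply (mul_eq_zero.1 ?_).resolve_left hshQ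
  rw [Finset.mul_sum]
  have hkey : ∀ j ∈ Finset.range (r + 1),
      sh (b : ℂ) Q * (sh (b : ℂ) (p j) * PowerSeries.X ^ (r - j) * Ur (dX v) (tay (b : ℂ) G - y) j)
      = sh (b : ℂ) (Q * p j) * PowerSeries.X ^ (r - j) * Ur (dX v) (tay (b : ℂ) G) j
        - PowerSeries.X ^ r * (sh (b : ℂ) (Q * p j) * dX^[j] y) := by
    intro j hj
    have hjr : j ≤ r := Nat.lt_succ_iff.1 (Finset.mem_range.1 hj)
    have hX : (PowerSeries.X : PowerSeries ℂ) ^ r = PowerSeries.X ^ (r - j) * PowerSeries.X ^ j := by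
      rw [← pow_add, Nat.sub_add_cancel hjr]
    rw [Ur_sub, map_mul, hX]
    ring
  rw [Finset.sum_congr rfl hkey, Finset.sum_sub_distrib, hend, ← Finset.mul_sum, hy]
  ring

end P56acde
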