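import Pool.Agent.Lib.P56acde.Tay

/-! MODULE Transp (transport of the ODE identity at infinity by a field automorphism; may use `Tay`).
PROOF. Put `z = 1/t`, `f(z) = F(1/z) = -∑ M_k z^{k+1}` near `0` (`f 0 = 0`), analytic at `0`; `F^{(j)}(1/z) = (δ^j f)(z)`, `δ = -z² d/dz`.
Multiplying by `z^N` (`N` ≥ all degrees) the identity becomes
`∑_j (reflect N (p j))(z) (δ^j f)(z) = (reflect N c)(z)` on a punctured neighbourhood of `0`, hence an identity of power series
(`tay 0`), with `tay 0 f = -∑ M_k X^{k+1}`. Apply `PowerSeries.map σ` and go back. Alternatively compare coefficients directly. -/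

open Polynomial Filter Topology

namespace P56acde

namespace TranspAux

/-- `F(1/w)`, with value `0` at `0`. -/
noncomputable def inv0 (F : ℂ → ℂ) (w : ℂ) : ℂ := if w = 0 then 0 else F w⁻¹

/-- the derivation `-w² d/dw`. -/
noncomputable def del (g : ℂ → ℂ) (w : ℂ) : ℂ := -w ^ 2 * deriv g w

/-- formal version of `del`. -/
noncomputable def delX (g : PowerSeries ℂ) : PowerSeries ℂ := -PowerSeries.X ^ 2 * dX g

/-- coefficients of `inv0 F`. -/
noncomputable def cf (M : ℕ → ℂ) : ℕ → ℂ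
  | 0 => 0
  | k + 1 => - M k

theorem hasFPS {F : ℂ → ℂ} {M : ℕ → ℂ} {R : ℝ}
    (hF : ∀ z : ℂ, R < ‖z‖ → HasSum (fun k : ℕ => - M k / z ^ (k + 1)) (F z)) :
    HasFPowerSeriesAt (inv0 F) (FormalMultilinearSeries.ofScalars ℂ (cf M)) 0 := by
  rw [hasFPowerSeriesAt_iff']
  have h1 : ∀ᶠ w : ℂ in 𝓝 0, ‖w‖ < (|R| + 1)⁻¹ := by
    have : Tendsto (fun w : ℂ => ‖w‖) (𝓝 0) (𝓝 0) := by
      simpa using (continuous_norm (E := ℂ)).tendsto 0
    exact this.eventually_lt_const (by positivity)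
  filter_upwards [h1] with w hw
  simp only [sub_zero, FormalMultilinearSeries.coeff_ofScalars, smul_eq_mul]
  by_cases h0 : w = 0
  · subst h0
    have : (fun n : ℕ => (0 : ℂ) ^ n * cf M n) = fun _ => 0 := by
      funext n
      cases n with
      | zero => simp [cf]
      | succ n => simp
    rw [this]
    simp [inv0, hasSum_zero]
  · have hR : R < ‖w⁻¹‖ := by
      rw [norm_inv]
      have hwpos : 0 < ‖w‖ := norm_pos_iff.mpr h0
      have : |R| + 1 < ‖w‖⁻¹ := by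
        rw [lt_inv_comm₀ (by positivity) hwpos]
        exact hw
      exact lt_of_le_of_lt (le_abs_self R) (by linarith)
    have h2 := hF _ hR
    have h3 : HasSum (fun k : ℕ => w ^ (k + 1) * cf M (k + 1)) (F w⁻¹) := by
      convert h2 using 2 with k
      simp [cf, mul_comm]
    have h4 := (hasSum_nat_add_iff (f := fun k : ℕ => w ^ k * cf M k) 1).mp h3
    simpa [inv0, h0, cf] using h4

theorem tay_inv0 {F : ℂ → ℂ} {M : ℕ → ℂ} {R : ℝ}
    (hF : ∀ z : ℂ, R < ‖z‖ → HasSum (fun k : ℕ => - M k / z ^ (k + 1)) (F z)) :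
    tay 0 (inv0 F) = PowerSeries.mk (cf M) := by
  have h1 := hasFPS hF
  have h2 := h1.analyticAt.hasFPowerSeriesAt
  have h3 := h2.eq_formalMultilinearSeries h1
  have h4 : ∀ n, iteratedDeriv n (inv0 F) 0 / (n.factorial : ℂ) = cf M n := by
    intro n
    have := congrArg (fun p => FormalMultilinearSeries.coeff p n) h3
    simpa only [FormalMultilinearSeries.coeff_ofScalars] using this
  ext n
  simp [tay, h4]

theorem analyticAt_del {g : ℂ → ℂ} {z : ℂ} (hg : AnalyticAt ℂ g z) : AnalyticAt ℂ (del g) z := by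
  have : AnalyticAt ℂ (fun w : ℂ => -w ^ 2 * deriv g w) z :=
    ((analyticAt_id.pow 2).neg).mul hg.deriv
  exact this

theorem analyticAt_del_iter {g : ℂ → ℂ} {z : ℂ} (hg : AnalyticAt ℂ g z) (j : ℕ) :
    AnalyticAt ℂ (del^[j] g) z := by
  induction j with
  | zero => simpa using hg
  | succ j ih =>
    rw [Function.iterate_succ_apply']
    exact analyticAt_del ih

theorem tay_del {g : ℂ → ℂ} (hg : AnalyticAt ℂ g 0) : tay 0 (del g) = delX (tay 0 g) := by
  have h1 : AnalyticAt ℂ (fun w : ℂ => -w ^ 2) 0 := (analyticAt_id.pow 2).neg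
  have h2 : tay 0 (fun w : ℂ => -w ^ 2) = -PowerSeries.X ^ 2 := by
    have := tay_poly 0 (-X ^ 2)
    simpa [sh] using this
  have : tay 0 (fun w : ℂ => -w ^ 2 * deriv g w) = _ := tay_mul h1 hg.deriv
  rw [h2, tay_deriv] at this
  exact this

theorem tay_del_iter {g : ℂ → ℂ} (hg : AnalyticAt ℂ g 0) (j : ℕ) :
    tay 0 (del^[j] g) = delX^[j] (tay 0 g) := by
  induction j with
  | zero => rfl
  | succ j ih =>
    rw [Function.iterate_succ_apply', Function.iterate_succ_apply', tay_del (analyticAt_del_iter hg j), ih]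

theorem delX_map (σ : ℂ ≃+* ℂ) (f : PowerSeries ℂ) :
    PowerSeries.map (σ : ℂ →+* ℂ) (delX f) = delX (PowerSeries.map (σ : ℂ →+* ℂ) f) := by
  unfold delX
  rw [map_mul, dX_map]
  simp

theorem delX_iter_map (σ : ℂ ≃+* ℂ) (f : PowerSeries ℂ) (j : ℕ) :
    PowerSeries.map (σ : ℂ →+* ℂ) (delX^[j] f) = delX^[j] (PowerSeries.map (σ : ℂ →+* ℂ) f) := by
  induction j with
  | zero => rfl
  | succ j ih =>
    rw [Function.iterate_succ_apply', Function.iterate_succ_apply', delX_map, ih]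

/-- `F^{(j)}(1/w) = (δ^j f)(w)`. -/
theorem iter_inv0 {F : ℂ → ℂ} (hg : AnalyticAt ℂ (inv0 F) 0) (j : ℕ) :
    ∀ᶠ w in 𝓝[≠] (0 : ℂ), iteratedDeriv j F w⁻¹ = (del^[j] (inv0 F)) w := by
  induction j with
  | zero =>
    filter_upwards [self_mem_nhdsWithin] with w hw
    have hw' : w ≠ 0 := hw
    simp [inv0, hw']
  | succ j ih =>
    have h1 : ∀ᶠ w in 𝓝[≠] (0 : ℂ), ∀ᶠ v in 𝓝 w, iteratedDeriv j F v⁻¹ = (del^[j] (inv0 F)) v := by
      have := eventually_eventually_nhdsWithin.mpr ih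
      filter_upwards [this, self_mem_nhdsWithin] with w hw hw0
      rwa [IsOpen.nhdsWithin_eq isOpen_compl_singleton hw0] at hw
    have h2 : ∀ᶠ w in 𝓝[≠] (0 : ℂ), AnalyticAt ℂ (del^[j] (inv0 F)) w :=
      (analyticAt_del_iter hg j).eventually_analyticAt.filter_mono nhdsWithin_le_nhds
    filter_upwards [h1, h2, self_mem_nhdsWithin] with w hw1 hw2 hw0
    have hw0' : w ≠ 0 := hw0
    have hinv : w⁻¹ ≠ 0 := inv_ne_zero hw0'
    rw [iteratedDeriv_succ, Function.iterate_succ_apply']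
    have h3 : iteratedDeriv j F =ᶠ[𝓝 w⁻¹] fun z => (del^[j] (inv0 F)) z⁻¹ := by
      have ht : Tendsto (fun z : ℂ => z⁻¹) (𝓝 w⁻¹) (𝓝 w) := by
        have := (continuousAt_inv₀ hinv).tendsto
        simpa using this
      filter_upwards [ht.eventually hw1] with z hz
      simpa using hz
    rw [h3.deriv_eq]
    have h4 : HasDerivAt (fun z : ℂ => (del^[j] (inv0 F)) z⁻¹)
        (deriv (del^[j] (inv0 F)) w * (-((w⁻¹) ^ 2)⁻¹)) w⁻¹ := by
      have ha : HasDerivAt (fun z : ℂ => z⁻¹) (-((w⁻¹) ^ 2)⁻¹) w⁻¹ := hasDerivAt_inv hinv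
      have hb : HasDerivAt (del^[j] (inv0 F)) (deriv (del^[j] (inv0 F)) w) ((w⁻¹)⁻¹) := by
        rw [inv_inv]
        exact hw2.differentiableAt.hasDerivAt
      exact hb.comp w⁻¹ ha
    rw [h4.deriv]
    unfold del
    rw [inv_pow, inv_inv]
    ring

theorem eval_reflect (N : ℕ) (f : ℂ[X]) (hf : f.natDegree ≤ N) {w : ℂ} (hw : w ≠ 0) :
    f.eval w⁻¹ = (reflect N f).eval w * (w⁻¹) ^ N := by
  let _ : Invertible (w⁻¹) := invertibleOfNonzero (inv_ne_zero hw)
  have h := eval₂_reflect_mul_pow (RingHom.id ℂ) (w⁻¹) N f hf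
  rw [invOf_eq_inv, inv_inv] at h
  exact h.symm

theorem map_sh_reflect (σ : ℂ ≃+* ℂ) (N : ℕ) (f : ℂ[X]) :
    PowerSeries.map (σ : ℂ →+* ℂ) (sh 0 (reflect N f)) = sh 0 (reflect N (f.map (σ : ℂ →+* ℂ))) := by
  rw [sh_map, map_zero, reflect_map]

end TranspAux

open TranspAux

theorem transp {F F' : ℂ → ℂ} {M M' : ℕ → ℂ} {R R' : ℝ}
    (hF : ∀ z : ℂ, R < ‖z‖ → HasSum (fun k : ℕ => - M k / z ^ (k + 1)) (F z))
    (hF' : ∀ z : ℂ, R' < ‖z‖ → HasSum (fun k : ℕ => - M' k / z ^ (k + 1)) (F' z))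
    (σ : ℂ ≃+* ℂ) (hσ : ∀ k, σ (M k) = M' k) (r : ℕ) (p : ℕ → ℂ[X]) (c : ℂ[X])
    (h : ∀ z : ℂ, R < ‖z‖ →
      ∑ j ∈ Finset.range (r + 1), (p j).eval z * iteratedDeriv j F z = c.eval z) :
    ∃ R'' : ℝ, ∀ z : ℂ, R'' < ‖z‖ →
      ∑ j ∈ Finset.range (r + 1), ((p j).map (σ : ℂ →+* ℂ)).eval z * iteratedDeriv j F' z
        = (c.map (σ : ℂ →+* ℂ)).eval z := by
  have hg := (hasFPS hF).analyticAt
  have hg' := (hasFPS hF').analyticAt
  -- a common degree bound
  obtain ⟨N, hN, hNc⟩ : ∃ N : ℕ, (∀ j ∈ Finset.range (r + 1), (p j).natDegree ≤ N) ∧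
      c.natDegree ≤ N := by
    refine ⟨max ((Finset.range (r + 1)).sup fun j => (p j).natDegree) c.natDegree, ?_, le_max_right _ _⟩
    intro j hj
    exact le_trans (Finset.le_sup (f := fun j => (p j).natDegree) hj) (le_max_left _ _)
  -- the identity near `0`
  have hlarge : ∀ R₀ : ℝ, ∀ᶠ w in 𝓝[≠] (0 : ℂ), R₀ < ‖w⁻¹‖ := by
    intro R₀
    have : Tendsto (fun w : ℂ => ‖w⁻¹‖) (𝓝[≠] 0) atTop := by
      exact tendsto_norm_inv_nhdsNE_zero_atTop
    exact this.eventually_gt_atTop R₀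
  have hall : ∀ᶠ w in 𝓝[≠] (0 : ℂ), ∀ j ∈ Finset.range (r + 1),
      iteratedDeriv j F w⁻¹ = (del^[j] (inv0 F)) w := by
    rw [Filter.eventually_all_finset]
    intro j _
    exact iter_inv0 hg j
  have hall' : ∀ᶠ w in 𝓝[≠] (0 : ℂ), ∀ j ∈ Finset.range (r + 1),
      iteratedDeriv j F' w⁻¹ = (del^[j] (inv0 F')) w := by
    rw [Filter.eventually_all_finset]
    intro j _
    exact iter_inv0 hg' j
  have hpunct : ∀ᶠ w in 𝓝[≠] (0 : ℂ),
      ∑ j ∈ Finset.range (r + 1), (reflect N (p j)).eval w * (del^[j] (inv0 F)) w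
        = (reflect N c).eval w := by
    filter_upwards [hlarge R, hall, self_mem_nhdsWithin] with w hw1 hw2 hw0
    have hw0' : w ≠ 0 := hw0
    have h1 := h _ hw1
    rw [eval_reflect N c hNc hw0'] at h1
    have h2 : ∑ j ∈ Finset.range (r + 1), (p j).eval w⁻¹ * iteratedDeriv j F w⁻¹
        = (∑ j ∈ Finset.range (r + 1), (reflect N (p j)).eval w * (del^[j] (inv0 F)) w) * (w⁻¹) ^ N := by
      rw [Finset.sum_mul]
      refine Finset.sum_congr rfl fun j hj => ?_
      rw [eval_reflect N (p j) (hN j hj) hw0', hw2 j hj]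
      ring
    rw [h2] at h1
    exact mul_right_cancel₀ (pow_ne_zero _ (inv_ne_zero hw0')) h1
  have hanL0 : ∀ j ∈ Finset.range (r + 1), AnalyticAt ℂ (fun w =>
      (reflect N (p j)).eval w * (del^[j] (inv0 F)) w) 0 := fun j _ =>
    (AnalyticOnNhd.eval_polynomial _ 0 (Set.mem_univ _)).mul (analyticAt_del_iter hg j)
  have hanL : AnalyticAt ℂ (fun w => ∑ j ∈ Finset.range (r + 1),
      (reflect N (p j)).eval w * (del^[j] (inv0 F)) w) 0 := Finset.analyticAt_fun_sum _ hanL0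
  have hanR : AnalyticAt ℂ (fun w => (reflect N c).eval w) 0 :=
    AnalyticOnNhd.eval_polynomial (reflect N c) 0 (Set.mem_univ _)
  have hfull : (fun w => ∑ j ∈ Finset.range (r + 1),
      (reflect N (p j)).eval w * (del^[j] (inv0 F)) w) =ᶠ[𝓝 0] fun w => (reflect N c).eval w :=
    (ContinuousAt.eventuallyEq_nhds_iff_eventuallyEq_nhdsNE hanL.continuousAt
      hanR.continuousAt).mp hpunct
  have hformal : ∑ j ∈ Finset.range (r + 1), sh 0 (reflect N (p j)) *
      delX^[j] (PowerSeries.mk (cf M)) = sh 0 (reflect N c) := by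
    have h1 := tay_congr hfull
    rw [tay_sum _ hanL0, tay_poly] at h1
    rw [← h1]
    refine Finset.sum_congr rfl fun j _ => ?_
    rw [tay_mul (AnalyticOnNhd.eval_polynomial (reflect N (p j)) 0 (Set.mem_univ _))
      (analyticAt_del_iter hg j), tay_poly, tay_del_iter hg, tay_inv0 hF]
  -- transport
  have hM : PowerSeries.map (σ : ℂ →+* ℂ) (PowerSeries.mk (cf M)) = PowerSeries.mk (cf M') := by
    ext n
    cases n with
    | zero => simp [cf]
    | succ n => simp [cf, hσ]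
  have hformal' : ∑ j ∈ Finset.range (r + 1), sh 0 (reflect N ((p j).map (σ : ℂ →+* ℂ))) *
      delX^[j] (PowerSeries.mk (cf M')) = sh 0 (reflect N (c.map (σ : ℂ →+* ℂ))) := by
    have h1 := congrArg (PowerSeries.map (σ : ℂ →+* ℂ)) hformal
    rw [map_sum, map_sh_reflect] at h1
    rw [← h1]
    refine Finset.sum_congr rfl fun j _ => ?_
    rw [map_mul, map_sh_reflect, delX_iter_map, hM]
  -- back to functions
  have hanL' : ∀ j ∈ Finset.range (r + 1), AnalyticAt ℂ (fun w =>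
      (reflect N ((p j).map (σ : ℂ →+* ℂ))).eval w * (del^[j] (inv0 F')) w) 0 := fun j _ =>
    (AnalyticOnNhd.eval_polynomial _ 0 (Set.mem_univ _)).mul (analyticAt_del_iter hg' j)
  have hfull' : (fun w => ∑ j ∈ Finset.range (r + 1),
      (reflect N ((p j).map (σ : ℂ →+* ℂ))).eval w * (del^[j] (inv0 F')) w) =ᶠ[𝓝 0]
        fun w => (reflect N (c.map (σ : ℂ →+* ℂ))).eval w := by
    refine tay_inj (Finset.analyticAt_fun_sum _ hanL')
      (AnalyticOnNhd.eval_polynomial _ 0 (Set.mem_univ _)) ?_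
    rw [tay_sum _ hanL', tay_poly, ← hformal']
    refine Finset.sum_congr rfl fun j _ => ?_
    rw [tay_mul (AnalyticOnNhd.eval_polynomial _ 0 (Set.mem_univ _)) (analyticAt_del_iter hg' j),
      tay_poly, tay_del_iter hg', tay_inv0 hF']
  have hpunct' : ∀ᶠ w in 𝓝[≠] (0 : ℂ),
      ∑ j ∈ Finset.range (r + 1), ((p j).map (σ : ℂ →+* ℂ)).eval w⁻¹ * iteratedDeriv j F' w⁻¹
        = (c.map (σ : ℂ →+* ℂ)).eval w⁻¹ := by
    filter_upwards [hfull'.filter_mono nhdsWithin_le_nhds, hall', self_mem_nhdsWithin] with w hw1 hw2 hw0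
    have hw0' : w ≠ 0 := hw0
    rw [eval_reflect N _ (le_trans natDegree_map_le hNc) hw0', ← hw1, Finset.sum_mul]
    refine Finset.sum_congr rfl fun j hj => ?_
    rw [eval_reflect N _ (le_trans natDegree_map_le (hN j hj)) hw0', hw2 j hj]
    ring
  rw [eventually_nhdsWithin_iff, Metric.eventually_nhds_iff] at hpunct'
  obtain ⟨ε, hε, hε'⟩ := hpunct'
  refine ⟨ε⁻¹, fun z hz => ?_⟩
  have hzpos : 0 < ‖z‖ := lt_trans (inv_pos.mpr hε) hz
  have hz0 : z ≠ 0 := norm_pos_iff.mp hzpos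
  have h1 : dist z⁻¹ 0 < ε := by
    rw [dist_zero_right, norm_inv]
    exact (inv_lt_comm₀ hε hzpos).mp hz
  have h2 := hε' h1 (by simpa using hz0)
  simpa using h2

end P56acde
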