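import Pool.Agent.Lib.P56acde.CoreOde
import Pool.Agent.Lib.P56acde.CTInt
import Pool.Agent.Lib.P56acde.Transp

/-! # Automorphisms carrying moments to moments respect the end points -/

open Polynomial Set Filter Topology

namespace P56acde

namespace CoreRightAux

open CoreOdeAux

/-- The left hand side minus the right hand side of the differential equation is analytic. -/
theorem analyticAt_ode {F : ℂ → ℂ} {z : ℂ} (hF : AnalyticAt ℂ F z) (r : ℕ) (p : ℕ → ℂ[X])
    (c : ℂ[X]) :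
    AnalyticAt ℂ (fun z => ∑ j ∈ Finset.range (r + 1), (p j).eval z * iteratedDeriv j F z
      - c.eval z) z :=
  (Finset.analyticAt_fun_sum _ fun j _ =>
    (analyticAt_poly (p j) _).mul (analyticAt_iteratedDeriv hF j)).sub (analyticAt_poly c z)

/-- An analytic solution gives a formal solution. -/
theorem formal_of_analytic {F : ℂ → ℂ} {τ : ℂ} (hF : AnalyticAt ℂ F τ) (r : ℕ) (p : ℕ → ℂ[X])
    (c : ℂ[X])
    (h : ∀ᶠ z in 𝓝 τ, ∑ j ∈ Finset.range (r + 1), (p j).eval z * iteratedDeriv j F z = c.eval z) :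
    ∑ j ∈ Finset.range (r + 1), sh τ (p j) * dX^[j] (tay τ F) = sh τ c := by
  have h1 : (fun z => ∑ j ∈ Finset.range (r + 1), (p j).eval z * iteratedDeriv j F z)
      =ᶠ[𝓝 τ] fun z => c.eval z := h
  have hterm : ∀ j ∈ Finset.range (r + 1),
      AnalyticAt ℂ (fun z => (p j).eval z * iteratedDeriv j F z) τ :=
    fun j _ => (analyticAt_poly (p j) _).mul (analyticAt_iteratedDeriv hF j)
  have h2 := tay_congr h1
  rw [tay_poly, tay_sum _ hterm] at h2
  rw [← h2]
  refine Finset.sum_congr rfl fun j _ => ?_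
  rw [tay_mul (analyticAt_poly (p j) _) (analyticAt_iteratedDeriv hF j), tay_poly,
    tay_iteratedDeriv]

theorem dX_iter_map (σ : ℂ ≃+* ℂ) (f : PowerSeries ℂ) (j : ℕ) :
    PowerSeries.map (σ : ℂ →+* ℂ) (dX^[j] f) = dX^[j] (PowerSeries.map (σ : ℂ →+* ℂ) f) := by
  induction j with
  | zero => rfl
  | succ j ih => rw [Function.iterate_succ_apply', Function.iterate_succ_apply', dX_map, ih]

theorem map_map_symm (σ : ℂ ≃+* ℂ) (p : ℂ[X]) :
    (p.map (σ : ℂ →+* ℂ)).map (σ.symm : ℂ →+* ℂ) = p := by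
  rw [Polynomial.map_map]
  have : (σ.symm : ℂ →+* ℂ).comp (σ : ℂ →+* ℂ) = RingHom.id ℂ := by
    ext z
    simp
  rw [this, Polynomial.map_id]

/-- A formal solution at `σ b` of the transported equation gives one at `b`. -/
theorem transport_back (σ : ℂ ≃+* ℂ) (b : ℂ) (r : ℕ) (p : ℕ → ℂ[X]) (c : ℂ[X]) (y' : PowerSeries ℂ)
    (h : ∑ j ∈ Finset.range (r + 1), sh (σ b) ((p j).map (σ : ℂ →+* ℂ)) * dX^[j] y'
      = sh (σ b) (c.map (σ : ℂ →+* ℂ))) :
    ∃ y : PowerSeries ℂ, ∑ j ∈ Finset.range (r + 1), sh b (p j) * dX^[j] y = sh b c := by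
  refine ⟨PowerSeries.map (σ.symm : ℂ →+* ℂ) y', ?_⟩
  have h1 := congrArg (PowerSeries.map (σ.symm : ℂ →+* ℂ)) h
  rw [map_sum, sh_map, map_map_symm, RingEquiv.symm_apply_apply] at h1
  rw [← h1]
  refine Finset.sum_congr rfl fun j _ => ?_
  rw [map_mul, sh_map, map_map_symm, RingEquiv.symm_apply_apply, dX_iter_map]

/-- Identity theorem: an equation valid near infinity holds on a connected open set. -/
theorem ode_extend {F' : ℂ → ℂ} {U : Set ℂ} (hU : IsOpen U) (hUc : IsPreconnected U)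
    (hF : DifferentiableOn ℂ F' U) (r : ℕ) (p : ℕ → ℂ[X]) (c : ℂ[X]) {R R'' : ℝ}
    (hUR : ∀ z : ℂ, R < ‖z‖ → z ∈ U)
    (h : ∀ z : ℂ, R'' < ‖z‖ →
      ∑ j ∈ Finset.range (r + 1), (p j).eval z * iteratedDeriv j F' z = c.eval z) :
    ∀ z ∈ U, ∑ j ∈ Finset.range (r + 1), (p j).eval z * iteratedDeriv j F' z = c.eval z := by
  have hFa : AnalyticOnNhd ℂ F' U := hF.analyticOnNhd hU
  have han : AnalyticOnNhd ℂ (fun z => ∑ j ∈ Finset.range (r + 1),
      (p j).eval z * iteratedDeriv j F' z - c.eval z) U :=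
    fun z hz => analyticAt_ode (hFa z hz) r p c
  set T : ℝ := |R| + |R''| + 1 with hT
  have hT1 : R < T := by
    have := le_abs_self R
    have := abs_nonneg R''
    linarith
  have hT2 : R'' < T := by
    have := le_abs_self R''
    have := abs_nonneg R
    linarith
  have hT0 : 0 < T := by positivity
  have hnorm : ‖(T : ℂ)‖ = T := by
    rw [Complex.norm_real, Real.norm_eq_abs, abs_of_pos hT0]
  have hz0 : (T : ℂ) ∈ U := hUR _ (by rw [hnorm]; exact hT1)
  have hev : (fun z => ∑ j ∈ Finset.range (r + 1),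
      (p j).eval z * iteratedDeriv j F' z - c.eval z) =ᶠ[𝓝 (T : ℂ)] 0 := by
    have ho : IsOpen {z : ℂ | R'' < ‖z‖} := isOpen_lt continuous_const continuous_norm
    have hm : (T : ℂ) ∈ {z : ℂ | R'' < ‖z‖} := by
      show R'' < ‖(T : ℂ)‖
      rw [hnorm]
      exact hT2
    filter_upwards [ho.mem_nhds hm] with z hz
    rw [h z hz, sub_self, Pi.zero_apply]
  intro z hz
  have := han.eqOn_zero_of_preconnected_of_eventuallyEq_zero hUc hz0 hev hz
  exact sub_eq_zero.1 this

theorem not_mem_seg_of_norm {a b : ℝ} {z : ℂ} (hz : max |a| |b| < ‖z‖) : z ∉ seg a b := by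
  rintro ⟨u, hu, rfl⟩
  rw [Complex.norm_real, Real.norm_eq_abs] at hz
  have h1 : |u| ≤ max |a| |b| := abs_le_max_abs_abs hu.1 hu.2
  linarith

end CoreRightAux

open CoreOdeAux CoreRightAux

/-- Core theorem (i), right end. -/
theorem core_right {a b : ℝ} (hab : a < b) {V : ℝ → ℝ} (hV : AnalyticOnNhd ℝ V (Icc a b))
    (P : ℝ[X][X]) (hP : P ≠ 0) (hPV : ∀ t ∈ Icc a b, evalEval t (V t) P = 0) (hne : V a ≠ V b)
    {a' b' : ℝ} (hab' : a' < b') {B' : ℝ → ℝ} (hB' : AnalyticOnNhd ℝ B' (Icc a' b'))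
    (σ : ℂ ≃+* ℂ)
    (hσ : ∀ k : ℕ, σ ((∫ t in a..b, t ^ k * deriv V t : ℝ) : ℂ)
      = ((∫ t in a'..b', t ^ k * B' t : ℝ) : ℂ)) :
    σ b = a' ∨ σ b = b' := by
  obtain ⟨r, p, c, hODE, hno⟩ := core_ode hab hV P hP hPV hne
  have hF : ∀ z : ℂ, max |a| |b| < ‖z‖ → HasSum (fun k : ℕ =>
      - ((∫ t in a..b, t ^ k * deriv V t : ℝ) : ℂ) / z ^ (k + 1)) (CT a b (deriv V) z) :=
    fun z hz => CT_hasSum hab.le hV.deriv.continuousOn (le_max_left _ _) (le_max_right _ _) hz
  have hF' : ∀ z : ℂ, max |a'| |b'| < ‖z‖ → HasSum (fun k : ℕ =>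
      - ((∫ t in a'..b', t ^ k * B' t : ℝ) : ℂ) / z ^ (k + 1)) (CT a' b' B' z) :=
    fun z hz => CT_hasSum hab'.le hB'.continuousOn (le_max_left _ _) (le_max_right _ _) hz
  obtain ⟨R'', hR''⟩ := transp hF hF' σ hσ r p c
    (fun z hz => hODE z (not_mem_seg_of_norm hz))
  have hdiff : DifferentiableOn ℂ (CT a' b' B') (seg a' b')ᶜ :=
    CT_differentiableOn hab'.le hB'.continuousOn
  have hall := ode_extend (seg_compl_isOpen a' b') (seg_compl_isPreconnected a' b' hab'.le) hdiff r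
    (fun j => (p j).map (σ : ℂ →+* ℂ)) (c.map (σ : ℂ →+* ℂ)) (R := max |a'| |b'|)
    (fun z hz => not_mem_seg_of_norm hz) hR''
  by_contra hcon
  push Not at hcon
  obtain ⟨hna, hnb⟩ := hcon
  by_cases hseg : σ b ∈ seg a' b'
  · obtain ⟨u, hu, hub⟩ := hseg
    have hub' : (u : ℂ) = σ b := hub
    have hua : a' < u := lt_of_le_of_ne hu.1 (fun h => hna (by rw [← hub', ← h]))
    have hub2 : u < b' := lt_of_le_of_ne hu.2 (fun h => hnb (by rw [← hub', h]))
    obtain ⟨G, hG, hGeq⟩ := CT_interior hua hub2 hB'.continuousOn (hB' u hu)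
    have hGode : ∀ᶠ z in 𝓝 (u : ℂ), ∑ j ∈ Finset.range (r + 1),
        ((p j).map (σ : ℂ →+* ℂ)).eval z * iteratedDeriv j G z = (c.map (σ : ℂ →+* ℂ)).eval z := by
      have han := analyticAt_ode hG r (fun j => (p j).map (σ : ℂ →+* ℂ)) (c.map (σ : ℂ →+* ℂ))
      -- the equation on the upper half
      have hup : ∀ᶠ z in 𝓝 (u : ℂ), 0 < z.im → ∑ j ∈ Finset.range (r + 1),
          ((p j).map (σ : ℂ →+* ℂ)).eval z * iteratedDeriv j G z
            - (c.map (σ : ℂ →+* ℂ)).eval z = 0 := by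
        filter_upwards [hGeq.eventually_nhds] with z hz hzim
        have ho : ∀ᶠ w : ℂ in 𝓝 z, 0 < w.im :=
          (isOpen_lt continuous_const Complex.continuous_im).mem_nhds hzim
        have hloc : CT a' b' B' =ᶠ[𝓝 z] G := by
          filter_upwards [hz, ho] with w hw1 hw2 using hw1 hw2
        have hzU : z ∈ (seg a' b')ᶜ := by
          rintro ⟨w, -, rfl⟩
          simp at hzim
        have := hall z hzU
        rw [← this, sub_eq_zero]
        refine Finset.sum_congr rfl fun j _ => ?_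
        rw [hloc.iteratedDeriv_eq j]
      have hfreq : ∃ᶠ z in 𝓝[≠] (u : ℂ), ∑ j ∈ Finset.range (r + 1),
          ((p j).map (σ : ℂ →+* ℂ)).eval z * iteratedDeriv j G z
            - (c.map (σ : ℂ →+* ℂ)).eval z = 0 := by
        have htend : Tendsto (fun ε : ℝ => (u : ℂ) + ε * Complex.I) (𝓝[>] 0) (𝓝[≠] (u : ℂ)) := by
          apply tendsto_nhdsWithin_iff.2
          refine ⟨?_, ?_⟩
          · have : Continuous (fun ε : ℝ => (u : ℂ) + ε * Complex.I) := by fun_prop
            have h2 := (this.tendsto 0).mono_left (nhdsWithin_le_nhds (s := Ioi (0:ℝ)))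
            simpa using h2
          · filter_upwards [self_mem_nhdsWithin] with ε hε
            have hε' : (0:ℝ) < ε := hε
            intro h
            have h3 := congrArg Complex.im (show (u : ℂ) + ε * Complex.I = u from h)
            simp at h3
            exact hε'.ne' h3
        have h4 : ∀ᶠ ε : ℝ in 𝓝[>] 0, ∑ j ∈ Finset.range (r + 1),
          ((p j).map (σ : ℂ →+* ℂ)).eval ((u : ℂ) + ε * Complex.I)
              * iteratedDeriv j G ((u : ℂ) + ε * Complex.I)
            - (c.map (σ : ℂ →+* ℂ)).eval ((u : ℂ) + ε * Complex.I) = 0 := by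
          have h5 := (htend.mono_right nhdsWithin_le_nhds).eventually hup
          filter_upwards [h5, self_mem_nhdsWithin] with ε h6 hε
          exact h6 (by simpa using hε)
        exact htend.frequently h4.frequently
      have := han.frequently_zero_iff_eventually_zero.1 hfreq
      filter_upwards [this] with z hz
      exact sub_eq_zero.1 hz
    have hform := formal_of_analytic hG r _ _ hGode
    rw [hub'] at hform
    exact hno (transport_back σ b r p c _ hform)
  · have hFa : AnalyticAt ℂ (CT a' b' B') (σ b) :=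
      hdiff.analyticAt ((seg_compl_isOpen a' b').mem_nhds hseg)
    have hev : ∀ᶠ z in 𝓝 (σ b), ∑ j ∈ Finset.range (r + 1),
        ((p j).map (σ : ℂ →+* ℂ)).eval z * iteratedDeriv j (CT a' b' B') z
          = (c.map (σ : ℂ →+* ℂ)).eval z := by
      filter_upwards [(seg_compl_isOpen a' b').mem_nhds hseg] with z hz using hall z hz
    have hform := formal_of_analytic hFa r _ _ hev
    exact hno (transport_back σ b r p c _ hform)

/-- Core theorem (ii), right end. -/
theorem core_right_bound {a b : ℝ} (hab : a < b) {V : ℝ → ℝ} (hV : AnalyticOnNhd ℝ V (Icc a b))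
    (P : ℝ[X][X]) (hP : P ≠ 0) (hPV : ∀ t ∈ Icc a b, evalEval t (V t) P = 0) (hne : V a ≠ V b)
    {M' : ℕ → ℂ} {C R : ℝ} (hR : 0 ≤ R) (hM' : ∀ k, ‖M' k‖ ≤ C * R ^ k)
    (σ : ℂ ≃+* ℂ) (hσ : ∀ k : ℕ, σ ((∫ t in a..b, t ^ k * deriv V t : ℝ) : ℂ) = M' k) :
    ‖σ b‖ ≤ R := by
  obtain ⟨r, p, c, hODE, hno⟩ := core_ode hab hV P hP hPV hne
  have hF : ∀ z : ℂ, max |a| |b| < ‖z‖ → HasSum (fun k : ℕ =>
      - ((∫ t in a..b, t ^ k * deriv V t : ℝ) : ℂ) / z ^ (k + 1)) (CT a b (deriv V) z) :=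
    fun z hz => CT_hasSum hab.le hV.deriv.continuousOn (le_max_left _ _) (le_max_right _ _) hz
  obtain ⟨F', hF', hdiff⟩ := series_differentiableOn hR hM'
  obtain ⟨R'', hR''⟩ := transp hF hF' σ hσ r p c
    (fun z hz => hODE z (not_mem_seg_of_norm hz))
  have hopen : IsOpen {z : ℂ | R < ‖z‖} := isOpen_lt continuous_const continuous_norm
  have hall := ode_extend hopen (outer_isPreconnected R) hdiff r
    (fun j => (p j).map (σ : ℂ →+* ℂ)) (c.map (σ : ℂ →+* ℂ)) (R := R)
    (fun z hz => hz) hR''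
  by_contra hcon
  push Not at hcon
  have hmem : σ b ∈ {z : ℂ | R < ‖z‖} := hcon
  have hFa : AnalyticAt ℂ F' (σ b) := hdiff.analyticAt (hopen.mem_nhds hmem)
  have hev : ∀ᶠ z in 𝓝 (σ b), ∑ j ∈ Finset.range (r + 1),
      ((p j).map (σ : ℂ →+* ℂ)).eval z * iteratedDeriv j F' z
        = (c.map (σ : ℂ →+* ℂ)).eval z := by
    filter_upwards [hopen.mem_nhds hmem] with z hz using hall z hz
  have hform := formal_of_analytic hFa r _ _ hev
  exact hno (transport_back σ b r p c _ hform)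

end P56acde
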