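import Mathlib

/-!
# MP_56acde_gt (Arnold): definitions
-/

open MeasureTheory Polynomial Set Filter Topology

namespace P56acde

/-- `ℝ^n` with its Euclidean structure. -/
abbrev E (n : ℕ) := EuclideanSpace ℝ (Fin n)

/-- The cutoff function `V_K^+(ξ,t) = Vol_n (K ∩ {x : ⟨x,ξ⟩ ≤ t})`. -/
noncomputable def cutPlus {n : ℕ} (K : Set (E n)) (ξ : E n) (t : ℝ) : ℝ :=
  (volume (K ∩ {x | inner ℝ x ξ ≤ t})).toReal

/-- The cutoff function `V_K^-(ξ,t) = Vol_n (K ∩ {x : ⟨x,ξ⟩ ≥ t})`. -/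
noncomputable def cutMinus {n : ℕ} (K : Set (E n)) (ξ : E n) (t : ℝ) : ℝ :=
  (volume (K ∩ {x | t ≤ inner ℝ x ξ})).toReal

/-- The point `(ξ, t, w)` of `ℝ^{n+2}`. -/
def pt {n : ℕ} (ξ : E n) (t w : ℝ) : Fin n ⊕ Fin 2 → ℝ := Sum.elim ξ ![t, w]

/-- `K` is algebraically integrable: some polynomial `Φ(ξ,t,w)` in `n+2` real variables, not vanishing
identically on `S^{n-1} × ℝ × ℝ`, satisfies `Φ(ξ,t,V^+(ξ,t)) = 0 = Φ(ξ,t,V^-(ξ,t))` for all unit `ξ`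
and all `t` such that the hyperplane `⟨x,ξ⟩ = t` meets the interior of `K`. -/
def AlgebraicallyIntegrable {n : ℕ} (K : Set (E n)) : Prop :=
  ∃ Φ : MvPolynomial (Fin n ⊕ Fin 2) ℝ,
    (∃ ξ : E n, ‖ξ‖ = 1 ∧ ∃ t w : ℝ, MvPolynomial.eval (pt ξ t w) Φ ≠ 0) ∧
    ∀ ξ : E n, ‖ξ‖ = 1 → ∀ t : ℝ, (∃ x ∈ interior K, inner ℝ x ξ = t) →
      MvPolynomial.eval (pt ξ t (cutPlus K ξ t)) Φ = 0 ∧
      MvPolynomial.eval (pt ξ t (cutMinus K ξ t)) Φ = 0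

/-- `K` has `C^∞`-smooth boundary: near every boundary point `p`, `K` is the sublevel set
`{ρ ≤ 0}` of a `C^∞` function `ρ` with non-vanishing derivative at `p`. -/
def SmoothBoundary {n : ℕ} (K : Set (E n)) : Prop :=
  ∀ p ∈ frontier K, ∃ ρ : E n → ℝ, ContDiffAt ℝ (⊤ : ℕ∞) ρ p ∧ fderiv ℝ ρ p ≠ 0 ∧
    ∀ᶠ x in 𝓝 p, (x ∈ K ↔ ρ x ≤ 0)

/-- `K` is an ellipsoid: the image of the closed unit ball under an invertible affine map. -/
def IsEllipsoid {n : ℕ} (K : Set (E n)) : Prop :=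
  ∃ (L : E n ≃ₗ[ℝ] E n) (c : E n), K = (fun x => L x + c) '' Metric.closedBall (0 : E n) 1

/-- Support function `h(w) = max_{x ∈ K} ⟨x,w⟩`. -/
noncomputable def hi {n : ℕ} (K : Set (E n)) (w : E n) : ℝ :=
  sSup ((fun x : E n => inner ℝ x w) '' K)

/-- `-h(-w) = min_{x ∈ K} ⟨x,w⟩`. -/
noncomputable def lo {n : ℕ} (K : Set (E n)) (w : E n) : ℝ := - hi K (-w)

/-- Good direction `w`: the distribution of `⟨x,w⟩` on `K` has density `V'` on `[lo,hi]`, where `V` is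
real analytic on a neighbourhood of `[lo,hi]`, algebraic and not constant. -/
def Good {n : ℕ} (K : Set (E n)) (w : E n) : Prop :=
  lo K w < hi K w ∧ ∃ V : ℝ → ℝ, AnalyticOnNhd ℝ V (Icc (lo K w) (hi K w)) ∧
    (∃ P : ℝ[X][X], P ≠ 0 ∧ ∀ t ∈ Icc (lo K w) (hi K w), evalEval t (V t) P = 0) ∧
    V (lo K w) ≠ V (hi K w) ∧
    ∀ k : ℕ, ∫ x in K, (inner ℝ x w : ℝ) ^ k = ∫ t in (lo K w)..(hi K w), t ^ k * deriv V t

/-- The real segment `[a,b]` inside `ℂ`. -/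
def seg (a b : ℝ) : Set ℂ := (fun u : ℝ => (u : ℂ)) '' Icc a b

/-- The Cauchy transform `∫_a^b B(u)/(u-z) du`. -/
noncomputable def CT (a b : ℝ) (B : ℝ → ℝ) (z : ℂ) : ℂ :=
  ∫ u in a..b, (B u : ℂ) / ((u : ℂ) - z)

/-- Taylor series of `f` at `z₀` as a formal power series. -/
noncomputable def tay (z₀ : ℂ) (f : ℂ → ℂ) : PowerSeries ℂ :=
  PowerSeries.mk fun n => iteratedDeriv n f z₀ / (n.factorial : ℂ)

/-- A polynomial `p(t)` expanded at `τ`: `p(τ + X)`. -/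
noncomputable def sh (τ : ℂ) : ℂ[X] →+* PowerSeries ℂ :=
  (Polynomial.aeval (PowerSeries.X + PowerSeries.C τ) : ℂ[X] →ₐ[ℂ] PowerSeries ℂ).toRingHom

/-- Formal derivative on power series. -/
noncomputable abbrev dX : PowerSeries ℂ → PowerSeries ℂ := fun f => PowerSeries.derivative ℂ f

/-- `U_0 = ψ`, `U_{j+1} = X U_j' - j U_j + X^j A^{(j)}`: so `X^{-j} U_j` is the `ℓ`-free part of the
`j`-th derivative of `A ℓ + ψ`, where `ℓ' = 1/X`. -/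
noncomputable def Ur (A ψ : PowerSeries ℂ) : ℕ → PowerSeries ℂ
  | 0 => ψ
  | j + 1 => PowerSeries.X * dX (Ur A ψ j) - (j : PowerSeries ℂ) * Ur A ψ j
      + PowerSeries.X ^ j * dX^[j] A

/-- The slice `{y ∈ w^⊥ : y + (t/|w|²) w ∈ K}`. -/
def slice {n : ℕ} (K : Set (E n)) (w : E n) (t : ℝ) : Set ((ℝ ∙ w)ᗮ : Submodule ℝ (E n)) :=
  {y | (y : E n) + (t / ‖w‖ ^ 2) • w ∈ K}

end P56acde
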