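import Pool.Agent.Lib.P56acde.Defs

/-! MODULE DiffLemma (pure differential algebra; independent). -/

open Polynomial IntermediateField Module
open scoped Differential

set_option linter.unusedVariables false
set_option linter.unusedSectionVars false
set_option linter.style.haveILetI false

namespace P56acde

/-- A primitive of `1/x` which is algebraic over `L` gives a primitive of `e/x` in `L`. -/
theorem prim_descent {L Ω : Type} [Field L] [Field Ω] [CharZero L] [Algebra L Ω] [Differential L]
    [Differential Ω] [DifferentialAlgebra L Ω] [FiniteDimensional L Ω] (x : L) (τ : Ω)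
    (hτ : τ′ = algebraMap L Ω (1 / x)) : ∃ (e : ℕ), e ≠ 0 ∧ ∃ α : L, α′ = (e : L) / x := by
  have hint : IsIntegral L τ := Algebra.IsIntegral.isIntegral τ
  set f := minpoly L τ with hf
  have hmon : f.Monic := minpoly.monic hint
  have hpos : 0 < f.natDegree := minpoly.natDegree_pos hint
  obtain ⟨m, hm⟩ : ∃ m, f.natDegree = m + 1 := ⟨f.natDegree - 1, by omega⟩
  refine ⟨f.natDegree, by omega, -f.coeff m, ?_⟩
  set g : L[X] := Differential.mapCoeffs f + C (1 / x) * derivative f with hg
  have hg0 : aeval τ g = 0 := by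
    have h1 := Differential.deriv_aeval_eq τ f
    rw [hf, minpoly.aeval, map_zero] at h1
    rw [hg, map_add, map_mul, aeval_C, ← hτ, h1, mul_comm]
  have hdeg : g.degree < f.degree := by
    rw [Polynomial.degree_eq_natDegree hmon.ne_zero, Polynomial.degree_lt_iff_coeff_zero]
    intro k hk
    rw [hg, coeff_add, Differential.coeff_mapCoeffs, coeff_C_mul, coeff_derivative,
      Polynomial.coeff_eq_zero_of_natDegree_lt (n := k + 1) (by omega), zero_mul, mul_zero, add_zero]
    rcases hk.eq_or_lt with h | h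
    · rw [← h, Polynomial.Monic.coeff_natDegree hmon]
      simp
    · rw [Polynomial.coeff_eq_zero_of_natDegree_lt h, map_zero]
  have hgz : g = 0 := by
    by_contra hne
    have h2 : f ∣ g := (minpoly.dvd_iff).2 hg0
    exact absurd (Polynomial.degree_le_of_dvd h2 hne) (not_le.2 hdeg)
  have h3 := congrArg (fun q : L[X] => q.coeff m) hgz
  simp only [hg, coeff_add, Differential.coeff_mapCoeffs, coeff_C_mul, coeff_derivative,
    coeff_zero] at h3
  have h4 : f.coeff (m + 1) = 1 := by rw [← hm]; exact hmon.coeff_natDegree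
  rw [h4] at h3
  rw [map_neg, neg_eq_iff_add_eq_zero.2 ?_]
  rw [hm]
  push_cast
  rw [← h3]
  ring

section core
variable {F L Ω : Type} [Field F] [Field L] [Field Ω] [CharZero F] [CharZero L]
  [Algebra F L] [Algebra F Ω] [Algebra L Ω] [IsScalarTower F L Ω]
  [Differential F] [Differential L] [Differential Ω]
  [DifferentialAlgebra F L] [DifferentialAlgebra L Ω] [DifferentialAlgebra F Ω]
  [FiniteDimensional L Ω]

/-- restriction map on a family of vectors -/
noncomputable def resMap {F E Ω : Type} [Field F] [Field E] [Field Ω] [Algebra F E] [Algebra F Ω]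
    {r : ℕ} (v : Fin r → E) : (E →ₗ[F] Ω) →ₗ[Ω] (Fin r → Ω) where
  toFun f := fun j => f (v j)
  map_add' f g := rfl
  map_smul' c f := rfl

lemma resMap_surj {F E Ω : Type} [Field F] [Field E] [Field Ω] [Algebra F E] [Algebra F Ω]
    {r : ℕ} (v : Fin r → E) (hv : LinearIndependent F v) :
    Function.Surjective (resMap (F := F) (Ω := Ω) v) := by
  intro y
  obtain ⟨g, hg⟩ := LinearMap.exists_extend ((Basis.span hv).constr F y)
  refine ⟨g, ?_⟩
  funext j
  have h1 : g (v j) = (g ∘ₗ (Submodule.span F (Set.range v)).subtype) (Basis.span hv j) := by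
    simp [Basis.span_apply]
  change g (v j) = y j
  rw [h1, hg, Basis.constr_basis]

/-- the vectors of conjugates span -/
lemma span_conj {E : Type} [Field E] [Algebra F E] [FiniteDimensional F E]
    (hcard : Nat.card (E →ₐ[F] Ω) = finrank F E) {r : ℕ} (v : Fin r → E)
    (hv : LinearIndependent F v) :
    Submodule.span Ω (Set.range fun s : E →ₐ[F] Ω => fun j => s (v j)) = ⊤ := by
  have hli : LinearIndependent Ω (AlgHom.toLinearMap : (E →ₐ[F] Ω) → (E →ₗ[F] Ω)) :=
    linearIndependent_toLinearMap F E Ω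
  have hfr : finrank Ω (E →ₗ[F] Ω) = finrank F E := by
    rw [Module.finrank_linearMap, finrank_self, mul_one]
  haveI : Fintype (E →ₐ[F] Ω) := Fintype.ofFinite _
  have htop : Submodule.span Ω (Set.range (AlgHom.toLinearMap : (E →ₐ[F] Ω) → (E →ₗ[F] Ω))) = ⊤ := by
    apply hli.span_eq_top_of_card_eq_finrank'
    rw [hfr, ← hcard, Nat.card_eq_fintype_card]
  have hmap := congrArg (Submodule.map (resMap (F := F) (Ω := Ω) v)) htop
  rw [Submodule.map_span, Submodule.map_top, LinearMap.range_eq_top.2 (resMap_surj v hv),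
    ← Set.range_comp] at hmap
  exact hmap

theorem core2 (A : L) (hAalg : IsIntegral F A)
    (hsplit : ((minpoly F A).map (algebraMap F Ω)).Splits)
    (x : L) (hx : x ≠ 0) (r : ℕ) (hr : 0 < r) (p : ℕ → F) (hA : A ≠ 0)
    (hli : LinearIndependent F (fun j : Fin r => (Differential.deriv : Derivation ℤ L L)^[j] A))
    (hrel : ∑ j ∈ Finset.range r, algebraMap F L (p j) * (Differential.deriv : Derivation ℤ L L)^[j] A
      + (Differential.deriv : Derivation ℤ L L)^[r] A = 0)
    (W : ℕ → L)
    (hW : ∀ j < r, W (j + 1) = (W j)′ + (Differential.deriv : Derivation ℤ L L)^[j] A / x)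
    (hsum : ∑ j ∈ Finset.range r, algebraMap F L (p j) * W j + W r = 0) :
    ∃ τ : Ω, τ′ = algebraMap L Ω (1 / x) := by
  classical
  haveI : FiniteDimensional F F⟮A⟯ := IntermediateField.adjoin.finiteDimensional hAalg
  -- iterates of `A` in `F(A)`
  let a0 : F⟮A⟯ := IntermediateField.AdjoinSimple.gen F A
  let u : ℕ → F⟮A⟯ := fun j => (Differential.deriv : Derivation ℤ F⟮A⟯ F⟮A⟯)^[j] a0
  have hu0 : u 0 = a0 := rfl
  have hus : ∀ j, u (j + 1) = (u j)′ := fun j => by
    simp only [u, Function.iterate_succ', Function.comp_apply]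
  have hu : ∀ j, (algebraMap F⟮A⟯ L) (u j) = (Differential.deriv : Derivation ℤ L L)^[j] A := by
    intro j
    induction j with
    | zero => rfl
    | succ j ih =>
      rw [hus, ← deriv_algebraMap, ih, Function.iterate_succ', Function.comp_apply]
  have hinj : Function.Injective (algebraMap F⟮A⟯ L) := (algebraMap F⟮A⟯ L).injective
  have huli : LinearIndependent F (fun j : Fin r => u j) := by
    have h1 : LinearIndependent F
        ((IsScalarTower.toAlgHom F F⟮A⟯ L).toLinearMap ∘ (fun j : Fin r => u j)) := by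
      have : ((IsScalarTower.toAlgHom F F⟮A⟯ L).toLinearMap ∘ (fun j : Fin r => u j))
          = (fun j : Fin r => (Differential.deriv : Derivation ℤ L L)^[j] A) := by
        funext j
        exact hu j
      rw [this]
      exact hli
    exact LinearIndependent.of_comp _ h1
  have hurel : u r = - ∑ j ∈ Finset.range r, algebraMap F F⟮A⟯ (p j) * u j := by
    apply hinj
    rw [map_neg, map_sum, hu]
    have h2 : ∀ j, (algebraMap F⟮A⟯ L) (algebraMap F F⟮A⟯ (p j) * u j)
        = algebraMap F L (p j) * (Differential.deriv : Derivation ℤ L L)^[j] A := by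
      intro j
      rw [map_mul, hu, ← IsScalarTower.algebraMap_apply]
    rw [Finset.sum_congr rfl fun j _ => h2 j]
    linear_combination hrel
  have hcard : Nat.card (F⟮A⟯ →ₐ[F] Ω) = finrank F F⟮A⟯ := by
    rw [IntermediateField.card_algHom_adjoin_integral F hAalg
      (minpoly.irreducible hAalg).separable hsplit, IntermediateField.adjoin.finrank hAalg]
  have hspan := span_conj (F := F) (Ω := Ω) (E := F⟮A⟯) hcard (fun j : Fin r => u j) huli
  set v : (F⟮A⟯ →ₐ[F] Ω) → (Fin r → Ω) := fun s => fun j => s (u j) with hv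
  have hcomm : ∀ (s : F⟮A⟯ →ₐ[F] Ω) (j : ℕ), s (u (j + 1)) = (s (u j))′ := by
    intro s j
    rw [hus]
    exact Differential.algHom_deriv' s s.toRingHom.injective (u j)
  let s1 : F⟮A⟯ →ₐ[F] Ω := (IsScalarTower.toAlgHom F L Ω).comp (IsScalarTower.toAlgHom F F⟮A⟯ L)
  have hs1 : ∀ j, s1 (u j) = algebraMap L Ω ((Differential.deriv : Derivation ℤ L L)^[j] A) := by
    intro j
    change algebraMap L Ω (algebraMap F⟮A⟯ L (u j)) = _
    rw [hu]
  have hv1 : v s1 ≠ 0 := by
    intro h
    have h3 := congrFun h ⟨0, hr⟩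
    simp only [hv, hs1, Function.iterate_zero, id, Pi.zero_apply] at h3
    exact hA ((map_eq_zero _).1 h3)
  have hone : LinearIndepOn Ω v {s1} := by
    exact LinearIndepOn.singleton hv1
  obtain ⟨b, -, hsb, hbspan, hbli⟩ := exists_linearIndepOn_extension hone (Set.subset_univ _)
  have hs1b : s1 ∈ b := hsb rfl
  have hbtop : ⊤ ≤ Submodule.span Ω (Set.range fun i : b => v i) := by
    rw [← hspan]
    apply Submodule.span_le.2
    have : (Set.range fun i : b => v i) = v '' b := by
      ext y; simp
    rw [this]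
    rw [Set.image_univ] at hbspan
    exact hbspan
  let bas : Basis b Ω (Fin r → Ω) := Basis.mk hbli hbtop
  haveI : Finite b := Module.Finite.finite_basis bas
  haveI : Fintype b := Fintype.ofFinite b
  have hbas : ∀ i : b, bas i = v i := fun i => Basis.mk_apply hbli hbtop i
  set w0 : Fin r → Ω := fun j => algebraMap L Ω (W j) with hw0
  set a : b → Ω := fun i => bas.repr w0 i with ha
  have hexp : ∀ j (hj : j < r), algebraMap L Ω (W j) = ∑ i : b, a i * (i : F⟮A⟯ →ₐ[F] Ω) (u j) := by
    intro j hj
    have h4 := bas.sum_repr w0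
    have h5 := congrFun h4 ⟨j, hj⟩
    rw [Finset.sum_apply] at h5
    rw [show algebraMap L Ω (W j) = w0 ⟨j, hj⟩ from rfl, ← h5]
    apply Finset.sum_congr rfl
    intro i _
    rw [hbas]
    rfl
  have hexp' : ∀ j, j ≤ r → algebraMap L Ω (W j) = ∑ i : b, a i * (i : F⟮A⟯ →ₐ[F] Ω) (u j) := by
    intro j hj
    rcases hj.lt_or_eq with hj | rfl
    · exact hexp j hj
    · have h6 : W j = - ∑ k ∈ Finset.range j, algebraMap F L (p k) * W k := by
        linear_combination hsum
      rw [h6, map_neg, map_sum, hurel]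
      have h7 : ∀ i : b, a i * (i : F⟮A⟯ →ₐ[F] Ω) (-∑ k ∈ Finset.range j, algebraMap F F⟮A⟯ (p k) * u k)
          = - ∑ k ∈ Finset.range j, algebraMap F Ω (p k) * (a i * (i : F⟮A⟯ →ₐ[F] Ω) (u k)) := by
        intro i
        rw [map_neg, map_sum, mul_neg, Finset.mul_sum]
        congr 1
        apply Finset.sum_congr rfl
        intro k _
        rw [map_mul, AlgHom.commutes]
        ring
      rw [Finset.sum_congr rfl fun i _ => h7 i, Finset.sum_neg_distrib, Finset.sum_comm]
      congr 1
      apply Finset.sum_congr rfl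
      intro k hk
      rw [map_mul, ← IsScalarTower.algebraMap_apply, hexp k (Finset.mem_range.1 hk),
        Finset.mul_sum]
  have hder : ∀ j (hj : j < r), ∑ i : b, (a i)′ * (i : F⟮A⟯ →ₐ[F] Ω) (u j)
      = - algebraMap L Ω (1 / x) * s1 (u j) := by
    intro j hj
    have h8 := hexp' j hj.le
    have h9 := hexp' (j + 1) hj
    have h10 := congrArg (fun z : Ω => z′) h8
    simp only [map_sum] at h10
    rw [deriv_algebraMap] at h10
    have h11 : ∀ i : b, (a i * (i : F⟮A⟯ →ₐ[F] Ω) (u j))′
        = a i * (i : F⟮A⟯ →ₐ[F] Ω) (u (j + 1)) + (a i)′ * (i : F⟮A⟯ →ₐ[F] Ω) (u j) := by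
      intro i
      rw [Derivation.leibniz, hcomm]
      simp only [smul_eq_mul]
      ring
    rw [Finset.sum_congr rfl fun i _ => h11 i, Finset.sum_add_distrib, ← h9, hW j hj, map_add] at h10
    rw [hs1]
    have h12 : algebraMap L Ω ((Differential.deriv : Derivation ℤ L L)^[j] A / x)
        = algebraMap L Ω (1 / x) * algebraMap L Ω ((Differential.deriv : Derivation ℤ L L)^[j] A) := by
      rw [← map_mul]
      congr 1
      ring
    rw [h12] at h10
    linear_combination -h10
  have hvec : ∑ i : b, (a i)′ • bas i = (- algebraMap L Ω (1 / x)) • bas ⟨s1, hs1b⟩ := by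
    funext j
    rw [Finset.sum_apply]
    have h13 := hder j j.2
    simp only [hbas, Pi.smul_apply, smul_eq_mul]
    exact h13
  have hfin := congrArg (fun y => bas.repr y ⟨s1, hs1b⟩) hvec
  simp only [map_sum, map_smul, Basis.repr_self, Finsupp.smul_single, smul_eq_mul, mul_one] at hfin
  rw [Finsupp.finsetSum_apply] at hfin
  simp only [Finsupp.single_apply, Finset.sum_ite_eq', Finset.mem_univ, if_true] at hfin
  refine ⟨-a ⟨s1, hs1b⟩, ?_⟩
  rw [map_neg, hfin, neg_neg]

end core

theorem core1 {F L : Type} [Field F] [Field L] [CharZero F] [CharZero L] [Algebra F L]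
    [Differential F] [Differential L] [DifferentialAlgebra F L]
    (A : L) (hA : A ≠ 0) (hAalg : IsIntegral F A) (x : L) (hx : x ≠ 0)
    (hres : ∀ (e : ℕ), e ≠ 0 → ∀ α : L, α′ ≠ (e : L) / x) :
    ∃ (r : ℕ) (p : ℕ → F), p r = 1 ∧
      ∑ j ∈ Finset.range (r + 1), algebraMap F L (p j) *
        (Differential.deriv : Derivation ℤ L L)^[j] A = 0 ∧
      ∀ W : ℕ → L, (∀ j < r, W (j + 1) = (W j)′ +
        (Differential.deriv : Derivation ℤ L L)^[j] A / x) →
        ∑ j ∈ Finset.range (r + 1), algebraMap F L (p j) * W j ≠ 0 := by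
  classical
  haveI : FiniteDimensional F F⟮A⟯ := IntermediateField.adjoin.finiteDimensional hAalg
  let a0 : F⟮A⟯ := IntermediateField.AdjoinSimple.gen F A
  let u : ℕ → F⟮A⟯ := fun j => (Differential.deriv : Derivation ℤ F⟮A⟯ F⟮A⟯)^[j] a0
  have hus : ∀ j, u (j + 1) = (u j)′ := fun j => by
    simp only [u, Function.iterate_succ', Function.comp_apply]
  have hu : ∀ j, (algebraMap F⟮A⟯ L) (u j) = (Differential.deriv : Derivation ℤ L L)^[j] A := by
    intro j
    induction j with
    | zero => rfl
    | succ j ih =>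
      rw [hus, ← deriv_algebraMap, ih, Function.iterate_succ', Function.comp_apply]
  have hex : ∃ r : ℕ, ¬ LinearIndependent F (fun j : Fin (r + 1) => u j) := by
    refine ⟨finrank F F⟮A⟯, fun h => ?_⟩
    have := h.fintype_card_le_finrank
    simp at this
  let r := Nat.find hex
  have hr : ¬ LinearIndependent F (fun j : Fin (r + 1) => u j) := Nat.find_spec hex
  have hmin : ∀ m < r, LinearIndependent F (fun j : Fin (m + 1) => u j) := fun m hm =>
    not_not.1 (Nat.find_min hex hm)
  have hr0 : 0 < r := by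
    by_contra h0
    have h0' : r = 0 := by omega
    apply hr
    rw [h0']
    have hu0 : u 0 ≠ 0 := by
      intro h1
      apply hA
      rw [show A = (algebraMap F⟮A⟯ L) (u 0) from rfl, h1, map_zero]
    rw [linearIndependent_finSucc']
    refine ⟨linearIndependent_empty_type, ?_⟩
    have h2 : Set.range (Fin.init fun j : Fin (0 + 1) => u j) = ∅ := Set.range_eq_empty _
    rw [h2, Submodule.span_empty, Submodule.mem_bot]
    exact hu0
  have hli : LinearIndependent F (fun j : Fin r => u j) := by
    obtain ⟨m, hm⟩ : ∃ m, r = m + 1 := ⟨r - 1, by omega⟩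
    rw [hm]
    exact hmin m (by omega)
  have hmem : u r ∈ Submodule.span F (Set.range fun j : Fin r => u j) := by
    by_contra hnot
    apply hr
    rw [linearIndependent_finSucc']
    exact ⟨hli, hnot⟩
  rw [Submodule.mem_span_range_iff_exists_fun] at hmem
  obtain ⟨c, hc⟩ := hmem
  let p : ℕ → F := fun j => if h : j < r then -c ⟨j, h⟩ else 1
  have hpr : p r = 1 := by simp [p]
  have hsum : ∀ (g : ℕ → L), ∑ j ∈ Finset.range (r + 1), algebraMap F L (p j) * g j
      = ∑ j ∈ Finset.range r, algebraMap F L (p j) * g j + g r := by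
    intro g
    rw [Finset.sum_range_succ, hpr, map_one, one_mul]
  have hrel : ∑ j ∈ Finset.range r, algebraMap F L (p j) *
      (Differential.deriv : Derivation ℤ L L)^[j] A
      + (Differential.deriv : Derivation ℤ L L)^[r] A = 0 := by
    rw [← hu r, ← hc, map_sum, Finset.sum_range, ← Finset.sum_add_distrib]
    apply Finset.sum_eq_zero
    intro j _
    rw [← hu, Algebra.smul_def, map_mul, ← IsScalarTower.algebraMap_apply]
    simp only [p, j.2, dif_pos, map_neg]
    ring
  have hliL : LinearIndependent F (fun j : Fin r => (Differential.deriv : Derivation ℤ L L)^[j] A) := by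
    have h1 := hli.map' (IsScalarTower.toAlgHom F F⟮A⟯ L).toLinearMap
      (LinearMap.ker_eq_bot.2 (algebraMap F⟮A⟯ L).injective)
    have h2 : ((IsScalarTower.toAlgHom F F⟮A⟯ L).toLinearMap ∘ (fun j : Fin r => u j))
          = (fun j : Fin r => (Differential.deriv : Derivation ℤ L L)^[j] A) := by
      funext j
      exact hu j
    rw [h2] at h1
    exact h1
  refine ⟨r, p, hpr, ?_, ?_⟩
  · rw [hsum]; exact hrel
  · intro W hW h0
    rw [hsum] at h0
    let P : L[X] := (minpoly F A).map (algebraMap F L)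
    let Ω : Type := P.SplittingField
    letI : Differential Ω := Differential.differentialFiniteDimensional L Ω
    haveI : DifferentialAlgebra L Ω := Differential.differentialAlgebraFiniteDimensional
    haveI : DifferentialAlgebra F Ω := ⟨fun a => by
      rw [IsScalarTower.algebraMap_apply F L Ω, deriv_algebraMap, deriv_algebraMap,
        ← IsScalarTower.algebraMap_apply]⟩
    have hsplit : ((minpoly F A).map (algebraMap F Ω)).Splits := by
      have h1 := Polynomial.SplittingField.splits P
      rw [Polynomial.map_map, ← IsScalarTower.algebraMap_eq] at h1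
      exact h1
    obtain ⟨τ, hτ⟩ := core2 (Ω := Ω) A hAalg hsplit x hx r hr0 p hA hliL hrel W hW h0
    obtain ⟨e, he, α, hα⟩ := prim_descent (Ω := Ω) x τ hτ
    exact hres e he α hα

/-- Differential algebra lemma. `W_0 = ψ`, `W_{j+1} = D W_j + D^j A / x`. -/
theorem diffLemma {L : Type} [Field L] [CharZero L] (D : Derivation ℤ L L) (K₀ : Subfield L)
    (hK₀ : ∀ z ∈ K₀, D z ∈ K₀) (A : L) (hA : A ≠ 0) (hAalg : IsAlgebraic K₀ A) (x : L) (hx : x ≠ 0)
    (hres : ∀ (e : ℕ), e ≠ 0 → ∀ α : L, D α ≠ (e : L) / x) :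
    ∃ (r : ℕ) (p : ℕ → L), (∀ j, p j ∈ K₀) ∧ p r = 1 ∧
      ∑ j ∈ Finset.range (r + 1), p j * D^[j] A = 0 ∧
      ∀ W : ℕ → L, (∀ j < r, W (j + 1) = D (W j) + D^[j] A / x) →
        ∑ j ∈ Finset.range (r + 1), p j * W j ≠ 0 := by
  letI : Differential L := ⟨D⟩
  let D₀ : Derivation ℤ K₀ K₀ := Derivation.mk'
    (AddMonoidHom.toIntLinearMap
      { toFun := fun z => ⟨D z, hK₀ z z.2⟩
        map_zero' := by ext; simp
        map_add' := fun a b => by ext; simp })
    (fun a b => by
      ext
      simp [Derivation.leibniz])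
  letI : Differential K₀ := ⟨D₀⟩
  haveI : DifferentialAlgebra K₀ L := ⟨fun a => rfl⟩
  obtain ⟨r, p, h1, h2, h3⟩ := core1 (F := K₀) (L := L) A hA hAalg.isIntegral x hx hres
  exact ⟨r, fun j => (p j : L), fun j => (p j).2, by simp [h1], h2, h3⟩

end P56acde
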