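import Pool.Agent.Lib.P56acde.Defs

/-! MODULE Hadam (second order Hadamard lemma with parameters; independent). -/

open Set Filter Topology MeasureTheory

namespace P56acde

/-- smooth dependence of `∫_0^1 g (Y, θ δ) dθ` -/
theorem contDiffAt_average {F : Type} [NormedAddCommGroup F] [NormedSpace ℝ F]
    (g : F × ℝ → ℝ) (Y : F) {ε : ℝ} (hε : 0 < ε) (n : ℕ)
    (hg : ∀ q ∈ Metric.ball (Y, (0 : ℝ)) ε, ContDiffAt ℝ n g q) :
    ContDiffAt ℝ n (fun q : F × ℝ => ∫ θ in (0 : ℝ)..1, g (q.1, θ * q.2)) (Y, 0) := by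
  -- a bump function
  let χ : ContDiffBump (0 : ℝ) := ⟨1, 2, by norm_num, by norm_num⟩
  have hχ1 : ∀ x ∈ Icc (0 : ℝ) 1, χ x = 1 := by
    intro x hx
    apply χ.one_of_mem_closedBall
    rw [mem_closedBall_zero_iff, Real.norm_eq_abs, abs_of_nonneg hx.1]
    exact hx.2
  have hχ0 : ∀ x : ℝ, 2 ≤ |x| → χ x = 0 := by
    intro x hx
    apply χ.zero_of_le_dist
    rw [dist_zero_right, Real.norm_eq_abs]
    exact hx
  set s : Set (F × ℝ) := Metric.ball (Y, (0 : ℝ)) (ε / 3) with hs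
  have hsO : IsOpen s := Metric.isOpen_ball
  set G : F × ℝ → ℝ → ℝ := fun q x => χ x * g (q.1, x * q.2) with hG
  have hmem : ∀ q ∈ s, ∀ x : ℝ, |x| < 3 → (q.1, x * q.2) ∈ Metric.ball (Y, (0 : ℝ)) ε := by
    intro q hq x hx
    rw [hs, Metric.mem_ball, Prod.dist_eq, max_lt_iff] at hq
    rw [Metric.mem_ball, Prod.dist_eq, max_lt_iff]
    have h2 := hq.2
    simp only [dist_zero_right, Real.norm_eq_abs] at h2
    refine ⟨hq.1.trans (by linarith), ?_⟩
    simp only [dist_zero_right, Real.norm_eq_abs, abs_mul]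
    calc |x| * |q.2| ≤ 3 * |q.2| := by gcongr
      _ < 3 * (ε / 3) := by linarith
      _ = ε := by ring
  have hGc : ContDiffOn ℝ n ↿G (s ×ˢ univ) := by
    rintro ⟨q, x⟩ ⟨hq, -⟩
    apply ContDiffAt.contDiffWithinAt
    by_cases hx : |x| < 3
    · have h1 : ContDiffAt ℝ n (fun p : (F × ℝ) × ℝ => χ p.2) (q, x) :=
        (χ.contDiff.of_le (by exact_mod_cast le_top)).contDiffAt.comp (q, x) contDiffAt_snd
      have h2 : ContDiffAt ℝ n (fun p : (F × ℝ) × ℝ => g (p.1.1, p.2 * p.1.2)) (q, x) := by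
        have h3 : ContDiffAt ℝ n (fun p : (F × ℝ) × ℝ => (p.1.1, p.2 * p.1.2)) (q, x) := by
          fun_prop
        exact ContDiffAt.comp (f := fun p : (F × ℝ) × ℝ => (p.1.1, p.2 * p.1.2)) (q, x)
          (hg _ (hmem q hq x hx)) h3
      exact h1.mul h2
    · have hx2 : 2 < |x| := by linarith
      have : ↿G =ᶠ[𝓝 (q, x)] fun _ => 0 := by
        have h1 : ∀ᶠ p : (F × ℝ) × ℝ in 𝓝 (q, x), 2 < |p.2| :=
          (continuous_abs.comp continuous_snd).continuousAt.eventually (lt_mem_nhds hx2)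
        filter_upwards [h1] with p hp
        change χ p.2 * g (p.1.1, p.2 * p.1.2) = 0
        rw [hχ0 _ hp.le, zero_mul]
      exact contDiffAt_const.congr_of_eventuallyEq this
  have hf : LocallyIntegrable (indicator (Icc (-1 : ℝ) 0) fun _ => (1 : ℝ)) volume := by
    apply Integrable.locallyIntegrable
    rw [integrable_indicator_iff measurableSet_Icc]
    exact integrableOn_const (by simp) (by simp)
  have key := contDiffOn_convolution_right_with_param_comp (𝕜 := ℝ) (μ := (volume : Measure ℝ))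
    (n := (n : ℕ∞)) (ContinuousLinearMap.mul ℝ ℝ)
    (s := s) (v := fun _ => (0 : ℝ)) contDiffOn_const (f := indicator (Icc (-1 : ℝ) 0) fun _ => (1 : ℝ))
    (g := G) (k := Icc (-2) 2) hsO isCompact_Icc (by
      intro q x _ hx
      change χ x * g (q.1, x * q.2) = 0
      rw [hχ0, zero_mul]
      by_contra h
      rw [not_le, abs_lt] at h
      exact hx ⟨h.1.le, h.2.le⟩) hf (by exact_mod_cast hGc)
  have heq : ∀ q, (convolution (indicator (Icc (-1 : ℝ) 0) fun _ => (1 : ℝ)) (G q)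
      (ContinuousLinearMap.mul ℝ ℝ) volume) 0 = ∫ θ in (0 : ℝ)..1, g (q.1, θ * q.2) := by
    intro q
    unfold convolution
    have h1 : ∀ t : ℝ, (ContinuousLinearMap.mul ℝ ℝ) (indicator (Icc (-1 : ℝ) 0) (fun _ => (1 : ℝ)) t)
        (G q (0 - t)) = indicator (Icc (-1 : ℝ) 0) (fun t => G q (-t)) t := by
      intro t
      rw [ContinuousLinearMap.mul_apply']
      by_cases ht : t ∈ Icc (-1 : ℝ) 0
      · rw [indicator_of_mem ht, indicator_of_mem ht, one_mul, zero_sub]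
      · rw [indicator_of_notMem ht, indicator_of_notMem ht, zero_mul]
    simp_rw [h1]
    rw [integral_indicator measurableSet_Icc, integral_Icc_eq_integral_Ioc,
      ← intervalIntegral.integral_of_le (by norm_num), intervalIntegral.integral_comp_neg (fun x => G q x)]
    rw [neg_zero, neg_neg]
    refine intervalIntegral.integral_congr fun x hx => ?_
    rw [uIcc_of_le (by norm_num)] at hx
    change χ x * g (q.1, x * q.2) = _
    rw [hχ1 x hx, one_mul]
  simp_rw [heq] at key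
  have := (key (Y, 0) (Metric.mem_ball_self (by positivity))).contDiffAt
    (hsO.mem_nhds (Metric.mem_ball_self (by positivity)))
  exact_mod_cast this

theorem hadamard1 {F : Type} [NormedAddCommGroup F] [NormedSpace ℝ F] [FiniteDimensional ℝ F]
    (r : F × ℝ → ℝ) (B : ℝ) (hr : ∀ Y : F, ‖Y‖ < B → ContDiffAt ℝ (⊤ : ℕ∞) r (Y, 0))
    (h0 : ∀ Y : F, ‖Y‖ < B → r (Y, 0) = 0) :
    ∃ r₁ : F × ℝ → ℝ, (∀ Y : F, ‖Y‖ < B → ContDiffAt ℝ (⊤ : ℕ∞) r₁ (Y, 0)) ∧
      (∀ Y : F, ‖Y‖ < B → r₁ (Y, 0) = fderiv ℝ r (Y, 0) (0, 1)) ∧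
      (∀ Y : F, ‖Y‖ < B → ∀ᶠ q in 𝓝 (Y, (0 : ℝ)), r q = q.2 * r₁ q) := by
  have hnear : ∀ Y : F, ‖Y‖ < B → ∀ n : ℕ, ∃ ε > 0, ∀ q ∈ Metric.ball (Y, (0 : ℝ)) ε,
      ContDiffAt ℝ (n + 1 : ℕ) r q := by
    intro Y hY n
    have h1 : ContDiffAt ℝ (n + 1 : ℕ) r (Y, 0) := (hr Y hY).of_le (by exact_mod_cast le_top)
    have h2 := h1.eventually (by simp)
    obtain ⟨ε, hε, h3⟩ := Metric.eventually_nhds_iff.1 h2
    exact ⟨ε, hε, fun q hq => h3 hq⟩
  refine ⟨fun q => ∫ θ in (0 : ℝ)..1, fderiv ℝ r (q.1, θ * q.2) (0, 1), ?_, ?_, ?_⟩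
  · intro Y hY
    rw [contDiffAt_infty]
    intro n
    obtain ⟨ε, hε, h1⟩ := hnear Y hY n
    refine contDiffAt_average (fun q => fderiv ℝ r q (0, 1)) Y hε n fun q hq => ?_
    have h2 : ContDiffAt ℝ n (fderiv ℝ r) q := (h1 q hq).fderiv_right (by norm_cast)
    exact h2.clm_apply contDiffAt_const
  · intro Y hY
    simp
  · intro Y hY
    obtain ⟨ε, hε, h1⟩ := hnear Y hY 0
    have h2 : ∀ᶠ q : F × ℝ in 𝓝 (Y, (0 : ℝ)), ‖q.1‖ < B :=
      (continuous_norm.comp continuous_fst).continuousAt.eventually (gt_mem_nhds hY)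
    filter_upwards [Metric.ball_mem_nhds _ hε, h2] with q hq hqB
    have hmem : ∀ θ ∈ Icc (0 : ℝ) 1, (q.1, θ * q.2) ∈ Metric.ball (Y, (0 : ℝ)) ε := by
      intro θ hθ
      rw [Metric.mem_ball, Prod.dist_eq, max_lt_iff] at hq ⊢
      refine ⟨hq.1, ?_⟩
      have h3 := hq.2
      simp only [dist_zero_right, Real.norm_eq_abs] at h3
      simp only [dist_zero_right, Real.norm_eq_abs, abs_mul, abs_of_nonneg hθ.1]
      calc θ * |q.2| ≤ 1 * |q.2| := by gcongr; exact hθ.2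
        _ < ε := by rw [one_mul]; exact h3
    have hder : ∀ θ ∈ uIcc (0 : ℝ) 1, HasDerivAt (fun θ : ℝ => r (q.1, θ * q.2))
        (q.2 * fderiv ℝ r (q.1, θ * q.2) (0, 1)) θ := by
      intro θ hθ
      rw [uIcc_of_le (by norm_num)] at hθ
      have h3 : HasFDerivAt r (fderiv ℝ r (q.1, θ * q.2)) (q.1, θ * q.2) :=
        ((h1 _ (hmem θ hθ)).differentiableAt (by simp)).hasFDerivAt
      have h4 : HasDerivAt (fun θ : ℝ => (q.1, θ * q.2)) ((0 : F), q.2) θ := by
        have h5 : HasDerivAt (fun θ : ℝ => θ * q.2) q.2 θ := by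
          simpa using (hasDerivAt_id θ).mul_const q.2
        exact (hasDerivAt_const θ q.1).prodMk h5
      have h6 := h3.comp_hasDerivAt θ h4
      have h7 : fderiv ℝ r (q.1, θ * q.2) (0, q.2) = q.2 * fderiv ℝ r (q.1, θ * q.2) (0, 1) := by
        have : ((0 : F), q.2) = q.2 • ((0 : F), (1 : ℝ)) := by simp
        rw [this, map_smul, smul_eq_mul]
      rw [← h7]
      exact h6
    have hcont : ContinuousOn (fun θ : ℝ => q.2 * fderiv ℝ r (q.1, θ * q.2) (0, 1))
        (uIcc (0 : ℝ) 1) := by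
      intro θ hθ
      rw [uIcc_of_le (by norm_num)] at hθ
      apply ContinuousAt.continuousWithinAt
      have h3 : ContinuousAt (fderiv ℝ r) (q.1, θ * q.2) := by
        have : ContDiffAt ℝ 0 (fderiv ℝ r) (q.1, θ * q.2) :=
          (h1 _ (hmem θ hθ)).fderiv_right (by norm_cast)
        exact this.continuousAt
      have h4 : ContinuousAt (fun θ : ℝ => fderiv ℝ r (q.1, θ * q.2)) θ :=
        ContinuousAt.comp (f := fun θ : ℝ => (q.1, θ * q.2)) h3 (by fun_prop)
      exact continuousAt_const.mul (h4.clm_apply continuousAt_const)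
    have hFTC := intervalIntegral.integral_eq_sub_of_hasDerivAt hder hcont.intervalIntegrable
    rw [intervalIntegral.integral_const_mul] at hFTC
    rw [hFTC, one_mul, zero_mul, h0 q.1 hqB, sub_zero]

end P56acde
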