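import Pool.Agent.Lib.P56acde.VolSm
import Pool.Agent.Lib.P56acde.ConvA
import Pool.Agent.Lib.P56acde.ConvB
import Pool.Agent.Lib.P56acde.Hadam

/-! MODULE EndSm (uses `vol_smooth`, `ConvA`, `ConvB`, `hadamard1`): slice volumes near the end of the range. -/

open Set Filter Topology MeasureTheory

namespace P56acde

/-- the map `T δ Y = p + δ Y - (δ²/|w|²) w`. -/
noncomputable def eT {n : ℕ} (p w : E n) (q : ((ℝ ∙ w)ᗮ : Submodule ℝ (E n)) × ℝ) : E n :=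
  p + q.2 • (q.1 : E n) - (q.2 ^ 2 / ‖w‖ ^ 2) • w

theorem eT_contDiff {n : ℕ} (p w : E n) : ContDiff ℝ (⊤ : ℕ∞) (eT p w) := by
  have h1 : ContDiff ℝ (⊤ : ℕ∞)
      (fun q : ((ℝ ∙ w)ᗮ : Submodule ℝ (E n)) × ℝ => (q.1 : E n)) :=
    (((ℝ ∙ w)ᗮ : Submodule ℝ (E n)).subtypeL.contDiff).comp contDiff_fst
  unfold eT
  have h2 : ContDiff ℝ (⊤ : ℕ∞)
      (fun q : ((ℝ ∙ w)ᗮ : Submodule ℝ (E n)) × ℝ => q.2) := contDiff_snd
  exact (contDiff_const.add (h2.smul h1)).sub (((h2.pow 2).div_const _).smul contDiff_const)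

theorem end_quad {n : ℕ} {w p : E n} (hw : w ≠ 0) {ρ : E n → ℝ} {μ : ℝ}
    (hρ : ContDiffAt ℝ (⊤ : ℕ∞) ρ p) (hD : ∀ v, fderiv ℝ ρ p v = μ * inner ℝ v w)
    (r₂ : ((ℝ ∙ w)ᗮ : Submodule ℝ (E n)) × ℝ → ℝ) (Y : ((ℝ ∙ w)ᗮ : Submodule ℝ (E n))) (s : ℝ)
    (hc1 : ContinuousAt r₂ (Y, 0)) (hc2 : ContinuousAt r₂ (s • Y, 0))
    (h1 : ∀ᶠ q in 𝓝 (Y, (0 : ℝ)), ρ (eT p w q) = q.2 ^ 2 * r₂ q)
    (h2 : ∀ᶠ q in 𝓝 (s • Y, (0 : ℝ)), ρ (eT p w q) = q.2 ^ 2 * r₂ q) :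
    r₂ (s • Y, 0) + μ = s ^ 2 * (r₂ (Y, 0) + μ) := by
  have hst := (hρ.hasStrictFDerivAt (by simp)).isLittleO
  have hT := (eT_contDiff p w).continuous
  have hp0 : ∀ Z, eT p w (Z, 0) = p := by intro Z; simp [eT]
  have ht1 : Tendsto (fun δ : ℝ => ((s • Y, δ) : ((ℝ ∙ w)ᗮ : Submodule ℝ (E n)) × ℝ)) (𝓝 0)
      (𝓝 (s • Y, 0)) := Continuous.tendsto' (by fun_prop) _ _ rfl
  have ht2 : Tendsto (fun δ : ℝ => ((Y, s * δ) : ((ℝ ∙ w)ᗮ : Submodule ℝ (E n)) × ℝ)) (𝓝 0)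
      (𝓝 (Y, 0)) := Continuous.tendsto' (by fun_prop) _ _ (by simp)
  have ht : Tendsto (fun δ : ℝ => (eT p w (s • Y, δ), eT p w (Y, s * δ))) (𝓝 0) (𝓝 (p, p)) := by
    refine Continuous.tendsto' ?_ _ _ (by simp [hp0])
    exact (hT.comp (by fun_prop)).prodMk (hT.comp (by fun_prop))
  have hlo := hst.comp_tendsto ht
  have hwn : ‖w‖ ≠ 0 := norm_ne_zero_iff.2 hw
  have hdiff : ∀ δ : ℝ, eT p w (s • Y, δ) - eT p w (Y, s * δ)
      = ((s ^ 2 - 1) * δ ^ 2 / ‖w‖ ^ 2) • w := by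
    intro δ
    simp only [eT, Submodule.coe_smul]
    module
  have hO : (fun δ : ℝ => eT p w (s • Y, δ) - eT p w (Y, s * δ)) =O[𝓝 0] (fun δ : ℝ => δ ^ 2) := by
    refine Asymptotics.IsBigO.of_bound (|s ^ 2 - 1| / ‖w‖ ^ 2 * ‖w‖) (Eventually.of_forall ?_)
    intro δ
    rw [hdiff, norm_smul, Real.norm_eq_abs, Real.norm_eq_abs, abs_div, abs_mul,
      abs_of_nonneg (sq_nonneg ‖w‖)]
    exact le_of_eq (by ring)
  have hlo2 : (fun δ : ℝ => ρ (eT p w (s • Y, δ)) - ρ (eT p w (Y, s * δ)) - μ * (s ^ 2 - 1) * δ ^ 2)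
      =o[𝓝 0] (fun δ : ℝ => δ ^ 2) := by
    have h3 := hlo.trans_isBigO hO
    refine h3.congr_left ?_
    intro δ
    simp only [Function.comp_apply]
    rw [hD, hdiff, real_inner_smul_left, real_inner_self_eq_norm_sq]
    field_simp
  have hlim : Tendsto (fun δ : ℝ => (ρ (eT p w (s • Y, δ)) - ρ (eT p w (Y, s * δ))
      - μ * (s ^ 2 - 1) * δ ^ 2) / δ ^ 2) (𝓝[≠] 0) (𝓝 0) :=
    hlo2.tendsto_div_nhds_zero.mono_left nhdsWithin_le_nhds
  have hlim2 : Tendsto (fun δ : ℝ => r₂ (s • Y, δ) - s ^ 2 * r₂ (Y, s * δ) - μ * (s ^ 2 - 1))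
      (𝓝[≠] 0) (𝓝 (r₂ (s • Y, 0) - s ^ 2 * r₂ (Y, 0) - μ * (s ^ 2 - 1))) := by
    refine Tendsto.mono_left ?_ nhdsWithin_le_nhds
    have e1 := hc2.tendsto.comp ht1
    have e2 := hc1.tendsto.comp ht2
    exact (e1.sub (e2.const_mul _)).sub_const _
  have heq : (fun δ : ℝ => (ρ (eT p w (s • Y, δ)) - ρ (eT p w (Y, s * δ))
      - μ * (s ^ 2 - 1) * δ ^ 2) / δ ^ 2) =ᶠ[𝓝[≠] 0]
      (fun δ : ℝ => r₂ (s • Y, δ) - s ^ 2 * r₂ (Y, s * δ) - μ * (s ^ 2 - 1)) := by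
    have e1 := (ht1.eventually h2).filter_mono (nhdsWithin_le_nhds (s := {(0 : ℝ)}ᶜ))
    have e2 := (ht2.eventually h1).filter_mono (nhdsWithin_le_nhds (s := {(0 : ℝ)}ᶜ))
    filter_upwards [e1, e2, self_mem_nhdsWithin] with δ a1 a2 a3
    have a3' : δ ≠ 0 := a3
    rw [a1, a2]
    field_simp
  have := tendsto_nhds_unique (hlim.congr' heq) hlim2
  linarith

theorem end_core {F : Type} [NormedAddCommGroup F] [NormedSpace ℝ F] [FiniteDimensional ℝ F]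
    [MeasurableSpace F] [BorelSpace F] (vol : Measure F) [vol.IsAddHaarMeasure]
    (S : ℝ → Set F) (c B μ : ℝ) (hc : 0 < c) (hcB : c < B) (hμ : 0 < μ) (g : F × ℝ → ℝ)
    (hg : ∀ Y : F, ‖Y‖ < B → ContDiffAt ℝ (⊤ : ℕ∞) g (Y, 0))
    (hquad : ∀ Y : F, ‖Y‖ < B → ∀ s : ℝ, ‖s • Y‖ < B →
      g (s • Y, 0) + μ = s ^ 2 * (g (Y, 0) + μ))
    (hconv : ∀ δ, δ ≠ 0 → Convex ℝ (S δ)) (hsub : ∀ δ, δ ≠ 0 → S δ ⊆ Metric.closedBall 0 c)
    (hloc : ∀ Y : F, ‖Y‖ < B → ∀ᶠ q in 𝓝 (Y, (0 : ℝ)), q.2 ≠ 0 → (q.1 ∈ S q.2 ↔ g q ≤ 0))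
    (h0 : S 0 = {Y | g (Y, 0) ≤ 0 ∧ ‖Y‖ < B}) :
    ContDiffAt ℝ (⊤ : ℕ∞) (fun δ => (vol (S δ)).toReal) 0 := by
  have hB : 0 < B := hc.trans hcB
  have h00 : g (0, 0) = -μ := by
    have := hquad 0 (by simpa using hB) 0 (by simpa using hB)
    simp at this
    linarith
  have htd : ∀ Y : F, Tendsto (fun δ : ℝ => ((Y, δ) : F × ℝ)) (𝓝[≠] 0) (𝓝 (Y, 0)) := by
    intro Y
    exact (Continuous.tendsto' (by fun_prop) _ _ rfl).mono_left nhdsWithin_le_nhds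
  have pull : ∀ Y : F, ‖Y‖ < B → ∀ᶠ δ in 𝓝[≠] (0 : ℝ), (Y ∈ S δ ↔ g (Y, δ) ≤ 0) := by
    intro Y hY
    have := (htd Y).eventually (hloc Y hY)
    filter_upwards [this, self_mem_nhdsWithin] with δ h1 h2
    exact h1 h2
  have pullneg : ∀ Y : F, ‖Y‖ < B → g (Y, 0) < 0 → ∀ᶠ δ in 𝓝[≠] (0 : ℝ), Y ∈ S δ := by
    intro Y hY hneg
    have h1 := (htd Y).eventually ((hg Y hY).continuousAt.eventually_lt_const hneg)
    filter_upwards [h1, pull Y hY] with δ h1 h2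
    exact h2.2 h1.le
  have claim1 : ∀ Y : F, ‖Y‖ < B → g (Y, 0) < 0 → ‖Y‖ ≤ c := by
    intro Y hY hneg
    obtain ⟨δ, h1, h2⟩ := ((pullneg Y hY hneg).and self_mem_nhdsWithin).exists
    simpa using hsub δ h2 h1
  have scale : ∀ Y : F, ‖Y‖ < B → ∀ s : ℝ, 0 ≤ s → s ≤ 1 → ‖s • Y‖ < B := by
    intro Y hY s hs0 hs1
    rw [norm_smul, Real.norm_eq_abs, abs_of_nonneg hs0]
    nlinarith [norm_nonneg Y]
  have lt1 : ∀ Y : F, ‖Y‖ < B → g (Y, 0) ≤ 0 → ∀ s : ℝ, 0 ≤ s → s < 1 → g (s • Y, 0) < 0 := by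
    intro Y hY hneg s hs0 hs1
    have := hquad Y hY s (scale Y hY s hs0 hs1.le)
    nlinarith [mul_nonneg hs0 hs0, mul_pos hμ (sub_pos.2 hs1), mul_nonneg (sq_nonneg s)
      (neg_nonneg.2 hneg), mul_nonneg (mul_nonneg hs0 hμ.le) (sub_pos.2 hs1).le]
  have claim3 : ∀ Y : F, ‖Y‖ < B → g (Y, 0) ≤ 0 → ‖Y‖ ≤ c := by
    intro Y hY hneg
    by_contra hcon
    push Not at hcon
    have hYpos : 0 < ‖Y‖ := hc.trans hcon
    have hs1 : (‖Y‖ + c) / (2 * ‖Y‖) < 1 := by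
      rw [div_lt_one (by positivity)]
      linarith
    have hs0 : 0 ≤ (‖Y‖ + c) / (2 * ‖Y‖) := by positivity
    have h1 := claim1 _ (scale Y hY _ hs0 hs1.le) (lt1 Y hY hneg _ hs0 hs1)
    rw [norm_smul, Real.norm_eq_abs, abs_of_nonneg hs0] at h1
    have h2 : (‖Y‖ + c) / (2 * ‖Y‖) * ‖Y‖ = (‖Y‖ + c) / 2 := by
      field_simp
    rw [h2] at h1
    linarith
  -- choice of `s`
  have choice : ∀ G : ℝ, 0 < G → ∃ s : ℝ, 0 < s ∧ s < 1 ∧ 0 < -μ + s ^ 2 * (G + μ) := by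
    intro G hG
    have hcont : ContinuousAt (fun s : ℝ => -μ + s ^ 2 * (G + μ)) 1 := by fun_prop
    have h1 : ∀ᶠ s in 𝓝 (1 : ℝ), 0 < -μ + s ^ 2 * (G + μ) :=
      hcont.eventually_const_lt (by simpa using hG)
    have h2 := h1.filter_mono (nhdsWithin_le_nhds (s := Iio (1 : ℝ)))
    obtain ⟨s, hs, hs'⟩ := (h2.and (Ioo_mem_nhdsLT (show (0 : ℝ) < 1 by norm_num))).exists
    exact ⟨s, hs'.1, hs'.2, hs⟩
  have conv0 : Convex ℝ (S 0) := by
    rw [h0]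
    rintro Y ⟨hY1, hY2⟩ Z ⟨hZ1, hZ2⟩ a b ha hb hab
    have hYc := claim3 Y hY2 hY1
    have hZc := claim3 Z hZ2 hZ1
    have hUc : ‖a • Y + b • Z‖ ≤ c := by
      refine (norm_add_le _ _).trans ?_
      rw [norm_smul, norm_smul, Real.norm_eq_abs, Real.norm_eq_abs, abs_of_nonneg ha,
        abs_of_nonneg hb]
      calc a * ‖Y‖ + b * ‖Z‖ ≤ a * c + b * c := by gcongr
        _ = c := by rw [← add_mul, hab, one_mul]
    have hUB : ‖a • Y + b • Z‖ < B := hUc.trans_lt hcB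
    refine ⟨?_, hUB⟩
    by_contra hcon
    push Not at hcon
    obtain ⟨s, hs0, hs1, hs2⟩ := choice _ hcon
    have hsU := scale _ hUB s hs0.le hs1.le
    have hq := hquad _ hUB s hsU
    have hpos : 0 < g (s • (a • Y + b • Z), 0) := by linarith
    have e1 := pullneg _ (scale Y hY2 s hs0.le hs1.le) (lt1 Y hY2 hY1 s hs0.le hs1)
    have e2 := pullneg _ (scale Z hZ2 s hs0.le hs1.le) (lt1 Z hZ2 hZ1 s hs0.le hs1)
    have e3 := (htd (s • (a • Y + b • Z))).eventually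
      ((hg _ hsU).continuousAt.eventually_const_lt hpos)
    obtain ⟨δ, ⟨⟨⟨⟨a1, a2⟩, a3⟩, a4⟩, a5⟩⟩ :=
      ((((e1.and e2).and e3).and (pull _ hsU)).and self_mem_nhdsWithin).exists
    have a6 : a • (s • Y) + b • (s • Z) ∈ S δ := hconv δ a5 a1 a2 ha hb hab
    have a7 : a • (s • Y) + b • (s • Z) = s • (a • Y + b • Z) := by
      rw [smul_add, smul_comm, smul_comm b s]
    rw [a7] at a6
    have := a4.1 a6
    linarith
  -- a small ball
  have hsmall : ∀ᶠ q in 𝓝 ((0 : F), (0 : ℝ)), g q < 0 ∧ (q.2 ≠ 0 → (q.1 ∈ S q.2 ↔ g q ≤ 0)) := by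
    refine ((hg 0 (by simpa using hB)).continuousAt.eventually_lt_const ?_).and
      (hloc 0 (by simpa using hB))
    rw [h00]
    linarith
  obtain ⟨ε, hε, hball⟩ := Metric.eventually_nhds_iff.1 hsmall
  have ha0 : 0 < min (ε / 2) (B / 2) := by positivity
  have hev : ∀ᶠ δ in 𝓝 (0 : ℝ), Convex ℝ (S δ) ∧
      Metric.closedBall (0 : F) (min (ε / 2) (B / 2)) ⊆ S δ ∧
      S δ ⊆ Metric.closedBall (0 : F) c := by
    have h1 : ∀ᶠ δ in 𝓝 (0 : ℝ), dist δ 0 < ε := Metric.ball_mem_nhds _ hε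
    filter_upwards [h1] with δ hδ
    by_cases hd0 : δ = 0
    · subst hd0
      refine ⟨conv0, ?_, ?_⟩
      · intro Y hY
        rw [mem_closedBall_zero_iff] at hY
        have hY1 : ‖Y‖ < ε := by
          have := min_le_left (ε / 2) (B / 2)
          linarith
        have hY2 : ‖Y‖ < B := by
          have := min_le_right (ε / 2) (B / 2)
          linarith
        rw [h0]
        refine ⟨?_, hY2⟩
        have := (hball (y := (Y, (0 : ℝ))) (by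
          rw [Prod.dist_eq]
          simp [hY1, hε])).1
        exact this.le
      · rw [h0]
        rintro Y ⟨hY1, hY2⟩
        rw [mem_closedBall_zero_iff]
        exact claim3 Y hY2 hY1
    · refine ⟨hconv δ hd0, ?_, hsub δ hd0⟩
      intro Y hY
      rw [mem_closedBall_zero_iff] at hY
      have hY1 : ‖Y‖ < ε := by
        have := min_le_left (ε / 2) (B / 2)
        linarith
      have := hball (y := (Y, δ)) (by
        rw [Prod.dist_eq]
        simp only [dist_zero_right]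
        exact max_lt hY1 (by simpa using hδ))
      exact (this.2 hd0).2 this.1.le
  refine vol_smooth vol S 0 (min (ε / 2) (B / 2)) c ha0 hev ?_
  intro Y₀ hY₀
  obtain ⟨-, hin, hout⟩ := hev.self_of_nhds
  have hnhds : S 0 ∈ 𝓝 (0 : F) :=
    Filter.mem_of_superset (Metric.closedBall_mem_nhds _ ha0) hin
  have habs : Absorbent ℝ (S 0) := absorbent_nhds_zero hnhds
  have hnY : ‖Y₀‖ ≤ c := by
    have := le_gauge_of_subset_closedBall habs hc.le hout (x := Y₀)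
    rw [hY₀, div_le_one hc] at this
    exact this
  have hnB : ‖Y₀‖ < B := hnY.trans_lt hcB
  have hzero0 : (0 : F) ∈ S 0 := hin (by simpa using ha0.le)
  have hG0 : g (Y₀, 0) ≤ 0 := by
    by_contra hcon
    push Not at hcon
    obtain ⟨s, hs0, hs1, hs2⟩ := choice _ hcon
    have hmem : s • Y₀ ∈ S 0 := by
      apply setOfPred_gauge_lt_one_subset_self conv0 hzero0 habs
      show gauge (S 0) (s • Y₀) < 1
      rw [gauge_smul_of_nonneg hs0.le, hY₀]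
      simpa using hs1
    rw [h0] at hmem
    have hq := hquad _ hnB s hmem.2
    have := hmem.1
    linarith
  have hG1 : 0 ≤ g (Y₀, 0) := by
    by_contra hcon
    push Not at hcon
    have hcont : ContinuousAt (fun s : ℝ => -μ + s ^ 2 * (g (Y₀, 0) + μ)) 1 := by fun_prop
    have h1 : ∀ᶠ s in 𝓝 (1 : ℝ), -μ + s ^ 2 * (g (Y₀, 0) + μ) < 0 :=
      hcont.eventually_lt_const (by simpa using hcon)
    have hcont2 : ContinuousAt (fun s : ℝ => ‖s • Y₀‖) 1 := by fun_prop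
    have h2 : ∀ᶠ s in 𝓝 (1 : ℝ), ‖s • Y₀‖ < B :=
      hcont2.eventually_lt_const (by simpa using hnB)
    have h3 := (h1.and h2).filter_mono (nhdsWithin_le_nhds (s := Ioi (1 : ℝ)))
    obtain ⟨s, ⟨hs1, hs2⟩, hs3⟩ := (h3.and self_mem_nhdsWithin).exists
    have hs3' : 1 < s := hs3
    have hq := hquad _ hnB s hs2
    have hmem : s • Y₀ ∈ S 0 := by
      rw [h0]
      exact ⟨by linarith, hs2⟩
    have := gauge_le_one_of_mem hmem
    rw [gauge_smul_of_nonneg (by linarith), hY₀] at this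
    simp at this
    linarith
  have hGz : g (Y₀, 0) = 0 := le_antisymm hG0 hG1
  refine ⟨g, hg Y₀ hnB, hGz, ?_, ?_⟩
  · have hd1 : HasFDerivAt g (fderiv ℝ g (Y₀, 0)) (Y₀, 0) :=
      ((hg Y₀ hnB).differentiableAt (by simp)).hasFDerivAt
    have hd2 : HasDerivAt (fun s : ℝ => ((s • Y₀, (0 : ℝ)) : F × ℝ)) (Y₀, 0) 1 := by
      have e1 : HasDerivAt (fun s : ℝ => s • Y₀) Y₀ 1 := by
        simpa using (hasDerivAt_id (1 : ℝ)).smul_const Y₀
      exact e1.prodMk (hasDerivAt_const _ _)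
    have hd3 : HasDerivAt (fun s : ℝ => g (s • Y₀, 0)) (fderiv ℝ g (Y₀, 0) (Y₀, 0)) 1 := by
      have hd1' : HasFDerivAt g (fderiv ℝ g (Y₀, 0)) ((fun s : ℝ => ((s • Y₀, (0 : ℝ)) : F × ℝ)) 1) := by
        simpa using hd1
      exact hd1'.comp_hasDerivAt 1 hd2
    have hcont2 : ContinuousAt (fun s : ℝ => ‖s • Y₀‖) 1 := by fun_prop
    have h2 : ∀ᶠ s in 𝓝 (1 : ℝ), ‖s • Y₀‖ < B :=
      hcont2.eventually_lt_const (by simpa using hnB)
    have hd4 : HasDerivAt (fun s : ℝ => -μ + s ^ 2 * μ) (2 * μ) 1 := by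
      have e1 := (((hasDerivAt_pow 2 (1 : ℝ)).mul_const μ).const_add (-μ))
      simpa using e1
    have hd5 : HasDerivAt (fun s : ℝ => g (s • Y₀, 0)) (2 * μ) 1 := by
      refine hd4.congr_of_eventuallyEq ?_
      filter_upwards [h2] with s hs
      have := hquad _ hnB s hs
      rw [hGz] at this
      linarith
    rw [hd3.unique hd5]
    positivity
  · have hcont3 : ContinuousAt (fun q : F × ℝ => ‖q.1‖) (Y₀, 0) := by fun_prop
    have h3 : ∀ᶠ q in 𝓝 ((Y₀, 0) : F × ℝ), ‖q.1‖ < B :=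
      hcont3.eventually_lt_const (by simpa using hnB)
    filter_upwards [hloc Y₀ hnB, h3] with q hq1 hq2
    by_cases hq0 : q.2 = 0
    · obtain ⟨y, d⟩ := q
      simp only at hq0 hq2 hq1 ⊢
      subst hq0
      rw [h0]
      simp [hq2]
    · exact hq1 hq0

theorem end_smooth {n : ℕ} {K : Set (E n)} (hK : IsCompact K) (hc : Convex ℝ K)
    (hint : (interior K).Nonempty) (hs : SmoothBoundary K) {w : E n} (hw : w ≠ 0)
    {p : E n} (hp : p ∈ K) {l : ℝ} (hl : 0 < l) (hball : K ⊆ Metric.closedBall (p - l • w) (l * ‖w‖)) :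
    ∃ β : ℝ → ℝ, ContDiffAt ℝ (⊤ : ℕ∞) β 0 ∧ (∀ δ, β (-δ) = β δ) ∧
      ∀ᶠ δ in 𝓝[>] (0 : ℝ), (volume (slice K w (hi K w - δ ^ 2))).toReal = δ ^ (n - 1) * β δ := by
  have hwn : 0 < ‖w‖ := norm_pos_iff.2 hw
  have hwn2 : ‖w‖ ^ 2 ≠ 0 := by positivity
  -- quadratic estimate
  have hest : ∀ x ∈ K, ‖x - p‖ ^ 2 ≤ 2 * l * (inner ℝ p w - inner ℝ x w) := by
    intro x hx
    have h1 := hball hx
    rw [mem_closedBall_iff_norm] at h1
    have h2 : x - (p - l • w) = (x - p) + l • w := by abel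
    rw [h2] at h1
    have h3 : ‖(x - p) + l • w‖ ^ 2 ≤ (l * ‖w‖) ^ 2 :=
      pow_le_pow_left₀ (norm_nonneg _) h1 2
    rw [norm_add_sq_real, real_inner_smul_right, norm_smul, Real.norm_eq_abs, abs_of_pos hl,
      inner_sub_left] at h3
    linarith
  have hmax : ∀ x ∈ K, (inner ℝ x w : ℝ) ≤ inner ℝ p w := by
    intro x hx
    have h1 := hest x hx
    have h2 : 0 ≤ ‖x - p‖ ^ 2 := by positivity
    by_contra hcon
    push Not at hcon
    nlinarith [mul_pos hl (sub_pos.2 hcon)]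
  have hhi : hi K w = inner ℝ p w := by
    obtain ⟨q, hq, hq'⟩ := exists_hi hK ⟨p, hp⟩ w
    exact le_antisymm (hq' ▸ hmax q hq) (le_hi hK hp w)
  have hfr : p ∈ frontier K := by
    refine ⟨subset_closure hp, ?_⟩
    intro hpi
    have hcont : Tendsto (fun e : ℝ => p + e • w) (𝓝 0) (𝓝 p) :=
      Continuous.tendsto' (by fun_prop) _ _ (by simp)
    have h1 : ∀ᶠ e in 𝓝 (0 : ℝ), p + e • w ∈ K :=
      hcont.eventually (mem_interior_iff_mem_nhds.1 hpi)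
    have h2 := h1.filter_mono (nhdsWithin_le_nhds (s := Ioi (0 : ℝ)))
    obtain ⟨e, he, he'⟩ := (h2.and self_mem_nhdsWithin).exists
    have h3 := hmax _ he
    rw [inner_add_left, real_inner_smul_left, real_inner_self_eq_norm_sq] at h3
    have he'' : 0 < e := he'
    nlinarith [mul_pos he'' (pow_pos hwn 2)]
  obtain ⟨ρ, hρ, hρd, hρl⟩ := hs p hfr
  have hρ0 : ρ p = 0 := rho_zero hK.isClosed hfr hρ hρl
  obtain ⟨-, μ, hμ, hD⟩ := normal_at_max hK.isClosed hw hp hmax hρ hρd hρl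
  have hT := eT_contDiff p w
  have hp0 : ∀ Z, eT p w (Z, 0) = p := by intro Z; simp [eT]
  set c : ℝ := √(2 * l) with hcdef
  have hcpos : 0 < c := Real.sqrt_pos.2 (by positivity)
  have hc2 : c ^ 2 = 2 * l := Real.sq_sqrt (by positivity)
  set B : ℝ := c + 1 with hBdef
  have hcB : c < B := by rw [hBdef]; linarith
  -- first Hadamard
  have hr : ∀ Y : ((ℝ ∙ w)ᗮ : Submodule ℝ (E n)), ‖Y‖ < B →
      ContDiffAt ℝ (⊤ : ℕ∞) (fun q => ρ (eT p w q)) (Y, 0) := by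
    intro Y _
    refine ContDiffAt.comp (Y, (0 : ℝ)) ?_ hT.contDiffAt
    rw [hp0]
    exact hρ
  obtain ⟨r₁, hr1, hr1d, hr1e⟩ := hadamard1 (fun q => ρ (eT p w q)) B hr (by
    intro Y _
    show ρ (eT p w (Y, 0)) = 0
    rw [hp0]
    exact hρ0)
  have hr10 : ∀ Y : ((ℝ ∙ w)ᗮ : Submodule ℝ (E n)), ‖Y‖ < B → r₁ (Y, 0) = 0 := by
    intro Y hY
    rw [hr1d Y hY]
    have hd1 : HasFDerivAt (fun q => ρ (eT p w q)) (fderiv ℝ (fun q => ρ (eT p w q)) (Y, 0)) (Y, 0) :=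
      ((hr Y hY).differentiableAt (by simp)).hasFDerivAt
    have hd2 : HasDerivAt (fun s : ℝ => ((Y, s) : ((ℝ ∙ w)ᗮ : Submodule ℝ (E n)) × ℝ)) (0, 1) 0 :=
      (hasDerivAt_const _ _).prodMk (hasDerivAt_id _)
    have hd3 : HasDerivAt (fun s : ℝ => ρ (eT p w (Y, s)))
        (fderiv ℝ (fun q => ρ (eT p w q)) (Y, 0) (0, 1)) 0 :=
      HasFDerivAt.comp_hasDerivAt (0 : ℝ) hd1 hd2
    have hd4 : HasDerivAt (fun s : ℝ => eT p w (Y, s)) (Y : E n) 0 := by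
      unfold eT
      simp only
      have e1 : HasDerivAt (fun s : ℝ => p + s • (Y : E n)) (Y : E n) 0 := by
        simpa using ((hasDerivAt_id (0 : ℝ)).smul_const (Y : E n)).const_add p
      have e2 : HasDerivAt (fun s : ℝ => (s ^ 2 / ‖w‖ ^ 2) • w) (0 : E n) 0 := by
        have := (((hasDerivAt_pow 2 (0 : ℝ)).div_const (‖w‖ ^ 2)).smul_const w)
        simpa using this
      have e3 := e1.sub e2
      rw [sub_zero] at e3
      exact e3
    have hd5 : HasFDerivAt ρ (fderiv ℝ ρ p) (eT p w (Y, 0)) := by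
      rw [hp0]
      exact (hρ.differentiableAt (by simp)).hasFDerivAt
    have hd6 : HasDerivAt (fun s : ℝ => ρ (eT p w (Y, s))) (fderiv ℝ ρ p (Y : E n)) 0 :=
      HasFDerivAt.comp_hasDerivAt (0 : ℝ) hd5 hd4
    rw [hd3.unique hd6, hD]
    have : (inner ℝ (Y : E n) w : ℝ) = 0 :=
      Submodule.mem_orthogonal_singleton_iff_inner_left.1 Y.2
    rw [this, mul_zero]
  obtain ⟨r₂, hr2, -, hr2e⟩ := hadamard1 r₁ B hr1 hr10
  have hre : ∀ Y : ((ℝ ∙ w)ᗮ : Submodule ℝ (E n)), ‖Y‖ < B →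
      ∀ᶠ q in 𝓝 (Y, (0 : ℝ)), ρ (eT p w q) = q.2 ^ 2 * r₂ q := by
    intro Y hY
    filter_upwards [hr1e Y hY, hr2e Y hY] with q h1 h2
    rw [h1, h2]
    ring
  have hquad : ∀ Y : ((ℝ ∙ w)ᗮ : Submodule ℝ (E n)), ‖Y‖ < B → ∀ s : ℝ, ‖s • Y‖ < B →
      r₂ (s • Y, 0) + μ = s ^ 2 * (r₂ (Y, 0) + μ) := by
    intro Y hY s hsY
    exact end_quad hw hρ hD r₂ Y s (hr2 Y hY).continuousAt (hr2 _ hsY).continuousAt
      (hre Y hY) (hre _ hsY)
  -- the sets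
  set S : ℝ → Set ((ℝ ∙ w)ᗮ : Submodule ℝ (E n)) := fun δ =>
    if δ = 0 then {Y | r₂ (Y, 0) ≤ 0 ∧ ‖Y‖ < B} else {Y | eT p w (Y, δ) ∈ K} with hSdef
  have hS0 : S 0 = {Y | r₂ (Y, 0) ≤ 0 ∧ ‖Y‖ < B} := by simp [hSdef]
  have hSne : ∀ δ, δ ≠ 0 → S δ = {Y | eT p w (Y, δ) ∈ K} := by
    intro δ hδ
    simp [hSdef, hδ]
  have hsm := end_core (volume : Measure ((ℝ ∙ w)ᗮ : Submodule ℝ (E n))) S c B μ hcpos hcB hμ r₂
    hr2 hquad ?_ ?_ ?_ hS0
  · refine ⟨fun δ => (volume (S δ)).toReal, hsm, ?_, ?_⟩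
    · intro δ
      by_cases hδ : δ = 0
      · subst hδ
        simp
      · have hneg : -δ ≠ 0 := neg_ne_zero.2 hδ
        have h1 : S (-δ) = (fun y : ((ℝ ∙ w)ᗮ : Submodule ℝ (E n)) => (-1 : ℝ) • y) ⁻¹' (S δ) := by
          rw [hSne _ hneg, hSne _ hδ]
          ext Y
          simp only [mem_ofPred_eq, mem_preimage, eT, Submodule.coe_smul, neg_sq]
          simp
        show (volume (S (-δ))).toReal = (volume (S δ)).toReal
        rw [h1, Measure.addHaar_preimage_smul _ (by norm_num)]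
        simp
    · filter_upwards [self_mem_nhdsWithin] with δ hδ
      have hδ' : 0 < δ := hδ
      have hfin : Module.finrank ℝ ((ℝ ∙ w)ᗮ : Submodule ℝ (E n)) = n - 1 := by
        have h1 := Submodule.finrank_add_finrank_orthogonal (ℝ ∙ w)
        rw [finrank_span_singleton hw] at h1
        have h2 : Module.finrank ℝ (E n) = n := by simp [E]
        omega
      -- base point
      have hyp : p - ((inner ℝ p w : ℝ) / ‖w‖ ^ 2) • w ∈ ((ℝ ∙ w)ᗮ : Submodule ℝ (E n)) := by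
        rw [Submodule.mem_orthogonal_singleton_iff_inner_left, inner_sub_left,
          real_inner_smul_left, real_inner_self_eq_norm_sq]
        field_simp
        ring
      have h1 : S δ = (fun y : ((ℝ ∙ w)ᗮ : Submodule ℝ (E n)) => δ • y) ⁻¹'
          ((fun y => (⟨_, hyp⟩ : ((ℝ ∙ w)ᗮ : Submodule ℝ (E n))) + y) ⁻¹'
            (slice K w (hi K w - δ ^ 2))) := by
        rw [hSne _ hδ'.ne', hhi]
        ext Y
        simp only [mem_ofPred_eq, mem_preimage, slice, Submodule.coe_add, Submodule.coe_smul]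
        have : eT p w (Y, δ) = p - ((inner ℝ p w : ℝ) / ‖w‖ ^ 2) • w + δ • (Y : E n)
            + ((inner ℝ p w - δ ^ 2) / ‖w‖ ^ 2) • w := by
          simp only [eT]
          module
        rw [this]
      rw [h1, Measure.addHaar_preimage_smul _ hδ'.ne', measure_preimage_add, hfin,
        ENNReal.toReal_mul, ENNReal.toReal_ofReal (abs_nonneg _), abs_of_pos (by positivity)]
      have : δ ^ (n - 1) ≠ 0 := by positivity
      field_simp
  · intro δ hδ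
    rw [hSne _ hδ]
    intro Y hY Z hZ a b ha hb hab
    simp only [mem_ofPred_eq] at hY hZ ⊢
    have h1 := hc hY hZ ha hb hab
    convert h1 using 1
    simp only [eT, Submodule.coe_add, Submodule.coe_smul]
    have hb' : b = 1 - a := by linarith
    subst hb'
    module
  · intro δ hδ
    rw [hSne _ hδ]
    intro Y hY
    simp only [mem_ofPred_eq] at hY
    rw [mem_closedBall_zero_iff]
    have h1 := hest _ hY
    have hYw : (inner ℝ (Y : E n) w : ℝ) = 0 :=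
      Submodule.mem_orthogonal_singleton_iff_inner_left.1 Y.2
    have h2 : (inner ℝ (eT p w (Y, δ)) w : ℝ) = inner ℝ p w - δ ^ 2 := by
      simp only [eT]
      rw [inner_sub_left, inner_add_left, real_inner_smul_left, real_inner_smul_left,
        real_inner_self_eq_norm_sq, hYw]
      field_simp
      ring
    have h3 : eT p w (Y, δ) - p = δ • (Y : E n) - (δ ^ 2 / ‖w‖ ^ 2) • w := by
      simp only [eT]
      module
    have h4 : ‖δ • (Y : E n) - (δ ^ 2 / ‖w‖ ^ 2) • w‖ ^ 2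
        = δ ^ 2 * ‖Y‖ ^ 2 + (δ ^ 2 / ‖w‖ ^ 2) ^ 2 * ‖w‖ ^ 2 := by
      rw [norm_sub_sq_real, real_inner_smul_left, real_inner_smul_right, hYw, norm_smul, norm_smul,
        mul_pow, mul_pow, Real.norm_eq_abs, Real.norm_eq_abs, sq_abs, sq_abs]
      simp
    rw [h2, h3, h4] at h1
    have h5 : 0 ≤ (δ ^ 2 / ‖w‖ ^ 2) ^ 2 * ‖w‖ ^ 2 := by positivity
    have h6 : 0 < δ ^ 2 := by positivity
    have h7 : ‖Y‖ ^ 2 ≤ c ^ 2 := by
      rw [hc2]
      by_contra hcon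
      push Not at hcon
      nlinarith [mul_pos h6 (sub_pos.2 hcon)]
    exact le_of_sq_le_sq h7 hcpos.le
  · intro Y hY
    have hTc : Tendsto (eT p w) (𝓝 (Y, 0)) (𝓝 p) := by
      have := hT.continuous.tendsto (Y, (0 : ℝ))
      rwa [hp0] at this
    filter_upwards [hre Y hY, hTc.eventually hρl] with q h1 h2
    intro hq
    rw [hSne _ hq]
    have h3 : 0 < q.2 ^ 2 := by positivity
    simp only [mem_ofPred_eq]
    have h4 : eT p w (q.1, q.2) = eT p w q := rfl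
    rw [h4, h2, h1]
    constructor
    · intro h
      by_contra hcon
      push Not at hcon
      nlinarith [mul_pos h3 hcon]
    · intro h
      exact mul_nonpos_of_nonneg_of_nonpos h3.le h

end P56acde
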