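import Pool.Agent.Lib.P56acde.Defs

/-! MODULE EvenAn (independent). -/

open Polynomial Set Filter Topology

namespace P56acde

/-- an even analytic function is an analytic function of `x²` -/
theorem even_analytic {v : ℝ → ℝ} (hv : AnalyticAt ℝ v 0) (heven : ∀ᶠ x in 𝓝 (0 : ℝ), v (-x) = v x) :
    ∃ g : ℝ → ℝ, AnalyticAt ℝ g 0 ∧ ∀ᶠ x in 𝓝 (0 : ℝ), v x = g (x ^ 2) := by
  obtain ⟨p, hp⟩ := hv
  have h1 := hasFPowerSeriesAt_iff.1 hp
  -- the series of `v (-x)`
  have hneg : Tendsto (fun x : ℝ => -x) (𝓝 0) (𝓝 0) := by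
    simpa using (continuous_neg (G := ℝ)).tendsto 0
  set p' : FormalMultilinearSeries ℝ ℝ ℝ :=
    FormalMultilinearSeries.ofScalars ℝ (fun n => (-1 : ℝ) ^ n * p.coeff n) with hp'
  have hcoef' : ∀ n, p'.coeff n = (-1 : ℝ) ^ n * p.coeff n := by
    intro n
    rw [hp', FormalMultilinearSeries.coeff_ofScalars]
  have h2 : HasFPowerSeriesAt v p' 0 := by
    rw [hasFPowerSeriesAt_iff]
    filter_upwards [hneg.eventually h1, heven] with x hx hx2
    rw [zero_add] at hx ⊢
    rw [← hx2]
    refine hx.congr_fun ?_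
    intro n
    rw [hcoef', neg_pow]
    simp only [smul_eq_mul]
    ring
  have h3 : p = p' := hp.eq_formalMultilinearSeries h2
  have hodd : ∀ n, p.coeff (2 * n + 1) = 0 := by
    intro n
    have h4 : p.coeff (2 * n + 1) = (-1 : ℝ) ^ (2 * n + 1) * p.coeff (2 * n + 1) := by
      conv_lhs => rw [h3, hcoef']
    have h5 : (-1 : ℝ) ^ (2 * n + 1) = -1 := by
      rw [pow_succ, pow_mul]
      norm_num
    rw [h5] at h4
    linarith
  set q : FormalMultilinearSeries ℝ ℝ ℝ :=
    FormalMultilinearSeries.ofScalars ℝ (fun n => p.coeff (2 * n)) with hq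
  have hqcoef : ∀ n, q.coeff n = p.coeff (2 * n) := by
    intro n
    rw [hq, FormalMultilinearSeries.coeff_ofScalars]
  have hrad : 0 < q.radius := by
    obtain ⟨r, hr0, hr⟩ := ENNReal.lt_iff_exists_nnreal_btwn.1 hp.radius_pos
    have hr0' : 0 < r := by exact_mod_cast hr0
    obtain ⟨C, hC, hb⟩ := p.norm_mul_pow_le_of_lt_radius hr
    have hle : ((r ^ 2 : NNReal) : ENNReal) ≤ q.radius := by
      apply q.le_radius_of_bound C
      intro n
      have h6 := hb (2 * n)
      have h7 : ‖q n‖ = ‖p (2 * n)‖ := by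
        rw [FormalMultilinearSeries.norm_apply_eq_norm_coef,
          FormalMultilinearSeries.norm_apply_eq_norm_coef, hqcoef]
      rw [h7]
      calc ‖p (2 * n)‖ * ((r ^ 2 : NNReal) : ℝ) ^ n = ‖p (2 * n)‖ * (r : ℝ) ^ (2 * n) := by
            push_cast
            rw [pow_mul]
        _ ≤ C := h6
    refine lt_of_lt_of_le ?_ hle
    have : 0 < r ^ 2 := by positivity
    exact_mod_cast this
  have hqs := (q.hasFPowerSeriesOnBall hrad).hasFPowerSeriesAt
  refine ⟨q.sum, ⟨q, hqs⟩, ?_⟩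
  have hsq : Tendsto (fun x : ℝ => x ^ 2) (𝓝 0) (𝓝 0) := by
    have := (continuous_pow 2 (M := ℝ)).tendsto 0
    simpa using this
  filter_upwards [h1, hsq.eventually (hasFPowerSeriesAt_iff.1 hqs)] with x hx hx2
  rw [zero_add] at hx hx2
  have hinj : Function.Injective (fun n : ℕ => 2 * n) := fun a b h => by
    simpa using h
  have h8 : HasSum (fun n : ℕ => (x ^ 2) ^ n • q.coeff n) (v x) := by
    have h9 := (hinj.hasSum_iff (f := fun n => x ^ n • p.coeff n) (a := v x) ?_).2 hx
    · refine h9.congr_fun ?_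
      intro n
      simp only [Function.comp]
      rw [hqcoef, pow_mul]
    · intro n hn
      rcases Nat.even_or_odd' n with ⟨k, hk | hk⟩
      · exact absurd ⟨k, hk.symm⟩ hn
      · rw [hk, hodd, smul_zero]
  exact h8.unique hx2

end P56acde
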