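import Pool.Agent.Lib.P56acde.ConvB

/-! MODULE FinalA (uses `ConvB` incl. `hi_continuous`).
PROOF. `h = hi K`, `T(w) = lo + hi = h(w)-h(-w)`, `T₂(w) = lo * hi = -h(w)h(-w)`; `T(λw)=λT(w)`, `T₂(λw)=λ²T₂(w)` for all real `λ`
(`h(λw) = λ h(w)` for `λ ≥ 0`).  `T(u+sv) = α+βs`, and `T(u+sv) = s T(v+u/s)`, so `T` is linear.
`T₂(u+sv)=α+βs+γs²`, `γ = T₂(v)` in the same way; so `D = T²-4T₂` satisfies `D(u+sv) = D(u) + s β + s² D(v)`, whence it is a
quadratic form (`quad_form`), positive definite (`lo_lt_hi`). -/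

open Polynomial Set

namespace P56acde

/-- a positive definite function which is quadratic on lines is the square of a Euclidean norm -/
theorem quad_form {V : Type} [AddCommGroup V] [Module ℝ V] [FiniteDimensional ℝ V] {n : ℕ}
    (hn : Module.finrank ℝ V = n) (D : V → ℝ) (hpos : ∀ v, v ≠ 0 → 0 < D v)
    (hD : ∀ u v : V, ∃ β : ℝ, ∀ s : ℝ, D (u + s • v) = D u + s * β + s ^ 2 * D v) :
    ∃ L : V ≃ₗ[ℝ] E n, ∀ v, D v = ‖L v‖ ^ 2 := by
  have hD0 : D 0 = 0 := by
    obtain ⟨β, hβ⟩ := hD 0 0
    have h1 := hβ 1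
    have h2 := hβ (-1)
    simp only [smul_zero, add_zero] at h1 h2
    linarith
  -- β explicitly
  have hD' : ∀ (u v : V) (s : ℝ), D (u + s • v) = D u + s * (D (u + v) - D u - D v) + s ^ 2 * D v := by
    intro u v s
    obtain ⟨β, hβ⟩ := hD u v
    have h1 := hβ 1
    rw [one_smul] at h1
    have h2 : β = D (u + v) - D u - D v := by linarith
    rw [← h2]
    exact hβ s
  have hpar : ∀ u v : V, D (u + v) + D (u - v) = 2 * D u + 2 * D v := by
    intro u v
    have h1 := hD' u v (-1)
    rw [neg_one_smul, ← sub_eq_add_neg] at h1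
    rw [h1]
    ring
  have hsmul : ∀ (s : ℝ) (v : V), D (s • v) = s ^ 2 * D v := by
    intro s v
    have h1 := hD' 0 v s
    rw [zero_add, zero_add, hD0] at h1
    rw [h1]
    ring
  set B : V → V → ℝ := fun u v => (D (u + v) - D u - D v) / 2 with hB
  have hBsymm : ∀ u v, B u v = B v u := by
    intro u v
    simp only [hB]
    rw [add_comm u v]
    ring
  have hBsmul : ∀ (s : ℝ) (u v : V), B (s • u) v = s * B u v := by
    intro s u v
    rw [hBsymm, hBsymm u v]
    simp only [hB]
    have h1 := hD' v u s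
    have h2 := hsmul s u
    rw [h1, h2]
    ring
  have hBadd : ∀ (x y z : V), B (x + y) z = B x z + B y z := by
    intro x y z
    simp only [hB]
    have h1 := hpar (x + z) y
    have h2 := hpar x (z - y)
    have h3 := hpar (x + y) z
    have h4 := hpar z y
    have e1 : x + z + y = x + y + z := by abel
    have e2 : x + (z - y) = x + z - y := by abel
    have e3 : x - (z - y) = x + y - z := by abel
    have e4 : z + y = y + z := by abel
    rw [e1] at h1
    rw [e2, e3] at h2
    rw [e4] at h4
    linarith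
  have hBself : ∀ v, B v v = D v := by
    intro v
    simp only [hB]
    have h1 := hsmul 2 v
    rw [two_smul] at h1
    rw [h1]
    ring
  let core : InnerProductSpace.Core ℝ V :=
    { inner := B
      conj_inner_symm := fun x y => by
        simp only [conj_trivial]
        exact hBsymm y x
      re_inner_nonneg := fun x => by
        show 0 ≤ RCLike.re (B x x)
        rw [hBself]
        by_cases hx : x = 0
        · rw [hx, hD0]
          simp
        · exact (hpos x hx).le
      add_left := hBadd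
      smul_left := fun x y r => by
        simp only [conj_trivial]
        exact hBsmul r x y
      definite := fun x hx => by
        by_contra hne
        have h1 := hpos x hne
        have h2 : B x x = 0 := hx
        rw [hBself] at h2
        linarith }
  letI : NormedAddCommGroup V := core.toNormedAddCommGroup
  letI : InnerProductSpace ℝ V := InnerProductSpace.ofCore core.toCore
  subst hn
  refine ⟨(stdOrthonormalBasis ℝ V).repr.toLinearEquiv, fun v => ?_⟩
  have h1 : ‖(stdOrthonormalBasis ℝ V).repr v‖ = ‖v‖ := LinearIsometryEquiv.norm_map _ v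
  have h2 : (inner ℝ v v : ℝ) = ‖v‖ ^ 2 := real_inner_self_eq_norm_sq v
  have h3 : (inner ℝ v v : ℝ) = B v v := rfl
  rw [LinearIsometryEquiv.coe_toLinearEquiv, h1, ← h2, h3, hBself]

theorem lo_neg' {n : ℕ} (K : Set (E n)) (w : E n) : lo K (-w) = - hi K w := by
  unfold lo
  rw [neg_neg]

theorem hi_neg' {n : ℕ} (K : Set (E n)) (w : E n) : hi K (-w) = - lo K w := by
  unfold lo
  rw [neg_neg]

theorem lo_smul {n : ℕ} (K : Set (E n)) {c : ℝ} (hc : 0 ≤ c) (w : E n) :
    lo K (c • w) = c * lo K w := by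
  unfold lo
  rw [← smul_neg, hi_smul K hc]
  ring

theorem finalA {n : ℕ} {K : Set (E n)} (hK : IsCompact K)
    (hint : (interior K).Nonempty)
    (h1 : ∀ u v : E n, ∃ q : ℝ[X], q.natDegree ≤ 1 ∧
      ∀ s : ℝ, lo K (u + s • v) + hi K (u + s • v) = q.eval s)
    (h2 : ∀ u v : E n, ∃ q : ℝ[X], q.natDegree ≤ 2 ∧
      ∀ s : ℝ, lo K (u + s • v) * hi K (u + s • v) = q.eval s) :
    ∃ (c : E n) (L : E n ≃ₗ[ℝ] E n), ∀ w, hi K w = inner ℝ c w + ‖L w‖ := by
  set T : E n → ℝ := fun w => lo K w + hi K w with hT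
  set T2 : E n → ℝ := fun w => lo K w * hi K w with hT2
  have h1' : ∀ u v : E n, ∃ a b : ℝ, ∀ s : ℝ, T (u + s • v) = a + b * s := by
    intro u v
    obtain ⟨q, hq, h⟩ := h1 u v
    refine ⟨q.coeff 0, q.coeff 1, fun s => ?_⟩
    rw [hT]
    simp only
    rw [h s, eval_eq_sum_range' (n := 2) (by omega)]
    simp [Finset.sum_range_succ]
  have h2' : ∀ u v : E n, ∃ a b c : ℝ, ∀ s : ℝ, T2 (u + s • v) = a + b * s + c * s ^ 2 := by
    intro u v
    obtain ⟨q, hq, h⟩ := h2 u v
    refine ⟨q.coeff 0, q.coeff 1, q.coeff 2, fun s => ?_⟩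
    rw [hT2]
    simp only
    rw [h s, eval_eq_sum_range' (n := 3) (by omega)]
    simp [Finset.sum_range_succ]
  have hTneg : ∀ w, T (-w) = - T w := by
    intro w
    simp only [hT, lo_neg', hi_neg']
    ring
  have hTsmul : ∀ (s : ℝ) (w : E n), T (s • w) = s * T w := by
    intro s w
    obtain ⟨a, b, hab⟩ := h1' 0 w
    have e0 := hab 0
    have e1 := hab 1
    have es := hab s
    have en := hab (-1)
    simp only [zero_add, zero_smul, one_smul, neg_smul] at e0 e1 es en
    rw [hTneg] at en
    rw [es]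
    have : a = 0 := by linarith
    have : b = T w := by linarith
    subst this
    linarith
  have hTadd : ∀ u v : E n, T (u + v) = T u + T v := by
    intro u v
    obtain ⟨a, b, hab⟩ := h1' u v
    obtain ⟨a', b', hab'⟩ := h1' v u
    have e1 := hab 1
    have e2 := hab 2
    have e0 := hab 0
    have f1 := hab' 1
    have f2 := hab' (1 / 2)
    have f0 := hab' 0
    simp only [one_smul, zero_smul, add_zero] at e1 e0 f1 f0
    have g : T (u + (2 : ℝ) • v) = 2 * T (v + (1 / 2 : ℝ) • u) := by
      rw [← hTsmul]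
      congr 1
      rw [smul_add, smul_smul]
      norm_num
      abel
    rw [add_comm v u] at f1
    linarith
  have hT2neg : ∀ w, T2 (-w) = T2 w := by
    intro w
    simp only [hT2, lo_neg', hi_neg']
    ring
  have hT2smul : ∀ (s : ℝ) (w : E n), T2 (s • w) = s ^ 2 * T2 w := by
    intro s w
    rcases le_total 0 s with hs | hs
    · simp only [hT2]
      rw [hi_smul K hs, lo_smul K hs]
      ring
    · have : T2 (s • w) = T2 ((-s) • w) := by
        rw [neg_smul, hT2neg]
      rw [this]
      simp only [hT2]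
      rw [hi_smul K (by linarith : 0 ≤ -s), lo_smul K (by linarith : 0 ≤ -s)]
      ring
  have hT2line : ∀ u v : E n, ∃ b : ℝ, ∀ s : ℝ, T2 (u + s • v) = T2 u + b * s + T2 v * s ^ 2 := by
    intro u v
    obtain ⟨a, b, c, hab⟩ := h2' u v
    obtain ⟨a', b', c', hab'⟩ := h2' v u
    have key : ∀ s : ℝ, s ≠ 0 → T2 (u + s • v) = s ^ 2 * T2 (v + (1 / s) • u) := by
      intro s hs
      rw [← hT2smul]
      congr 1
      rw [smul_add, smul_smul, mul_one_div_cancel hs, one_smul]
      abel
    have k1 := key 1 one_ne_zero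
    have k2 := key (-1) (by norm_num)
    have k3 := key 2 two_ne_zero
    rw [hab, hab'] at k1 k2 k3
    have e0 := hab 0
    have f0 := hab' 0
    simp only [zero_smul, add_zero] at e0 f0
    refine ⟨b, fun s => ?_⟩
    rw [hab s]
    have h3 : a = T2 u := by linarith
    have h4 : c = T2 v := by
      have : a' = T2 v := by linarith
      linarith
    rw [h3, h4]
  have hD : ∀ u v : E n, ∃ β : ℝ, ∀ s : ℝ,
      ((hi K (u + s • v) - lo K (u + s • v)) / 2) ^ 2 =
        ((hi K u - lo K u) / 2) ^ 2 + s * β + s ^ 2 * ((hi K v - lo K v) / 2) ^ 2 := by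
    intro u v
    obtain ⟨b, hb⟩ := hT2line u v
    refine ⟨T u * T v / 2 - b, fun s => ?_⟩
    have e1 : T (u + s • v) = T u + s * T v := by rw [hTadd, hTsmul]
    have e2 := hb s
    have e3 : ∀ w, ((hi K w - lo K w) / 2) ^ 2 = (T w) ^ 2 / 4 - T2 w := by
      intro w
      simp only [hT, hT2]
      ring
    rw [e3, e3, e3, e1, e2]
    ring
  obtain ⟨L, hL⟩ := quad_form (V := E n) (n := n) (by simp)
    (fun w => ((hi K w - lo K w) / 2) ^ 2)
    (fun w hw => by
      have := lo_lt_hi hK hint hw
      have : 0 < (hi K w - lo K w) / 2 := by linarith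
      positivity) hD
  -- the linear part
  let Tl : E n →ₗ[ℝ] ℝ :=
    { toFun := fun w => T w / 2
      map_add' := fun u v => by rw [hTadd]; ring
      map_smul' := fun s u => by
        rw [hTsmul]
        simp only [RingHom.id_apply, smul_eq_mul]
        ring }
  refine ⟨(InnerProductSpace.toDual ℝ (E n)).symm (LinearMap.toContinuousLinearMap Tl), L,
    fun w => ?_⟩
  rw [InnerProductSpace.toDual_symm_apply]
  have e1 : (LinearMap.toContinuousLinearMap Tl) w = T w / 2 := rfl
  rw [e1]
  have e2 := hL w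
  have e3 : 0 ≤ (hi K w - lo K w) / 2 := by
    by_cases hw : w = 0
    · subst hw
      have h5 : hi K (0 : E n) = 0 := by
        have := hi_smul K (le_refl (0 : ℝ)) (0 : E n)
        rwa [zero_smul, zero_mul] at this
      have h6 : lo K (0 : E n) = 0 := by
        have := lo_smul K (le_refl (0 : ℝ)) (0 : E n)
        rwa [zero_smul, zero_mul] at this
      rw [h5, h6]
      simp
    · have := lo_lt_hi hK hint hw
      linarith
  have e4 : (hi K w - lo K w) / 2 = ‖L w‖ := by
    have := sq_eq_sq₀ e3 (norm_nonneg (L w))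
    exact this.mp e2
  rw [← e4]
  simp only [hT]
  ring

end P56acde
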