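import Pool.Agent.Lib.P56acde.ConvB

/-! MODULE FinalB (may use `ConvB`).
PROOF. `K = {x : ∀ w, ⟨x,w⟩ ≤ hi K w}` (Hahn-Banach separation of a point from a closed convex set; Riesz). With `hi K w = ⟨c,w⟩+‖L w‖`:
`x ∈ K ↔ ∀ w, ⟨x-c,w⟩ ≤ ‖L w‖ ↔ x - c ∈ Lᵀ(closedBall 0 1)`: if `x - c = Lᵀ z` then `⟨x-c,w⟩ = ⟨z, L w⟩ ≤ ‖L w‖`; conversely put
`z = (Lᵀ)⁻¹(x-c)`, `⟨z, L w⟩ ≤ ‖L w‖` for all `w`, take `L w = z`. -/

open Polynomial Set

namespace P56acde

theorem finalB {n : ℕ} {K : Set (E n)} (hK : IsCompact K) (hc : Convex ℝ K) (hne : K.Nonempty)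
    (c : E n) (L : E n ≃ₗ[ℝ] E n) (h : ∀ w, hi K w = inner ℝ c w + ‖L w‖) :
    IsEllipsoid K := by
  have hmem : ∀ x : E n, x ∈ K ↔ ∀ w, (inner ℝ x w : ℝ) ≤ hi K w := by
    intro x
    refine ⟨fun hx w => le_hi hK hx w, fun hx => ?_⟩
    by_contra hxK
    obtain ⟨f, u, hf1, hf2⟩ := geometric_hahn_banach_closed_point hc hK.isClosed hxK
    obtain ⟨w, hw⟩ : ∃ w : E n, ∀ y, f y = inner ℝ y w :=
      ⟨(InnerProductSpace.toDual ℝ (E n)).symm f, fun y => by
        rw [real_inner_comm]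
        exact (InnerProductSpace.toDual_symm_apply).symm⟩
    obtain ⟨p, hp, hpe⟩ := exists_hi hK hne w
    have h1 := hf1 p hp
    have h2 := hx w
    rw [hw] at h1 hf2
    linarith
  set M : E n →ₗ[ℝ] E n := LinearMap.adjoint (L : E n →ₗ[ℝ] E n) with hM
  set M' : E n →ₗ[ℝ] E n := LinearMap.adjoint (L.symm : E n →ₗ[ℝ] E n) with hM'
  have h12 : M ∘ₗ M' = LinearMap.id := by
    rw [hM, hM', ← LinearMap.adjoint_comp]
    simp
  have h21 : M' ∘ₗ M = LinearMap.id := by
    rw [hM, hM', ← LinearMap.adjoint_comp]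
    simp
  refine ⟨LinearEquiv.ofLinear M M' h12 h21, c, ?_⟩
  ext x
  rw [hmem]
  constructor
  · intro hx
    refine ⟨M' (x - c), ?_, ?_⟩
    · rw [mem_closedBall_zero_iff]
      set z := M' (x - c) with hz
      have e1 : M z = x - c := by
        rw [hz]
        exact LinearMap.congr_fun h12 (x - c)
      have e2 := hx (L.symm z)
      rw [h] at e2
      have e3 : (inner ℝ z z : ℝ) ≤ ‖z‖ := by
        have e4 : (inner ℝ (M z) (L.symm z) : ℝ) = inner ℝ z z := by
          rw [hM, LinearMap.adjoint_inner_left]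
          simp
        rw [e1, inner_sub_left] at e4
        simp only [LinearEquiv.apply_symm_apply] at e2
        linarith
      rw [real_inner_self_eq_norm_sq] at e3
      by_contra hcon
      push Not at hcon
      nlinarith
    · simp only [LinearEquiv.ofLinear_apply]
      have e1 : M (M' (x - c)) = x - c := LinearMap.congr_fun h12 (x - c)
      rw [e1]
      abel
  · rintro ⟨z, hz, rfl⟩ w
    rw [mem_closedBall_zero_iff] at hz
    simp only [LinearEquiv.ofLinear_apply]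
    rw [h, inner_add_left, hM, LinearMap.adjoint_inner_left]
    have := real_inner_le_norm z (L w)
    have h3 : ‖z‖ * ‖L w‖ ≤ 1 * ‖L w‖ := mul_le_mul_of_nonneg_right hz (norm_nonneg _)
    simp only [LinearEquiv.coe_coe]
    linarith

end P56acde
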