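import Pool.Agent.Lib.P56acde.Defs

/-! MODULE GaugeSm (smooth dependence of the gauge of a family of convex sets; independent).
PROOF. Near `(Y₀, δ₀, 1)` consider `Φ(y,δ,r) = ρ(y/r, δ)`; `∂_r Φ = - Dρ(Y₀,δ₀)(Y₀,0) < 0` there.  By the inverse function theorem applied to
`(y,δ,r) ↦ (y,δ,Φ)` (`ContDiffAt.toOpenPartialHomeomorph`, `ContDiffAt.to_localInverse`) there is `R(y,δ)`, `C^∞` at `(Y₀,δ₀)`, `R(Y₀,δ₀)=1`, with, for
`(y,δ,r)` near `(Y₀,δ₀,1)`:  `y/r ∈ S δ ↔ ρ(y/r,δ) ≤ 0 ↔ r ≥ R(y,δ)`.  As `{r > 0 : y/r ∈ S δ}` is upward closed (convex, `0 ∈ S δ`),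
`gauge (S δ) y = R(y,δ)` near `(Y₀,δ₀)`. -/

open Set Filter Topology Pointwise

namespace P56acde

/-- Implicit function: if `φ` is `C^∞` at `(q₀, r₀)`, vanishes there and `∂_r φ ≠ 0`, then `φ(q, R q) = 0` for a
`C^∞` function `R`. -/
theorem gs_implicit {E' : Type} [NormedAddCommGroup E'] [NormedSpace ℝ E'] [CompleteSpace E']
    (φ : E' × ℝ → ℝ) (q₀ : E') (r₀ : ℝ) (hφ : ContDiffAt ℝ (⊤ : ℕ∞) φ (q₀, r₀))
    (h0 : φ (q₀, r₀) = 0) (hd : fderiv ℝ φ (q₀, r₀) (0, 1) ≠ 0) :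
    ∃ R : E' → ℝ, ContDiffAt ℝ (⊤ : ℕ∞) R q₀ ∧ R q₀ = r₀ ∧ ∀ᶠ q in 𝓝 q₀, φ (q, R q) = 0 := by
  set L := fderiv ℝ φ (q₀, r₀) with hL
  set c : ℝ := L (0, 1) with hc
  have hLs : ∀ (v : E') (s : ℝ), L (v, s) = L (v, 0) + s * c := by
    intro v s
    have : ((v, s) : E' × ℝ) = (v, 0) + s • ((0 : E'), (1 : ℝ)) := by
      ext <;> simp
    rw [this, map_add, map_smul, smul_eq_mul]
  -- the map `G`
  let G : E' × ℝ → E' × ℝ := fun p => (p.1, φ p)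
  have hG : ContDiffAt ℝ (⊤ : ℕ∞) G (q₀, r₀) := contDiffAt_fst.prodMk hφ
  let fwd : (E' × ℝ) →L[ℝ] (E' × ℝ) := (ContinuousLinearMap.fst ℝ E' ℝ).prod L
  let bwd : (E' × ℝ) →L[ℝ] (E' × ℝ) :=
    (ContinuousLinearMap.fst ℝ E' ℝ).prod
      (c⁻¹ • (ContinuousLinearMap.snd ℝ E' ℝ - L.comp ((ContinuousLinearMap.fst ℝ E' ℝ).prod 0)))
  have hfb : ∀ p, bwd (fwd p) = p := by
    rintro ⟨v, s⟩
    have h1 := hLs v s
    simp only [fwd, bwd, ContinuousLinearMap.prod_apply, ContinuousLinearMap.coe_fst',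
      ContinuousLinearMap.smul_apply, ContinuousLinearMap.sub_apply, ContinuousLinearMap.coe_snd',
      ContinuousLinearMap.comp_apply, ContinuousLinearMap.zero_apply, h1, smul_eq_mul]
    ext
    · rfl
    · simp only []
      field_simp
      ring
  have hbf : ∀ p, fwd (bwd p) = p := by
    rintro ⟨v, s⟩
    simp only [fwd, bwd, ContinuousLinearMap.prod_apply, ContinuousLinearMap.coe_fst',
      ContinuousLinearMap.smul_apply, ContinuousLinearMap.sub_apply, ContinuousLinearMap.coe_snd',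
      ContinuousLinearMap.comp_apply, ContinuousLinearMap.zero_apply, smul_eq_mul]
    rw [hLs v (c⁻¹ * (s - L (v, 0)))]
    ext
    · rfl
    · simp only []
      field_simp
      ring
  let e : (E' × ℝ) ≃L[ℝ] (E' × ℝ) := ContinuousLinearEquiv.equivOfInverse fwd bwd hfb hbf
  have hGd : HasFDerivAt G (e : (E' × ℝ) →L[ℝ] (E' × ℝ)) (q₀, r₀) := by
    have h1 : HasFDerivAt φ L (q₀, r₀) := (hφ.differentiableAt (by simp)).hasFDerivAt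
    have h2 : HasFDerivAt (fun p : E' × ℝ => p.1) (ContinuousLinearMap.fst ℝ E' ℝ) (q₀, r₀) :=
      hasFDerivAt_fst
    exact h2.prodMk h1
  have hn : ((⊤ : ℕ∞) : WithTop ℕ∞) ≠ 0 := by simp
  have hsd : HasStrictFDerivAt G (e : (E' × ℝ) →L[ℝ] (E' × ℝ)) (q₀, r₀) :=
    hG.hasStrictFDerivAt' hGd hn
  set H := hG.localInverse hGd hn with hH
  have hHc : ContDiffAt ℝ (⊤ : ℕ∞) H (G (q₀, r₀)) := hG.to_localInverse hGd hn
  have hG0 : G (q₀, r₀) = (q₀, 0) := by simp [G, h0]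
  have hHimg : H (G (q₀, r₀)) = (q₀, r₀) := hG.localInverse_apply_image hGd hn
  have hright : ∀ᶠ z in 𝓝 (G (q₀, r₀)), G (H z) = z := by
    have := hsd.eventually_right_inverse
    exact this
  refine ⟨fun q => (H (q, 0)).2, ?_, ?_, ?_⟩
  · have h1 : ContDiffAt ℝ (⊤ : ℕ∞) (fun q : E' => ((q, (0 : ℝ)) : E' × ℝ)) q₀ :=
      contDiffAt_id.prodMk contDiffAt_const
    have h2 : ContDiffAt ℝ (⊤ : ℕ∞) H ((fun q : E' => ((q, (0 : ℝ)) : E' × ℝ)) q₀) := by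
      simpa [hG0] using hHc
    exact (h2.comp q₀ h1).snd
  · simp only []
    rw [← hG0, hHimg]
  · rw [hG0] at hright
    have h1 : Tendsto (fun q : E' => ((q, (0 : ℝ)) : E' × ℝ)) (𝓝 q₀) (𝓝 (q₀, 0)) :=
      (Continuous.prodMk_left (0 : ℝ)).tendsto q₀
    filter_upwards [h1.eventually hright] with q hq
    have h2 : (H (q, 0)).1 = q := congrArg Prod.fst hq
    have h3 : φ (H (q, 0)) = 0 := congrArg Prod.snd hq
    have h4 : ((q, (H (q, 0)).2) : E' × ℝ) = H (q, 0) := by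
      ext
      · exact h2.symm
      · rfl
    rw [h4]
    exact h3

/-- Sign of `φ(q,r)` near a zero with `∂_r φ < 0`. -/
theorem gs_sign {E' : Type} [NormedAddCommGroup E'] [NormedSpace ℝ E']
    (φ : E' × ℝ → ℝ) (q₀ : E') (r₀ : ℝ) (hφ : ContDiffAt ℝ (⊤ : ℕ∞) φ (q₀, r₀))
    (hd : fderiv ℝ φ (q₀, r₀) (0, 1) < 0) :
    ∃ ε > 0, ∀ᶠ q in 𝓝 q₀, ∀ r ∈ Ioo (r₀ - ε) (r₀ + ε), ∀ r' ∈ Ioo (r₀ - ε) (r₀ + ε), r < r' →
      φ (q, r') < φ (q, r) := by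
  set L := fderiv ℝ φ (q₀, r₀) with hL
  set c : ℝ := - L (0, 1) with hc
  have hcpos : 0 < c := by simp only [hc]; linarith
  have hs : HasStrictFDerivAt φ L (q₀, r₀) := hφ.hasStrictFDerivAt (by simp)
  have h1 := hs.isLittleO.def (half_pos hcpos)
  rw [nhds_prod_eq] at h1
  obtain ⟨t, ht, h2'⟩ := Filter.mem_prod_same_iff.1 h1
  have h2 : ∀ x ∈ t, ∀ y ∈ t, ‖φ x - φ y - L (x - y)‖ ≤ c / 2 * ‖x - y‖ :=
    fun x hx y hy => h2' (Set.mk_mem_prod hx hy)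
  rw [nhds_prod_eq, Filter.mem_prod_iff] at ht
  obtain ⟨U, hU, W, hW, hUW⟩ := ht
  obtain ⟨ε, hε, hW'⟩ := Metric.mem_nhds_iff.1 hW
  refine ⟨ε, hε, ?_⟩
  filter_upwards [hU] with q hq r hr r' hr' hrr
  have m1 : ((q, r) : E' × ℝ) ∈ t := hUW ⟨hq, hW' (by rw [Real.ball_eq_Ioo]; exact hr)⟩
  have m2 : ((q, r') : E' × ℝ) ∈ t := hUW ⟨hq, hW' (by rw [Real.ball_eq_Ioo]; exact hr')⟩
  have h3 := h2 _ m2 _ m1
  have h4 : ((q, r') : E' × ℝ) - (q, r) = (r' - r) • ((0 : E'), (1 : ℝ)) := by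
    ext <;> simp
  rw [h4, map_smul, smul_eq_mul] at h3
  have h5 : ‖(r' - r) • ((0 : E'), (1 : ℝ))‖ = r' - r := by
    rw [norm_smul]
    simp [Prod.norm_def, abs_of_pos (sub_pos.2 hrr)]
  rw [h5, Real.norm_eq_abs] at h3
  have h6 := (abs_le.1 h3).2
  have h7 : L (0, 1) = - c := by simp [hc]
  rw [h7] at h6
  nlinarith [mul_pos hcpos (sub_pos.2 hrr)]

theorem gauge_smooth {F : Type} [NormedAddCommGroup F] [NormedSpace ℝ F] [FiniteDimensional ℝ F]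
    (S : ℝ → Set F) (δ₀ a : ℝ) (ha : 0 < a)
    (hconv : ∀ᶠ δ in 𝓝 δ₀, Convex ℝ (S δ) ∧ Metric.closedBall (0 : F) a ⊆ S δ)
    {Y₀ : F} (hY : Y₀ ≠ 0) (ρ : F × ℝ → ℝ) (hρ : ContDiffAt ℝ (⊤ : ℕ∞) ρ (Y₀, δ₀))
    (h0 : ρ (Y₀, δ₀) = 0) (hd : 0 < fderiv ℝ ρ (Y₀, δ₀) (Y₀, 0))
    (hloc : ∀ᶠ q in 𝓝 (Y₀, δ₀), (q.1 ∈ S q.2 ↔ ρ q ≤ 0)) :
    ContDiffAt ℝ (⊤ : ℕ∞) (fun q : F × ℝ => gauge (S q.2) q.1) (Y₀, δ₀) := by
  have : CompleteSpace F := FiniteDimensional.complete ℝ F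
  -- the scaling map
  let T : (F × ℝ) × ℝ → F × ℝ := fun p => (p.2⁻¹ • p.1.1, p.1.2)
  have hT0 : T ((Y₀, δ₀), 1) = (Y₀, δ₀) := by simp [T]
  have hTc : ContDiffAt ℝ (⊤ : ℕ∞) T ((Y₀, δ₀), 1) := by
    refine ContDiffAt.prodMk (ContDiffAt.smul ?_ ?_) ?_
    · exact (contDiffAt_snd (p := ((Y₀, δ₀), (1:ℝ)))).inv (by simp)
    · exact contDiffAt_fst.fst
    · exact contDiffAt_fst.snd
  let φ : (F × ℝ) × ℝ → ℝ := fun p => ρ (T p)
  have hφ : ContDiffAt ℝ (⊤ : ℕ∞) φ ((Y₀, δ₀), 1) := by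
    have : ContDiffAt ℝ (⊤ : ℕ∞) ρ (T ((Y₀, δ₀), 1)) := by rw [hT0]; exact hρ
    exact this.comp _ hTc
  have hφ0 : φ ((Y₀, δ₀), 1) = 0 := by simp only [φ, hT0, h0]
  have hφd : fderiv ℝ φ ((Y₀, δ₀), 1) (0, 1) = - fderiv ℝ ρ (Y₀, δ₀) (Y₀, 0) := by
    -- derivative along the curve `r ↦ ((Y₀, δ₀), 1 + r)`
    have hφD : HasFDerivAt φ (fderiv ℝ φ ((Y₀, δ₀), 1)) ((Y₀, δ₀), 1) :=
      (hφ.differentiableAt (by simp)).hasFDerivAt
    have hρD : HasFDerivAt ρ (fderiv ℝ ρ (Y₀, δ₀)) (Y₀, δ₀) :=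
      (hρ.differentiableAt (by simp)).hasFDerivAt
    have c1 : HasDerivAt (fun r : ℝ => (((Y₀, δ₀), r) : (F × ℝ) × ℝ)) (0, 1) 1 :=
      (hasDerivAt_const (1 : ℝ) (Y₀, δ₀)).prodMk (hasDerivAt_id (1 : ℝ))
    have d1 : HasDerivAt (fun r : ℝ => φ ((Y₀, δ₀), r)) (fderiv ℝ φ ((Y₀, δ₀), 1) (0, 1)) 1 :=
      HasFDerivAt.comp_hasDerivAt (f := fun r : ℝ => (((Y₀, δ₀), r) : (F × ℝ) × ℝ)) (1 : ℝ) hφD c1
    have c2 : HasDerivAt (fun r : ℝ => ((r⁻¹ • Y₀, δ₀) : F × ℝ)) (-Y₀, 0) 1 := by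
      have hi : HasDerivAt (fun r : ℝ => r⁻¹ • Y₀) (-Y₀) 1 := by
        have := (hasDerivAt_inv (one_ne_zero : (1 : ℝ) ≠ 0)).smul_const Y₀
        simpa using this
      exact hi.prodMk (hasDerivAt_const (1 : ℝ) δ₀)
    have hρD' : HasFDerivAt ρ (fderiv ℝ ρ (Y₀, δ₀)) ((fun r : ℝ => ((r⁻¹ • Y₀, δ₀) : F × ℝ)) 1) := by
      simpa using hρD
    have d2 : HasDerivAt (fun r : ℝ => ρ (r⁻¹ • Y₀, δ₀)) (fderiv ℝ ρ (Y₀, δ₀) (-Y₀, 0)) 1 :=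
      HasFDerivAt.comp_hasDerivAt (f := fun r : ℝ => ((r⁻¹ • Y₀, δ₀) : F × ℝ)) (1 : ℝ) hρD' c2
    have e1 := d1.unique d2
    rw [e1]
    have : ((-Y₀, 0) : F × ℝ) = - (Y₀, 0) := by ext <;> simp
    rw [this, map_neg]
  have hneg : fderiv ℝ φ ((Y₀, δ₀), 1) (0, 1) < 0 := by rw [hφd]; linarith
  obtain ⟨R, hR, hR1, hRz⟩ := gs_implicit φ (Y₀, δ₀) 1 hφ hφ0 hneg.ne
  obtain ⟨ε, hε, hsgn⟩ := gs_sign φ (Y₀, δ₀) 1 hφ hneg
  -- `hloc` transported by `T`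
  have hloc' : ∀ᶠ p in 𝓝 (((Y₀, δ₀), 1) : (F × ℝ) × ℝ), ((T p).1 ∈ S (T p).2 ↔ ρ (T p) ≤ 0) := by
    have : Tendsto T (𝓝 ((Y₀, δ₀), 1)) (𝓝 (Y₀, δ₀)) := by
      have := hTc.continuousAt.tendsto
      rwa [hT0] at this
    exact this.eventually hloc
  rw [nhds_prod_eq] at hloc'
  obtain ⟨U, hU, W, hW, hUW⟩ := Filter.eventually_prod_iff.1 hloc'
  obtain ⟨η, hη, hW'⟩ := Metric.eventually_nhds_iff_ball.1 hW
  set κ := min (min ε η) 1 with hκ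
  have hκ0 : 0 < κ := by simp [hκ, hε, hη]
  have hRnear : ∀ᶠ q in 𝓝 (Y₀, δ₀), R q ∈ Ioo (1 - κ) (1 + κ) := by
    have h1 : Tendsto R (𝓝 (Y₀, δ₀)) (𝓝 1) := by
      have := hR.continuousAt.tendsto
      rwa [hR1] at this
    exact h1.eventually (Ioo_mem_nhds (by linarith) (by linarith))
  have hconv' : ∀ᶠ q : F × ℝ in 𝓝 (Y₀, δ₀), Convex ℝ (S q.2) ∧ Metric.closedBall (0 : F) a ⊆ S q.2 :=
    (continuous_snd.tendsto (Y₀, δ₀)).eventually hconv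
  have key : (fun q : F × ℝ => gauge (S q.2) q.1) =ᶠ[𝓝 (Y₀, δ₀)] R := by
    filter_upwards [hRz, hsgn, hU, hRnear, hconv'] with q hq1 hq2 hq3 hq4 hq5
    obtain ⟨hcv, hball⟩ := hq5
    have h0S : (0 : F) ∈ S q.2 := hball (Metric.mem_closedBall_self ha.le)
    have habs : Absorbent ℝ (S q.2) :=
      absorbent_nhds_zero (Filter.mem_of_superset (Metric.closedBall_mem_nhds 0 ha) hball)
    have hκε : κ ≤ ε := (min_le_left _ _).trans (min_le_left _ _)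
    have hκη : κ ≤ η := (min_le_left _ _).trans (min_le_right _ _)
    have hκ1 : κ ≤ 1 := min_le_right _ _
    -- membership criterion
    have hmem : ∀ r ∈ Ioo (1 - κ) (1 + κ), (q.1 ∈ r • S q.2 ↔ φ (q, r) ≤ 0) := by
      intro r hr
      have hr0 : 0 < r := by linarith [hr.1]
      have := hUW hq3 (hW' r (by rw [Real.ball_eq_Ioo]; exact ⟨by linarith [hr.1], by linarith [hr.2]⟩))
      rw [Set.mem_smul_set_iff_inv_smul_mem₀ hr0.ne']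
      exact this
    have hRpos : 0 < R q := by linarith [hq4.1]
    apply le_antisymm
    · refine gauge_le_of_mem hRpos.le ?_
      rw [hmem _ hq4, hq1]
    · by_contra hlt
      push Not at hlt
      obtain ⟨r, hr1, hr2⟩ : ∃ r, max (gauge (S q.2) q.1) (1 - κ) < r ∧ r < R q :=
        exists_between (max_lt hlt hq4.1)
      have hr3 : gauge (S q.2) q.1 < r := (le_max_left _ _).trans_lt hr1
      have hr4 : 1 - κ < r := (le_max_right _ _).trans_lt hr1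
      have hr5 : r < 1 + κ := hr2.trans hq4.2
      obtain ⟨b, hb0, hb1, hb2⟩ := exists_lt_of_gauge_lt habs hr3
      have hr0 : 0 < r := hb0.trans hb1
      have hmr : q.1 ∈ r • S q.2 := by
        obtain ⟨z, hz, hzq⟩ := hb2
        refine ⟨(b / r) • z, ?_, ?_⟩
        · exact hcv.smul_mem_of_zero_mem h0S hz ⟨by positivity, by rw [div_le_one hr0]; exact hb1.le⟩
        · simp only [] at hzq ⊢
          rw [← hzq, smul_smul]
          congr 1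
          field_simp
      rw [hmem r ⟨hr4, hr5⟩] at hmr
      have := hq2 r ⟨by linarith, by linarith⟩ (R q) ⟨by linarith [hq4.1], by linarith [hq4.2]⟩ hr2
      rw [hq1] at this
      linarith
  exact hR.congr_of_eventuallyEq key

end P56acde
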