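import Pool.Agent.Lib.P56acde.AutExt

/-! MODULE Gen (uses `AutExt`).
PROOF. `k₀` = subfield of `ℂ` generated by all coefficients of all `m k`: countable. `S' = {s ∈ S : s transcendental over k₀}` is dense by `hS`.
Fix `s₀ ∈ S'`. Any `σ` fixing `k₀(s₀)` fixes all `(m k)(s₀)`, so by `h1` (with `s = s' = s₀`) fixes `T s₀`; by `mem_of_fixed`,
`T s₀ ∈ k₀(s₀)`: `T s₀ = P(s₀)/Q(s₀)` with coprime `P, Q ∈ k₀[X]`. For `s' ∈ S'` take `σ` with `σ|k₀ = id`, `σ s₀ = s'`
(`aut_transcendental`): `T s' = σ (T s₀) = P(s')/Q(s')`. For complex `s'` transcendental over `k₀`, `h2` gives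
`‖P(s')‖ ≤ C (1+‖s'‖)^e ‖Q(s')‖`; transcendental numbers are dense in `ℂ`, so this holds for all `s' ∈ ℂ`.
`Q` has no root (coprimality), so `Q` is constant, and `P` has degree `≤ e` by growth. `T = P/Q` on `S'`, dense, `T` continuous;
the polynomial has real coefficients because it is real on a dense set of reals. -/

open Polynomial

namespace P56acde

/-- polynomial growth bounds the degree. -/
theorem natDegree_le_of_bound (q : ℝ[X]) (e : ℕ) (C : ℝ)
    (h : ∀ s : ℝ, |q.eval s| ≤ C * (1 + |s|) ^ e) : q.natDegree ≤ e := by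
  by_contra hlt
  rw [not_le] at hlt
  have hQ : ((1 + X : ℝ[X]) ^ e) ≠ 0 := by
    apply pow_ne_zero
    intro h0
    have := congrArg (eval 0) h0
    simp at this
  have hdegQ : ((1 + X : ℝ[X]) ^ e).natDegree ≤ e := by
    refine (natDegree_pow_le).trans ?_
    have : (1 + X : ℝ[X]).natDegree ≤ 1 := by
      refine (natDegree_add_le _ _).trans ?_
      simp
    calc e * (1 + X : ℝ[X]).natDegree ≤ e * 1 := Nat.mul_le_mul_left e this
      _ = e := mul_one e
  have hdeg : ((1 + X : ℝ[X]) ^ e).degree < q.degree :=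
    degree_lt_degree (lt_of_le_of_lt hdegQ hlt)
  have hlim := abs_div_tendsto_atTop_atTop_of_degree_gt q ((1 + X : ℝ[X]) ^ e) hdeg hQ
  obtain ⟨s, hs1, hs2⟩ := ((hlim.eventually_gt_atTop C).and (Filter.eventually_ge_atTop 0)).exists
  have hpos : 0 < (1 + s) ^ e := by positivity
  have h1 := h s
  rw [abs_of_nonneg hs2] at h1
  rw [eval_pow, eval_add, eval_one, eval_X, abs_div, abs_of_pos hpos, lt_div_iff₀ hpos] at hs1
  linarith

theorem sigma_eval (k : Subfield ℂ) (σ : ℂ ≃+* ℂ) (hσ : ∀ x ∈ k, σ x = x) (p : k[X]) (z : ℂ) :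
    σ (aeval z p) = aeval (σ z) p := by
  have h1 : (aeval z p : ℂ) = eval₂ (algebraMap k ℂ) z p := rfl
  have h2 : (aeval (σ z) p : ℂ) = eval₂ (algebraMap k ℂ) (σ z) p := rfl
  have h3 : ((σ : ℂ →+* ℂ).comp (algebraMap k ℂ)) = algebraMap k ℂ := by
    ext x
    exact hσ x x.2
  rw [h1, h2]
  have h4 := hom_eval₂ p (algebraMap k ℂ) (σ : ℂ →+* ℂ) z
  rw [h3] at h4
  exact h4

theorem gen (m : ℕ → ℝ[X]) (S : Set ℝ) (hS : ∀ N : Set ℝ, N.Countable → Dense (S \ N))
    (T : ℝ → ℝ) (hT : Continuous T) (e : ℕ) (C : ℝ)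
    (h1 : ∀ s ∈ S, ∀ s' ∈ S, ∀ σ : ℂ ≃+* ℂ,
      (∀ k, σ (((m k).eval s : ℝ) : ℂ) = (((m k).eval s' : ℝ) : ℂ)) → σ (T s : ℂ) = (T s' : ℂ))
    (h2 : ∀ s ∈ S, ∀ s' : ℂ, ∀ σ : ℂ ≃+* ℂ,
      (∀ k, σ (((m k).eval s : ℝ) : ℂ) = ((m k).map Complex.ofRealHom).eval s') →
      ‖σ (T s : ℂ)‖ ≤ C * (1 + ‖s'‖) ^ e) :
    ∃ q : ℝ[X], q.natDegree ≤ e ∧ ∀ s, T s = q.eval s := by
  -- the countable field of coefficients
  let A : Set ℂ := Set.range (fun p : ℕ × ℕ => (((m p.1).coeff p.2 : ℝ) : ℂ))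
  have hA : A.Countable := Set.countable_range _
  let k₀ : Subfield ℂ := Subfield.closure A
  have hk₀ : Countable k₀ := by
    have : Countable A := hA
    rw [← Cardinal.mk_le_aleph0_iff]
    exact (Subfield.cardinalMk_closure_le_max A).trans (max_le (Cardinal.mk_le_aleph0 (α := A)) le_rfl)
  have hmk : ∀ k, ∃ p : k₀[X], p.map (algebraMap k₀ ℂ) = (m k).map Complex.ofRealHom := by
    intro k
    have : (m k).map Complex.ofRealHom ∈ Polynomial.lifts (algebraMap k₀ ℂ) := by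
      rw [Polynomial.lifts_iff_coeff_lifts]
      intro n
      rw [coeff_map]
      exact ⟨⟨(((m k).coeff n : ℝ) : ℂ), Subfield.subset_closure ⟨(k, n), rfl⟩⟩, rfl⟩
    exact (Polynomial.mem_lifts _).mp this
  choose mk hmk using hmk
  have hmev : ∀ k (z : ℂ), aeval z (mk k) = ((m k).map Complex.ofRealHom).eval z := by
    intro k z
    rw [← hmk k, eval_map_algebraMap]
  have hmevR : ∀ k (s : ℝ), aeval (s : ℂ) (mk k) = (((m k).eval s : ℝ) : ℂ) := by
    intro k s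
    rw [hmev, eval_map]
    exact (Polynomial.eval₂_at_apply Complex.ofRealHom s)
  let N : Set ℝ := (fun s : ℝ => (s : ℂ)) ⁻¹' {z : ℂ | IsAlgebraic k₀ z}
  have hN : N.Countable :=
    (Algebraic.countable k₀ ℂ).preimage Complex.ofReal_injective
  have hdense := hS N hN
  obtain ⟨s₀, hs₀S, hs₀N⟩ := hdense.nonempty
  have hs₀ : Transcendental k₀ (s₀ : ℂ) := hs₀N
  -- `T s₀ ∈ k₀(s₀)`
  let k₁ : Subfield ℂ := Subfield.closure ((k₀ : Set ℂ) ∪ {(s₀ : ℂ)})
  have hk₁ : Countable k₁ := by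
    have h3 : ((k₀ : Set ℂ) ∪ {(s₀ : ℂ)}).Countable :=
      Set.Countable.union (Set.to_countable _) (Set.countable_singleton _)
    have : Countable ((k₀ : Set ℂ) ∪ {(s₀ : ℂ)} : Set ℂ) := h3
    rw [← Cardinal.mk_le_aleph0_iff]
    exact (Subfield.cardinalMk_closure_le_max _).trans (max_le (Cardinal.mk_le_aleph0) le_rfl)
  have hTk₁ : (T s₀ : ℂ) ∈ k₁ := by
    apply mem_of_fixed
    intro σ hσ
    apply h1 s₀ hs₀S s₀ hs₀S
    intro k
    rw [← hmevR, sigma_eval k₀ σ (fun x hx => hσ x (Subfield.subset_closure (Or.inl hx)))]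
    rw [hσ s₀ (Subfield.subset_closure (Or.inr rfl))]
  have hTk₀ : (T s₀ : ℂ) ∈ IntermediateField.adjoin k₀ {(s₀ : ℂ)} := by
    have h3 : k₁ ≤ (IntermediateField.adjoin k₀ {(s₀ : ℂ)}).toSubfield := by
      apply Subfield.closure_le.mpr
      rintro x (hx | hx)
      · exact (IntermediateField.adjoin k₀ {(s₀ : ℂ)}).algebraMap_mem ⟨x, hx⟩
      · rw [hx]
        exact IntermediateField.mem_adjoin_simple_self k₀ _
    exact h3 hTk₁
  obtain ⟨P, Q, hcop, hQ0, hPQ⟩ : ∃ P Q : k₀[X], IsCoprime P Q ∧ Q ≠ 0 ∧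
      (T s₀ : ℂ) = aeval (s₀ : ℂ) P / aeval (s₀ : ℂ) Q := by
    obtain ⟨P, Q, hPQ⟩ := (IntermediateField.mem_adjoin_simple_iff k₀ _).mp hTk₀
    by_cases hQ : Q = 0
    · refine ⟨0, 1, isCoprime_one_right, one_ne_zero, ?_⟩
      rw [hPQ, hQ]
      simp
    · classical
      let _ : GCDMonoid k₀[X] := EuclideanDomain.gcdMonoid _
      have hg : GCDMonoid.gcd P Q ≠ 0 := gcd_ne_zero_of_right hQ
      have hgev : aeval (s₀ : ℂ) (GCDMonoid.gcd P Q) ≠ 0 := fun h => hs₀ ⟨_, hg, h⟩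
      refine ⟨P / GCDMonoid.gcd P Q, Q / GCDMonoid.gcd P Q, isCoprime_div_gcd_div_gcd hQ,
        right_div_gcd_ne_zero hQ, ?_⟩
      have hP' : P = GCDMonoid.gcd P Q * (P / GCDMonoid.gcd P Q) :=
        (EuclideanDomain.mul_div_cancel' hg (gcd_dvd_left _ _)).symm
      have hQ' : Q = GCDMonoid.gcd P Q * (Q / GCDMonoid.gcd P Q) :=
        (EuclideanDomain.mul_div_cancel' hg (gcd_dvd_right _ _)).symm
      have e1 := congrArg (aeval (s₀ : ℂ)) hP'
      have e2 := congrArg (aeval (s₀ : ℂ)) hQ'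
      rw [map_mul] at e1 e2
      rw [hPQ, e1, e2, mul_div_mul_left _ _ hgev]
  have hQs₀ : aeval (s₀ : ℂ) Q ≠ 0 := fun h => hs₀ ⟨_, hQ0, h⟩
  -- the value at conjugate points
  have hconj : ∀ z : ℂ, Transcendental k₀ z → ∃ σ : ℂ ≃+* ℂ,
      (∀ k, σ (((m k).eval s₀ : ℝ) : ℂ) = ((m k).map Complex.ofRealHom).eval z) ∧
      σ (T s₀ : ℂ) * aeval z Q = aeval z P := by
    intro z hz
    obtain ⟨σ, hσ, hσs⟩ := aut_transcendental k₀ hs₀ hz
    refine ⟨σ, fun k => ?_, ?_⟩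
    · rw [← hmevR, sigma_eval k₀ σ hσ, hσs, hmev]
    · have h3 : (T s₀ : ℂ) * aeval (s₀ : ℂ) Q = aeval (s₀ : ℂ) P := by
        rw [hPQ, div_mul_cancel₀ _ hQs₀]
      have h4 := congrArg σ h3
      rw [map_mul, sigma_eval k₀ σ hσ, sigma_eval k₀ σ hσ, hσs] at h4
      exact h4
  -- growth
  have hgrow : ∀ z : ℂ, ‖aeval z P‖ ≤ C * (1 + ‖z‖) ^ e * ‖aeval z Q‖ := by
    have hd : Dense {z : ℂ | Transcendental k₀ z} := by
      have h3 := (Algebraic.countable k₀ ℂ).dense_compl ℝ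
      exact h3
    have hclosed : IsClosed {z : ℂ | ‖aeval z P‖ ≤ C * (1 + ‖z‖) ^ e * ‖aeval z Q‖} := by
      apply isClosed_le
      · exact (Polynomial.continuous_aeval P).norm
      · exact (continuous_const.mul ((continuous_const.add continuous_norm).pow e)).mul
          (Polynomial.continuous_aeval Q).norm
    have hsub : {z : ℂ | Transcendental k₀ z} ⊆
        {z : ℂ | ‖aeval z P‖ ≤ C * (1 + ‖z‖) ^ e * ‖aeval z Q‖} := by
      intro z hz
      obtain ⟨σ, hσ1, hσ2⟩ := hconj z hz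
      show ‖aeval z P‖ ≤ C * (1 + ‖z‖) ^ e * ‖aeval z Q‖
      rw [← hσ2, norm_mul]
      exact mul_le_mul_of_nonneg_right (h2 s₀ hs₀S z σ hσ1) (norm_nonneg _)
    intro z
    have h3 : z ∈ closure {z : ℂ | Transcendental k₀ z} := hd z
    exact (closure_minimal hsub hclosed) h3
  -- `Q` is constant
  obtain ⟨c, hc, hQc⟩ : ∃ c : ℂ, c ≠ 0 ∧ ∀ z : ℂ, aeval z Q = c := by
    have hdeg : (Q.map (algebraMap k₀ ℂ)).degree = 0 := by
      by_contra hdeg
      obtain ⟨z, hz⟩ := IsAlgClosed.exists_root _ hdeg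
      have hQz : aeval z Q = 0 := by
        rw [← eval_map_algebraMap]
        exact hz
      have hPz : aeval z P = 0 := by
        have h3 := hgrow z
        rw [hQz, norm_zero, mul_zero] at h3
        exact norm_le_zero_iff.mp h3
      obtain ⟨u, v, huv⟩ := hcop
      have h3 := congrArg (aeval z) huv
      rw [map_add, map_mul, map_mul, hPz, hQz, map_one, mul_zero, mul_zero, add_zero] at h3
      exact zero_ne_one h3
    have h3 := eq_C_of_degree_eq_zero hdeg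
    have h4 : ∀ z : ℂ, aeval z Q = (Q.map (algebraMap k₀ ℂ)).coeff 0 := by
      intro z
      rw [← eval_map_algebraMap]
      conv_lhs => rw [h3]
      rw [eval_C]
    refine ⟨(Q.map (algebraMap k₀ ℂ)).coeff 0, ?_, h4⟩
    rw [← h4 s₀]
    exact hQs₀
  -- the real polynomial
  let p : ℂ[X] := Polynomial.C c⁻¹ * P.map (algebraMap k₀ ℂ)
  let q : ℝ[X] := ∑ i ∈ Finset.range (p.natDegree + 1), monomial i (p.coeff i).re
  have hq : ∀ s : ℝ, q.eval s = (p.eval (s : ℂ)).re := by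
    intro s
    rw [eval_finsetSum, eval_eq_sum_range, Complex.re_sum]
    refine Finset.sum_congr rfl fun i _ => ?_
    rw [eval_monomial, ← Complex.ofReal_pow, Complex.re_mul_ofReal]
  have hp : ∀ z : ℂ, p.eval z = c⁻¹ * aeval z P := by
    intro z
    rw [eval_mul, eval_C, eval_map_algebraMap]
  have hTq' : ∀ s ∈ S \ N, T s = q.eval s := by
    rintro s ⟨hsS, hsN⟩
    obtain ⟨σ, hσ1, hσ2⟩ := hconj s hsN
    have h3 : σ (T s₀ : ℂ) = (T s : ℂ) := by
      apply h1 s₀ hs₀S s hsS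
      intro k
      rw [hσ1, eval_map]
      exact (Polynomial.eval₂_at_apply Complex.ofRealHom s)
    rw [hq, hp, ← hσ2, h3, hQc, mul_comm (T s : ℂ) c, ← mul_assoc, inv_mul_cancel₀ hc, one_mul,
      Complex.ofReal_re]
  have hTq : ∀ s, T s = q.eval s := by
    have h3 : T = fun s => q.eval s := by
      apply Continuous.ext_on hdense hT q.continuous
      intro s hs
      exact hTq' s hs
    intro s
    rw [h3]
  refine ⟨q, natDegree_le_of_bound q e C ?_, hTq⟩
  have hclosed : IsClosed {s : ℝ | |q.eval s| ≤ C * (1 + |s|) ^ e} := by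
    apply isClosed_le
    · exact q.continuous.abs
    · exact (continuous_const.mul ((continuous_const.add continuous_abs).pow e))
  have hsub : S \ N ⊆ {s : ℝ | |q.eval s| ≤ C * (1 + |s|) ^ e} := by
    rintro s ⟨hsS, hsN⟩
    show |q.eval s| ≤ C * (1 + |s|) ^ e
    rw [← hTq s]
    have h3 := h2 s hsS s (RingEquiv.refl ℂ) (fun k => by
      rw [RingEquiv.refl_apply, eval_map]
      exact (Polynomial.eval₂_at_apply Complex.ofRealHom s).symm)
    rwa [RingEquiv.refl_apply, Complex.norm_real, Complex.norm_real, Real.norm_eq_abs,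
      Real.norm_eq_abs] at h3
  intro s
  exact (closure_minimal hsub hclosed) (hdense s)

end P56acde
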