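import Pool.Agent.Lib.P56acde.VolSm
import Pool.Agent.Lib.P56acde.ConvA
import Pool.Agent.Lib.P56acde.ConvB

/-! MODULE IntSm (uses `vol_smooth`, `ConvA`, `ConvB`): slice volumes are smooth in the interior of the range.
PROOF. `p₀ ∈ interior K`, `⟨p₀,w⟩ = t₀`; `y₀ = p₀ - (t₀/|w|²) w ∈ w^⊥`.  Translated slices
`S t = {y : y + p₀ + ((t-t₀)/|w|²) w ∈ K}` (`= slice K w t - y₀`, same volume) satisfy the hypotheses of `vol_smooth` at `δ₀ = t₀`:
at `Y₀` with `gauge (S t₀) Y₀ = 1` the point `x₀ = Y₀ + p₀` is in `frontier K`; `ρ'(y,t) = ρ(y + p₀ + ((t-t₀)/|w|²) w)`;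
`fderiv ρ' (Y₀,t₀) (Y₀,0) = Dρ(x₀)(x₀ - p₀) > 0` by `transversal`. -/

open Set Filter Topology MeasureTheory

namespace P56acde

/-- translated slices -/
def tslice {n : ℕ} (K : Set (E n)) (w p₀ : E n) (t₀ t : ℝ) : Set ((ℝ ∙ w)ᗮ : Submodule ℝ (E n)) :=
  {y | (y : E n) + p₀ + ((t - t₀) / ‖w‖ ^ 2) • w ∈ K}

theorem vol_tslice {n : ℕ} (K : Set (E n)) {w p₀ : E n} (hw : w ≠ 0) {t₀ : ℝ}
    (hp : (inner ℝ p₀ w : ℝ) = t₀) (t : ℝ) :
    volume (tslice K w p₀ t₀ t) = volume (slice K w t) := by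
  have hw2 : ‖w‖ ^ 2 ≠ 0 := by positivity
  have hy₀ : p₀ - (t₀ / ‖w‖ ^ 2) • w ∈ ((ℝ ∙ w)ᗮ : Submodule ℝ (E n)) := by
    rw [Submodule.mem_orthogonal_singleton_iff_inner_left, inner_sub_left, inner_smul_left, hp,
      real_inner_self_eq_norm_sq]
    simp only [conj_trivial]
    field_simp
    ring
  set y₀ : ((ℝ ∙ w)ᗮ : Submodule ℝ (E n)) := ⟨_, hy₀⟩ with hy₀def
  have : tslice K w p₀ t₀ t = (fun y => y + y₀) ⁻¹' (slice K w t) := by
    ext y
    simp only [tslice, slice, mem_ofPred_eq, mem_preimage]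
    have : (y : E n) + p₀ + ((t - t₀) / ‖w‖ ^ 2) • w = ((y + y₀ : ((ℝ ∙ w)ᗮ : Submodule ℝ (E n))) : E n) + (t / ‖w‖ ^ 2) • w := by
      simp only [Submodule.coe_add, hy₀def]
      rw [sub_div, sub_smul]
      abel
    rw [this]
  rw [this, measure_preimage_add_right]

theorem tslice_props {n : ℕ} {K : Set (E n)} (hc : Convex ℝ K) {w p₀ : E n} {t₀ t r R : ℝ}
    (hball : Metric.ball p₀ r ⊆ K) (hR : K ⊆ Metric.closedBall p₀ R)
    (ht : ‖((t - t₀) / ‖w‖ ^ 2) • w‖ < r / 2) :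
    Convex ℝ (tslice K w p₀ t₀ t) ∧ Metric.closedBall 0 (r / 4) ⊆ tslice K w p₀ t₀ t ∧
      tslice K w p₀ t₀ t ⊆ Metric.closedBall 0 (R + r) := by
  have hr : 0 < r := by have := norm_nonneg (((t - t₀) / ‖w‖ ^ 2) • w); linarith
  refine ⟨?_, ?_, ?_⟩
  · intro x hx y hy a b ha hb hab
    have := hc hx hy ha hb hab
    simp only [tslice, mem_ofPred_eq] at this ⊢
    convert this using 1
    simp only [Submodule.coe_add, Submodule.coe_smul]
    have e : (1:ℝ) • p₀ = (a + b) • p₀ := by rw [hab]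
    have e2 : ((t - t₀) / ‖w‖ ^ 2) • w = (a + b) • ((t - t₀) / ‖w‖ ^ 2) • w := by rw [hab, one_smul]
    rw [one_smul] at e
    rw [smul_add, smul_add, smul_add, smul_add]
    conv_lhs => rw [e, e2]
    rw [add_smul, add_smul]
    abel
  · intro y hy
    have hy' : ‖(y : E n)‖ ≤ r / 4 := by simpa using hy
    show (y : E n) + p₀ + ((t - t₀) / ‖w‖ ^ 2) • w ∈ K
    apply hball
    rw [Metric.mem_ball, dist_eq_norm]
    have : (y : E n) + p₀ + ((t - t₀) / ‖w‖ ^ 2) • w - p₀ = y + ((t - t₀) / ‖w‖ ^ 2) • w := by abel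
    rw [this]
    calc ‖(y : E n) + ((t - t₀) / ‖w‖ ^ 2) • w‖ ≤ ‖(y : E n)‖ + ‖((t - t₀) / ‖w‖ ^ 2) • w‖ := norm_add_le _ _
      _ < r := by linarith
  · intro y hy
    have h1 := hR hy
    rw [Metric.mem_closedBall, dist_eq_norm] at h1
    have : (y : E n) + p₀ + ((t - t₀) / ‖w‖ ^ 2) • w - p₀ = y + ((t - t₀) / ‖w‖ ^ 2) • w := by abel
    rw [this] at h1
    rw [Metric.mem_closedBall, dist_zero_right]
    have h2 : ‖(y : E n)‖ ≤ ‖(y : E n) + ((t - t₀) / ‖w‖ ^ 2) • w‖ + ‖((t - t₀) / ‖w‖ ^ 2) • w‖ := by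
      have := norm_sub_le ((y : E n) + ((t - t₀) / ‖w‖ ^ 2) • w) (((t - t₀) / ‖w‖ ^ 2) • w)
      rwa [add_sub_cancel_right] at this
    have h3 : ‖y‖ = ‖(y : E n)‖ := rfl
    rw [h3]
    linarith

theorem slice_smooth {n : ℕ} {K : Set (E n)} (hK : IsCompact K) (hc : Convex ℝ K)
    (hint : (interior K).Nonempty) (hs : SmoothBoundary K) {w : E n} (hw : w ≠ 0) {t₀ : ℝ}
    (ht : t₀ ∈ Ioo (lo K w) (hi K w)) :
    ContDiffAt ℝ (⊤ : ℕ∞) (fun t => (volume (slice K w t)).toReal) t₀ := by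
  obtain ⟨p₀, hp₀, hp₀w⟩ := exists_interior hK hc hint hw ht
  have hfun : (fun t => (volume (slice K w t)).toReal) = fun t => (volume (tslice K w p₀ t₀ t)).toReal := by
    funext t; rw [vol_tslice K hw hp₀w]
  rw [hfun]
  set F := ((ℝ ∙ w)ᗮ : Submodule ℝ (E n)) with hF
  -- the affine map
  set L : F × ℝ →L[ℝ] E n := F.subtypeL.comp (ContinuousLinearMap.fst ℝ F ℝ) +
    ((1 / ‖w‖ ^ 2) • (ContinuousLinearMap.snd ℝ F ℝ)).smulRight w with hL
  set A : F × ℝ → E n := fun q => (q.1 : E n) + p₀ + ((q.2 - t₀) / ‖w‖ ^ 2) • w with hA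
  have hAL : A = fun q => L q + (p₀ - (t₀ / ‖w‖ ^ 2) • w) := by
    funext q
    simp only [hA, hL, ContinuousLinearMap.add_apply, ContinuousLinearMap.comp_apply,
      ContinuousLinearMap.smulRight_apply, ContinuousLinearMap.smul_apply, ContinuousLinearMap.coe_fst',
      ContinuousLinearMap.coe_snd', Submodule.subtypeL_apply, smul_eq_mul]
    rw [sub_div, sub_smul, one_div, ← div_eq_inv_mul]
    abel
  have hAc : ContDiff ℝ (⊤ : ℕ∞) A := by
    rw [hAL]; exact L.contDiff.add contDiff_const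
  have hAd : ∀ q, HasFDerivAt A L q := by
    intro q; rw [hAL]; exact L.hasFDerivAt.add_const _
  obtain ⟨r, hr, hball⟩ := Metric.isOpen_iff.1 isOpen_interior p₀ hp₀
  have hball' : Metric.ball p₀ r ⊆ K := hball.trans interior_subset
  obtain ⟨R, hR⟩ := hK.isBounded.subset_closedBall p₀
  have hcont : Continuous A := hAc.continuous
  -- near t₀
  have hnear : ∀ᶠ t in 𝓝 t₀, ‖((t - t₀) / ‖w‖ ^ 2) • w‖ < r / 2 := by
    have h1 : Continuous fun t : ℝ => ‖((t - t₀) / ‖w‖ ^ 2) • w‖ := by fun_prop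
    have h2 : Tendsto (fun t : ℝ => ‖((t - t₀) / ‖w‖ ^ 2) • w‖) (𝓝 t₀) (𝓝 0) := by
      have := h1.tendsto t₀; simpa using this
    exact h2.eventually (gt_mem_nhds (half_pos hr))
  apply vol_smooth volume (tslice K w p₀ t₀) t₀ (r / 4) (R + r) (by positivity)
  · filter_upwards [hnear] with t ht
    exact tslice_props hc hball' hR ht
  · intro Y₀ hY₀
    obtain ⟨hS1, hS2, -⟩ := tslice_props (t₀ := t₀) (t := t₀) hc hball' hR hnear.self_of_nhds
    have hnhds : tslice K w p₀ t₀ t₀ ∈ 𝓝 (0 : F) :=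
      Filter.mem_of_superset (Metric.closedBall_mem_nhds _ (by positivity)) hS2
    have hfr0 : Y₀ ∈ frontier (tslice K w p₀ t₀ t₀) :=
      (gauge_eq_one_iff_mem_frontier hS1 hnhds).1 hY₀
    have hfr : A (Y₀, t₀) ∈ frontier K := by
      have h1 : tslice K w p₀ t₀ t₀ = (fun y : F => A (y, t₀)) ⁻¹' K := rfl
      rw [h1] at hfr0
      have h2 : Continuous (fun y : F => A (y, t₀)) := by fun_prop
      exact h2.frontier_preimage_subset _ hfr0
    obtain ⟨ρ, hρ, hρd, hρloc⟩ := hs _ hfr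
    refine ⟨fun q => ρ (A q), ?_, ?_, ?_, ?_⟩
    · exact ContDiffAt.comp (Y₀, t₀) hρ hAc.contDiffAt
    · exact rho_zero hK.isClosed hfr hρ hρloc
    · have h1 : HasFDerivAt (fun q => ρ (A q)) ((fderiv ℝ ρ (A (Y₀, t₀))).comp L) (Y₀, t₀) :=
        (hρ.differentiableAt (by simp)).hasFDerivAt.comp _ (hAd _)
      rw [h1.fderiv]
      have h2 := transversal hK.isClosed hc hfr hp₀ hρ hρd hρloc
      have h3 : L (Y₀, 0) = A (Y₀, t₀) - p₀ := by
        simp [hL, hA]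
      rw [ContinuousLinearMap.comp_apply, h3]
      exact h2
    · exact hcont.continuousAt.eventually hρloc

end P56acde
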