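import Pool.Agent.Lib.P56acde.SliceM
import Pool.Agent.Lib.P56acde.IntSm
import Pool.Agent.Lib.P56acde.EndSm
import Pool.Agent.Lib.P56acde.BallAE
import Pool.Agent.Lib.P56acde.CAn
import Pool.Agent.Lib.P56acde.EvenAn
import Pool.Agent.Lib.P56acde.AlgAE

/-! MODULE GoodAE (assembly of the geometric part; uses all the geometric stubs).
PROOF. `w` in the full measure set where `w ≠ 0`, `alg_ae` holds, `ball_ae` holds for `w` and for `-w` (the map `w ↦ -w` preserves null sets).
`V = cutPlus K w` on `(lo,hi)`: `V' = κ vol(slice)`, `C^∞` (`slice_smooth`), algebraic, so analytic (`smooth_alg_analytic`).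
Right end: `v(δ) = V(hi - δ²) = vol K - κ ∫_0^{|δ|} 2ε vol(slice(hi-ε²)) dε = vol K - κ ∫_0^δ 2 ε^n β(ε) dε` (`n` odd, `β` even) is `C^∞` at `0` and even;
it is algebraic (`P(hi - δ², v)`, a non-zero polynomial), so analytic, so `v(δ) = g(δ²)`, i.e. `V(t) = g(hi - t)` for `t ≤ hi` near `hi`.
Left end: the same for `-w`.  Define `V` beyond the ends by these extensions. -/

open Polynomial Set Filter Topology MeasureTheory

namespace P56acde

/-- primitive of a smooth function is smooth -/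
theorem contDiffAt_primitive {f F : ℝ → ℝ} {x₀ : ℝ} (hf : ContDiffAt ℝ (⊤ : ℕ∞) f x₀)
    (hF : ∀ᶠ x in 𝓝 x₀, HasDerivAt F (f x) x) : ContDiffAt ℝ (⊤ : ℕ∞) F x₀ := by
  rw [contDiffAt_infty] at hf ⊢
  intro n
  have hn := hf n
  have h1 : ContDiffAt ℝ ((n : WithTop ℕ∞) + 1) F x₀ := by
    rw [contDiffAt_succ_iff_hasFDerivAt]
    obtain ⟨u, hu, hu'⟩ := hF.exists_mem
    refine ⟨fun x => ContinuousLinearMap.smulRight (1 : ℝ →L[ℝ] ℝ) (f x), ⟨u, hu, fun x hx => ?_⟩, ?_⟩
    · exact (hu' x hx).hasFDerivAt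
    · exact ContDiffAt.smulRight contDiffAt_const hn
  exact h1.of_le (by exact_mod_cast le_self_add)

/-- slice volume -/
noncomputable def sv {n : ℕ} (K : Set (E n)) (w : E n) (t : ℝ) : ℝ := (volume (slice K w t)).toReal

theorem cut_facts {n : ℕ} {w : E n} (hw : w ≠ 0) : ∃ κ : ℝ, 0 < κ ∧ ∀ K : Set (E n), IsCompact K →
    Integrable (sv K w) ∧ Continuous (cutPlus K w) ∧
    (∀ s t, cutPlus K w t - cutPlus K w s = κ * ∫ x in s..t, sv K w x) ∧
    (∀ t, ContinuousAt (sv K w) t → HasDerivAt (cutPlus K w) (κ * sv K w t) t) ∧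
    (∀ k : ℕ, ∫ x in K, (inner ℝ x w : ℝ) ^ k = κ * ∫ t, t ^ k * sv K w t) ∧
    (∀ t, t < lo K w → sv K w t = 0) ∧ (∀ t, hi K w < t → sv K w t = 0) ∧
    (∀ t, t ≤ lo K w → cutPlus K w t = 0) := by
  obtain ⟨κ, hκ, h⟩ := cutPlus_eq hw
  refine ⟨κ, hκ, fun K hK => ?_⟩
  obtain ⟨h1, h2, h3, h4, h5⟩ := h K hK
  have h3' : Integrable (sv K w) := h3
  have hdiff : ∀ s t, cutPlus K w t - cutPlus K w s = κ * ∫ x in s..t, sv K w x := by
    intro s t
    rw [h1, h1, ← mul_sub]
    congr 1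
    exact intervalIntegral.integral_Iic_sub_Iic h3'.integrableOn h3'.integrableOn
  have hcut : ∀ t, cutPlus K w t = cutPlus K w 0 + κ * ∫ x in (0:ℝ)..t, sv K w x := by
    intro t; have := hdiff 0 t; linarith
  refine ⟨h3', ?_, hdiff, ?_, h2, ?_, ?_, ?_⟩
  · have hc : Continuous (fun t => ∫ x in (0:ℝ)..t, sv K w x) :=
      intervalIntegral.continuous_primitive (fun a b => h3'.intervalIntegrable) 0
    have : cutPlus K w = fun t => cutPlus K w 0 + κ * ∫ x in (0:ℝ)..t, sv K w x := funext hcut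
    rw [this]
    exact continuous_const.add (continuous_const.mul hc)
  · intro t ht
    have hd : HasDerivAt (fun t => ∫ x in (0:ℝ)..t, sv K w x) (sv K w t) t :=
      intervalIntegral.integral_hasDerivAt_right h3'.intervalIntegrable
        (h3'.aestronglyMeasurable.stronglyMeasurableAtFilter) ht
    have : cutPlus K w = fun t => cutPlus K w 0 + κ * ∫ x in (0:ℝ)..t, sv K w x := funext hcut
    rw [this]
    exact (hd.const_mul κ).const_add _
  · intro t ht; simp [sv, h4 t ht]
  · intro t ht; simp [sv, h5 t ht]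
  · intro t ht
    rw [h1]
    have : ∫ s in Iic t, (volume (slice K w s)).toReal = 0 := by
      rw [integral_Iic_eq_integral_Iio]
      apply setIntegral_eq_zero_of_forall_eq_zero
      intro s hs
      rw [h4 s (lt_of_lt_of_le hs ht)]; simp
    simp [this]

theorem continuous_evalEval (P : ℝ[X][X]) {f g : ℝ → ℝ} (hf : Continuous f) (hg : Continuous g) :
    Continuous (fun t => evalEval (f t) (g t) P) := by
  induction P using Polynomial.induction_on' with
  | add p q hp hq => simp only [evalEval_add]; exact hp.add hq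
  | monomial m a =>
    have : (fun t => evalEval (f t) (g t) (monomial m a)) = fun t => a.eval (f t) * g t ^ m := by
      funext t; simp [evalEval, eval_monomial]
    rw [this]
    exact (a.continuous.comp hf).mul (hg.pow m)

theorem evalEval_map_comp (P : ℝ[X][X]) (q : ℝ[X]) (x y : ℝ) :
    evalEval x y (P.map (Polynomial.compRingHom q)) = evalEval (q.eval x) y P := by
  induction P using Polynomial.induction_on' with
  | add p q hp hq => simp only [evalEval_add, Polynomial.map_add, hp, hq]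
  | monomial m a =>
    simp [evalEval, eval_monomial, eval_comp]

/-- `P` vanishes on the closed interval. -/
theorem alg_closed {n : ℕ} {K : Set (E n)} (hK : IsCompact K) (hc : Convex ℝ K)
    (hint : (interior K).Nonempty) {w : E n} (hw : w ≠ 0)
    (P : ℝ[X][X]) (hPV : ∀ t : ℝ, (∃ x ∈ interior K, inner ℝ x w = t) →
      evalEval t (cutPlus K w t) P = 0) (hcont : Continuous (cutPlus K w)) :
    ∀ t ∈ Icc (lo K w) (hi K w), evalEval t (cutPlus K w t) P = 0 := by
  have hlt := lo_lt_hi hK hint hw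
  have h1 : ∀ t ∈ Ioo (lo K w) (hi K w), evalEval t (cutPlus K w t) P = 0 := fun t ht =>
    hPV t (exists_interior hK hc hint hw ht)
  have hcl : IsClosed {t : ℝ | evalEval t (cutPlus K w t) P = 0} :=
    isClosed_eq (continuous_evalEval P continuous_id hcont) continuous_const
  intro t ht
  rw [← closure_Ioo hlt.ne] at ht
  exact hcl.closure_subset_iff.2 h1 ht

/-- right end -/
theorem right_end {k : ℕ} {K : Set (E (2 * k + 1))} (hK : IsCompact K) (hc : Convex ℝ K)
    (hint : (interior K).Nonempty) (hs : SmoothBoundary K) {w : E (2 * k + 1)} (hw : w ≠ 0)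
    (P : ℝ[X][X]) (hP : P ≠ 0) (hPV : ∀ t : ℝ, (∃ x ∈ interior K, inner ℝ x w = t) →
      evalEval t (cutPlus K w t) P = 0)
    {p : E (2 * k + 1)} (hp : p ∈ K) {l : ℝ} (hl : 0 < l)
    (hball : K ⊆ Metric.closedBall (p - l • w) (l * ‖w‖)) :
    ∃ g : ℝ → ℝ, AnalyticAt ℝ g 0 ∧ ∀ᶠ t in 𝓝[≤] (hi K w), cutPlus K w t = g (hi K w - t) := by
  obtain ⟨β, hβ, heven, hβs⟩ := end_smooth hK hc hint hs hw hp hl hball
  obtain ⟨κ, hκ, hfacts⟩ := cut_facts hw
  obtain ⟨hI, hcont, hdiff, hder, -, -, -, -⟩ := hfacts K hK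
  have hPcl := alg_closed hK hc hint hw P hPV hcont
  have hlt := lo_lt_hi hK hint hw
  have hsm : ∀ t ∈ Ioo (lo K w) (hi K w), ContinuousAt (sv K w) t := fun t ht =>
    (slice_smooth hK hc hint hs hw ht).continuousAt
  have hβs' : ∀ᶠ δ in 𝓝[>] (0 : ℝ), sv K w (hi K w - δ ^ 2) = δ ^ (2 * k) * β δ := by
    simpa [sv] using hβs
  set b := hi K w with hb
  set a := lo K w with ha
  -- the comparison function
  set I : ℝ → ℝ := fun ε => κ * (2 * ε ^ (2 * k + 1) * β ε) with hIdef
  have hintg : ContDiffAt ℝ (⊤ : ℕ∞) I 0 := by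
    fun_prop
  have hIodd : ∀ x, I (-x) = - I x := by
    intro x; simp only [hIdef, heven, Odd.neg_pow (⟨k, rfl⟩ : Odd (2 * k + 1))]; ring
  -- continuity near 0
  have hcn : ∀ᶠ x in 𝓝 (0 : ℝ), ContinuousAt I x := by
    have h1 : ContDiffAt ℝ 1 I 0 := hintg.of_le (by exact_mod_cast le_top)
    filter_upwards [h1.eventually (by simp)] with x hx using hx.continuousAt
  obtain ⟨η, hη, hηI⟩ := Metric.eventually_nhds_iff_ball.1 hcn
  set Φ : ℝ → ℝ := fun δ => ∫ ε in (0:ℝ)..δ, I ε with hΦ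
  have hΦd : ∀ x ∈ Metric.ball (0 : ℝ) η, HasDerivAt Φ (I x) x := by
    intro x hx
    have hsub : uIcc 0 x ⊆ Metric.ball (0 : ℝ) η := by
      intro y hy
      rw [mem_uIcc] at hy
      simp only [Metric.mem_ball, dist_zero_right, Real.norm_eq_abs] at hx ⊢
      rcases hy with hy | hy
      · rw [abs_of_nonneg hy.1]; rw [abs_of_nonneg (hy.1.trans hy.2)] at hx; linarith
      · rw [abs_of_nonpos hy.2]; rw [abs_of_nonpos (hy.1.trans hy.2)] at hx; linarith
    have hint' : IntervalIntegrable I volume 0 x :=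
      ContinuousOn.intervalIntegrable (fun y hy => (hηI y (hsub hy)).continuousWithinAt)
    refine intervalIntegral.integral_hasDerivAt_right hint' ?_ (hηI x hx)
    exact ContinuousOn.stronglyMeasurableAtFilter Metric.isOpen_ball
      (fun y hy => (hηI y hy).continuousWithinAt) x hx
  have hΦsm : ContDiffAt ℝ (⊤ : ℕ∞) Φ 0 :=
    contDiffAt_primitive hintg (Filter.eventually_of_mem (Metric.ball_mem_nhds _ hη) hΦd)
  have hΦeven : ∀ x, Φ (-x) = Φ x := by
    intro x
    simp only [hΦ]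
    have h1 := intervalIntegral.integral_comp_neg (a := (0:ℝ)) (b := x) (f := I)
    simp only [hIodd, neg_zero, intervalIntegral.integral_neg] at h1
    rw [intervalIntegral.integral_symm, ← h1, neg_neg]
  have hΦ0 : Φ 0 = 0 := by simp [hΦ]
  set v : ℝ → ℝ := fun δ => cutPlus K w b - Φ δ with hv
  have hvsm : ContDiffAt ℝ (⊤ : ℕ∞) v 0 := contDiffAt_const.sub hΦsm
  -- v = V₀ (b - δ²)
  obtain ⟨η₁, hη₁, hη₁s⟩ : ∃ η₁ > 0, ∀ δ, 0 < δ → δ < η₁ → sv K w (b - δ ^ 2) = δ ^ (2 * k) * β δ := by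
    rw [eventually_nhdsWithin_iff, Metric.eventually_nhds_iff_ball] at hβs'
    obtain ⟨e, he, h⟩ := hβs'
    refine ⟨e, he, fun δ h0 h1 => h δ ?_ h0⟩
    simp [abs_of_pos h0, h1]
  obtain ⟨η₂, hη₂, hη₂s⟩ : ∃ η₂ > 0, ∀ δ, 0 < δ → δ < η₂ → b - δ ^ 2 ∈ Ioo a b := by
    refine ⟨min 1 (b - a), by simp [hlt], fun δ h0 h1 => ?_⟩
    have h2 : δ < 1 := lt_of_lt_of_le h1 (min_le_left _ _)
    have h3 : δ < b - a := lt_of_lt_of_le h1 (min_le_right _ _)
    constructor <;> nlinarith
  set ηm := min η (min η₁ η₂) with hηm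
  have hηm0 : 0 < ηm := lt_min hη (lt_min hη₁ hη₂)
  have hveq0 : ∀ δ, 0 ≤ δ → δ < ηm → cutPlus K w (b - δ ^ 2) = v δ := by
    intro δ h0 h1
    rcases eq_or_lt_of_le h0 with rfl | h0
    · simp [hv, hΦ0]
    set D : ℝ → ℝ := fun x => cutPlus K w (b - x ^ 2) - v x with hD
    have hlt1 : ∀ x, x ≤ δ → x < η ∧ x < η₁ ∧ x < η₂ := fun x hx =>
      ⟨lt_of_le_of_lt hx (lt_of_lt_of_le h1 (min_le_left _ _)),
       lt_of_le_of_lt hx (lt_of_lt_of_le h1 ((min_le_right _ _).trans (min_le_left _ _))),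
       lt_of_le_of_lt hx (lt_of_lt_of_le h1 ((min_le_right _ _).trans (min_le_right _ _)))⟩
    have hDc : ContinuousOn D (Icc 0 δ) := by
      apply ContinuousOn.sub
      · exact (hcont.comp (by fun_prop)).continuousOn
      · apply ContinuousOn.sub continuousOn_const
        intro x hx
        have hxb : x ∈ Metric.ball (0 : ℝ) η := by
          simp [abs_of_nonneg hx.1, (hlt1 x hx.2).1]
        exact (hΦd x hxb).continuousAt.continuousWithinAt
    have hDd : ∀ x ∈ Ioo 0 δ, HasDerivAt D 0 x := by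
      intro x hx
      have hl := hlt1 x hx.2.le
      have hxb : x ∈ Metric.ball (0 : ℝ) η := by
        simp [abs_of_pos hx.1, hl.1]
      have hin := hη₂s x hx.1 hl.2.2
      have e1 : HasDerivAt (fun x : ℝ => b - x ^ 2) (-(2 * x)) x := by
        simpa using (hasDerivAt_pow 2 x).const_sub b
      have e2 := (hder (b - x ^ 2) (hsm _ hin)).comp x e1
      have e3 := (hΦd x hxb).const_sub (cutPlus K w b)
      have e4 := e2.sub e3
      convert! e4 using 1
      rw [hη₁s x hx.1 hl.2.1]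
      simp only [hIdef]
      ring
    obtain ⟨c, hc1, hc2⟩ := exists_hasDerivAt_eq_slope D (fun _ => 0) h0 hDc hDd
    have hδ0 : δ - 0 ≠ 0 := by simpa using h0.ne'
    have : D δ - D 0 = 0 := by
      have := hc2.symm
      rwa [div_eq_zero_iff, or_iff_left hδ0] at this
    have hD0 : D 0 = 0 := by simp [hD, hv, hΦ0]
    rw [hD0, sub_zero] at this
    simpa [hD, sub_eq_zero] using this
  have hveq : ∀ δ, |δ| < ηm → cutPlus K w (b - δ ^ 2) = v δ := by
    intro δ hδ
    rcases le_total 0 δ with h | h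
    · exact hveq0 δ h (by rwa [abs_of_nonneg h] at hδ)
    · have := hveq0 (-δ) (by linarith) (by rwa [abs_of_nonpos h] at hδ)
      rw [neg_sq] at this
      rw [this]; simp [hv, hΦeven]
  -- algebraic
  set q : ℝ[X] := C b - X ^ 2 with hq
  have hqe : ∀ x, q.eval x = b - x ^ 2 := by intro x; simp [hq]
  have hQ0 : P.map (Polynomial.compRingHom q) ≠ 0 := by
    have hinj : Function.Injective (Polynomial.compRingHom q) := by
      rw [injective_iff_map_eq_zero]
      intro f hf
      rw [Polynomial.coe_compRingHom_apply, Polynomial.comp_eq_zero_iff] at hf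
      rcases hf with hf | ⟨-, hf⟩
      · exact hf
      · exfalso
        have h1 := congrArg (fun r : ℝ[X] => r.eval 1) hf
        have h2 := congrArg (fun r : ℝ[X] => r.eval 0) hf
        simp [hq] at h1 h2
    exact (Polynomial.map_ne_zero_iff hinj).2 hP
  have halgv : ∀ᶠ x in 𝓝 (0 : ℝ), evalEval x (v x) (P.map (Polynomial.compRingHom q)) = 0 := by
    filter_upwards [Metric.ball_mem_nhds (0 : ℝ) hηm0] with x hx
    have hx' : |x| < ηm := by simpa using hx
    rw [evalEval_map_comp, hqe, ← hveq x hx']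
    apply hPcl
    rcases eq_or_ne x 0 with rfl | hx0
    · simp [hlt.le]
    · have := hη₂s |x| (abs_pos.2 hx0) (lt_of_lt_of_le hx' ((min_le_right _ _).trans (min_le_right _ _)))
      rw [sq_abs] at this
      exact Ioo_subset_Icc_self this
  have hvan := smooth_alg_analytic hvsm _ hQ0 halgv
  obtain ⟨g, hg, hgv⟩ := even_analytic hvan (Filter.Eventually.of_forall fun x => by simp [hv, hΦeven])
  refine ⟨g, hg, ?_⟩
  obtain ⟨η₃, hη₃, hη₃s⟩ := Metric.eventually_nhds_iff_ball.1 hgv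
  have hpos : 0 < min ηm η₃ := lt_min hηm0 hη₃
  have hmem : Ioo (b - (min ηm η₃) ^ 2) (b + 1) ∈ 𝓝 b :=
    Ioo_mem_nhds (by nlinarith) (by linarith)
  filter_upwards [self_mem_nhdsWithin, mem_nhdsWithin_of_mem_nhds hmem] with t ht1 ht2
  have ht0 : 0 ≤ b - t := sub_nonneg.2 ht1
  have hsq : (Real.sqrt (b - t)) ^ 2 = b - t := Real.sq_sqrt ht0
  have hslt : Real.sqrt (b - t) < min ηm η₃ := by
    rw [Real.sqrt_lt' hpos]; linarith [ht2.1]
  have habs : |Real.sqrt (b - t)| = Real.sqrt (b - t) := abs_of_nonneg (Real.sqrt_nonneg _)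
  have h1 := hveq (Real.sqrt (b - t)) (by rw [habs]; exact lt_of_lt_of_le hslt (min_le_left _ _))
  have h2 := hη₃s (Real.sqrt (b - t)) (by
    simp only [Metric.mem_ball, dist_zero_right, Real.norm_eq_abs, habs]
    exact lt_of_lt_of_le hslt (min_le_right _ _))
  rw [hsq] at h1 h2
  rw [← h2, ← h1]
  congr 1
  ring


theorem hyperplane_null {n : ℕ} {w : E n} (hw : w ≠ 0) (t : ℝ) :
    volume {x : E n | (inner ℝ x w : ℝ) = t} = 0 := by
  have hlin : ∃ x₀ : E n, (inner ℝ x₀ w : ℝ) = t := by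
    refine ⟨(t / ‖w‖ ^ 2) • w, ?_⟩
    have : ‖w‖ ≠ 0 := norm_ne_zero_iff.2 hw
    rw [inner_smul_left, real_inner_self_eq_norm_sq]
    simp
    field_simp
  obtain ⟨x₀, hx₀⟩ := hlin
  have hs : {x : E n | (inner ℝ x w : ℝ) = t} = (AffineSubspace.mk' x₀ (ℝ ∙ w)ᗮ : Set (E n)) := by
    ext x
    simp only [mem_ofPred_eq, SetLike.mem_coe, AffineSubspace.mem_mk', vsub_eq_sub,
      Submodule.mem_orthogonal_singleton_iff_inner_left, inner_sub_left, hx₀, sub_eq_zero]
  rw [hs]
  apply Measure.addHaar_affineSubspace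
  intro htop
  have h1 : (x₀ + w) ∈ AffineSubspace.mk' x₀ (ℝ ∙ w)ᗮ := by rw [htop]; trivial
  rw [AffineSubspace.mem_mk', vsub_eq_sub, add_sub_cancel_left,
    Submodule.mem_orthogonal_singleton_iff_inner_left] at h1
  exact hw (inner_self_eq_zero.1 h1)

theorem cutPlus_neg {n : ℕ} {K : Set (E n)} (hK : IsCompact K) {w : E n} (hw : w ≠ 0) (t : ℝ) :
    cutPlus K w t = (volume K).toReal - cutPlus K (-w) (-t) := by
  unfold cutPlus
  have hA : MeasurableSet (K ∩ {x : E n | (inner ℝ x w : ℝ) ≤ t}) := by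
    apply hK.measurableSet.inter
    exact (isClosed_le (by fun_prop) continuous_const).measurableSet
  have hB : MeasurableSet (K ∩ {x : E n | (inner ℝ x (-w) : ℝ) ≤ -t}) := by
    apply hK.measurableSet.inter
    exact (isClosed_le (by fun_prop) continuous_const).measurableSet
  have hunion : K = (K ∩ {x : E n | (inner ℝ x w : ℝ) ≤ t}) ∪ (K ∩ {x : E n | (inner ℝ x (-w) : ℝ) ≤ -t}) := by
    rw [← inter_union_distrib_left]
    symm
    rw [inter_eq_left]
    intro x _
    simp only [mem_union, mem_ofPred_eq, inner_neg_right, neg_le_neg_iff]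
    exact le_total _ _
  have hdisj : AEDisjoint volume (K ∩ {x : E n | (inner ℝ x w : ℝ) ≤ t})
      (K ∩ {x : E n | (inner ℝ x (-w) : ℝ) ≤ -t}) := by
    refine measure_mono_null ?_ (hyperplane_null hw t)
    rintro x ⟨⟨_, h1⟩, ⟨_, h2⟩⟩
    simp only [mem_ofPred_eq, inner_neg_right, neg_le_neg_iff] at h1 h2 ⊢
    exact le_antisymm h1 h2
  have hm := measure_union₀ hB.nullMeasurableSet hdisj
  rw [← hunion] at hm
  have hfA : volume (K ∩ {x : E n | (inner ℝ x w : ℝ) ≤ t}) ≠ ⊤ :=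
    ((measure_mono inter_subset_left).trans_lt hK.measure_lt_top).ne
  have hfB : volume (K ∩ {x : E n | (inner ℝ x (-w) : ℝ) ≤ -t}) ≠ ⊤ :=
    ((measure_mono inter_subset_left).trans_lt hK.measure_lt_top).ne
  rw [hm, ENNReal.toReal_add hfA hfB]
  ring

theorem good_of {k : ℕ} {K : Set (E (2 * k + 1))} (hK : IsCompact K) (hc : Convex ℝ K)
    (hint : (interior K).Nonempty) (hs : SmoothBoundary K) {w : E (2 * k + 1)} (hw : w ≠ 0)
    (P : ℝ[X][X]) (hP : P ≠ 0) (hPV : ∀ t : ℝ, (∃ x ∈ interior K, inner ℝ x w = t) →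
      evalEval t (cutPlus K w t) P = 0)
    (P' : ℝ[X][X]) (hP' : P' ≠ 0) (hPV' : ∀ t : ℝ, (∃ x ∈ interior K, inner ℝ x (-w) = t) →
      evalEval t (cutPlus K (-w) t) P' = 0)
    (hb1 : ∃ p ∈ K, ∃ l : ℝ, 0 < l ∧ K ⊆ Metric.closedBall (p - l • w) (l * ‖w‖))
    (hb2 : ∃ p ∈ K, ∃ l : ℝ, 0 < l ∧ K ⊆ Metric.closedBall (p - l • (-w)) (l * ‖-w‖)) :
    Good K w := by
  obtain ⟨p, hp, l, hl, hball⟩ := hb1
  obtain ⟨p', hp', l', hl', hball'⟩ := hb2
  obtain ⟨g, hg, hgV⟩ := right_end hK hc hint hs hw P hP hPV hp hl hball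
  obtain ⟨g', hg', hgV'⟩ := right_end hK hc hint hs (neg_ne_zero.2 hw) P' hP' hPV' hp' hl' hball'
  obtain ⟨κ, hκ, hfacts⟩ := cut_facts hw
  obtain ⟨hI, hcont, hdiff, hder, hmom, hz1, hz2, hz3⟩ := hfacts K hK
  have hPcl := alg_closed hK hc hint hw P hPV hcont
  have hlt := lo_lt_hi hK hint hw
  have hlo : hi K (-w) = - lo K w := by simp [lo]
  -- left end
  have hleft : ∀ᶠ t in 𝓝[≥] (lo K w), cutPlus K w t = (volume K).toReal - g' (t - lo K w) := by
    rw [hlo] at hgV'
    have h1 : Tendsto (fun t : ℝ => -t) (𝓝[≥] (lo K w)) (𝓝[≤] (-lo K w)) := by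
      apply tendsto_nhdsWithin_of_tendsto_nhds_of_eventually_within
      · exact (continuous_neg.tendsto _).mono_left nhdsWithin_le_nhds
      · filter_upwards [self_mem_nhdsWithin] with t ht
        exact neg_le_neg (mem_Ici.1 ht)
    filter_upwards [h1.eventually hgV'] with t ht
    rw [cutPlus_neg hK hw, ht]
    congr 2
    ring
  set a := lo K w with ha
  set b := hi K w with hb
  set V : ℝ → ℝ := fun t => if t < a then (volume K).toReal - g' (t - a) else
    if b < t then g (b - t) else cutPlus K w t with hV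
  have hVin : ∀ t ∈ Icc a b, V t = cutPlus K w t := by
    intro t ht; simp [hV, not_lt.2 ht.1, not_lt.2 ht.2]
  have hVnear : ∀ t ∈ Ioo a b, V =ᶠ[𝓝 t] cutPlus K w := by
    intro t ht
    filter_upwards [Ioo_mem_nhds ht.1 ht.2] with s hs
    exact hVin s (Ioo_subset_Icc_self hs)
  have hsmv : ∀ t ∈ Ioo a b, ContDiffAt ℝ (⊤ : ℕ∞) (sv K w) t := fun t ht =>
    slice_smooth hK hc hint hs hw ht
  have hderV : ∀ t ∈ Ioo a b, HasDerivAt (cutPlus K w) (κ * sv K w t) t := fun t ht =>
    hder t (hsmv t ht).continuousAt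
  have hVan : ∀ t ∈ Ioo a b, AnalyticAt ℝ (cutPlus K w) t := by
    intro t ht
    have h1 : ContDiffAt ℝ (⊤ : ℕ∞) (cutPlus K w) t :=
      contDiffAt_primitive (f := fun t => κ * sv K w t) (contDiffAt_const.mul (hsmv t ht))
        (Filter.eventually_of_mem (Ioo_mem_nhds ht.1 ht.2) hderV)
    exact smooth_alg_analytic h1 P hP
      (Filter.eventually_of_mem (Ioo_mem_nhds ht.1 ht.2) fun s hs => hPcl s (Ioo_subset_Icc_self hs))
  have hVa : AnalyticAt ℝ V a := by
    have h1 : AnalyticAt ℝ (fun t => (volume K).toReal - g' (t - a)) a := by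
      have : AnalyticAt ℝ g' (a - a) := by simpa using hg'
      exact analyticAt_const.sub (AnalyticAt.fun_comp this (analyticAt_id.sub analyticAt_const))
    refine h1.congr ?_
    rw [eventually_nhdsWithin_iff] at hleft
    filter_upwards [hleft, Iio_mem_nhds hlt] with t ht1 ht2
    by_cases h : t < a
    · simp [hV, h]
    · have ht2' : ¬ b < t := not_lt.2 (le_of_lt ht2)
      simp only [hV, h, ht2', if_false]
      exact (ht1 (not_lt.1 h)).symm
  have hVb : AnalyticAt ℝ V b := by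
    have h1 : AnalyticAt ℝ (fun t => g (b - t)) b := by
      have : AnalyticAt ℝ g (b - b) := by simpa using hg
      exact AnalyticAt.fun_comp this (analyticAt_const.sub analyticAt_id)
    refine h1.congr ?_
    rw [eventually_nhdsWithin_iff] at hgV
    filter_upwards [hgV, Ioi_mem_nhds hlt] with t ht1 ht2
    have h' : ¬ t < a := not_lt.2 (le_of_lt ht2)
    by_cases h : b < t
    · simp [hV, h, h']
    · simp only [hV, h, h', if_false]
      exact (ht1 (not_lt.1 h)).symm
  refine ⟨hlt, V, ?_, ⟨P, hP, ?_⟩, ?_, ?_⟩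
  · intro t ht
    rcases eq_or_lt_of_le ht.1 with rfl | h1
    · exact hVa
    rcases eq_or_lt_of_le ht.2 with h2 | h2
    · rw [h2]; exact hVb
    · exact (hVan t ⟨h1, h2⟩).congr (hVnear t ⟨h1, h2⟩).symm
  · intro t ht
    rw [hVin t ht]; exact hPcl t ht
  · rw [hVin a (left_mem_Icc.2 hlt.le), hVin b (right_mem_Icc.2 hlt.le), hz3 a le_rfl]
    have h1 : cutPlus K w b = (volume K).toReal := by
      unfold cutPlus
      congr 2
      ext x
      simp only [mem_inter_iff, mem_ofPred_eq, and_iff_left_iff_imp]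
      exact fun hx => le_hi hK hx w
    rw [h1]
    have hpos : 0 < volume K := lt_of_lt_of_le (isOpen_interior.measure_pos volume hint)
      (measure_mono interior_subset)
    exact (ENNReal.toReal_pos hpos.ne' hK.measure_lt_top.ne).ne
  · intro m
    rw [hmom m]
    have h1 : ∫ t, t ^ m * sv K w t = ∫ t in a..b, t ^ m * sv K w t := by
      rw [intervalIntegral.integral_of_le hlt.le, ← integral_Icc_eq_integral_Ioc]
      symm
      apply setIntegral_eq_integral_of_forall_compl_eq_zero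
      intro x hx
      rw [mem_Icc, not_and_or, not_le, not_le] at hx
      rcases hx with hx | hx
      · rw [hz1 x hx, mul_zero]
      · rw [hz2 x hx, mul_zero]
    rw [h1, ← intervalIntegral.integral_const_mul]
    apply intervalIntegral.integral_congr_ae
    have h2 : ∀ᵐ t : ℝ, t ≠ b := by
      rw [ae_iff]; simp
    filter_upwards [h2] with t htb ht
    rw [uIoc_of_le hlt.le] at ht
    have ht' : t ∈ Ioo a b := ⟨ht.1, lt_of_le_of_ne ht.2 htb⟩
    rw [(hVnear t ht').deriv_eq, (hderV t ht').deriv]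
    ring

theorem good_ae {k : ℕ} (hk : 1 ≤ k) {K : Set (E (2 * k + 1))} (hK : IsCompact K) (hc : Convex ℝ K)
    (hint : (interior K).Nonempty) (hs : SmoothBoundary K) (halg : AlgebraicallyIntegrable K) :
    ∀ᵐ w : E (2 * k + 1), Good K w := by
  have h1 := alg_ae (by omega) halg
  have h2 := ball_ae hK (hint.mono interior_subset)
  have hq : Measure.QuasiMeasurePreserving (fun w : E (2 * k + 1) => -w) volume volume :=
    (Measure.measurePreserving_neg volume).quasiMeasurePreserving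
  have h1' := hq.ae h1
  have h2' := hq.ae h2
  have h0 : ∀ᵐ w : E (2 * k + 1), w ≠ 0 := by
    rw [ae_iff]; simp
  filter_upwards [h1, h2, h1', h2', h0] with w a1 a2 a1' a2' a0
  obtain ⟨P, hP, hPV⟩ := a1
  obtain ⟨P', hP', hPV'⟩ := a1'
  exact good_of hK hc hint hs a0 P hP hPV P' hP' hPV' a2 a2'

end P56acde
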