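import Pool.Agent.Lib.P56acde.Defs

/-! MODULE LinesA (independent).
`moment_poly`: `(m k).eval s = ∑_j binom(k,j) s^j ∫_K ⟨x,u⟩^{k-j} ⟨x,v⟩^j`, `C = vol K`; for complex `s`, `(m k)(s) = ∫_K (⟨x,u⟩ + s⟨x,v⟩)^k dx`.
`ae_lines`: for fixed `s`, `{u : ¬ p (u + s v)}` is a translate of a null set; Tonelli on `E n × ℝ` with a measurable null superset.
`poly_limit`: Lagrange interpolation at `e+1` points. -/

open Polynomial Set Filter Topology MeasureTheory

namespace P56acde

/-- Moment polynomials on lines. -/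
theorem moment_poly {n : ℕ} {K : Set (E n)} (hK : IsCompact K) {R : ℝ} (hR : 0 ≤ R)
    (hKR : K ⊆ Metric.closedBall 0 R) (u v : E n) :
    ∃ (m : ℕ → ℝ[X]) (C : ℝ), 0 ≤ C ∧ (∀ k (s : ℝ), ∫ x in K, (inner ℝ x (u + s • v) : ℝ) ^ k = (m k).eval s) ∧
      ∀ k (s : ℂ), ‖((m k).map Complex.ofRealHom).eval s‖ ≤ C * (R * (‖u‖ + ‖s‖ * ‖v‖)) ^ k := by
  classical
  set m : ℕ → ℝ[X] := fun k => ∑ j ∈ Finset.range (k + 1),
    Polynomial.C (∫ x in K, (inner ℝ x v : ℝ) ^ j * (inner ℝ x u : ℝ) ^ (k - j) * (k.choose j : ℝ)) * X ^ j with hm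
  have hcx : ∀ k (s : ℂ), ((m k).map Complex.ofRealHom).eval s =
      ∫ x in K, (s * ((inner ℝ x v : ℝ) : ℂ) + ((inner ℝ x u : ℝ) : ℂ)) ^ k := by
    intro k s
    have h1 : ∀ x : E n, (s * ((inner ℝ x v : ℝ) : ℂ) + ((inner ℝ x u : ℝ) : ℂ)) ^ k =
        ∑ j ∈ Finset.range (k + 1),
          (((inner ℝ x v : ℝ) ^ j * (inner ℝ x u : ℝ) ^ (k - j) * (k.choose j : ℝ) : ℝ) : ℂ) * s ^ j := by
      intro x
      rw [add_pow]
      refine Finset.sum_congr rfl fun j _ => ?_
      push_cast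
      ring
    simp_rw [h1]
    rw [integral_finsetSum]
    · simp only [hm, Polynomial.map_sum, Polynomial.eval_finsetSum]
      refine Finset.sum_congr rfl fun j _ => ?_
      set c : E n → ℝ := fun x => (inner ℝ x v : ℝ) ^ j * (inner ℝ x u : ℝ) ^ (k - j) * (k.choose j : ℝ)
      have h2 : ∫ x in K, ((c x : ℝ) : ℂ) * s ^ j = ((∫ x in K, c x : ℝ) : ℂ) * s ^ j := by
        rw [MeasureTheory.integral_mul_const]
        congr 1
        exact integral_complex_ofReal
      rw [h2]
      simp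
    · intro j _
      refine ContinuousOn.integrableOn_compact hK (Continuous.continuousOn ?_)
      fun_prop
  refine ⟨m, (volume K).toReal, ENNReal.toReal_nonneg, fun k s => ?_, fun k s => ?_⟩
  · have h := hcx k (s : ℂ)
    have h2 : ((m k).map Complex.ofRealHom).eval (s : ℂ) = (((m k).eval s : ℝ) : ℂ) := by
      have := Polynomial.eval_map_apply Complex.ofRealHom (p := m k) s
      simpa using this
    rw [h2] at h
    have h3 : ∀ x : E n, (((s : ℂ) * ((inner ℝ x v : ℝ) : ℂ) + ((inner ℝ x u : ℝ) : ℂ)) ^ k : ℂ) =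
        (((inner ℝ x (u + s • v) : ℝ) ^ k : ℝ) : ℂ) := by
      intro x
      rw [inner_add_right, real_inner_smul_right]
      push_cast
      ring
    simp_rw [h3] at h
    rw [integral_complex_ofReal] at h
    exact (Complex.ofReal_injective h).symm
  · rw [hcx k s]
    have h1 : ∀ x ∈ K, ‖(s * ((inner ℝ x v : ℝ) : ℂ) + ((inner ℝ x u : ℝ) : ℂ)) ^ k‖ ≤
        (R * (‖u‖ + ‖s‖ * ‖v‖)) ^ k := by
      intro x hx
      rw [norm_pow]
      have hxR : ‖x‖ ≤ R := by simpa using hKR hx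
      gcongr
      calc ‖s * ((inner ℝ x v : ℝ) : ℂ) + ((inner ℝ x u : ℝ) : ℂ)‖
          ≤ ‖s * ((inner ℝ x v : ℝ) : ℂ)‖ + ‖((inner ℝ x u : ℝ) : ℂ)‖ := norm_add_le _ _
        _ = ‖s‖ * |inner ℝ x v| + |inner ℝ x u| := by simp
        _ ≤ ‖s‖ * (‖x‖ * ‖v‖) + ‖x‖ * ‖u‖ := by
            gcongr
            · exact abs_real_inner_le_norm x v
            · exact abs_real_inner_le_norm x u
        _ ≤ ‖s‖ * (R * ‖v‖) + R * ‖u‖ := by gcongr
        _ = R * (‖u‖ + ‖s‖ * ‖v‖) := by ring
    have h2 := norm_setIntegral_le_of_norm_le_const (μ := volume) hK.measure_lt_top h1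
    rw [mul_comm] at h2
    exact h2

theorem ae_lines {n : ℕ} {p : E n → Prop} (hp : ∀ᵐ w, p w) (v : E n) :
    ∀ᵐ u : E n, ∀ᵐ s : ℝ, p (u + s • v) := by
  set N : Set (E n) := toMeasurable volume {w | ¬ p w} with hN
  have hN0 : volume N = 0 := by rw [hN, measure_toMeasurable]; exact hp
  have hNm : MeasurableSet N := measurableSet_toMeasurable _ _
  have hsub : ∀ w, w ∉ N → p w := fun w hw => by
    by_contra h
    exact hw (subset_toMeasurable _ _ h)
  have h1 : ∀ᵐ s : ℝ, ∀ᵐ u : E n, u + s • v ∉ N := by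
    refine Eventually.of_forall fun s => ?_
    rw [ae_iff]
    simp only [not_not]
    have : {a : E n | a + s • v ∈ N} = (fun a => a + s • v) ⁻¹' N := rfl
    rw [this, measure_preimage_add_right]
    exact hN0
  have h2 := (Measure.ae_ae_comm (μ := (volume : Measure ℝ)) (ν := (volume : Measure (E n)))
    (p := fun s u => u + s • v ∉ N) ?_).mp h1
  · filter_upwards [h2] with u hu
    filter_upwards [hu] with s hs
    exact hsub _ hs
  · have : Measurable (fun q : ℝ × E n => q.2 + q.1 • v) := by fun_prop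
    exact this hNm.compl

/-- A pointwise limit along a dense set of polynomials of degree `≤ e`. -/
theorem poly_limit {n : ℕ} (f : E n → ℝ) (hf : Continuous f) (v : E n) (e : ℕ) (S : Set (E n)) (hS : Dense S)
    (h : ∀ u ∈ S, ∃ q : ℝ[X], q.natDegree ≤ e ∧ ∀ s : ℝ, f (u + s • v) = q.eval s) (u : E n) :
    ∃ q : ℝ[X], q.natDegree ≤ e ∧ ∀ s : ℝ, f (u + s • v) = q.eval s := by
  classical
  set nodes : ℕ → ℝ := fun i => (i : ℝ) with hnodes
  have hinj : Set.InjOn nodes (Finset.range (e + 1) : Finset ℕ) := fun i _ j _ hij => by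
    simpa [hnodes] using hij
  set Q : E n → ℝ[X] := fun u => Lagrange.interpolate (Finset.range (e + 1)) nodes
    (fun i => f (u + nodes i • v)) with hQ
  have hS' : ∀ s : ℝ, ∀ u ∈ S, f (u + s • v) = (Q u).eval s := by
    intro s u hu
    obtain ⟨q, hq, hqe⟩ := h u hu
    have h1 : q = Lagrange.interpolate (Finset.range (e + 1)) nodes (fun i => q.eval (nodes i)) := by
      refine Lagrange.eq_interpolate hinj ?_
      rw [Finset.card_range]
      refine lt_of_le_of_lt Polynomial.degree_le_natDegree ?_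
      exact_mod_cast Nat.lt_succ_of_le hq
    rw [hqe s]
    conv_lhs => rw [h1]
    simp only [hQ, hqe]
  refine ⟨Q u, ?_, fun s => ?_⟩
  · have h1 := Lagrange.degree_interpolate_le (fun i => f (u + nodes i • v)) hinj
    rw [Finset.card_range, Nat.add_sub_cancel] at h1
    exact Polynomial.natDegree_le_iff_degree_le.mpr h1
  · have hc : Continuous fun u => (Q u).eval s := by
      simp only [hQ, Lagrange.interpolate_apply, Polynomial.eval_finsetSum, Polynomial.eval_mul,
        Polynomial.eval_C]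
      fun_prop
    have hc' : Continuous fun u => f (u + s • v) := by fun_prop
    exact congrFun (hc'.ext_on hS hc (hS' s)) u

end P56acde
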