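import Pool.Agent.Lib.P56acde.Core
import Pool.Agent.Lib.P56acde.Gen
import Pool.Agent.Lib.P56acde.LinesA
import Pool.Agent.Lib.P56acde.ConvB

/-! MODULE Lines (from almost every direction is good to polynomiality on all lines; uses `Core`, `Gen`, `hi_continuous`, `abs_hi_le`).
PROOF. Fix `v`. `{(u,s) : ¬ Good K (u+sv)}` is null (Tonelli: for fixed `s` a translate of a null set; use a measurable null superset), so for a.e. `u`,
for a.e. `s`, `u + s v` is good.  For such `u` apply `gen` to `S = {s : Good K (u+sv)}` (co-null, so `S \ N` is dense for countable `N`),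
`m k` with `(m k).eval s = ∫_K ⟨x,u+sv⟩^k dx = ∑_j binom(k,j) s^j ∫_K ⟨x,u⟩^{k-j} ⟨x,v⟩^j`; for complex `s'`,
`(m k)(s') = ∫_K (⟨x,u⟩ + s'⟨x,v⟩)^k dx`, of modulus `≤ vol K (R(|u|+|s'||v|))^k`; `T(s) = lo + hi` (`e=1`) and `lo * hi` (`e=2`); `h1`, `h2` from
`core_both`, `core_bound`.  Then for all `u` by continuity: `u ↦ T(u+s v)` continuous, and a pointwise limit of polynomials of degree `≤ e` is a
polynomial of degree `≤ e` (Lagrange interpolation). -/

open Polynomial Set Filter Topology MeasureTheory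

namespace P56acde

theorem ln_lo_continuous {n : ℕ} {K : Set (E n)} (hK : IsCompact K) (hne : K.Nonempty) :
    Continuous (lo K) :=
  ((hi_continuous hK hne).comp continuous_neg).neg

/-- conjugation of good directions with the same moments -/
theorem ln_good_conj {n : ℕ} {K : Set (E n)} {w w' : E n} (hw : Good K w) (hw' : Good K w')
    (σ : ℂ ≃+* ℂ)
    (hσ : ∀ k : ℕ, σ ((∫ x in K, (inner ℝ x w : ℝ) ^ k : ℝ) : ℂ)
      = ((∫ x in K, (inner ℝ x w' : ℝ) ^ k : ℝ) : ℂ)) :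
    (σ (lo K w) = lo K w' ∧ σ (hi K w) = hi K w') ∨ (σ (lo K w) = hi K w' ∧ σ (hi K w) = lo K w') := by
  obtain ⟨hlt, V, hV, ⟨P, hP, hPV⟩, hne, hmom⟩ := hw
  obtain ⟨hlt', V', hV', -, -, hmom'⟩ := hw'
  refine core_both hlt hV P hP hPV hne hlt' hV'.deriv σ ?_
  intro k
  have h := hσ k
  rw [hmom k, hmom' k] at h
  exact h

theorem ln_good_bound {n : ℕ} {K : Set (E n)} {w : E n} (hw : Good K w)
    {M' : ℕ → ℂ} {C R : ℝ} (hR : 0 ≤ R) (hM' : ∀ k, ‖M' k‖ ≤ C * R ^ k)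
    (σ : ℂ ≃+* ℂ)
    (hσ : ∀ k : ℕ, σ ((∫ x in K, (inner ℝ x w : ℝ) ^ k : ℝ) : ℂ) = M' k) :
    ‖σ (lo K w)‖ ≤ R ∧ ‖σ (hi K w)‖ ≤ R := by
  obtain ⟨hlt, V, hV, ⟨P, hP, hPV⟩, hne, hmom⟩ := hw
  refine core_bound hlt hV P hP hPV hne hR hM' σ ?_
  intro k
  have h := hσ k
  rw [hmom k] at h
  exact h

/-- For `u` such that a.e. `u + s v` is good. -/
theorem ln_poly_good {n : ℕ} {K : Set (E n)} (hK : IsCompact K) (hne : K.Nonempty)
    (u v : E n) (hu : ∀ᵐ s : ℝ, Good K (u + s • v)) :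
    (∃ q : ℝ[X], q.natDegree ≤ 1 ∧ ∀ s : ℝ, lo K (u + s • v) + hi K (u + s • v) = q.eval s) ∧
    (∃ q : ℝ[X], q.natDegree ≤ 2 ∧ ∀ s : ℝ, lo K (u + s • v) * hi K (u + s • v) = q.eval s) := by
  obtain ⟨R₀, hR₀⟩ := hK.isBounded.subset_closedBall (0 : E n)
  set R : ℝ := max R₀ 0 with hRdef
  have hR : 0 ≤ R := le_max_right _ _
  have hKR : K ⊆ Metric.closedBall 0 R :=
    hR₀.trans (Metric.closedBall_subset_closedBall (le_max_left _ _))
  obtain ⟨m, C, hC, hm, hmC⟩ := moment_poly hK hR hKR u v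
  let S : Set ℝ := {s | Good K (u + s • v)}
  have hS : ∀ N : Set ℝ, N.Countable → Dense (S \ N) := by
    intro N hN
    refine Measure.dense_of_ae (μ := (volume : Measure ℝ)) ?_
    have h1 : ∀ᵐ s : ℝ, s ∉ N := by
      rw [← MeasureTheory.measure_eq_zero_iff_ae_notMem]
      exact hN.measure_zero volume
    filter_upwards [hu, h1] with s hs1 hs2
    exact ⟨hs1, hs2⟩
  have hline : Continuous (fun s : ℝ => u + s • v) := by fun_prop
  have hhi : Continuous (fun s : ℝ => hi K (u + s • v)) := (hi_continuous hK hne).comp hline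
  have hlo : Continuous (fun s : ℝ => lo K (u + s • v)) := (ln_lo_continuous hK hne).comp hline
  set D : ℝ := R * (‖u‖ + ‖v‖) with hD
  have hD0 : 0 ≤ D := by positivity
  have hbd : ∀ s' : ℂ, R * (‖u‖ + ‖s'‖ * ‖v‖) ≤ D * (1 + ‖s'‖) := by
    intro s'
    have h1 : 0 ≤ R * (‖u‖ * ‖s'‖) := by positivity
    have h2 : 0 ≤ R * ‖v‖ := by positivity
    have h3 : D * (1 + ‖s'‖) = R * (‖u‖ + ‖s'‖ * ‖v‖) + R * (‖u‖ * ‖s'‖) + R * ‖v‖ := by
      rw [hD]; ring
    linarith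
  have hconj : ∀ s ∈ S, ∀ s' ∈ S, ∀ σ : ℂ ≃+* ℂ,
      (∀ k, σ (((m k).eval s : ℝ) : ℂ) = (((m k).eval s' : ℝ) : ℂ)) →
      (σ (lo K (u + s • v)) = lo K (u + s' • v) ∧ σ (hi K (u + s • v)) = hi K (u + s' • v)) ∨
      (σ (lo K (u + s • v)) = hi K (u + s' • v) ∧ σ (hi K (u + s • v)) = lo K (u + s' • v)) := by
    intro s hs s' hs' σ hσ
    refine ln_good_conj hs hs' σ ?_
    intro k
    rw [hm k s, hm k s']
    exact hσ k
  have hbound : ∀ s ∈ S, ∀ s' : ℂ, ∀ σ : ℂ ≃+* ℂ,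
      (∀ k, σ (((m k).eval s : ℝ) : ℂ) = ((m k).map Complex.ofRealHom).eval s') →
      ‖σ (lo K (u + s • v))‖ ≤ D * (1 + ‖s'‖) ∧ ‖σ (hi K (u + s • v))‖ ≤ D * (1 + ‖s'‖) := by
    intro s hs s' σ hσ
    have h1 := ln_good_bound (M' := fun k => ((m k).map Complex.ofRealHom).eval s') (C := C)
      (R := R * (‖u‖ + ‖s'‖ * ‖v‖)) hs (by positivity) (fun k => hmC k s') σ (by
        intro k
        rw [hm k s]
        exact hσ k)
    exact ⟨h1.1.trans (hbd s'), h1.2.trans (hbd s')⟩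
  constructor
  · refine gen m S hS (fun s => lo K (u + s • v) + hi K (u + s • v)) (hlo.add hhi) 1 (2 * D) ?_ ?_
    · intro s hs s' hs' σ hσ
      rcases hconj s hs s' hs' σ hσ with ⟨h1, h2⟩ | ⟨h1, h2⟩
      · push_cast
        rw [map_add, h1, h2]
      · push_cast
        rw [map_add, h1, h2, add_comm]
    · intro s hs s' σ hσ
      obtain ⟨h1, h2⟩ := hbound s hs s' σ hσ
      push_cast
      rw [map_add]
      calc ‖σ (lo K (u + s • v) : ℂ) + σ (hi K (u + s • v) : ℂ)‖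
          ≤ ‖σ (lo K (u + s • v) : ℂ)‖ + ‖σ (hi K (u + s • v) : ℂ)‖ := norm_add_le _ _
        _ ≤ D * (1 + ‖s'‖) + D * (1 + ‖s'‖) := add_le_add h1 h2
        _ = 2 * D * (1 + ‖s'‖) ^ 1 := by ring
  · refine gen m S hS (fun s => lo K (u + s • v) * hi K (u + s • v)) (hlo.mul hhi) 2 (D ^ 2) ?_ ?_
    · intro s hs s' hs' σ hσ
      rcases hconj s hs s' hs' σ hσ with ⟨h1, h2⟩ | ⟨h1, h2⟩
      · push_cast
        rw [map_mul, h1, h2]
      · push_cast
        rw [map_mul, h1, h2, mul_comm]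
    · intro s hs s' σ hσ
      obtain ⟨h1, h2⟩ := hbound s hs s' σ hσ
      push_cast
      rw [map_mul, norm_mul]
      calc ‖σ (lo K (u + s • v) : ℂ)‖ * ‖σ (hi K (u + s • v) : ℂ)‖
          ≤ (D * (1 + ‖s'‖)) * (D * (1 + ‖s'‖)) := by
            apply mul_le_mul h1 h2 (norm_nonneg _)
            positivity
        _ = D ^ 2 * (1 + ‖s'‖) ^ 2 := by ring

theorem poly_on_lines {n : ℕ} {K : Set (E n)} (hK : IsCompact K) (hne : K.Nonempty)
    (hgood : ∀ᵐ w : E n, Good K w) (u v : E n) :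
    (∃ q : ℝ[X], q.natDegree ≤ 1 ∧ ∀ s : ℝ, lo K (u + s • v) + hi K (u + s • v) = q.eval s) ∧
    (∃ q : ℝ[X], q.natDegree ≤ 2 ∧ ∀ s : ℝ, lo K (u + s • v) * hi K (u + s • v) = q.eval s) := by
  have hae := ae_lines hgood v
  let U : Set (E n) := {u | ∀ᵐ s : ℝ, Good K (u + s • v)}
  have hU : Dense U := Measure.dense_of_ae (μ := (volume : Measure (E n))) hae
  have hhi := hi_continuous hK hne
  have hlo := ln_lo_continuous hK hne
  constructor
  · exact poly_limit (fun w => lo K w + hi K w) (hlo.add hhi) v 1 U hU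
      (fun u hu => (ln_poly_good hK hne u v hu).1) u
  · exact poly_limit (fun w => lo K w * hi K w) (hlo.mul hhi) v 2 U hU
      (fun u hu => (ln_poly_good hK hne u v hu).2) u

end P56acde
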