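import Pool.Agent.Lib.P56acde.GoodAE
import Pool.Agent.Lib.P56acde.Lines
import Pool.Agent.Lib.P56acde.FinalA
import Pool.Agent.Lib.P56acde.FinalB

open Polynomial Set Filter Topology MeasureTheory

namespace P56acde

theorem main {k : ℕ} (hk : 1 ≤ k) {K : Set (E (2 * k + 1))} (hK : IsCompact K) (hc : Convex ℝ K)
    (hint : (interior K).Nonempty) (hs : SmoothBoundary K) (halg : AlgebraicallyIntegrable K) :
    IsEllipsoid K := by
  have hgood := good_ae hk hK hc hint hs halg
  have hne : K.Nonempty := hint.mono interior_subset
  obtain ⟨c, L, h⟩ := finalA hK hint (fun u v => (poly_on_lines hK hne hgood u v).1)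
    (fun u v => (poly_on_lines hK hne hgood u v).2)
  exact finalB hK hc hne c L h

end P56acde
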