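import Pool.Agent.Lib.P56acde.Defs

/-! MODULE SliceM (Fubini for slices; independent).
PROOF. `(y,t) ↦ y + (t/|w|²) w` is a linear isomorphism `w^⊥ × ℝ → E n`; the image of `volume × volume` is an additive Haar measure, hence
a positive multiple of `volume`. `⟨x,w⟩ = t` for `x = y + (t/|w|²) w`. Tonelli/Fubini. -/

open Set Filter Topology MeasureTheory

namespace P56acde

/-- The map `(y,t) ↦ y + (t/|w|²) w`. -/
noncomputable def sliceLin {n : ℕ} (w : E n) :
    ((ℝ ∙ w)ᗮ : Submodule ℝ (E n)) × ℝ →ₗ[ℝ] E n where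
  toFun p := (p.1 : E n) + (p.2 / ‖w‖ ^ 2) • w
  map_add' p q := by
    simp only [Prod.fst_add, Prod.snd_add, Submodule.coe_add, add_div, add_smul]
    abel
  map_smul' c p := by
    simp only [Prod.smul_fst, Prod.smul_snd, Submodule.coe_smul, smul_eq_mul, RingHom.id_apply,
      smul_add, smul_smul, mul_div_assoc]

theorem sliceLin_apply {n : ℕ} (w : E n) (p : ((ℝ ∙ w)ᗮ : Submodule ℝ (E n)) × ℝ) :
    sliceLin w p = (p.1 : E n) + (p.2 / ‖w‖ ^ 2) • w := rfl

theorem inner_orth {n : ℕ} {w : E n} (y : ((ℝ ∙ w)ᗮ : Submodule ℝ (E n))) :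
    inner ℝ (y : E n) w = 0 := by
  have := y.2
  rw [Submodule.mem_orthogonal_singleton_iff_inner_left] at this
  exact this

theorem inner_sliceLin {n : ℕ} {w : E n} (hw : w ≠ 0)
    (p : ((ℝ ∙ w)ᗮ : Submodule ℝ (E n)) × ℝ) : inner ℝ (sliceLin w p) w = p.2 := by
  have hn : ‖w‖ ^ 2 ≠ 0 := pow_ne_zero 2 (norm_ne_zero_iff.2 hw)
  rw [sliceLin_apply, inner_add_left, inner_orth, inner_smul_left, real_inner_self_eq_norm_sq]
  simp only [conj_trivial, zero_add]
  field_simp

theorem sliceLin_bij {n : ℕ} {w : E n} (hw : w ≠ 0) : Function.Bijective (sliceLin w) := by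
  have hn : ‖w‖ ^ 2 ≠ 0 := pow_ne_zero 2 (norm_ne_zero_iff.2 hw)
  constructor
  · rw [← LinearMap.ker_eq_bot, LinearMap.ker_eq_bot']
    intro p hp
    have h1 : p.2 = 0 := by rw [← inner_sliceLin hw p, hp, inner_zero_left]
    rw [sliceLin_apply, h1] at hp
    have h2 : (p.1 : E n) = 0 := by simpa using hp
    exact Prod.ext (by simpa using h2) h1
  · intro x
    have hmem : x - (inner ℝ x w / ‖w‖ ^ 2) • w ∈ ((ℝ ∙ w)ᗮ : Submodule ℝ (E n)) := by
      rw [Submodule.mem_orthogonal_singleton_iff_inner_left, inner_sub_left, inner_smul_left,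
        real_inner_self_eq_norm_sq]
      simp only [conj_trivial]
      field_simp
      ring
    refine ⟨(⟨_, hmem⟩, inner ℝ x w), ?_⟩
    rw [sliceLin_apply]
    simp

/-- The same map as a continuous linear equivalence. -/
noncomputable def sliceEquiv {n : ℕ} {w : E n} (hw : w ≠ 0) :
    (((ℝ ∙ w)ᗮ : Submodule ℝ (E n)) × ℝ) ≃L[ℝ] E n :=
  (LinearEquiv.ofBijective (sliceLin w) (sliceLin_bij hw)).toContinuousLinearEquiv

theorem sliceEquiv_apply {n : ℕ} {w : E n} (hw : w ≠ 0)
    (p : ((ℝ ∙ w)ᗮ : Submodule ℝ (E n)) × ℝ) : sliceEquiv hw p = sliceLin w p := rfl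

theorem volume_eq_map {n : ℕ} {w : E n} (hw : w ≠ 0) :
    ∃ κ : NNReal, 0 < κ ∧ (volume : Measure (E n)) = κ • Measure.map (sliceEquiv hw)
      ((volume : Measure ((ℝ ∙ w)ᗮ : Submodule ℝ (E n))).prod (volume : Measure ℝ)) := by
  have h1 : (Measure.map (sliceEquiv hw)
      ((volume : Measure ((ℝ ∙ w)ᗮ : Submodule ℝ (E n))).prod (volume : Measure ℝ))).IsAddHaarMeasure :=
    ContinuousLinearEquiv.isAddHaarMeasure_map (sliceEquiv hw)
      ((volume : Measure ((ℝ ∙ w)ᗮ : Submodule ℝ (E n))).prod (volume : Measure ℝ))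
  refine ⟨Measure.addHaarScalarFactor volume (Measure.map (sliceEquiv hw)
      ((volume : Measure ((ℝ ∙ w)ᗮ : Submodule ℝ (E n))).prod (volume : Measure ℝ))), ?_, ?_⟩
  · exact Measure.addHaarScalarFactor_pos_of_isAddHaarMeasure _ _
  · exact Measure.isAddLeftInvariant_eq_smul _ _

theorem slice_eq {n : ℕ} {w : E n} (hw : w ≠ 0) (K : Set (E n)) (t : ℝ) :
    slice K w t = {y | sliceEquiv hw (y, t) ∈ K} := rfl

theorem isCompact_pre {n : ℕ} {w : E n} (hw : w ≠ 0) {K : Set (E n)} (hK : IsCompact K) :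
    IsCompact ((sliceEquiv hw) ⁻¹' K) :=
  (sliceEquiv hw).toHomeomorph.isCompact_preimage.2 hK

theorem slice_aux {n : ℕ} {w : E n} (hw : w ≠ 0) {K : Set (E n)} (hK : IsCompact K) {g : ℝ → ℝ}
    (hg : Measurable g) (hb : ∃ C, ∀ t, |g t| ≤ C) :
    Integrable (fun p : ((ℝ ∙ w)ᗮ : Submodule ℝ (E n)) × ℝ =>
      ((sliceEquiv hw) ⁻¹' K).indicator (fun p => g p.2) p)
      ((volume : Measure ((ℝ ∙ w)ᗮ : Submodule ℝ (E n))).prod (volume : Measure ℝ)) := by
  obtain ⟨C, hC⟩ := hb
  have hc := isCompact_pre hw hK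
  rw [integrable_indicator_iff hc.isClosed.measurableSet]
  refine Measure.integrableOn_of_bounded (M := C) hc.measure_lt_top.ne ?_ ?_
  · exact (hg.comp measurable_snd).aestronglyMeasurable
  · exact Eventually.of_forall fun p => by rw [Real.norm_eq_abs]; exact hC p.2

theorem inner_integral {n : ℕ} {w : E n} (hw : w ≠ 0) {K : Set (E n)} (hK : IsCompact K)
    (g : ℝ → ℝ) (t : ℝ) :
    ∫ y : ((ℝ ∙ w)ᗮ : Submodule ℝ (E n)),
      ((sliceEquiv hw) ⁻¹' K).indicator (fun p => g p.2) (y, t)
      = g t * (volume (slice K w t)).toReal := by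
  have hcl : IsClosed (slice K w t) := by
    rw [slice_eq hw]
    have hcont : Continuous fun y : ((ℝ ∙ w)ᗮ : Submodule ℝ (E n)) => sliceEquiv hw (y, t) :=
      (sliceEquiv hw).continuous.comp (by fun_prop)
    exact hK.isClosed.preimage hcont
  have h1 : (fun y : ((ℝ ∙ w)ᗮ : Submodule ℝ (E n)) =>
      ((sliceEquiv hw) ⁻¹' K).indicator (fun p => g p.2) (y, t))
      = (slice K w t).indicator (fun _ => g t) := by
    funext y
    by_cases hy : y ∈ slice K w t
    · have hy' : (y, t) ∈ (sliceEquiv hw) ⁻¹' K := hy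
      rw [indicator_of_mem hy, indicator_of_mem hy']
    · have hy' : (y, t) ∉ (sliceEquiv hw) ⁻¹' K := hy
      rw [indicator_of_notMem hy, indicator_of_notMem hy']
  rw [h1, integral_indicator hcl.measurableSet, setIntegral_const, smul_eq_mul, mul_comm]
  rfl

theorem slice_fubini' {n : ℕ} {w : E n} (hw : w ≠ 0) :
    ∃ κ : ℝ, 0 < κ ∧ ∀ K : Set (E n), IsCompact K → ∀ g : ℝ → ℝ, Measurable g →
      (∃ C, ∀ t, |g t| ≤ C) →
      Integrable (fun t => g t * (volume (slice K w t)).toReal) ∧
      ∫ x in K, g (inner ℝ x w) = κ * ∫ t, g t * (volume (slice K w t)).toReal := by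
  obtain ⟨κ, hκ, hvol⟩ := volume_eq_map hw
  refine ⟨κ, by exact_mod_cast hκ, fun K hK g hg hb => ?_⟩
  have hint := slice_aux hw hK hg hb
  have h2 : ∫ p, ((sliceEquiv hw) ⁻¹' K).indicator (fun p => g p.2) p
      ∂((volume : Measure ((ℝ ∙ w)ᗮ : Submodule ℝ (E n))).prod (volume : Measure ℝ))
      = ∫ t, g t * (volume (slice K w t)).toReal := by
    rw [integral_prod_symm _ hint]
    exact integral_congr_ae (Eventually.of_forall fun t => inner_integral hw hK g t)
  constructor
  · have h3 := hint.integral_prod_right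
    refine h3.congr (Eventually.of_forall fun t => ?_)
    exact inner_integral hw hK g t
  · rw [← h2, ← integral_indicator hK.isClosed.measurableSet]
    conv_lhs => rw [hvol]
    rw [integral_smul_nnreal_measure]
    have hme : MeasurableEmbedding (sliceEquiv hw) :=
      (sliceEquiv hw).toHomeomorph.measurableEmbedding
    rw [hme.integral_map]
    have h4 : (fun p => K.indicator (fun x => g (inner ℝ x w)) (sliceEquiv hw p))
        = fun p => ((sliceEquiv hw) ⁻¹' K).indicator (fun p => g p.2) p := by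
      funext p
      by_cases hp : sliceEquiv hw p ∈ K
      · have hp' : p ∈ (sliceEquiv hw) ⁻¹' K := hp
        rw [indicator_of_mem hp, indicator_of_mem hp', sliceEquiv_apply, inner_sliceLin hw]
      · have hp' : p ∉ (sliceEquiv hw) ⁻¹' K := hp
        rw [indicator_of_notMem hp, indicator_of_notMem hp']
    rw [h4]
    rfl

theorem slice_fubini {n : ℕ} {w : E n} (hw : w ≠ 0) :
    ∃ κ : ℝ, 0 < κ ∧ ∀ K : Set (E n), IsCompact K → ∀ g : ℝ → ℝ, Measurable g →
      (∃ C, ∀ t, |g t| ≤ C) →
      ∫ x in K, g (inner ℝ x w) = κ * ∫ t, g t * (volume (slice K w t)).toReal := by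
  obtain ⟨κ, hκ, h⟩ := slice_fubini' hw
  exact ⟨κ, hκ, fun K hK g hg hb => (h K hK g hg hb).2⟩

theorem bddAbove_inner {n : ℕ} (w : E n) {K : Set (E n)} (hK : IsCompact K) :
    BddAbove ((fun x : E n => inner ℝ x w) '' K) :=
  (hK.image (by fun_prop)).bddAbove

theorem inner_le_hi {n : ℕ} (w : E n) {K : Set (E n)} (hK : IsCompact K) {x : E n} (hx : x ∈ K) :
    inner ℝ x w ≤ hi K w :=
  le_csSup (bddAbove_inner w hK) ⟨x, hx, rfl⟩

theorem lo_le_inner {n : ℕ} (w : E n) {K : Set (E n)} (hK : IsCompact K) {x : E n} (hx : x ∈ K) :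
    lo K w ≤ inner ℝ x w := by
  have h := inner_le_hi (-w) hK hx
  rw [inner_neg_right] at h
  rw [lo]
  linarith

/-- `V(t) = κ ∫_{s ≤ t} vol(slice s) ds`. -/
theorem cutPlus_eq {n : ℕ} {w : E n} (hw : w ≠ 0) :
    ∃ κ : ℝ, 0 < κ ∧ ∀ K : Set (E n), IsCompact K →
      (∀ t, cutPlus K w t = κ * ∫ s in Iic t, (volume (slice K w s)).toReal) ∧
      (∀ k : ℕ, ∫ x in K, (inner ℝ x w : ℝ) ^ k = κ * ∫ t, t ^ k * (volume (slice K w t)).toReal) ∧
      Integrable (fun t => (volume (slice K w t)).toReal) ∧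
      (∀ t, t < lo K w → slice K w t = ∅) ∧ (∀ t, hi K w < t → slice K w t = ∅) := by
  obtain ⟨κ, hκ, h⟩ := slice_fubini' hw
  refine ⟨κ, hκ, fun K hK => ?_⟩
  have hlo : ∀ t, t < lo K w → slice K w t = ∅ := by
    intro t ht
    refine eq_empty_of_forall_notMem fun y hy => ?_
    have hy' : sliceEquiv hw (y, t) ∈ K := hy
    have h1 := lo_le_inner w hK hy'
    rw [sliceEquiv_apply, inner_sliceLin hw] at h1
    exact absurd ht (not_lt.2 h1)
  have hhi : ∀ t, hi K w < t → slice K w t = ∅ := by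
    intro t ht
    refine eq_empty_of_forall_notMem fun y hy => ?_
    have hy' : sliceEquiv hw (y, t) ∈ K := hy
    have h1 := inner_le_hi w hK hy'
    rw [sliceEquiv_apply, inner_sliceLin hw] at h1
    exact absurd ht (not_lt.2 h1)
  refine ⟨fun t => ?_, fun k => ?_, ?_, hlo, hhi⟩
  · have h1 := (h K hK ((Iic t).indicator fun _ => 1) (measurable_const.indicator measurableSet_Iic)
      ⟨1, fun s => by
        by_cases hs : s ∈ Iic t
        · rw [indicator_of_mem hs]; simp
        · rw [indicator_of_notMem hs]; simp⟩).2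
    have h2 : ∫ s, (Iic t).indicator (fun _ => (1 : ℝ)) s * (volume (slice K w s)).toReal
        = ∫ s in Iic t, (volume (slice K w s)).toReal := by
      rw [← integral_indicator measurableSet_Iic]
      refine integral_congr_ae (Eventually.of_forall fun s => ?_)
      by_cases hs : s ∈ Iic t
      · simp only [indicator_of_mem hs, one_mul]
      · simp only [indicator_of_notMem hs, zero_mul]
    rw [h2] at h1
    rw [← h1, cutPlus]
    have h3 : (fun x : E n => (Iic t).indicator (fun _ => (1 : ℝ)) (inner ℝ x w))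
        = {x : E n | inner ℝ x w ≤ t}.indicator fun _ => 1 := rfl
    have hms : MeasurableSet {x : E n | inner ℝ x w ≤ t} :=
      (isClosed_le (by fun_prop) continuous_const).measurableSet
    rw [h3, integral_indicator hms, Measure.restrict_restrict hms, setIntegral_const, smul_eq_mul,
      mul_one, inter_comm]
    rfl
  · set R : ℝ := |lo K w| + |hi K w| with hR
    have hg : Measurable ((Icc (-R) R).indicator fun t : ℝ => t ^ k) :=
      (measurable_id.pow_const k).indicator measurableSet_Icc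
    have h1 := (h K hK ((Icc (-R) R).indicator fun t : ℝ => t ^ k) hg ⟨R ^ k, fun s => by
        by_cases hs : s ∈ Icc (-R) R
        · rw [indicator_of_mem hs, abs_pow]
          exact pow_le_pow_left₀ (abs_nonneg s) (abs_le.2 hs) k
        · rw [indicator_of_notMem hs]
          simp only [abs_zero]
          positivity⟩).2
    have hin : ∀ t, t ∉ Icc (-R) R → slice K w t = ∅ := by
      intro t ht
      by_contra hne
      apply ht
      have h4 : ¬ t < lo K w := fun h5 => hne (hlo t h5)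
      have h6 : ¬ hi K w < t := fun h5 => hne (hhi t h5)
      have h7 := neg_abs_le (lo K w)
      have h8 := le_abs_self (hi K w)
      have h9 := abs_nonneg (lo K w)
      have h10 := abs_nonneg (hi K w)
      exact ⟨by linarith, by linarith⟩
    have h2 : ∫ s, (Icc (-R) R).indicator (fun t : ℝ => t ^ k) s * (volume (slice K w s)).toReal
        = ∫ s, s ^ k * (volume (slice K w s)).toReal := by
      refine integral_congr_ae (Eventually.of_forall fun s => ?_)
      by_cases hs : s ∈ Icc (-R) R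
      · simp only [indicator_of_mem hs]
      · simp only [indicator_of_notMem hs, hin s hs, measure_empty, ENNReal.toReal_zero, mul_zero]
    rw [h2] at h1
    rw [← h1]
    refine setIntegral_congr_fun hK.isClosed.measurableSet fun x hx => ?_
    have h3 : (inner ℝ x w : ℝ) ∈ Icc (-R) R := by
      have h4 := lo_le_inner w hK hx
      have h6 := inner_le_hi w hK hx
      have h7 := neg_abs_le (lo K w)
      have h8 := le_abs_self (hi K w)
      have h9 := abs_nonneg (lo K w)
      have h10 := abs_nonneg (hi K w)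
      exact ⟨by linarith, by linarith⟩
    show (inner ℝ x w : ℝ) ^ k = (Icc (-R) R).indicator (fun t : ℝ => t ^ k) (inner ℝ x w)
    rw [indicator_of_mem h3]
  · have h1 := (h K hK (fun _ => 1) measurable_const ⟨1, fun _ => by simp⟩).1
    simpa using h1

end P56acde
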