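import Pool.Agent.Lib.P56acde.Defs

/-! MODULE Tay (Taylor series toolkit; independent). All are standard facts on one-variable analytic functions. -/

open Polynomial Filter Topology

namespace P56acde

theorem tay_congr {z₀ : ℂ} {f g : ℂ → ℂ} (h : f =ᶠ[𝓝 z₀] g) : tay z₀ f = tay z₀ g := by
  unfold tay
  congr 1
  funext n
  rw [h.iteratedDeriv_eq n]

theorem tay_inj {z₀ : ℂ} {f g : ℂ → ℂ} (hf : AnalyticAt ℂ f z₀) (hg : AnalyticAt ℂ g z₀)
    (h : tay z₀ f = tay z₀ g) : f =ᶠ[𝓝 z₀] g := by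
  have h1 := hf.hasFPowerSeriesAt
  have h2 := hg.hasFPowerSeriesAt
  have e : (fun n ↦ iteratedDeriv n f z₀ / (n.factorial : ℂ)) =
      fun n ↦ iteratedDeriv n g z₀ / (n.factorial : ℂ) := by
    funext n
    have := congrArg (PowerSeries.coeff n) h
    simpa [tay] using this
  rw [e] at h1
  filter_upwards [h1.eventually_hasSum_sub, h2.eventually_hasSum_sub] with z hz1 hz2
  exact hz1.unique hz2

theorem tay_add {z₀ : ℂ} {f g : ℂ → ℂ} (hf : AnalyticAt ℂ f z₀) (hg : AnalyticAt ℂ g z₀) :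
    tay z₀ (fun z => f z + g z) = tay z₀ f + tay z₀ g := by
  ext n
  simp only [tay, PowerSeries.coeff_mk, map_add]
  rw [iteratedDeriv_fun_add hf.contDiffAt hg.contDiffAt, add_div]

theorem tay_sub {z₀ : ℂ} {f g : ℂ → ℂ} (hf : AnalyticAt ℂ f z₀) (hg : AnalyticAt ℂ g z₀) :
    tay z₀ (fun z => f z - g z) = tay z₀ f - tay z₀ g := by
  ext n
  simp only [tay, PowerSeries.coeff_mk, map_sub]
  rw [iteratedDeriv_fun_sub hf.contDiffAt hg.contDiffAt, sub_div]

theorem tay_mul {z₀ : ℂ} {f g : ℂ → ℂ} (hf : AnalyticAt ℂ f z₀) (hg : AnalyticAt ℂ g z₀) :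
    tay z₀ (fun z => f z * g z) = tay z₀ f * tay z₀ g := by
  ext n
  rw [PowerSeries.coeff_mul]
  simp only [tay, PowerSeries.coeff_mk]
  rw [iteratedDeriv_fun_mul hf.contDiffAt hg.contDiffAt,
    Finset.Nat.sum_antidiagonal_eq_sum_range_succ
      (fun i j => iteratedDeriv i f z₀ / (i.factorial : ℂ) * (iteratedDeriv j g z₀ / (j.factorial : ℂ))),
    Finset.sum_div]
  refine Finset.sum_congr rfl (fun i hi => ?_)
  have hin : i ≤ n := by
    have := Finset.mem_range.mp hi
    omega
  rw [Nat.cast_choose ℂ hin]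
  have h1 : (n.factorial : ℂ) ≠ 0 := by exact_mod_cast n.factorial_ne_zero
  have h2 : (i.factorial : ℂ) ≠ 0 := by exact_mod_cast i.factorial_ne_zero
  have h3 : ((n - i).factorial : ℂ) ≠ 0 := by exact_mod_cast (n - i).factorial_ne_zero
  field_simp

theorem tay_zero (z₀ : ℂ) : tay z₀ (fun _ => 0) = 0 := by
  ext n
  simp [tay]

theorem TayAux.tay_const (z₀ c : ℂ) : tay z₀ (fun _ => c) = PowerSeries.C c := by
  ext n
  simp only [tay, PowerSeries.coeff_mk, PowerSeries.coeff_C]
  rw [iteratedDeriv_const]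
  split_ifs with h
  · subst h; simp
  · simp

theorem TayAux.tay_id (z₀ : ℂ) : tay z₀ (fun z => z) = PowerSeries.X + PowerSeries.C z₀ := by
  ext n
  simp only [tay, PowerSeries.coeff_mk, PowerSeries.coeff_C, map_add, PowerSeries.coeff_X]
  rw [iteratedDeriv_fun_id]
  rcases n with _ | _ | n
  · simp
  · simp
  · simp

theorem tay_sum {z₀ : ℂ} {ι : Type} (s : Finset ι) {f : ι → ℂ → ℂ} (hf : ∀ i ∈ s, AnalyticAt ℂ (f i) z₀) :
    tay z₀ (fun z => ∑ i ∈ s, f i z) = ∑ i ∈ s, tay z₀ (f i) := by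
  ext n
  simp only [tay, PowerSeries.coeff_mk, map_sum]
  rw [iteratedDeriv_fun_sum (fun i hi => (hf i hi).contDiffAt), Finset.sum_div]

theorem TayAux.sh_C (z₀ c : ℂ) : sh z₀ (C c) = PowerSeries.C c := by
  simp [sh]

theorem TayAux.sh_X (z₀ : ℂ) : sh z₀ X = PowerSeries.X + PowerSeries.C z₀ := by
  simp [sh]

theorem TayAux.analyticAt_poly (z₀ : ℂ) (p : ℂ[X]) : AnalyticAt ℂ (fun z => p.eval z) z₀ := by
  have h : Differentiable ℂ (fun z => p.eval z) := p.differentiable
  exact h.analyticAt z₀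

theorem tay_poly (z₀ : ℂ) (p : ℂ[X]) : tay z₀ (fun z => p.eval z) = sh z₀ p := by
  induction p using Polynomial.induction_on with
  | C c => simp only [eval_C, TayAux.tay_const, TayAux.sh_C]
  | add p q hp hq =>
    simp only [eval_add, map_add]
    rw [tay_add (TayAux.analyticAt_poly z₀ p) (TayAux.analyticAt_poly z₀ q), hp, hq]
  | monomial n c h =>
    have e1 : (fun z : ℂ => (C c * X ^ (n + 1)).eval z) =
        fun z => (C c * X ^ n).eval z * z := by
      funext z
      simp [pow_succ, mul_assoc]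
    have hid : AnalyticAt ℂ (fun z : ℂ => z) z₀ := analyticAt_id
    rw [e1, tay_mul (TayAux.analyticAt_poly z₀ _) hid, h, TayAux.tay_id, ← TayAux.sh_X, ← map_mul, pow_succ, mul_assoc]

theorem tay_deriv {z₀ : ℂ} {f : ℂ → ℂ} : tay z₀ (deriv f) = dX (tay z₀ f) := by
  ext n
  simp only [dX]
  rw [PowerSeries.coeff_derivative]
  simp only [tay, PowerSeries.coeff_mk]
  rw [iteratedDeriv_succ', Nat.factorial_succ]
  have h1 : (n.factorial : ℂ) ≠ 0 := by exact_mod_cast n.factorial_ne_zero
  have h2 : ((n : ℂ) + 1) ≠ 0 := by exact_mod_cast n.succ_ne_zero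
  push_cast
  field_simp

theorem tay_iteratedDeriv {z₀ : ℂ} {f : ℂ → ℂ} (j : ℕ) :
    tay z₀ (iteratedDeriv j f) = dX^[j] (tay z₀ f) := by
  induction j with
  | zero => simp
  | succ j ih => rw [iteratedDeriv_succ, tay_deriv, ih, Function.iterate_succ_apply']

/-- Formal evaluation of a two-variable polynomial `P(t,v)` at an analytic function. -/
theorem tay_evalEval {z₀ : ℂ} {f : ℂ → ℂ} (hf : AnalyticAt ℂ f z₀) (P : ℂ[X][X]) :
    tay z₀ (fun z => evalEval z (f z) P) = (P.map (sh z₀)).eval (tay z₀ f) := by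
  have han : ∀ P : ℂ[X][X], AnalyticAt ℂ (fun z => evalEval z (f z) P) z₀ := by
    intro P
    induction P using Polynomial.induction_on with
    | C c =>
      simp only [evalEval_C]
      exact TayAux.analyticAt_poly z₀ c
    | add p q hp hq =>
      simp only [evalEval_add]
      exact hp.add hq
    | monomial n c h =>
      have e1 : (fun z : ℂ => evalEval z (f z) (C c * X ^ (n + 1))) =
          fun z => evalEval z (f z) (C c * X ^ n) * f z := by
        funext z
        simp only [evalEval_mul, evalEval_C, evalEval_pow, evalEval_X]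
        ring
      rw [e1]
      exact h.mul hf
  induction P using Polynomial.induction_on with
  | C c =>
    simp only [evalEval_C, Polynomial.map_C, eval_C]
    exact tay_poly z₀ c
  | add p q hp hq =>
    simp only [evalEval_add, Polynomial.map_add, eval_add]
    rw [tay_add (han p) (han q), hp, hq]
  | monomial n c h =>
    have e1 : (fun z : ℂ => evalEval z (f z) (C c * X ^ (n + 1))) =
        fun z => evalEval z (f z) (C c * X ^ n) * f z := by
      funext z
      simp only [evalEval_mul, evalEval_C, evalEval_pow, evalEval_X]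
      ring
    rw [e1, tay_mul (han _) hf, h]
    simp only [Polynomial.map_mul, Polynomial.map_C, Polynomial.map_pow, Polynomial.map_X, eval_mul,
      eval_C, eval_pow, eval_X]
    ring

/-- Coefficientwise field automorphism. -/
theorem sh_map (σ : ℂ ≃+* ℂ) (τ : ℂ) (p : ℂ[X]) :
    PowerSeries.map (σ : ℂ →+* ℂ) (sh τ p) = sh (σ τ) (p.map (σ : ℂ →+* ℂ)) := by
  induction p using Polynomial.induction_on with
  | C c => simp [TayAux.sh_C]
  | add p q hp hq => simp only [map_add, Polynomial.map_add, hp, hq]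
  | monomial n c h =>
    have e1 : (C c * X ^ (n + 1) : ℂ[X]) = (C c * X ^ n) * X := by rw [pow_succ, mul_assoc]
    have e2 : PowerSeries.map (σ : ℂ →+* ℂ) (sh τ X) = sh (σ τ) (X.map (σ : ℂ →+* ℂ)) := by
      rw [Polynomial.map_X, TayAux.sh_X, TayAux.sh_X]
      simp
    rw [e1, Polynomial.map_mul, map_mul (sh τ), map_mul (PowerSeries.map (σ : ℂ →+* ℂ)), h, e2,
      map_mul (sh (σ τ))]

theorem dX_map (σ : ℂ ≃+* ℂ) (f : PowerSeries ℂ) :
    PowerSeries.map (σ : ℂ →+* ℂ) (dX f) = dX (PowerSeries.map (σ : ℂ →+* ℂ) f) := by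
  ext n
  simp only [dX]
  rw [PowerSeries.coeff_derivative, PowerSeries.coeff_map, PowerSeries.coeff_derivative,
    PowerSeries.coeff_map]
  simp

end P56acde
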