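import Pool.Agent.Lib.P56acde.GaugeSm

/-! MODULE VolSm (uses `gauge_smooth`): smooth dependence of the volume of a family of convex sets.
PROOF. `g(y,δ) = gauge (S δ) y` is `C^∞` at `(y,δ₀)` for all `y ≠ 0` (scale `y` to gauge `1`, `gauge_smooth`).
Let `φ : ℝ → ℝ` be a smooth bump supported in `(1/2,2)`, `φ ≥ 0`, `φ ≠ 0`.  Because `μ {g ≤ s} = s^m μ(S δ)` (`m = finrank`),
`∫ φ(g(y,δ)) dμ(y) = κ μ(S δ)` with `κ = ∫ φ(s) m s^{m-1} ds > 0` (layer cake, or compare the two measures on `ℝ`).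
The integrand is `C^∞` near every `(y,δ₀)` (it vanishes near `y = 0`: `g ≤ |y|/a`) and vanishes for `|y| > 2b`; by compactness, for every
finite `N` it is `C^N` on `F × (δ₀-ε,δ₀+ε)`; `contDiffOn_convolution_right_with_param` (convolution of the constant `1` with
`g`, evaluated at `0`) gives smoothness of the integral.  If `m = 0` everything is constant. -/

open Set Filter Topology MeasureTheory
open scoped Pointwise

namespace P56acde

/-- the measure of the sublevel sets of the gauge -/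
private lemma measure_gauge_lt {F : Type} [NormedAddCommGroup F] [NormedSpace ℝ F]
    [FiniteDimensional ℝ F] [MeasurableSpace F] [BorelSpace F] (μ : Measure F) [μ.IsAddHaarMeasure]
    {S : Set F} (hc : Convex ℝ S) (h0 : S ∈ 𝓝 (0 : F)) {s : ℝ} (hs : 0 < s) :
    μ {y | gauge S y < s} = ENNReal.ofReal (s ^ Module.finrank ℝ F) * μ S := by
  have h1 : {y | gauge S y < s} = s • interior S := by
    ext y
    rw [mem_smul_set_iff_inv_smul_mem₀ hs.ne', ← gauge_lt_one_iff_mem_interior hc h0,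
      gauge_smul_of_nonneg (inv_nonneg.2 hs.le), smul_eq_mul, mem_ofPred_eq, inv_mul_lt_iff₀ hs,
      mul_one]
  rw [h1, Measure.addHaar_smul, abs_of_nonneg (by positivity)]
  congr 1
  refine le_antisymm (measure_mono interior_subset) ?_
  calc μ S ≤ μ (interior S ∪ frontier S) := by
        apply measure_mono
        intro x hx
        by_cases hxi : x ∈ interior S
        · exact Or.inl hxi
        · exact Or.inr ⟨subset_closure hx, hxi⟩
    _ ≤ μ (interior S) + μ (frontier S) := measure_union_le _ _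
    _ = μ (interior S) := by rw [Convex.addHaar_frontier μ hc, add_zero]

private lemma measure_gauge_lt_nonpos {F : Type} [NormedAddCommGroup F] [NormedSpace ℝ F]
    [MeasurableSpace F] (μ : Measure F)
    {S : Set F} {s : ℝ} (hs : s ≤ 0) :
    μ {y | gauge S y < s} = 0 := by
  have : {y | gauge S y < s} = ∅ := by
    ext y
    simp only [mem_ofPred_eq, mem_empty_iff_false, iff_false, not_lt]
    exact hs.trans (gauge_nonneg _)
  rw [this, measure_empty]

/-- comparison of the push-forward measures -/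
private lemma integral_gauge {F : Type} [NormedAddCommGroup F] [NormedSpace ℝ F]
    [FiniteDimensional ℝ F] [MeasurableSpace F] [BorelSpace F] (μ : Measure F) [μ.IsAddHaarMeasure]
    {S : Set F} (hc : Convex ℝ S) (h0 : S ∈ 𝓝 (0 : F)) (hfin : μ S ≠ ⊤)
    {T : Set F} (hcT : Convex ℝ T) (h0T : T ∈ 𝓝 (0 : F)) (hfinT : μ T ≠ ⊤) (φ : ℝ → ℝ)
    (hφ : Continuous φ) :
    (∫ y, φ (gauge S y) ∂μ) * (μ T).toReal = (∫ y, φ (gauge T y) ∂μ) * (μ S).toReal := by
  have hmS : Measurable (gauge S) := (continuous_gauge hc h0).measurable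
  have hmT : Measurable (gauge T) := (continuous_gauge hcT h0T).measurable
  have hI : ∀ s : ℝ, (μ {y | gauge S y < s}) * μ T = μ {y | gauge T y < s} * μ S := by
    intro s
    rcases le_or_gt s 0 with hs | hs
    · rw [measure_gauge_lt_nonpos μ hs, measure_gauge_lt_nonpos μ hs]; simp
    · rw [measure_gauge_lt μ hc h0 hs, measure_gauge_lt μ hcT h0T hs]; ring
  have hfinS' : ∀ s : ℝ, μ {y | gauge S y < s} ≠ ⊤ := by
    intro s
    rcases le_or_gt s 0 with hs | hs
    · rw [measure_gauge_lt_nonpos μ hs]; simp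
    · rw [measure_gauge_lt μ hc h0 hs]; exact ENNReal.mul_ne_top ENNReal.ofReal_ne_top hfin
  have hfinT' : ∀ s : ℝ, μ {y | gauge T y < s} ≠ ⊤ := by
    intro s
    rcases le_or_gt s 0 with hs | hs
    · rw [measure_gauge_lt_nonpos μ hs]; simp
    · rw [measure_gauge_lt μ hcT h0T hs]; exact ENNReal.mul_ne_top ENNReal.ofReal_ne_top hfinT
  have key : (μ T) • (μ.map (gauge S)) = (μ S) • (μ.map (gauge T)) := by
    have hval : ∀ a b : ℝ, a < b → (μ.map (gauge S)) (Ico a b) =
        μ {y | gauge S y < b} - μ {y | gauge S y < a} := by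
      intro a b hab
      rw [Measure.map_apply hmS measurableSet_Ico]
      have : gauge S ⁻¹' Ico a b = {y | gauge S y < b} \ {y | gauge S y < a} := by
        ext y; simp only [mem_preimage, mem_Ico, Set.mem_sdiff, mem_ofPred_eq, not_lt]; tauto
      rw [this, measure_sdiff (show {y | gauge S y < a} ⊆ {y | gauge S y < b} from
        fun y hy => lt_trans (show gauge S y < a from hy) hab)
        (measurableSet_lt hmS measurable_const).nullMeasurableSet (hfinS' a)]
    have hvalT : ∀ a b : ℝ, a < b → (μ.map (gauge T)) (Ico a b) =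
        μ {y | gauge T y < b} - μ {y | gauge T y < a} := by
      intro a b hab
      rw [Measure.map_apply hmT measurableSet_Ico]
      have : gauge T ⁻¹' Ico a b = {y | gauge T y < b} \ {y | gauge T y < a} := by
        ext y; simp only [mem_preimage, mem_Ico, Set.mem_sdiff, mem_ofPred_eq, not_lt]; tauto
      rw [this, measure_sdiff (show {y | gauge T y < a} ⊆ {y | gauge T y < b} from
        fun y hy => lt_trans (show gauge T y < a from hy) hab)
        (measurableSet_lt hmT measurable_const).nullMeasurableSet (hfinT' a)]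
    refine Measure.ext_of_Ico' _ _ ?_ ?_
    · intro a b hab
      rw [Measure.smul_apply, smul_eq_mul, hval a b hab]
      exact ENNReal.mul_ne_top hfinT (ENNReal.sub_ne_top (hfinS' b))
    · intro a b hab
      rw [Measure.smul_apply, Measure.smul_apply, smul_eq_mul, smul_eq_mul, hval a b hab,
        hvalT a b hab, mul_comm (μ T), mul_comm (μ S), ENNReal.sub_mul (fun _ _ => hfinT),
        ENNReal.sub_mul (fun _ _ => hfin), hI a, hI b]
  have e1 : ∫ y, φ (gauge S y) ∂μ = ∫ s, φ s ∂(μ.map (gauge S)) :=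
    (integral_map hmS.aemeasurable hφ.aestronglyMeasurable).symm
  have e2 : ∫ y, φ (gauge T y) ∂μ = ∫ s, φ s ∂(μ.map (gauge T)) :=
    (integral_map hmT.aemeasurable hφ.aestronglyMeasurable).symm
  rw [e1, e2]
  have e3 := congrArg (fun ν : Measure ℝ => ∫ s, φ s ∂ν) key
  simp only [integral_smul_measure, smul_eq_mul] at e3
  rw [mul_comm, e3, mul_comm]

theorem vol_smooth {F : Type} [NormedAddCommGroup F] [NormedSpace ℝ F] [FiniteDimensional ℝ F]
    [MeasurableSpace F] [BorelSpace F] (μ : Measure F) [μ.IsAddHaarMeasure]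
    (S : ℝ → Set F) (δ₀ a b : ℝ) (ha : 0 < a)
    (hconv : ∀ᶠ δ in 𝓝 δ₀, Convex ℝ (S δ) ∧ Metric.closedBall (0 : F) a ⊆ S δ ∧
      S δ ⊆ Metric.closedBall (0 : F) b)
    (hloc : ∀ Y₀ : F, gauge (S δ₀) Y₀ = 1 → ∃ ρ : F × ℝ → ℝ, ContDiffAt ℝ (⊤ : ℕ∞) ρ (Y₀, δ₀) ∧
      ρ (Y₀, δ₀) = 0 ∧ 0 < fderiv ℝ ρ (Y₀, δ₀) (Y₀, 0) ∧
      ∀ᶠ q in 𝓝 (Y₀, δ₀), (q.1 ∈ S q.2 ↔ ρ q ≤ 0)) :
    ContDiffAt ℝ (⊤ : ℕ∞) (fun δ => (μ (S δ)).toReal) δ₀ := by
  classical
  rcases subsingleton_or_nontrivial F with hF | hF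
  · -- constant
    have h : (fun δ => (μ (S δ)).toReal) =ᶠ[𝓝 δ₀] fun _ => (μ (univ : Set F)).toReal := by
      filter_upwards [hconv] with δ hδ
      have : S δ = univ := by
        apply eq_univ_of_forall
        intro y
        rw [Subsingleton.elim y 0]
        exact hδ.2.1 (Metric.mem_closedBall_self ha.le)
      rw [this]
    exact contDiffAt_const.congr_of_eventuallyEq h
  -- basic facts
  have hnhds : ∀ δ, (Metric.closedBall (0 : F) a ⊆ S δ) → S δ ∈ 𝓝 (0 : F) := fun δ h =>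
    mem_of_superset (Metric.closedBall_mem_nhds 0 ha) h
  have hupper : ∀ δ, (Metric.closedBall (0 : F) a ⊆ S δ) → ∀ y, gauge (S δ) y ≤ ‖y‖ / a := by
    intro δ h y
    have h2 : a * gauge (S δ) y ≤ ‖y‖ := mul_gauge_le_norm (Metric.ball_subset_closedBall.trans h)
    rw [le_div_iff₀ ha]; linarith
  have hb : 0 < b := by
    obtain ⟨δ, hδ⟩ := hconv.exists
    obtain ⟨y, hy⟩ := exists_ne (0 : F)
    have hy' : 0 < ‖y‖ := norm_pos_iff.2 hy
    have h1 : (a / ‖y‖) • y ∈ Metric.closedBall (0 : F) a := by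
      rw [mem_closedBall_zero_iff, norm_smul, Real.norm_of_nonneg (by positivity),
        div_mul_cancel₀ _ hy'.ne']
    have h2 := hδ.2.2 (hδ.2.1 h1)
    rw [mem_closedBall_zero_iff, norm_smul, Real.norm_of_nonneg (by positivity),
      div_mul_cancel₀ _ hy'.ne'] at h2
    linarith
  have hlower : ∀ δ, (Metric.closedBall (0 : F) a ⊆ S δ) → S δ ⊆ Metric.closedBall (0 : F) b →
      ∀ y, ‖y‖ / b ≤ gauge (S δ) y := by
    intro δ h h' y
    rw [← gauge_closedBall hb.le]
    exact gauge_mono (absorbent_nhds_zero (hnhds δ h)) h' y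
  have hS₀ := hconv.self_of_nhds
  -- the gauge is smooth away from zero
  have hsm : ∀ y : F, y ≠ 0 →
      ContDiffAt ℝ (⊤ : ℕ∞) (fun q : F × ℝ => gauge (S q.2) q.1) (y, δ₀) := by
    intro y hy
    have hs : 0 < gauge (S δ₀) y :=
      lt_of_lt_of_le (div_pos (norm_pos_iff.2 hy) hb) (hlower δ₀ hS₀.2.1 hS₀.2.2 y)
    set s := gauge (S δ₀) y with hsdef
    have hY : gauge (S δ₀) (s⁻¹ • y) = 1 := by
      rw [gauge_smul_of_nonneg (inv_nonneg.2 hs.le), smul_eq_mul, ← hsdef, inv_mul_cancel₀ hs.ne']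
    obtain ⟨ρ, h1, h2, h3, h4⟩ := hloc _ hY
    have h5 := gauge_smooth S δ₀ a ha (hconv.mono fun δ h => ⟨h.1, h.2.1⟩)
      (Y₀ := s⁻¹ • y) (smul_ne_zero (inv_ne_zero hs.ne') hy) ρ h1 h2 h3 h4
    have h6 : ContDiffAt ℝ (⊤ : ℕ∞) (fun q : F × ℝ => (s⁻¹ • q.1, q.2)) (y, δ₀) :=
      (contDiffAt_fst.const_smul s⁻¹).prodMk contDiffAt_snd
    have h7 : ContDiffAt ℝ (⊤ : ℕ∞)
        (fun q : F × ℝ => gauge (S q.2) (s⁻¹ • q.1)) (y, δ₀) :=
      ContDiffAt.comp (g := fun q : F × ℝ => gauge (S q.2) q.1)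
        (f := fun q : F × ℝ => (s⁻¹ • q.1, q.2)) (y, δ₀) h5 h6
    have h8 : (fun q : F × ℝ => gauge (S q.2) q.1) =
        fun q : F × ℝ => s * gauge (S q.2) (s⁻¹ • q.1) := by
      funext q
      rw [gauge_smul_of_nonneg (inv_nonneg.2 hs.le), smul_eq_mul, mul_inv_cancel_left₀ hs.ne']
    rw [h8]
    exact contDiffAt_const.mul h7
  -- the bump
  let f : ContDiffBump (5 / 4 : ℝ) := ⟨1 / 4, 3 / 4, by norm_num, by norm_num⟩
  have hf0 : ∀ s : ℝ, s ≤ 1 / 2 → f s = 0 := by
    intro s hs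
    apply f.zero_of_le_dist
    show (3 / 4 : ℝ) ≤ _
    rw [Real.dist_eq, abs_sub_comm, abs_of_nonneg (by linarith)]; linarith
  have hf2 : ∀ s : ℝ, 2 ≤ s → f s = 0 := by
    intro s hs
    apply f.zero_of_le_dist
    show (3 / 4 : ℝ) ≤ _
    rw [Real.dist_eq, abs_of_nonneg (by linarith)]; linarith
  have hf1 : f 1 = 1 := by
    apply f.one_of_mem_closedBall
    rw [Metric.mem_closedBall, Real.dist_eq]
    show _ ≤ (1 / 4 : ℝ)
    rw [abs_sub_comm, abs_of_nonneg (by norm_num)]; norm_num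
  -- the integrand is smooth at every (y, δ₀)
  have hG : ∀ y : F, ContDiffAt ℝ (⊤ : ℕ∞) (fun q : F × ℝ => f (gauge (S q.2) q.1)) (y, δ₀) := by
    intro y
    rcases eq_or_ne y 0 with rfl | hy
    · have h : (fun q : F × ℝ => f (gauge (S q.2) q.1)) =ᶠ[𝓝 ((0 : F), δ₀)] fun _ => (0 : ℝ) := by
        have h1 : ∀ᶠ q : F × ℝ in 𝓝 ((0 : F), δ₀), q.1 ∈ Metric.ball (0 : F) (a / 2) :=
          (continuousAt_fst : ContinuousAt Prod.fst ((0 : F), δ₀)).eventually
            (Metric.ball_mem_nhds (0 : F) (by positivity : 0 < a / 2))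
        have h2 : ∀ᶠ q : F × ℝ in 𝓝 ((0 : F), δ₀), Metric.closedBall (0 : F) a ⊆ S q.2 :=
          (continuousAt_snd : ContinuousAt Prod.snd ((0 : F), δ₀)).eventually
            (hconv.mono fun δ h => h.2.1)
        filter_upwards [h1, h2] with q hq1 hq2
        apply hf0
        refine (hupper _ hq2 _).trans ?_
        rw [mem_ball_zero_iff] at hq1
        rw [div_le_iff₀ ha]; linarith
      exact contDiffAt_const.congr_of_eventuallyEq h
    · have hfc : ContDiff ℝ (⊤ : ℕ∞) (f : ℝ → ℝ) := f.contDiff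
      exact ContDiffAt.comp (g := (f : ℝ → ℝ)) (f := fun q : F × ℝ => gauge (S q.2) q.1) (y, δ₀)
        hfc.contDiffAt (hsm y hy)
  -- the reference constant
  have hcfin : ∀ δ, S δ ⊆ Metric.closedBall (0 : F) b → μ (S δ) ≠ ⊤ := fun δ h =>
    ((measure_mono h).trans_lt measure_closedBall_lt_top).ne
  set I : ℝ → ℝ := fun δ => ∫ y, f (gauge (S δ) y) ∂μ with hI
  have hIpos : 0 < I δ₀ := by
    have hcont : Continuous (fun y => f (gauge (S δ₀) y)) :=
      f.contDiff (n := 0) |>.continuous.comp (continuous_gauge hS₀.1 (hnhds _ hS₀.2.1))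
    obtain ⟨y, hy⟩ := exists_ne (0 : F)
    have hs : 0 < gauge (S δ₀) y :=
      lt_of_lt_of_le (div_pos (norm_pos_iff.2 hy) hb) (hlower δ₀ hS₀.2.1 hS₀.2.2 y)
    have hY : gauge (S δ₀) ((gauge (S δ₀) y)⁻¹ • y) = 1 := by
      rw [gauge_smul_of_nonneg (inv_nonneg.2 hs.le), smul_eq_mul, inv_mul_cancel₀ hs.ne']
    refine Continuous.integral_pos_of_hasCompactSupport_nonneg_nonzero
      (x := (gauge (S δ₀) y)⁻¹ • y) hcont ?_ (fun y => f.nonneg) ?_
    · refine HasCompactSupport.intro (isCompact_closedBall (0 : F) (2 * b)) ?_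
      intro z hz
      apply hf2
      rw [mem_closedBall_zero_iff, not_le] at hz
      refine le_trans ?_ (hlower δ₀ hS₀.2.1 hS₀.2.2 z)
      rw [le_div_iff₀ hb]; exact hz.le
    · rw [hY, hf1]; norm_num
  -- relation between I and the volume
  have hrel : ∀ᶠ δ in 𝓝 δ₀, (μ (S δ)).toReal = I δ * ((μ (S δ₀)).toReal / I δ₀) := by
    filter_upwards [hconv] with δ hδ
    have h := integral_gauge μ hδ.1 (hnhds _ hδ.2.1) (hcfin _ hδ.2.2) hS₀.1 (hnhds _ hS₀.2.1)
      (hcfin _ hS₀.2.2) f f.continuous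
    rw [← mul_div_assoc, eq_div_iff hIpos.ne', mul_comm]
    exact h.symm
  have hgoal : ContDiffAt ℝ (⊤ : ℕ∞) I δ₀ := by
    rw [contDiffAt_infty]
    intro N
    -- tube
    obtain ⟨Ω, hΩo, hΩ, hΩ'⟩ : ∃ Ω : Set (F × ℝ), IsOpen Ω ∧ (∀ q ∈ Ω,
        ContDiffAt ℝ N (fun q : F × ℝ => f (gauge (S q.2) q.1)) q) ∧
        Metric.closedBall (0 : F) (2 * b) ×ˢ {δ₀} ⊆ Ω := by
      refine ⟨{q | ∀ᶠ q' in 𝓝 q, ContDiffAt ℝ N (fun q : F × ℝ => f (gauge (S q.2) q.1)) q'},
        isOpen_setOfPred_eventually_nhds, fun q hq => hq.self_of_nhds, ?_⟩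
      rintro ⟨y, δ⟩ ⟨hy, hδ⟩
      rw [mem_singleton_iff] at hδ
      subst hδ
      have h1 : ContDiffAt ℝ N (fun q : F × ℝ => f (gauge (S q.2) q.1)) (y, δ) :=
        (hG y).of_le (by exact_mod_cast le_top)
      exact h1.eventually (by exact_mod_cast WithTop.natCast_ne_top N)
    obtain ⟨u, v, hu, hv, hu', hv', huv⟩ := generalized_tube_lemma
      (isCompact_closedBall (0 : F) (2 * b)) isCompact_singleton hΩo hΩ'
    obtain ⟨w, hw, hwo, hδw⟩ := mem_nhds_iff.1 hconv
    set s : Set ℝ := v ∩ w with hs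
    have hso : IsOpen s := hv.inter hwo
    have hδs : δ₀ ∈ s := ⟨hv' rfl, hδw⟩
    have hzero : ∀ (p : ℝ) (x : F), p ∈ s → x ∉ Metric.closedBall (0 : F) (2 * b) →
        f (gauge (S p) (-x)) = 0 := by
      intro p x hp hx
      have hp' := hw hp.2
      apply hf2
      rw [mem_closedBall_zero_iff, not_le] at hx
      refine le_trans ?_ (hlower p hp'.2.1 hp'.2.2 (-x))
      rw [norm_neg, le_div_iff₀ hb]; exact hx.le
    have hg : ContDiffOn ℝ N (fun q : ℝ × F => f (gauge (S q.1) (-q.2))) (s ×ˢ univ) := by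
      rintro ⟨p, x⟩ ⟨hp, -⟩
      apply ContDiffAt.contDiffWithinAt
      by_cases hx : x ∈ Metric.closedBall (0 : F) (2 * b)
      · have hx' : -x ∈ Metric.closedBall (0 : F) (2 * b) := by
          rw [mem_closedBall_zero_iff] at hx ⊢; rwa [norm_neg]
        have h1 := hΩ (-x, p) (huv ⟨hu' hx', hp.1⟩)
        have h2 : ContDiffAt ℝ N (fun q : ℝ × F => (-q.2, q.1)) (p, x) :=
          contDiffAt_snd.neg.prodMk contDiffAt_fst
        exact ContDiffAt.comp (g := fun q : F × ℝ => f (gauge (S q.2) q.1))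
          (f := fun q : ℝ × F => (-q.2, q.1)) (p, x) h1 h2
      · have h : (fun q : ℝ × F => f (gauge (S q.1) (-q.2))) =ᶠ[𝓝 (p, x)] fun _ => (0 : ℝ) := by
          have h1 : ∀ᶠ q : ℝ × F in 𝓝 (p, x), q.1 ∈ s :=
            (continuousAt_fst : ContinuousAt Prod.fst (p, x)).eventually (hso.mem_nhds hp)
          have h2 : ∀ᶠ q : ℝ × F in 𝓝 (p, x), q.2 ∈ (Metric.closedBall (0 : F) (2 * b))ᶜ :=
            (continuousAt_snd : ContinuousAt Prod.snd (p, x)).eventually
              (Metric.isClosed_closedBall.isOpen_compl.mem_nhds hx)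
          filter_upwards [h1, h2] with q hq1 hq2
          exact hzero _ _ hq1 hq2
        exact contDiffAt_const.congr_of_eventuallyEq h
    have hconvol := contDiffOn_convolution_right_with_param (𝕜 := ℝ) (μ := μ) (n := (N : ℕ∞))
      (f := fun _ : F => (1 : ℝ)) (ContinuousLinearMap.mul ℝ ℝ)
      (g := fun (p : ℝ) (x : F) => f (gauge (S p) (-x))) hso
      (isCompact_closedBall (0 : F) (2 * b)) hzero (locallyIntegrable_const _)
      (by simpa [Function.HasUncurry.uncurry, Function.uncurry] using hg)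
    have h1 := (hconvol (δ₀, 0) ⟨hδs, mem_univ _⟩).contDiffAt
      ((hso.prod isOpen_univ).mem_nhds ⟨hδs, mem_univ _⟩)
    have h2 : ContDiffAt ℝ N (fun δ : ℝ => (δ, (0 : F))) δ₀ := contDiffAt_id.prodMk contDiffAt_const
    have h3 := ContDiffAt.comp (g := fun q : ℝ × F => convolution (fun _ : F => (1 : ℝ))
      ((fun (p : ℝ) (x : F) => f (gauge (S p) (-x))) q.1) (ContinuousLinearMap.mul ℝ ℝ) μ q.2)
      δ₀ h1 h2
    convert h3 using 1
    funext δ
    simp only [hI, Function.comp_apply, convolution_def, ContinuousLinearMap.mul_apply', one_mul,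
      zero_sub, neg_neg]
  exact (hgoal.mul contDiffAt_const).congr_of_eventuallyEq hrel

end P56acde
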